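import Pool.Agent.Lib_MP_1fe18a_an.Defs

/-! Piece I2: algebraic identities. -/

set_option autoImplicit false

open Complex Set Filter Topology MeasureTheory

namespace Pool.Agent.JohnC

noncomputable section

theorem alg_norm_sq (z : ℂ) : ‖z‖ ^ 2 = z.re ^ 2 + z.im ^ 2 := by
  rw [← Complex.normSq_eq_norm_sq, Complex.normSq_apply]
  ring

theorem alg_aux_sq (e j : ℂ) (R : ℝ) (hR : ‖e‖ = R) :
    ‖e + j * (R - e)‖ ^ 2 = R ^ 2 + 2 * (e.re * (j * (R - e)).re + e.im * (j * (R - e)).im)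
      + ‖j‖ ^ 2 * (2 * R * (R - e.re)) := by
  have he : e.re ^ 2 + e.im ^ 2 = R ^ 2 := by rw [← alg_norm_sq, hR]
  rw [alg_norm_sq, alg_norm_sq]
  simp only [Complex.add_re, Complex.add_im, Complex.mul_re, Complex.mul_im, Complex.sub_re,
    Complex.sub_im, Complex.ofReal_re, Complex.ofReal_im]
  linear_combination (1 + j.re ^ 2 + j.im ^ 2) * he

theorem al_identity (e j : ℂ) (R c0 t' μ : ℝ) (hR : ‖e‖ = R) (hR0 : 0 < R) :
    c0 * (e.re - 1) + e.re + t' * (R - e.re) + (j * (R - e)).re - μ * ‖e + j * (R - e)‖ =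
      c0 * (R - 1) + R * (1 - μ ^ 2) / 2 + (t' + 2 * j.re - ‖j‖ ^ 2 - 1 - c0) * (R - e.re)
        + R * (‖e + j * (R - e)‖ / R - μ) ^ 2 / 2 := by
  have he : e.re ^ 2 + e.im ^ 2 = R ^ 2 := by rw [← alg_norm_sq, hR]
  have h1 := alg_aux_sq e j R hR
  generalize ‖e + j * (R - e)‖ = n at h1 ⊢
  generalize ‖j‖ ^ 2 = jj at h1 ⊢
  simp only [Complex.mul_re, Complex.mul_im, Complex.sub_re,
    Complex.sub_im, Complex.ofReal_re, Complex.ofReal_im] at h1 ⊢
  have hR' : R ≠ 0 := hR0.ne'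
  field_simp
  linear_combination (-1) * h1 + (2 * j.re) * he

theorem al_lower (e j : ℂ) (R κ μ : ℝ) (hR : ‖e‖ = R) (hR0 : 0 < R) (hμ : 0 ≤ μ)
    (hκ : 0.7 * ‖j‖ ^ 2 ≤ κ) :
    R * (7 / 34 * (max 0 (1 - μ)) ^ 2) ≤
      κ * (R - e.re) + R * (‖e + j * (R - e)‖ / R - μ) ^ 2 / 2 := by
  have he : e.re ^ 2 + e.im ^ 2 = R ^ 2 := by rw [← alg_norm_sq, hR]
  have hre : e.re ≤ R := by rw [← hR]; exact Complex.re_le_norm e
  have hd : ‖(R : ℂ) - e‖ ^ 2 = 2 * R * (R - e.re) := by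
    rw [alg_norm_sq]
    simp only [Complex.sub_re, Complex.sub_im, Complex.ofReal_re, Complex.ofReal_im]
    linear_combination he
  have hn : R - ‖j‖ * ‖(R : ℂ) - e‖ ≤ ‖e + j * (R - e)‖ := by
    have := norm_sub_norm_le e (-(j * ((R : ℂ) - e)))
    rw [norm_neg, norm_mul, hR, sub_neg_eq_add] at this
    exact this
  generalize ‖e + j * (R - e)‖ = n at hn ⊢
  have hd0 : 0 ≤ ‖(R : ℂ) - e‖ := norm_nonneg _
  have hj0 : 0 ≤ ‖j‖ := norm_nonneg _
  generalize ‖(R : ℂ) - e‖ = d at hd hn hd0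
  generalize ‖j‖ = J at hκ hn hj0
  have h2 : R - e.re = d ^ 2 / (2 * R) := by
    field_simp
    linarith
  set u : ℝ := J * d / R with hu
  have hu0 : 0 ≤ u := by positivity
  have hJd : J * d = u * R := by rw [hu]; field_simp
  have h3 : R * (0.35 * u ^ 2) ≤ κ * (R - e.re) := by
    have h4 : R * (0.35 * u ^ 2) = 0.7 * J ^ 2 * (R - e.re) := by
      rw [h2, hu]
      field_simp
      ring
    rw [h4]
    exact mul_le_mul_of_nonneg_right hκ (by linarith)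
  set w : ℝ := n / R with hw
  have hw1 : 1 - u ≤ w := by
    rw [hw, le_div_iff₀ hR0]
    nlinarith
  have key : 7 / 34 * (max 0 (1 - μ)) ^ 2 ≤ 0.35 * u ^ 2 + (w - μ) ^ 2 / 2 := by
    rcases le_total (1 - μ) 0 with h | h
    · rw [max_eq_left h]
      have : 0 ≤ 0.35 * u ^ 2 + (w - μ) ^ 2 / 2 := by positivity
      linarith
    · rw [max_eq_right h]
      rcases le_total u (1 - μ) with h5 | h5
      · have h6 : (1 - μ - u) ^ 2 ≤ (w - μ) ^ 2 := by
          apply pow_le_pow_left₀ (by linarith) (by linarith)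
        nlinarith [sq_nonneg (17 * u - 10 * (1 - μ))]
      · have h6 : (1 - μ) ^ 2 ≤ u ^ 2 := pow_le_pow_left₀ h h5 2
        nlinarith [sq_nonneg (w - μ)]
  have : R * (7 / 34 * (max 0 (1 - μ)) ^ 2) ≤ R * (0.35 * u ^ 2 + (w - μ) ^ 2 / 2) :=
    mul_le_mul_of_nonneg_left key hR0.le
  nlinarith

/-- the relation between kappa and KapE -/
theorem kappa_identity (l x y p m c s : ℝ) (hl : 0 < l) (hx : 0 < x) (hy : 0 < y) (hm : 0 < m)
    (hc : 0 < c) (hN : 0 < NN x y) (e e' S S' t t' ρ N q R1 : ℝ) (hN' : N = NN x y)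
    (hq : q = 2 * x * y) (hR1 : R1 = x ^ 2 - y ^ 2 - 1) (he : e = m * c)
    (he' : e' = 2 * l / N * ((e * q + m * s * R1) + (e * R1 - m * s * q) * p))
    (hS : S = -(Sf x / x)) (hS' : S' = Sf x / x ^ 2 - Sf1 x / x)
    (ht : t = e * S) (ht' : t' = e' * S + e * S') (hρ : ρ = e * (1 + p ^ 2)) (j : ℂ)
    (hj : j = t / (hh l x y * (⟨e, e * p⟩ : ℂ))) :
    x ^ 2 * N * c * (1 + p ^ 2) * (t' / ρ + 2 * j.re - ‖j‖ ^ 2 - 1 - cc l x y) =
        KapE l x y (p * y) c s + 2.8 * l ^ 2 * Sf x ^ 2 * c ∧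
      x ^ 2 * N * c * (1 + p ^ 2) * ‖j‖ ^ 2 = 4 * l ^ 2 * Sf x ^ 2 * c := by
  have hNp : 0 < N := by rw [hN']; exact hN
  have hNe : N = R1 ^ 2 + q ^ 2 := by rw [hN', hR1, hq]; rfl
  have hep : 0 < e := by rw [he]; positivity
  have hp1 : 0 < 1 + p ^ 2 := by positivity
  have hden : hh l x y * (⟨e, e * p⟩ : ℂ) =
      (⟨e * (-q - R1 * p) / (2 * l), e * (R1 - q * p) / (2 * l)⟩ : ℂ) := by
    have h1 : hh l x y = (⟨-q / (2 * l), R1 / (2 * l)⟩ : ℂ) := by
      unfold hh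
      have h2 : ((2 : ℂ) * (l : ℂ)) = ((2 * l : ℝ) : ℂ) := by push_cast; ring
      rw [h2]
      apply Complex.ext
      · rw [Complex.div_ofReal_re]
        simp [pow_two, hq]
        ring
      · rw [Complex.div_ofReal_im]
        simp [pow_two, hR1]
    rw [h1]
    apply Complex.ext
    · simp only [Complex.mul_re]
      ring
    · simp only [Complex.mul_im]
      ring
  have hAB : (e * (-q - R1 * p) / (2 * l)) ^ 2 + (e * (R1 - q * p) / (2 * l)) ^ 2 =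
      e ^ 2 * N * (1 + p ^ 2) / (4 * l ^ 2) := by
    rw [hNe]
    field_simp
    ring
  have hjre : j.re = t * (e * (-q - R1 * p) / (2 * l)) / (e ^ 2 * N * (1 + p ^ 2) / (4 * l ^ 2)) := by
    rw [hj, hden, Complex.div_re, Complex.normSq_apply]
    simp only [Complex.ofReal_re, Complex.ofReal_im]
    rw [← hAB]
    ring
  have hjn : ‖j‖ ^ 2 = t ^ 2 / (e ^ 2 * N * (1 + p ^ 2) / (4 * l ^ 2)) := by
    rw [hj, norm_div, div_pow, hden, Complex.norm_real, Real.norm_eq_abs, sq_abs, alg_norm_sq]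
    simp only
    rw [hAB]
  have hjre' : j.re = 2 * l * S * (-q - R1 * p) / (N * (1 + p ^ 2)) := by
    rw [hjre, ht]
    field_simp
    ring
  have hjn' : ‖j‖ ^ 2 = 4 * l ^ 2 * S ^ 2 / (N * (1 + p ^ 2)) := by
    rw [hjn, ht]
    field_simp
  have hSx : S * x = - Sf x := by rw [hS]; field_simp
  have hSx' : S' * x ^ 2 = Sf x - x * Sf1 x := by rw [hS']; field_simp
  have hsecond : x ^ 2 * N * c * (1 + p ^ 2) * ‖j‖ ^ 2 = 4 * l ^ 2 * Sf x ^ 2 * c := by
    rw [hjn']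
    have : x ^ 2 * N * c * (1 + p ^ 2) * (4 * l ^ 2 * S ^ 2 / (N * (1 + p ^ 2))) =
        4 * l ^ 2 * (S * x) ^ 2 * c := by
      field_simp
    rw [this, hSx]
    ring
  refine ⟨?_, hsecond⟩
  have hw : p * y / y = p := by field_simp
  have h5 : x ^ 2 * N * c * (1 + p ^ 2) * (t' / ρ) =
      -(2 * l * x * Sf x * ((q * c + s * R1) + (c * R1 - s * q) * p))
        + N * c * (Sf x - x * Sf1 x) := by
    have h6 : t' / ρ = (2 * l / N * ((q * c + s * R1) + (c * R1 - s * q) * p) * S / c + S')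
        / (1 + p ^ 2) := by
      rw [ht', hρ, he', he]
      field_simp
    rw [h6]
    have h7 : x ^ 2 * N * c * (1 + p ^ 2) *
        ((2 * l / N * ((q * c + s * R1) + (c * R1 - s * q) * p) * S / c + S') / (1 + p ^ 2)) =
        2 * l * x * (S * x) * ((q * c + s * R1) + (c * R1 - s * q) * p)
          + N * c * (S' * x ^ 2) := by
      field_simp
    rw [h7, hSx, hSx']
    ring
  have h8 : x ^ 2 * N * c * (1 + p ^ 2) * (2 * j.re) =
      4 * l * c * x * Sf x * (R1 * p + q) := by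
    rw [hjre']
    have : x ^ 2 * N * c * (1 + p ^ 2) * (2 * (2 * l * S * (-q - R1 * p) / (N * (1 + p ^ 2)))) =
        4 * l * c * x * (S * x) * (-q - R1 * p) := by
      field_simp
      ring
    rw [this, hSx]
    ring
  have h9 : x ^ 2 * N * c * (1 + p ^ 2) * (t' / ρ + 2 * j.re - ‖j‖ ^ 2 - 1 - cc l x y) =
      x ^ 2 * N * c * (1 + p ^ 2) * (t' / ρ) + x ^ 2 * N * c * (1 + p ^ 2) * (2 * j.re)
        - x ^ 2 * N * c * (1 + p ^ 2) * ‖j‖ ^ 2
        - x ^ 2 * N * c * (1 + p ^ 2) * (1 + cc l x y) := by ring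
  rw [h9, h5, h8, hsecond]
  unfold KapE
  rw [hw, ← hN', ← hR1, ← hq]
  have hxy : 2 * (2 * x * y) = 2 * q := by rw [hq]
  ring

end

end Pool.Agent.JohnC
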