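import Pool.Agent.Lib_MP_1fe18a_an.Defs

/-! Piece B0: the Moebius family of paths stays in the closed unit disc. -/

set_option autoImplicit false

open Complex Set Filter Topology MeasureTheory

namespace Pool.Agent.JohnC

/-- the denominator of `zeta` -/
noncomputable def zden (a b s t : ℂ) : ℂ := (1 - t) * (1 - s * b) + t * (1 - s * a)

/-- the numerator of `zeta` -/
noncomputable def znum (a b s t : ℂ) : ℂ := (1 - t) * (1 - s * b) * a + t * (1 - s * a) * b

theorem zeta_eq_div (a b s t : ℂ) : zeta a b s t = znum a b s t / zden a b s t := rfl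

theorem zden_eq (a b s t : ℂ) : zden a b s t = 1 - s * ((1 - t) * b + t * a) := by
  unfold zden; ring

theorem mul_conj_one {a : ℂ} (ha : ‖a‖ = 1) : a * (starRingEnd ℂ) a = 1 := by
  rw [Complex.mul_conj, Complex.normSq_eq_norm_sq, ha]; simp

theorem zeta_identity (a b : ℂ) (ha : ‖a‖ = 1) (hb : ‖b‖ = 1) (s : ℂ) (t : ℝ) :
    Complex.normSq (zden a b s t) - Complex.normSq (znum a b s t) =
      t * (1 - t) * (1 - Complex.normSq s) * Complex.normSq (a - b) := by
  have haA := mul_conj_one ha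
  have hbB := mul_conj_one hb
  have key : (((Complex.normSq (zden a b s t) - Complex.normSq (znum a b s t) : ℝ)) : ℂ) =
      ((t * (1 - t) * (1 - Complex.normSq s) * Complex.normSq (a - b) : ℝ) : ℂ) := by
    push_cast
    rw [← Complex.mul_conj, ← Complex.mul_conj, ← Complex.mul_conj, ← Complex.mul_conj]
    unfold zden znum
    simp only [map_add, map_sub, map_mul, map_one, Complex.conj_ofReal]
    set A := (starRingEnd ℂ) a
    set B := (starRingEnd ℂ) b
    set S := (starRingEnd ℂ) s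
    set T := (t : ℂ)
    linear_combination
      (-((1 - T) * (1 - s * b) * ((1 - T) * (1 - S * B))) +
        T * (1 - T) * (S * B - s * S * (b * B) + s * b - s * S) -
        T * (1 - T) * (1 - s * S)) * haA +
      (-(T * (1 - s * a) * (T * (1 - S * A))) +
        T * (1 - T) * (s * a - s * S + S * A - s * S * (a * A)) -
        T * (1 - T) * (1 - s * S)) * hbB
  exact_mod_cast key

theorem zeta_norm_le (a b : ℂ) (ha : ‖a‖ = 1) (hb : ‖b‖ = 1) (s : ℂ) (hs : ‖s‖ ≤ 1) (t : ℝ)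
    (ht : t ∈ Icc (0:ℝ) 1) : ‖zeta a b s t‖ ≤ 1 := by
  have h := zeta_identity a b ha hb s t
  have h1 : 0 ≤ t * (1 - t) * (1 - Complex.normSq s) * Complex.normSq (a - b) := by
    have h2 : Complex.normSq s ≤ 1 := by
      rw [Complex.normSq_eq_norm_sq]
      nlinarith [norm_nonneg s]
    have h3 : 0 ≤ 1 - Complex.normSq s := by linarith
    have h4 : 0 ≤ 1 - t := by linarith [ht.2]
    have h5 := ht.1
    have h6 := Complex.normSq_nonneg (a - b)
    positivity
  have h2 : Complex.normSq (znum a b s t) ≤ Complex.normSq (zden a b s t) := by linarith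
  rw [Complex.normSq_eq_norm_sq, Complex.normSq_eq_norm_sq] at h2
  have h3 : ‖znum a b s t‖ ≤ ‖zden a b s t‖ := by
    exact le_of_sq_le_sq h2 (norm_nonneg _)
  rw [zeta_eq_div, norm_div]
  exact div_le_one_of_le₀ h3 (norm_nonneg _)

theorem zden_ne_of_lt (a b s t : ℂ) (h : ‖s‖ * ‖(1 - t) * b + t * a‖ < 1) :
    zden a b s t ≠ 0 := by
  rw [zden_eq]
  intro h0
  have h1 : s * ((1 - t) * b + t * a) = 1 := (sub_eq_zero.1 h0).symm
  have h2 : ‖s * ((1 - t) * b + t * a)‖ = 1 := by rw [h1]; simp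
  rw [norm_mul] at h2
  linarith

theorem combo_le (a b : ℂ) (ha : ‖a‖ = 1) (hb : ‖b‖ = 1) (t : ℝ) (ht : t ∈ Icc (0:ℝ) 1) :
    ‖(1 - (t : ℂ)) * b + t * a‖ ≤ 1 := by
  have h4 : 0 ≤ 1 - t := by linarith [ht.2]
  calc ‖(1 - (t : ℂ)) * b + t * a‖ ≤ ‖(1 - (t : ℂ)) * b‖ + ‖(t : ℂ) * a‖ := norm_add_le _ _
    _ = 1 := by
      rw [norm_mul, norm_mul, ha, hb]
      have e1 : ‖(1 - (t : ℂ))‖ = 1 - t := by
        rw [← Complex.ofReal_one, ← Complex.ofReal_sub, Complex.norm_real, Real.norm_of_nonneg h4]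
      have e2 : ‖(t : ℂ)‖ = t := by rw [Complex.norm_real, Real.norm_of_nonneg ht.1]
      rw [e1, e2]; ring

theorem zden_ne_of_ball (a b : ℂ) (ha : ‖a‖ = 1) (hb : ‖b‖ = 1) (s : ℂ) (hs : ‖s‖ < 1) (t : ℝ)
    (ht : t ∈ Icc (0:ℝ) 1) : zden a b s t ≠ 0 := by
  apply zden_ne_of_lt
  have := combo_le a b ha hb t ht
  nlinarith [norm_nonneg s, norm_nonneg ((1 - (t : ℂ)) * b + t * a)]

theorem zeta_mem (a b : ℂ) (ha : ‖a‖ = 1) (hb : ‖b‖ = 1) (hab : a ≠ b)
    (s : ℂ) (hs : ‖s‖ ≤ 1) (t : ℝ) (ht : t ∈ Ioo (0:ℝ) 1) :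
    ((1 - t) * (1 - s * b) + t * (1 - s * a) ≠ 0) ∧ ‖zeta a b s t‖ ≤ 1 := by
  refine ⟨?_, zeta_norm_le a b ha hb s hs t ⟨ht.1.le, ht.2.le⟩⟩
  apply zden_ne_of_lt
  have h1 : ‖(1 - t) • b + t • a‖ < 1 :=
    norm_combo_lt_of_ne hb.le ha.le hab.symm (by linarith [ht.2]) ht.1 (by ring)
  have e : (1 - t) • b + t • a = (1 - (t : ℂ)) * b + t * a := by
    rw [Complex.real_smul, Complex.real_smul]
    push_cast
    ring
  rw [e] at h1
  nlinarith [norm_nonneg s, norm_nonneg ((1 - (t : ℂ)) * b + t * a)]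

end Pool.Agent.JohnC
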