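import Pool.Agent.Lib_MP_1fe18a_an.Defs

/-! Piece B1: the unimodular parameters of the Moebius family of paths. -/

set_option autoImplicit false

open Complex Set Filter Topology MeasureTheory

namespace Pool.Agent.JohnC

theorem zeta_swap (a b s t : ℂ) : zeta a b s (1 - t) = zeta b a s t := by
  unfold zeta
  congr 1 <;> ring

/-- the number `(1 - s b) conj (1 - s a) (1 - a conj b)` -/
noncomputable def WW (a b s : ℂ) : ℂ :=
  (1 - s * b) * (starRingEnd ℂ) (1 - s * a) * (1 - a * (starRingEnd ℂ) b)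

theorem conj_mul_of_norm_one {a : ℂ} (ha : ‖a‖ = 1) : a * (starRingEnd ℂ) a = 1 := by
  rw [Complex.mul_conj, Complex.normSq_eq_norm_sq, ha]; simp

theorem WW_re (a b s : ℂ) (ha : ‖a‖ = 1) (hb : ‖b‖ = 1) (hs : ‖s‖ = 1) : (WW a b s).re = 0 := by
  have ha' := conj_mul_of_norm_one ha
  have hb' := conj_mul_of_norm_one hb
  have hs' := conj_mul_of_norm_one hs
  have h : WW a b s = (s * a - (starRingEnd ℂ) (s * a)) - (s * b - (starRingEnd ℂ) (s * b)) +
      (b * (starRingEnd ℂ) a - (starRingEnd ℂ) (b * (starRingEnd ℂ) a)) := by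
    unfold WW
    simp only [map_sub, map_mul, map_one, Complex.conj_conj]
    linear_combination (b * (starRingEnd ℂ) a - a * (starRingEnd ℂ) a * (b * (starRingEnd ℂ) b)) * hs'
      + (s * a - 1) * hb' +
      ((starRingEnd ℂ) s * (starRingEnd ℂ) b - b * (starRingEnd ℂ) b) * ha'
  rw [h]
  simp

theorem WW_swap (a b s : ℂ) : WW b a s = (starRingEnd ℂ) (WW a b s) := by
  unfold WW
  simp only [map_sub, map_mul, map_one, Complex.conj_conj]
  ring

theorem normSq_sub (a b s t : ℂ) (ha : ‖a‖ = 1) (hb : ‖b‖ = 1) (hs : ‖s‖ = 1) :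
    Complex.normSq ((1 - t) * (1 - s * b) + t * (1 - s * a)) -
      Complex.normSq ((1 - t) * (1 - s * b) * a + t * (1 - s * a) * b) =
      2 * (WW a b s).im * t.im := by
  have hW := WW_re a b s ha hb hs
  have ha' : a.re * a.re + a.im * a.im = 1 := by
    rw [← Complex.normSq_apply, Complex.normSq_eq_norm_sq, ha]; norm_num
  have hb' : b.re * b.re + b.im * b.im = 1 := by
    rw [← Complex.normSq_apply, Complex.normSq_eq_norm_sq, hb]; norm_num
  have key : ∀ X Y : ℂ, Complex.normSq (X + Y) - Complex.normSq (X * a + Y * b) =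
      2 * (X * (starRingEnd ℂ) Y * (1 - a * (starRingEnd ℂ) b)).re := by
    intro X Y
    simp only [Complex.normSq_apply, Complex.mul_re, Complex.mul_im, Complex.add_re,
      Complex.add_im, Complex.sub_re, Complex.sub_im, Complex.conj_re, Complex.conj_im,
      Complex.one_re, Complex.one_im]
    linear_combination (-(X.re ^ 2 + X.im ^ 2)) * ha' - (Y.re ^ 2 + Y.im ^ 2) * hb'
  rw [key]
  have h2 : (1 - t) * (1 - s * b) * (starRingEnd ℂ) (t * (1 - s * a)) *
      (1 - a * (starRingEnd ℂ) b) = (1 - t) * (starRingEnd ℂ) t * WW a b s := by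
    unfold WW
    simp only [map_sub, map_mul, map_one]
    ring
  rw [h2]
  simp only [Complex.mul_re, Complex.mul_im, Complex.sub_re, Complex.sub_im, Complex.conj_re,
    Complex.conj_im, Complex.one_re, Complex.one_im, hW]
  ring

theorem circle_aux (l : ℝ) (H : HalfPlaneThm l) (a b : ℂ)
    (ha : ‖a‖ = 1) (hb : ‖b‖ = 1) (hab : a ≠ b) (R ε : ℝ) (hR : 1 < R) (hε : 0 < ε)
    (Gc : ℂ → ℂ) (hG : DifferentiableOn ℂ Gc (Metric.ball 0 R))
    (hr : ∀ z ∈ Metric.ball (0:ℂ) R, -(l * Real.pi) + ε ≤ (Gc z).re ∧ (Gc z).re ≤ -ε)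
    (s : ℂ) (hs : ‖s‖ = 1) (hsa : 1 - s * a ≠ 0) (hsb : 1 - s * b ≠ 0)
    (hk : 0 < (WW a b s).im) :
    (∫ t in (0:ℝ)..1, Complex.exp (Gc (zeta a b s t))) ≠ 0 := by
  have hs0 : s ≠ 0 := by
    intro h; rw [h] at hs; simp at hs
  have hba : s * (b - a) ≠ 0 := mul_ne_zero hs0 (sub_ne_zero.2 (Ne.symm hab))
  set k := (WW a b s).im with hkdef
  have hD : ∀ t : ℂ, (1 - t) * (1 - s * b) + t * (1 - s * a) = (1 - s * b) + t * (s * (b - a)) := by
    intro t; ring
  set tp : ℂ := -(1 - s * b) / (s * (b - a)) with htp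
  have hDt : ∀ t : ℂ, (1 - t) * (1 - s * b) + t * (1 - s * a) = (s * (b - a)) * (t - tp) := by
    intro t
    rw [hD, htp]
    field_simp
    ring
  have hDtp : (1 - tp) * (1 - s * b) + tp * (1 - s * a) = 0 := by
    rw [hDt]; simp
  have htpim : tp.im < 0 := by
    have h1 := normSq_sub a b s tp ha hb hs
    rw [hDtp] at h1
    rw [map_zero, zero_sub] at h1
    have h2 : 0 < Complex.normSq ((1 - tp) * (1 - s * b) * a + tp * (1 - s * a) * b) := by
      rw [Complex.normSq_pos]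
      intro h3
      have h4 : (1 - tp) * (1 - s * b) * (a - b) = 0 := by
        linear_combination h3 - b * hDtp
      have h5 : (1 - tp) * (1 - s * b) = 0 := by
        rcases mul_eq_zero.1 h4 with h | h
        · exact h
        · exact absurd (sub_eq_zero.1 h) hab
      have h6 : tp * (1 - s * a) = 0 := by linear_combination hDtp - h5
      have h7 : tp = 0 := (mul_eq_zero.1 h6).resolve_right hsa
      rw [h7] at h5
      simp only [sub_zero, one_mul] at h5
      exact hsb h5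
    by_contra hcon
    push Not at hcon
    have : 0 ≤ 2 * k * tp.im := by positivity
    linarith
  set d : ℝ := ‖s * (b - a)‖ with hd
  have hd0 : 0 < d := norm_pos_iff.2 hba
  set τ : ℝ := -tp.im with hτ
  have hτ0 : 0 < τ := by rw [hτ]; linarith
  -- choose eta
  obtain ⟨η, hη0, hη1, hη2⟩ : ∃ η : ℝ, 0 < η ∧ η ≤ τ / 2 ∧ 8 * k * η ≤ (R ^ 2 - 1) * (d * τ) ^ 2 := by
    have hR2 : 0 < R ^ 2 - 1 := by nlinarith
    have hc : 0 < (R ^ 2 - 1) * (d * τ) ^ 2 := by positivity
    refine ⟨min (τ / 2) ((R ^ 2 - 1) * (d * τ) ^ 2 / (8 * k)), lt_min (by positivity) (by positivity),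
      min_le_left _ _, ?_⟩
    have h1 : min (τ / 2) ((R ^ 2 - 1) * (d * τ) ^ 2 / (8 * k)) ≤
        (R ^ 2 - 1) * (d * τ) ^ 2 / (8 * k) := min_le_right _ _
    calc 8 * k * min (τ / 2) ((R ^ 2 - 1) * (d * τ) ^ 2 / (8 * k)) ≤
        8 * k * ((R ^ 2 - 1) * (d * τ) ^ 2 / (8 * k)) := by
          exact mul_le_mul_of_nonneg_left h1 (by positivity)
      _ = (R ^ 2 - 1) * (d * τ) ^ 2 := by field_simp
  have hDn : ∀ t : ℂ, -η < t.im → d * (τ / 2) < ‖(1 - t) * (1 - s * b) + t * (1 - s * a)‖ := by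
    intro t ht
    rw [hDt, norm_mul]
    have h1 : |(t - tp).im| ≤ ‖t - tp‖ := Complex.abs_im_le_norm _
    have h2 : τ / 2 < ‖t - tp‖ := by
      have h3 : (t - tp).im = t.im + τ := by rw [Complex.sub_im, hτ]; ring
      have h4 : τ / 2 < (t - tp).im := by rw [h3]; linarith
      exact lt_of_lt_of_le h4 ((le_abs_self _).trans h1)
    exact mul_lt_mul_of_pos_left h2 hd0
  have hD0 : ∀ t : ℂ, -η < t.im → (1 - t) * (1 - s * b) + t * (1 - s * a) ≠ 0 := by
    intro t ht h0
    have := hDn t ht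
    rw [h0, norm_zero] at this
    have h2 : 0 < d * (τ / 2) := by positivity
    linarith
  have hz : ∀ t : ℂ, -η < t.im → zeta a b s t ∈ Metric.ball (0:ℂ) R := by
    intro t ht
    rw [mem_ball_zero_iff]
    have h1 := normSq_sub a b s t ha hb hs
    have h2 := hDn t ht
    have h3 : 0 < d * (τ / 2) := by positivity
    unfold zeta
    rw [norm_div, div_lt_iff₀ (h3.trans h2)]
    rw [Complex.normSq_eq_norm_sq, Complex.normSq_eq_norm_sq, ← hkdef] at h1
    set Dn := ‖(1 - t) * (1 - s * b) + t * (1 - s * a)‖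
    set Nn := ‖(1 - t) * (1 - s * b) * a + t * (1 - s * a) * b‖
    have h4 : Nn ^ 2 = Dn ^ 2 - 2 * k * t.im := by linarith
    have h5 : -(2 * k * t.im) < 2 * k * η := by nlinarith
    have h6 : (d * (τ / 2)) ^ 2 < Dn ^ 2 := by
      exact pow_lt_pow_left₀ h2 h3.le (by norm_num)
    have hR2 : 0 < R ^ 2 - 1 := by nlinarith
    have h7 : 2 * k * η ≤ (R ^ 2 - 1) * (d * (τ / 2)) ^ 2 := by nlinarith
    have h8 : (R ^ 2 - 1) * (d * (τ / 2)) ^ 2 < (R ^ 2 - 1) * Dn ^ 2 :=
      mul_lt_mul_of_pos_left h6 hR2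
    have h9 : Nn ^ 2 < (R * Dn) ^ 2 := by
      rw [h4, mul_pow]; linarith
    have hRD : 0 ≤ R * Dn := by positivity
    exact lt_of_pow_lt_pow_left₀ 2 hRD h9
  refine H η ε (fun t => Gc (zeta a b s t)) hη0 hε ?_ (fun z hz' => hr _ (hz z hz')) 0 1 one_pos
  refine hG.comp ?_ (fun t ht => hz t ht)
  intro t ht
  unfold zeta
  refine DifferentiableAt.differentiableWithinAt ?_
  refine DifferentiableAt.div ?_ ?_ (hD0 t ht)
  · fun_prop
  · fun_prop

theorem circle_ne_zero (l : ℝ) (hl : 0 < l) (H : HalfPlaneThm l) (a b : ℂ)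
    (ha : ‖a‖ = 1) (hb : ‖b‖ = 1) (hab : a ≠ b) (R ε : ℝ) (hR : 1 < R) (hε : 0 < ε)
    (Gc : ℂ → ℂ) (hG : DifferentiableOn ℂ Gc (Metric.ball 0 R))
    (hr : ∀ z ∈ Metric.ball (0:ℂ) R, -(l * Real.pi) + ε ≤ (Gc z).re ∧ (Gc z).re ≤ -ε)
    (s : ℂ) (hs : ‖s‖ = 1) :
    (∫ t in (0:ℝ)..1, Complex.exp (Gc (zeta a b s t))) ≠ 0 := by
  have hs0 : s ≠ 0 := by
    intro h; rw [h] at hs; simp at hs
  have swap : ∀ a b : ℂ, (∫ t in (0:ℝ)..1, Complex.exp (Gc (zeta a b s t))) =
      ∫ t in (0:ℝ)..1, Complex.exp (Gc (zeta b a s t)) := by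
    intro a b
    have h1 := intervalIntegral.integral_comp_sub_left
      (f := fun t : ℝ => Complex.exp (Gc (zeta a b s t))) (a := 0) (b := 1) (1:ℝ)
    simp only [sub_self, sub_zero] at h1
    rw [← h1]
    refine intervalIntegral.integral_congr fun t _ => ?_
    simp only [Complex.ofReal_sub, Complex.ofReal_one, zeta_swap]
  have caseb : ∀ a b : ℂ, a ≠ b → 1 - s * b = 0 →
      (∫ t in (0:ℝ)..1, Complex.exp (Gc (zeta a b s t))) ≠ 0 := by
    intro a b hab hsb
    have hsa : 1 - s * a ≠ 0 := by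
      intro h
      apply hab
      have : s * a = s * b := by linear_combination hsb - h
      exact mul_left_cancel₀ hs0 this
    have h1 : (∫ t in (0:ℝ)..1, Complex.exp (Gc (zeta a b s t))) =
        ∫ t in (0:ℝ)..1, Complex.exp (Gc b) := by
      rw [intervalIntegral.integral_of_le zero_le_one, intervalIntegral.integral_of_le zero_le_one]
      refine setIntegral_congr_fun measurableSet_Ioc fun t ht => ?_
      have ht0 : (t : ℂ) ≠ 0 := by exact_mod_cast ht.1.ne'
      have h2 : zeta a b s t = b := by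
        unfold zeta
        rw [hsb]
        simp only [mul_zero, zero_mul, zero_add]
        rw [div_eq_iff (mul_ne_zero ht0 hsa)]
        ring
      simp only [h2]
    rw [h1]
    simp
  by_cases hsb : 1 - s * b = 0
  · exact caseb a b hab hsb
  by_cases hsa : 1 - s * a = 0
  · rw [swap]
    exact caseb b a (Ne.symm hab) hsa
  have hW : WW a b s ≠ 0 := by
    unfold WW
    refine mul_ne_zero (mul_ne_zero hsb ((map_ne_zero _).2 hsa)) ?_
    intro h
    apply hab
    have hb' := conj_mul_of_norm_one hb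
    linear_combination (-a) * hb' - b * h
  have hWre := WW_re a b s ha hb hs
  have hWim : (WW a b s).im ≠ 0 := by
    intro h
    exact hW (Complex.ext hWre h)
  rcases lt_or_gt_of_ne hWim with h | h
  · rw [swap]
    refine circle_aux l H b a hb ha (Ne.symm hab) R ε hR hε Gc hG hr s hs hsb hsa ?_
    rw [WW_swap, Complex.conj_im]
    linarith
  · exact circle_aux l H a b ha hb hab R ε hR hε Gc hG hr s hs hsa hsb h

end Pool.Agent.JohnC
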