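import Pool.Agent.Lib_MP_1fe18a_an.B0

/-! Piece B2: continuity and analyticity of the parametric integral. -/

set_option autoImplicit false

open Complex Set Filter Topology MeasureTheory

namespace Pool.Agent.JohnC

theorem zeta_contAt (a b : ℂ) (q : ℂ × ℂ) (h : zden a b q.1 q.2 ≠ 0) :
    ContinuousAt (fun q : ℂ × ℂ => zeta a b q.1 q.2) q := by
  have h1 : ContinuousAt (fun q : ℂ × ℂ => znum a b q.1 q.2) q := by
    unfold znum; fun_prop
  have h2 : ContinuousAt (fun q : ℂ × ℂ => zden a b q.1 q.2) q := by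
    unfold zden; fun_prop
  exact h1.div h2 h

theorem closedBall_sub {R : ℝ} (hR : 1 < R) {z : ℂ} (hz : ‖z‖ ≤ 1) :
    z ∈ Metric.ball (0:ℂ) R := by
  rw [Metric.mem_ball, dist_zero_right]; linarith

/-- the integrand is continuous in `t` on the open interval -/
theorem integrand_cont (a b : ℂ) (ha : ‖a‖ = 1) (hb : ‖b‖ = 1) (hab : a ≠ b) (R : ℝ)
    (hR : 1 < R) (Gc : ℂ → ℂ) (hG : ContinuousOn Gc (Metric.ball 0 R)) (h : ℝ) (s : ℂ)
    (hs : ‖s‖ ≤ 1) :
    ContinuousOn (fun t : ℝ => Complex.exp (h * Gc (zeta a b s t))) (Ioo (0:ℝ) 1) := by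
  intro t ht
  obtain ⟨h1, h2⟩ := zeta_mem a b ha hb hab s hs t ht
  have h3 : ContinuousAt (fun t : ℝ => zeta a b s t) t := by
    have := zeta_contAt a b (s, (t : ℂ)) h1
    exact this.comp (f := fun t : ℝ => ((s, (t : ℂ)) : ℂ × ℂ)) (by fun_prop)
  have h4 : ContinuousAt Gc (zeta a b s t) :=
    hG.continuousAt (Metric.isOpen_ball.mem_nhds (closedBall_sub hR h2))
  have h5 : ContinuousAt (fun t : ℝ => Gc (zeta a b s t)) t :=
    ContinuousAt.comp (f := fun t : ℝ => zeta a b s t) h4 h3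
  have h6 : ContinuousAt (fun t : ℝ => Complex.exp (h * Gc (zeta a b s t))) t := by
    fun_prop
  exact h6.continuousWithinAt

theorem integrand_meas (a b : ℂ) (ha : ‖a‖ = 1) (hb : ‖b‖ = 1) (hab : a ≠ b) (R : ℝ)
    (hR : 1 < R) (Gc : ℂ → ℂ) (hG : ContinuousOn Gc (Metric.ball 0 R)) (h : ℝ) (s : ℂ)
    (hs : ‖s‖ ≤ 1) :
    AEStronglyMeasurable (fun t : ℝ => Complex.exp (h * Gc (zeta a b s t)))
      (volume.restrict (uIoc (0:ℝ) 1)) := by
  rw [uIoc_of_le zero_le_one, ← restrict_Ioo_eq_restrict_Ioc]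
  exact (integrand_cont a b ha hb hab R hR Gc hG h s hs).aestronglyMeasurable measurableSet_Ioo

theorem ae_ne_one : ∀ᵐ t : ℝ ∂volume, t ≠ 1 := by
  have : volume ({1} : Set ℝ) = 0 := by simp
  exact compl_mem_ae_iff.2 this

theorem exists_bound (R : ℝ) (hR : 1 < R) (Gc : ℂ → ℂ)
    (hG : ContinuousOn Gc (Metric.ball 0 R)) : ∃ M : ℝ, 0 ≤ M ∧ ∀ z : ℂ, ‖z‖ ≤ 1 → ‖Gc z‖ ≤ M := by
  obtain ⟨M, hM⟩ := (isCompact_closedBall (0:ℂ) 1).exists_bound_of_continuousOn
    (hG.mono fun z hz => closedBall_sub hR (by simpa using hz))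
  refine ⟨M, (norm_nonneg _).trans (hM 0 (by simp)), fun z hz => hM z (by simpa using hz)⟩

theorem Z_cont (a b : ℂ) (ha : ‖a‖ = 1) (hb : ‖b‖ = 1) (hab : a ≠ b) (R : ℝ) (hR : 1 < R)
    (Gc : ℂ → ℂ) (hG : DifferentiableOn ℂ Gc (Metric.ball 0 R)) :
    ContinuousOn (fun p : ℝ × ℂ => ∫ t in (0:ℝ)..1, Complex.exp (p.1 * Gc (zeta a b p.2 t)))
      (Icc (0:ℝ) 1 ×ˢ Metric.closedBall (0:ℂ) 1) := by
  have hGc := hG.continuousOn
  obtain ⟨M, hM0, hM⟩ := exists_bound R hR Gc hGc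
  intro p hp
  have hmem : ∀ q ∈ Icc (0:ℝ) 1 ×ˢ Metric.closedBall (0:ℂ) 1,
      0 ≤ q.1 ∧ q.1 ≤ 1 ∧ ‖q.2‖ ≤ 1 := by
    rintro ⟨q1, q2⟩ ⟨h1, h2⟩
    refine ⟨h1.1, h1.2, by simpa using h2⟩
  refine intervalIntegral.continuousWithinAt_of_dominated_interval
    (bound := fun _ => Real.exp M) ?_ ?_ ?_ ?_
  · filter_upwards [self_mem_nhdsWithin] with q hq
    exact integrand_meas a b ha hb hab R hR Gc hGc q.1 q.2 (hmem q hq).2.2
  · filter_upwards [self_mem_nhdsWithin] with q hq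
    filter_upwards [ae_ne_one] with t ht1 ht
    rw [uIoc_of_le zero_le_one] at ht
    have htI : t ∈ Ioo (0:ℝ) 1 := ⟨ht.1, lt_of_le_of_ne ht.2 ht1⟩
    obtain ⟨q1, q2, q3⟩ := hmem q hq
    have h1 := hM _ (zeta_mem a b ha hb hab q.2 q3 t htI).2
    rw [Complex.norm_exp]
    apply Real.exp_le_exp.2
    calc ((q.1 : ℂ) * Gc (zeta a b q.2 t)).re ≤ ‖(q.1 : ℂ) * Gc (zeta a b q.2 t)‖ :=
          Complex.re_le_norm _
      _ = q.1 * ‖Gc (zeta a b q.2 t)‖ := by
        rw [norm_mul, Complex.norm_real, Real.norm_of_nonneg q1]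
      _ ≤ 1 * M := mul_le_mul q2 h1 (norm_nonneg _) zero_le_one
      _ = M := one_mul M
  · exact intervalIntegrable_const
  · filter_upwards [ae_ne_one] with t ht1 ht
    rw [uIoc_of_le zero_le_one] at ht
    have htI : t ∈ Ioo (0:ℝ) 1 := ⟨ht.1, lt_of_le_of_ne ht.2 ht1⟩
    obtain ⟨q1, q2, q3⟩ := hmem p hp
    obtain ⟨h1, h2⟩ := zeta_mem a b ha hb hab p.2 q3 t htI
    have h3 : ContinuousAt (fun q : ℝ × ℂ => zeta a b q.2 t) p := by
      have := zeta_contAt a b (p.2, (t : ℂ)) h1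
      exact this.comp (f := fun q : ℝ × ℂ => ((q.2, (t : ℂ)) : ℂ × ℂ)) (by fun_prop)
    have h4 : ContinuousAt Gc (zeta a b p.2 t) :=
      hGc.continuousAt (Metric.isOpen_ball.mem_nhds (closedBall_sub hR h2))
    have h5 : ContinuousAt (fun q : ℝ × ℂ => Gc (zeta a b q.2 t)) p :=
      ContinuousAt.comp (f := fun q : ℝ × ℂ => zeta a b q.2 t) h4 h3
    have h6 : ContinuousAt (fun q : ℝ × ℂ => Complex.exp (q.1 * Gc (zeta a b q.2 t))) p := by
      fun_prop
    exact h6.continuousWithinAt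

/-- the derivative of the integrand with respect to `s` -/
noncomputable def dint (a b : ℂ) (Gc : ℂ → ℂ) (h : ℝ) (s : ℂ) (t : ℝ) : ℂ :=
  Complex.exp (h * Gc (zeta a b s t)) * (h * (deriv Gc (zeta a b s t) *
    ((((1 - (t : ℂ)) * (-b) * a + t * (-a) * b) * zden a b s t -
      znum a b s t * ((1 - (t : ℂ)) * (-b) + t * (-a))) / zden a b s t ^ 2)))

theorem zeta_hasDeriv (a b s t : ℂ) (hd : zden a b s t ≠ 0) :
    HasDerivAt (fun s => zeta a b s t)
      ((((1 - t) * (-b) * a + t * (-a) * b) * zden a b s t -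
      znum a b s t * ((1 - t) * (-b) + t * (-a))) / zden a b s t ^ 2) s := by
  have h1 : HasDerivAt (fun s : ℂ => 1 - s * b) (-b) s := by
    simpa using ((hasDerivAt_id s).mul_const b).const_sub 1
  have h2 : HasDerivAt (fun s : ℂ => 1 - s * a) (-a) s := by
    simpa using ((hasDerivAt_id s).mul_const a).const_sub 1
  have hn : HasDerivAt (fun s => znum a b s t) ((1 - t) * (-b) * a + t * (-a) * b) s :=
    ((h1.const_mul (1 - t)).mul_const a).add ((h2.const_mul t).mul_const b)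
  have hdn : HasDerivAt (fun s => zden a b s t) ((1 - t) * (-b) + t * (-a)) s :=
    (h1.const_mul (1 - t)).add (h2.const_mul t)
  exact hn.div hdn hd

theorem int_hasDeriv (a b : ℂ) (R : ℝ) (Gc : ℂ → ℂ)
    (hG : DifferentiableOn ℂ Gc (Metric.ball 0 R)) (h : ℝ) (s : ℂ) (t : ℝ)
    (hd : zden a b s t ≠ 0) (hz : zeta a b s t ∈ Metric.ball (0:ℂ) R) :
    HasDerivAt (fun s => Complex.exp (h * Gc (zeta a b s t))) (dint a b Gc h s t) s := by
  have h1 := zeta_hasDeriv a b s t hd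
  have h2 : HasDerivAt Gc (deriv Gc (zeta a b s t)) (zeta a b s t) :=
    (hG.differentiableAt (Metric.isOpen_ball.mem_nhds hz)).hasDerivAt
  have h3 := h2.comp s h1
  have h4 := (h3.const_mul (h : ℂ)).cexp
  exact h4

theorem dint_contAt (a b : ℂ) (R : ℝ) (Gc : ℂ → ℂ)
    (hG : DifferentiableOn ℂ Gc (Metric.ball 0 R)) (h : ℝ) (p : ℂ × ℝ)
    (hd : zden a b p.1 p.2 ≠ 0) (hz : zeta a b p.1 p.2 ∈ Metric.ball (0:ℂ) R) :
    ContinuousAt (fun p : ℂ × ℝ => dint a b Gc h p.1 p.2) p := by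
  have h3 : ContinuousAt (fun p : ℂ × ℝ => zeta a b p.1 p.2) p := by
    have := zeta_contAt a b (p.1, (p.2 : ℂ)) hd
    exact this.comp (f := fun q : ℂ × ℝ => ((q.1, (q.2 : ℂ)) : ℂ × ℂ)) (by fun_prop)
  have h4 : ContinuousAt Gc (zeta a b p.1 p.2) :=
    hG.continuousOn.continuousAt (Metric.isOpen_ball.mem_nhds hz)
  have h4' : ContinuousAt (deriv Gc) (zeta a b p.1 p.2) :=
    (hG.deriv Metric.isOpen_ball).continuousOn.continuousAt (Metric.isOpen_ball.mem_nhds hz)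
  have h5 : ContinuousAt (fun p : ℂ × ℝ => Gc (zeta a b p.1 p.2)) p :=
    ContinuousAt.comp (f := fun p : ℂ × ℝ => zeta a b p.1 p.2) h4 h3
  have h5' : ContinuousAt (fun p : ℂ × ℝ => deriv Gc (zeta a b p.1 p.2)) p :=
    ContinuousAt.comp (f := fun p : ℂ × ℝ => zeta a b p.1 p.2) h4' h3
  have hn : ContinuousAt (fun p : ℂ × ℝ => znum a b p.1 p.2) p := by
    unfold znum; fun_prop
  have hdn : ContinuousAt (fun p : ℂ × ℝ => zden a b p.1 p.2) p := by
    unfold zden; fun_prop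
  unfold dint
  refine ContinuousAt.mul (by fun_prop) (ContinuousAt.mul (by fun_prop)
    (ContinuousAt.mul h5' (ContinuousAt.div ?_ (hdn.pow 2) (pow_ne_zero 2 hd))))
  fun_prop

theorem Z_diff (a b : ℂ) (ha : ‖a‖ = 1) (hb : ‖b‖ = 1) (hab : a ≠ b) (R : ℝ) (hR : 1 < R)
    (Gc : ℂ → ℂ) (hG : DifferentiableOn ℂ Gc (Metric.ball 0 R)) (h : ℝ) :
    DifferentiableOn ℂ (fun s : ℂ => ∫ t in (0:ℝ)..1, Complex.exp (h * Gc (zeta a b s t)))
      (Metric.ball (0:ℂ) 1) := by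
  intro s₀ hs₀
  have hs₀' : ‖s₀‖ < 1 := by simpa using hs₀
  obtain ⟨ε, hε, hε1⟩ : ∃ ε : ℝ, 0 < ε ∧ ‖s₀‖ + ε < 1 := ⟨(1 - ‖s₀‖) / 2, by linarith, by linarith⟩
  have hball : ∀ s ∈ Metric.closedBall s₀ ε, ‖s‖ < 1 := by
    intro s hs
    have h1 : ‖s - s₀‖ ≤ ε := by simpa [dist_eq_norm] using hs
    have h2 : ‖s‖ ≤ ‖s₀‖ + ‖s - s₀‖ := by
      calc ‖s‖ = ‖s₀ + (s - s₀)‖ := by congr 1; ring
        _ ≤ _ := norm_add_le _ _
    linarith
  have hcont : ContinuousOn (fun p : ℂ × ℝ => dint a b Gc h p.1 p.2)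
      (Metric.closedBall s₀ ε ×ˢ Icc (0:ℝ) 1) := by
    rintro ⟨s, t⟩ ⟨h1, h2⟩
    have hsn := hball s h1
    exact (dint_contAt a b R Gc hG h (s, t) (zden_ne_of_ball a b ha hb s hsn t h2)
      (closedBall_sub hR (zeta_norm_le a b ha hb s hsn.le t h2))).continuousWithinAt
  obtain ⟨C, hC⟩ := ((isCompact_closedBall s₀ ε).prod isCompact_Icc).exists_bound_of_continuousOn
    hcont
  have hnear : Metric.ball s₀ ε ∈ 𝓝 s₀ := Metric.ball_mem_nhds _ hε
  have key := intervalIntegral.hasDerivAt_integral_of_dominated_loc_of_deriv_le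
    (μ := volume) (a := (0:ℝ)) (b := 1) (bound := fun _ => C)
    (F := fun s t => Complex.exp (h * Gc (zeta a b s t))) (F' := fun s t => dint a b Gc h s t)
    (x₀ := s₀) hnear ?_ ?_ ?_ ?_ ?_ ?_
  · exact key.2.differentiableAt.differentiableWithinAt
  · filter_upwards [hnear] with s hs
    exact integrand_meas a b ha hb hab R hR Gc hG.continuousOn h s
      (hball s (Metric.ball_subset_closedBall hs)).le
  · apply ContinuousOn.intervalIntegrable
    rw [uIcc_of_le zero_le_one]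
    intro t ht
    have hz := closedBall_sub hR (zeta_norm_le a b ha hb s₀ hs₀'.le t ht)
    have hd := zden_ne_of_ball a b ha hb s₀ hs₀' t ht
    have h3 : ContinuousAt (fun t : ℝ => zeta a b s₀ t) t := by
      have := zeta_contAt a b (s₀, (t : ℂ)) hd
      exact this.comp (f := fun t : ℝ => ((s₀, (t : ℂ)) : ℂ × ℂ)) (by fun_prop)
    have h4 : ContinuousAt Gc (zeta a b s₀ t) :=
      hG.continuousOn.continuousAt (Metric.isOpen_ball.mem_nhds hz)
    have h5 : ContinuousAt (fun t : ℝ => Gc (zeta a b s₀ t)) t :=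
      ContinuousAt.comp (f := fun t : ℝ => zeta a b s₀ t) h4 h3
    have h6 : ContinuousAt (fun t : ℝ => Complex.exp (h * Gc (zeta a b s₀ t))) t := by
      fun_prop
    exact h6.continuousWithinAt
  · rw [uIoc_of_le zero_le_one]
    refine ContinuousOn.aestronglyMeasurable ?_ measurableSet_Ioc
    have h1 : ContinuousOn (fun t : ℝ => dint a b Gc h s₀ t) (Icc (0:ℝ) 1) := by
      refine hcont.comp (f := fun t : ℝ => ((s₀, t) : ℂ × ℝ)) (by fun_prop) fun t ht => ?_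
      exact ⟨Metric.mem_closedBall_self hε.le, ht⟩
    exact h1.mono Ioc_subset_Icc_self
  · refine Eventually.of_forall fun t ht s hs => ?_
    rw [uIoc_of_le zero_le_one] at ht
    exact hC (s, t) ⟨Metric.ball_subset_closedBall hs, Ioc_subset_Icc_self ht⟩
  · exact intervalIntegrable_const
  · refine Eventually.of_forall fun t ht s hs => ?_
    rw [uIoc_of_le zero_le_one] at ht
    have ht' : t ∈ Icc (0:ℝ) 1 := Ioc_subset_Icc_self ht
    have hsn := hball s (Metric.ball_subset_closedBall hs)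
    exact int_hasDeriv a b R Gc hG h s t (zden_ne_of_ball a b ha hb s hsn t ht')
      (closedBall_sub hR (zeta_norm_le a b ha hb s hsn.le t ht'))

end Pool.Agent.JohnC
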