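import Pool.Agent.Lib_MP_1fe18a_an.B1
import Pool.Agent.Lib_MP_1fe18a_an.B2

/-! John constant, piece B3: minimum modulus homotopy. -/

set_option autoImplicit false

open Complex Set Filter Topology MeasureTheory

namespace Pool.Agent.JohnC

theorem disc_ne_zero (l : ℝ) (hl : 0 < l) (H : HalfPlaneThm l) (a b : ℂ)
    (ha : ‖a‖ = 1) (hb : ‖b‖ = 1) (hab : a ≠ b) (R ε : ℝ) (hR : 1 < R) (hε : 0 < ε)
    (Gc : ℂ → ℂ) (hG : DifferentiableOn ℂ Gc (Metric.ball 0 R))
    (hr : ∀ z ∈ Metric.ball (0:ℂ) R, -(l * Real.pi) + ε ≤ (Gc z).re ∧ (Gc z).re ≤ -ε) :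
    (∫ t in (0:ℝ)..1, Complex.exp (Gc ((1 - t) * a + t * b))) ≠ 0 := by
  set Z : ℝ × ℂ → ℂ := fun p => ∫ t in (0:ℝ)..1, Complex.exp (p.1 * Gc (zeta a b p.2 t)) with hZ
  have hcont : ContinuousOn Z (Icc (0:ℝ) 1 ×ˢ Metric.closedBall (0:ℂ) 1) :=
    Z_cont a b ha hb hab R hR Gc hG
  have hcomp : IsCompact (Icc (0:ℝ) 1 ×ˢ Metric.closedBall (0:ℂ) 1) :=
    isCompact_Icc.prod (isCompact_closedBall _ _)
  have hZ0 : ∀ s : ℂ, Z (0, s) = 1 := by
    intro s
    simp [hZ]
  -- nonvanishing on the circle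
  have hcirc : ∀ h ∈ Icc (0:ℝ) 1, ∀ s ∈ Metric.sphere (0:ℂ) 1, Z (h, s) ≠ 0 := by
    intro h hh s hs
    have hs' : ‖s‖ = 1 := by simpa using hs
    rcases eq_or_lt_of_le hh.1 with h0 | h0
    · rw [← h0, hZ0]; exact one_ne_zero
    · have := circle_ne_zero l hl H a b ha hb hab R (h * ε) hR (mul_pos h0 hε)
        (fun z => (h : ℂ) * Gc z) (hG.const_mul _) ?_ s hs'
      · simpa [hZ] using this
      · intro z hz
        obtain ⟨h1, h2⟩ := hr z hz
        have hre : ((h : ℂ) * Gc z).re = h * (Gc z).re := by simp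
        simp only [hre]
        have hlpi : 0 < l * Real.pi := mul_pos hl Real.pi_pos
        constructor
        · have h3 : h * (-(l * Real.pi) + ε) ≤ h * (Gc z).re := mul_le_mul_of_nonneg_left h1 h0.le
          have h4 : h * (l * Real.pi) ≤ 1 * (l * Real.pi) :=
            mul_le_mul_of_nonneg_right hh.2 hlpi.le
          nlinarith
        · have h3 : h * (Gc z).re ≤ h * (-ε) := mul_le_mul_of_nonneg_left h2 h0.le
          linarith
  -- minimum on the circle
  have hsub : (Icc (0:ℝ) 1 ×ˢ Metric.sphere (0:ℂ) 1) ⊆ Icc (0:ℝ) 1 ×ˢ Metric.closedBall (0:ℂ) 1 :=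
    prod_mono le_rfl Metric.sphere_subset_closedBall
  have hcompS : IsCompact (Icc (0:ℝ) 1 ×ˢ Metric.sphere (0:ℂ) 1) :=
    isCompact_Icc.prod (isCompact_sphere _ _)
  obtain ⟨p0, hp0, hmin⟩ := hcompS.exists_isMinOn
    ⟨((0:ℝ), (1:ℂ)), by simp⟩ ((hcont.mono hsub).norm)
  set d0 := ‖Z p0‖ with hd0
  have hd0pos : 0 < d0 := by
    rw [hd0, norm_pos_iff]
    exact hcirc p0.1 hp0.1 p0.2 hp0.2
  have hlow : ∀ h ∈ Icc (0:ℝ) 1, ∀ s ∈ Metric.sphere (0:ℂ) 1, d0 ≤ ‖Z (h, s)‖ := by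
    intro h hh s hs
    exact hmin (show (h, s) ∈ Icc (0:ℝ) 1 ×ˢ Metric.sphere (0:ℂ) 1 from ⟨hh, hs⟩)
  -- uniform continuity
  have huc := hcomp.uniformContinuousOn_of_continuous hcont
  rw [Metric.uniformContinuousOn_iff] at huc
  obtain ⟨δ, hδ, huc⟩ := huc d0 hd0pos
  -- maximum principle
  have hmax : ∀ h ∈ Icc (0:ℝ) 1, (∀ s ∈ Metric.closedBall (0:ℂ) 1, Z (h, s) ≠ 0) →
      ∀ s ∈ Metric.closedBall (0:ℂ) 1, d0 ≤ ‖Z (h, s)‖ := by
    intro h hh hne s hs
    have hc1 : ContinuousOn (fun s : ℂ => Z (h, s)) (Metric.closedBall (0:ℂ) 1) := by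
      apply hcont.comp (by fun_prop)
      intro s hs
      exact ⟨hh, hs⟩
    have hd : DiffContOnCl ℂ (fun s : ℂ => (Z (h, s))⁻¹) (Metric.ball (0:ℂ) 1) := by
      constructor
      · apply DifferentiableOn.inv
        · exact Z_diff a b ha hb hab R hR Gc hG h
        · intro s hs
          exact hne s (Metric.ball_subset_closedBall hs)
      · rw [closure_ball (0:ℂ) one_ne_zero]
        exact hc1.inv₀ hne
    have := Complex.norm_le_of_forall_mem_frontier_norm_le (C := d0⁻¹) Metric.isBounded_ball hd ?_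
      (z := s) (by rw [closure_ball (0:ℂ) one_ne_zero]; exact hs)
    · rw [norm_inv] at this
      exact (inv_le_inv₀ (norm_pos_iff.2 (hne s hs)) hd0pos).1 this
    · intro z hz
      rw [frontier_ball (0:ℂ) one_ne_zero] at hz
      rw [norm_inv]
      exact (inv_le_inv₀ (norm_pos_iff.2 (hcirc h hh z hz)) hd0pos).2 (hlow h hh z hz)
  obtain ⟨n, hn⟩ := exists_nat_gt (1 / δ)
  have hn0 : 0 < (n : ℝ) := lt_trans (by positivity) hn
  have hstep : ∀ k : ℕ, k ≤ n → ∀ s ∈ Metric.closedBall (0:ℂ) 1, d0 ≤ ‖Z ((k : ℝ) / n, s)‖ := by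
    intro k
    induction k with
    | zero =>
      intro _
      apply hmax
      · simp
      · intro s hs
        simp only [Nat.cast_zero, zero_div]
        rw [hZ0]; exact one_ne_zero
    | succ k ih =>
      intro hk
      have ihk := ih (by omega)
      have hkn : ((k + 1 : ℕ) : ℝ) / n ≤ 1 := by
        rw [div_le_one hn0]; exact_mod_cast hk
      have hk1 : ((k + 1 : ℕ) : ℝ) / n ∈ Icc (0:ℝ) 1 := ⟨by positivity, hkn⟩
      have hk0 : ((k : ℕ) : ℝ) / n ∈ Icc (0:ℝ) 1 := by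
        refine ⟨by positivity, le_trans ?_ hkn⟩
        apply div_le_div_of_nonneg_right _ hn0.le
        push_cast; linarith
      apply hmax _ hk1
      intro s hs hzero
      have h1 := huc (((k + 1 : ℕ) : ℝ) / n, s) ⟨hk1, hs⟩ (((k : ℕ) : ℝ) / n, s) ⟨hk0, hs⟩ ?_
      · rw [hzero, dist_comm, dist_zero_right] at h1
        exact absurd (ihk s hs) (not_le.2 h1)
      · rw [Prod.dist_eq]
        simp only [dist_self]
        rw [max_eq_left dist_nonneg, Real.dist_eq]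
        have : ((k + 1 : ℕ) : ℝ) / n - (k : ℝ) / n = 1 / n := by
          push_cast; ring
        rw [this, abs_of_pos (by positivity)]
        rw [div_lt_iff₀ hn0]
        rw [div_lt_iff₀ hδ] at hn
        linarith
  have hfin := hstep n le_rfl 0 (by simp)
  rw [div_self hn0.ne'] at hfin
  intro h0
  have : Z (1, 0) = ∫ t in (0:ℝ)..1, Complex.exp (Gc ((1 - t) * a + t * b)) := by
    rw [hZ]
    apply intervalIntegral.integral_congr
    intro t _
    simp [zeta]
  rw [this, h0, norm_zero] at hfin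
  exact absurd hfin (not_le.2 hd0pos)

end Pool.Agent.JohnC
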