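import Pool.Agent.Lib_MP_1fe18a_an.B3

/-! Piece B4: from disc_ne_zero to injectivity. -/

set_option autoImplicit false

open Complex Set Filter Topology MeasureTheory

namespace Pool.Agent.JohnC

namespace B4

/-- a nonvanishing holomorphic function on a disc has a logarithm -/
theorem exists_log (R : ℝ) (hR : 0 < R) (h : ℂ → ℂ)
    (hh : DifferentiableOn ℂ h (Metric.ball 0 R)) (h0 : ∀ z ∈ Metric.ball (0:ℂ) R, h z ≠ 0) :
    ∃ G : ℂ → ℂ, DifferentiableOn ℂ G (Metric.ball 0 R) ∧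
      ∀ z ∈ Metric.ball (0:ℂ) R, Complex.exp (G z) = h z := by
  have hopen : IsOpen (Metric.ball (0:ℂ) R) := Metric.isOpen_ball
  have hd : DifferentiableOn ℂ (fun z => deriv h z / h z) (Metric.ball 0 R) :=
    (hh.deriv hopen).div hh h0
  obtain ⟨g, hg⟩ := hd.isExactOn_ball
  have h00 : (0:ℂ) ∈ Metric.ball (0:ℂ) R := Metric.mem_ball_self hR
  refine ⟨fun z => g z - g 0 + Complex.log (h 0), ?_, ?_⟩
  · intro z hz
    exact (((hg z hz).sub_const (g 0)).add_const _).differentiableAt.differentiableWithinAt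
  · intro z hz
    have hder : ∀ w ∈ Metric.ball (0:ℂ) R,
        HasDerivAt (fun w => Complex.exp (-(g w - g 0 + Complex.log (h 0))) * h w) 0 w := by
      intro w hw
      have h1 := ((hg w hw).sub_const (g 0)).add_const (Complex.log (h 0))
      have h2 := h1.neg.cexp
      have h3 := (hh.differentiableAt (hopen.mem_nhds hw)).hasDerivAt
      have h4 := h2.mul h3
      have h5 := h0 w hw
      have h6 : (deriv h w / h w) * h w = deriv h w := div_mul_cancel₀ _ h5
      refine h4.congr_deriv ?_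
      linear_combination (-Complex.exp (-(g w - g 0 + Complex.log (h 0)))) * h6
    have hconst : Complex.exp (-(g z - g 0 + Complex.log (h 0))) * h z =
        Complex.exp (-(g 0 - g 0 + Complex.log (h 0))) * h 0 := by
      have hconv : Convex ℝ (Metric.ball (0:ℂ) R) := convex_ball _ _
      exact hconv.is_const_of_fderivWithin_eq_zero (𝕜 := ℂ)
        (f := fun w => Complex.exp (-(g w - g 0 + Complex.log (h 0))) * h w)
        (fun w hw => (hder w hw).differentiableAt.differentiableWithinAt)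
        (fun w hw => by
          rw [fderivWithin_of_isOpen hopen hw]
          have h9 := (hder w hw).hasFDerivAt.fderiv
          rw [h9]
          ext
          simp) hz h00
    have h5 : Complex.exp (-(g 0 - g 0 + Complex.log (h 0))) * h 0 = 1 := by
      rw [sub_self, zero_add, Complex.exp_neg, Complex.exp_log (h0 0 h00)]
      exact inv_mul_cancel₀ (h0 0 h00)
    rw [h5, Complex.exp_neg] at hconst
    have h6 := Complex.exp_ne_zero (g z - g 0 + Complex.log (h 0))
    field_simp at hconst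
    exact hconst.symm

/-- the geometric step: a point on the segment from 0 to q at equal distance from p and q -/
theorem exists_center (p q : ℂ) (hpq : p ≠ q) (hle : ‖p‖ ≤ ‖q‖) :
    ∃ t : ℝ, 0 ≤ t ∧ t < 1 ∧ ‖p - t * q‖ = (1 - t) * ‖q‖ ∧ 0 < ‖q‖ := by
  have hq : 0 < ‖q‖ := by
    rcases (norm_nonneg q).lt_or_eq with h | h
    · exact h
    · exfalso
      apply hpq
      have h1 : ‖p‖ ≤ 0 := by rw [h]; exact hle
      have h2 : p = 0 := norm_le_zero_iff.mp h1
      have h3 : q = 0 := norm_eq_zero.mp h.symm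
      rw [h2, h3]
  have hc : ContinuousOn (fun t : ℝ => ‖p - (t:ℂ) * q‖ - (1 - t) * ‖q‖) (Icc 0 1) := by
    fun_prop
  have h0 : (fun t : ℝ => ‖p - (t:ℂ) * q‖ - (1 - t) * ‖q‖) 0 ≤ 0 := by
    simp
    exact hle
  have h1 : 0 < (fun t : ℝ => ‖p - (t:ℂ) * q‖ - (1 - t) * ‖q‖) 1 := by
    simp
    exact sub_ne_zero.mpr hpq
  obtain ⟨t, ht, hteq⟩ := intermediate_value_Icc (zero_le_one) hc ⟨h0, h1.le⟩
  have ht1 : t ≠ 1 := by
    rintro rfl
    exact absurd hteq (ne_of_gt h1)
  exact ⟨t, ht.1, lt_of_le_of_ne ht.2 ht1, by simpa [sub_eq_zero] using hteq, hq⟩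

/-- the core: equal values at two points of the disc, the first one nearer to the origin -/
theorem key (l : ℝ) (hl : 0 < l) (H : HalfPlaneThm l) (g : ℝ)
    (hg : g < Real.exp (l * Real.pi)) (f : ℂ → ℂ)
    (hf : DifferentiableOn ℂ f (Metric.ball (0 : ℂ) 1)) (m M : ℝ) (hm : 0 < m)
    (hb : ∀ z ∈ Metric.ball (0 : ℂ) 1, m ≤ ‖deriv f z‖ ∧ ‖deriv f z‖ ≤ M)
    (hM : M ≤ g * m) (p q : ℂ) (hq1 : ‖q‖ < 1) (hle : ‖p‖ ≤ ‖q‖) (hpq : p ≠ q)
    (hfpq : f p = f q) : False := by
  obtain ⟨t, ht0, ht1, htp, hq⟩ := exists_center p q hpq hle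
  set c : ℂ := (t:ℂ) * q with hc
  set r : ℝ := (1 - t) * ‖q‖ with hr
  have hrpos : 0 < r := mul_pos (by linarith) hq
  have hrc : (r:ℂ) ≠ 0 := by exact_mod_cast hrpos.ne'
  have hcn : ‖c‖ = t * ‖q‖ := by
    rw [hc, norm_mul, Complex.norm_real, Real.norm_of_nonneg ht0]
  have hcr : ‖c‖ + r = ‖q‖ := by rw [hcn, hr]; ring
  set R : ℝ := (1 - ‖c‖) / r with hR
  have hR1 : 1 < R := by
    rw [hR, lt_div_iff₀ hrpos]
    linarith
  set φ : ℂ → ℂ := fun z => c + r * z with hφ
  have hmaps : ∀ z ∈ Metric.ball (0:ℂ) R, φ z ∈ Metric.ball (0:ℂ) 1 := by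
    intro z hz
    rw [mem_ball_zero_iff] at hz ⊢
    have h1 : ‖φ z‖ ≤ ‖c‖ + r * ‖z‖ := by
      have h9 : ‖(r:ℂ) * z‖ = r * ‖z‖ := by
        rw [norm_mul, Complex.norm_real, Real.norm_of_nonneg hrpos.le]
      rw [← h9]
      exact norm_add_le _ _
    have h2 : r * ‖z‖ < r * R := mul_lt_mul_of_pos_left hz hrpos
    have h3 : r * R = 1 - ‖c‖ := by rw [hR]; field_simp
    linarith
  have hopen1 : IsOpen (Metric.ball (0:ℂ) 1) := Metric.isOpen_ball
  have hderφ : ∀ z, HasDerivAt φ r z := by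
    intro z
    have := ((hasDerivAt_id z).const_mul (r:ℂ)).const_add c
    simpa [hφ] using this
  set h : ℂ → ℂ := fun z => r * deriv f (φ z) with hh
  have hhd : DifferentiableOn ℂ h (Metric.ball 0 R) := by
    have h1 : DifferentiableOn ℂ (fun z => deriv f (φ z)) (Metric.ball 0 R) :=
      (hf.deriv hopen1).comp (fun z _ => (hderφ z).differentiableAt.differentiableWithinAt) hmaps
    exact h1.const_mul _
  have hnorm : ∀ z ∈ Metric.ball (0:ℂ) R, r * m ≤ ‖h z‖ ∧ ‖h z‖ ≤ r * M := by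
    intro z hz
    have h1 := hb (φ z) (hmaps z hz)
    have h2 : ‖h z‖ = r * ‖deriv f (φ z)‖ := by
      rw [hh]
      simp only [norm_mul, Complex.norm_real, Real.norm_of_nonneg hrpos.le]
    rw [h2]
    exact ⟨mul_le_mul_of_nonneg_left h1.1 hrpos.le, mul_le_mul_of_nonneg_left h1.2 hrpos.le⟩
  have hh0 : ∀ z ∈ Metric.ball (0:ℂ) R, h z ≠ 0 := by
    intro z hz h0
    have := (hnorm z hz).1
    rw [h0, norm_zero] at this
    have := mul_pos hrpos hm
    linarith
  obtain ⟨G, hGd, hGe⟩ := exists_log R (by linarith) h hhd hh0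
  -- bounds
  have h00 : (0:ℂ) ∈ Metric.ball (0:ℂ) 1 := Metric.mem_ball_self one_pos
  have hmM : m ≤ M := le_trans (hb 0 h00).1 (hb 0 h00).2
  have hMpos : 0 < M := lt_of_lt_of_le hm hmM
  have hgpos : 0 < g := by
    by_contra hcon
    push Not at hcon
    have : g * m ≤ 0 := mul_nonpos_of_nonpos_of_nonneg hcon hm.le
    linarith
  have hlogg : Real.log g < l * Real.pi := by
    rw [Real.log_lt_iff_lt_exp hgpos]
    exact hg
  set ε : ℝ := (l * Real.pi - Real.log g) / 2 with hε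
  have hεpos : 0 < ε := by rw [hε]; linarith
  have hlogM : Real.log (r * M) ≤ Real.log g + Real.log (r * m) := by
    rw [← Real.log_mul hgpos.ne' (mul_pos hrpos hm).ne']
    apply Real.log_le_log (mul_pos hrpos hMpos)
    calc r * M ≤ r * (g * m) := mul_le_mul_of_nonneg_left hM hrpos.le
      _ = g * (r * m) := by ring
  have hre : ∀ z ∈ Metric.ball (0:ℂ) R,
      Real.log (r * m) ≤ (G z).re ∧ (G z).re ≤ Real.log (r * M) := by
    intro z hz
    have h1 : ‖h z‖ = Real.exp (G z).re := by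
      rw [← hGe z hz, Complex.norm_exp]
    have h2 := hnorm z hz
    rw [h1] at h2
    constructor
    · rw [Real.log_le_iff_le_exp (mul_pos hrpos hm)]
      exact h2.1
    · rw [Real.le_log_iff_exp_le (mul_pos hrpos hMpos)]
      exact h2.2
  set K : ℝ := Real.log (r * M) + ε with hK
  set Gc : ℂ → ℂ := fun z => G z - K with hGc
  have hGcd : DifferentiableOn ℂ Gc (Metric.ball 0 R) := hGd.sub_const _
  have hGcr : ∀ z ∈ Metric.ball (0:ℂ) R,
      -(l * Real.pi) + ε ≤ (Gc z).re ∧ (Gc z).re ≤ -ε := by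
    intro z hz
    have h1 := hre z hz
    have h2 : (Gc z).re = (G z).re - K := by
      rw [hGc]; simp
    rw [h2]
    constructor
    · have : 2 * ε = l * Real.pi - Real.log g := by rw [hε]; ring
      linarith [h1.1]
    · linarith [h1.2]
  set a : ℂ := (p - c) / r with ha
  set b : ℂ := (q - c) / r with hbb
  have ha1 : ‖a‖ = 1 := by
    rw [ha, norm_div, Complex.norm_real, Real.norm_of_nonneg hrpos.le, htp]
    exact div_self hrpos.ne'
  have hb1 : ‖b‖ = 1 := by
    have h1 : q - c = ((1 - t : ℝ) : ℂ) * q := by rw [hc]; push_cast; ring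
    rw [hbb, norm_div, Complex.norm_real, Real.norm_of_nonneg hrpos.le, h1, norm_mul,
      Complex.norm_real, Real.norm_of_nonneg (by linarith : (0:ℝ) ≤ 1 - t)]
    exact div_self hrpos.ne'
  have hab : a ≠ b := by
    intro hcon
    rw [ha, hbb, div_left_inj' hrc] at hcon
    exact hpq (sub_left_injective hcon)
  have hφa : φ a = p := by rw [hφ, ha]; field_simp; ring
  have hφb : φ b = q := by rw [hφ, hbb]; field_simp; ring
  have hne := disc_ne_zero l hl H a b ha1 hb1 hab R ε hR1 hεpos Gc hGcd hGcr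
  apply hne
  -- the segment is in the ball
  have hseg : ∀ t ∈ Icc (0:ℝ) 1, (1 - (t:ℂ)) * a + t * b ∈ Metric.ball (0:ℂ) R := by
    intro s hs
    rw [mem_ball_zero_iff]
    refine lt_of_le_of_lt ?_ hR1
    calc ‖(1 - (s:ℂ)) * a + s * b‖ ≤ ‖(1 - (s:ℂ)) * a‖ + ‖(s:ℂ) * b‖ := norm_add_le _ _
      _ = (1 - s) * 1 + s * 1 := by
        rw [norm_mul, norm_mul, ha1, hb1]
        have h1 : (1 - (s:ℂ)) = ((1 - s : ℝ) : ℂ) := by push_cast; ring
        rw [h1, Complex.norm_real, Complex.norm_real, Real.norm_of_nonneg hs.1,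
          Real.norm_of_nonneg (by linarith [hs.2] : (0:ℝ) ≤ 1 - s)]
      _ = 1 := by ring
  have hderiv : ∀ t ∈ uIcc (0:ℝ) 1,
      HasDerivAt (fun t : ℝ => f (φ ((1 - (t:ℂ)) * a + t * b)))
        ((b - a) * h ((1 - (t:ℂ)) * a + t * b)) t := by
    intro s hs
    rw [uIcc_of_le zero_le_one] at hs
    have h1 := hmaps _ (hseg s hs)
    have h2 := (hf.differentiableAt (hopen1.mem_nhds h1)).hasDerivAt
    have h3 := hderφ ((1 - (s:ℂ)) * a + s * b)
    have h4 : HasDerivAt (fun t : ℝ => (1 - (t:ℂ)) * a + t * b) (b - a) s := by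
      have h5 : HasDerivAt (fun t : ℝ => (t:ℂ)) 1 s := Complex.ofRealCLM.hasDerivAt
      have h6 := ((h5.const_sub 1).mul_const a).add (h5.mul_const b)
      have h7 : -1 * a + 1 * b = b - a := by ring
      rw [h7] at h6
      exact h6
    have h7 := HasDerivAt.comp s (h₂ := fun z => f (φ z)) (h := fun t : ℝ => (1 - (t:ℂ)) * a + t * b)
      (h2.comp _ h3) h4
    have h8 : deriv f (φ ((1 - (s:ℂ)) * a + s * b)) * (r:ℂ) * (b - a) =
        (b - a) * h ((1 - (s:ℂ)) * a + s * b) := by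
      rw [hh]
      ring
    rw [← h8]
    exact h7
  have hcont : ContinuousOn (fun t : ℝ => (b - a) * h ((1 - (t:ℂ)) * a + t * b)) (uIcc 0 1) := by
    rw [uIcc_of_le zero_le_one]
    apply ContinuousOn.mul continuousOn_const
    exact hhd.continuousOn.comp (by fun_prop) hseg
  have hint := intervalIntegral.integral_eq_sub_of_hasDerivAt hderiv hcont.intervalIntegrable
  have hzero : (∫ t in (0:ℝ)..1, (b - a) * h ((1 - (t:ℂ)) * a + t * b)) = 0 := by
    rw [hint]
    simp only [Complex.ofReal_one, Complex.ofReal_zero, sub_self, zero_mul, one_mul, zero_add,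
      sub_zero, add_zero]
    rw [hφa, hφb, hfpq, sub_self]
  have heq : (∫ t in (0:ℝ)..1, Complex.exp (Gc ((1 - t) * a + t * b))) =
      (Complex.exp (-(K:ℂ)) / (b - a)) *
        ∫ t in (0:ℝ)..1, (b - a) * h ((1 - (t:ℂ)) * a + t * b) := by
    rw [← intervalIntegral.integral_const_mul]
    apply intervalIntegral.integral_congr
    intro s hs
    rw [uIcc_of_le zero_le_one] at hs
    have h1 := hGe _ (hseg s hs)
    have h2 : b - a ≠ 0 := sub_ne_zero.mpr hab.symm
    simp only [hGc]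
    rw [sub_eq_add_neg, Complex.exp_add, h1]
    field_simp
  rw [heq, hzero, mul_zero]

end B4

theorem inj_of_ratio (l : ℝ) (hl : 0 < l) (H : HalfPlaneThm l) (g : ℝ)
    (hg : g < Real.exp (l * Real.pi)) (f : ℂ → ℂ)
    (hf : DifferentiableOn ℂ f (Metric.ball (0 : ℂ) 1)) (m M : ℝ) (hm : 0 < m)
    (hb : ∀ z ∈ Metric.ball (0 : ℂ) 1, m ≤ ‖deriv f z‖ ∧ ‖deriv f z‖ ≤ M)
    (hM : M ≤ g * m) : Set.InjOn f (Metric.ball (0 : ℂ) 1) := by
  intro p hp q hq hfpq
  by_contra hpq
  rw [mem_ball_zero_iff] at hp hq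
  rcases le_total ‖p‖ ‖q‖ with h | h
  · exact B4.key l hl H g hg f hf m M hm hb hM p q hq h hpq hfpq
  · exact B4.key l hl H g hg f hf m M hm hb hM q p hp h (Ne.symm hpq) hfpq.symm

end Pool.Agent.JohnC
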