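import Pool.Agent.Lib_MP_1fe18a_an.Defs

/-! Basic facts on `E0`, `alp`, `nu` (piece G1). -/

set_option autoImplicit false

open Complex Set Filter Topology MeasureTheory

namespace Pool.Agent.JohnC

theorem mk_sub_one (x y : ℝ) : (⟨x, y⟩ : ℂ) - 1 = ⟨x - 1, y⟩ := by
  apply Complex.ext <;> simp

theorem mk_add_one (x y : ℝ) : (⟨x, y⟩ : ℂ) + 1 = ⟨x + 1, y⟩ := by
  apply Complex.ext <;> simp

theorem norm_mk (x y : ℝ) : ‖(⟨x, y⟩ : ℂ)‖ = Real.sqrt (x ^ 2 + y ^ 2) := by
  rw [Complex.norm_def, Complex.normSq_mk]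
  congr 1
  ring

theorem arg_pos_lt (x y : ℝ) (hy : 0 < y) :
    0 < Complex.arg (⟨x, y⟩ : ℂ) ∧ Complex.arg (⟨x, y⟩ : ℂ) < Real.pi := by
  constructor
  · refine lt_of_le_of_ne (Complex.arg_nonneg_iff.2 hy.le) ?_
    intro h
    have := (Complex.arg_eq_zero_iff.1 h.symm).2
    simp only at this
    linarith
  · refine lt_of_le_of_ne (Complex.arg_le_pi _) ?_
    intro h
    have := (Complex.arg_eq_pi_iff.1 h).2
    simp only at this
    linarith

theorem NN_pos (x y : ℝ) (hy : 0 < y) : 0 < NN x y := by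
  unfold NN
  rcases eq_or_ne x 0 with h | h
  · subst h
    have : 0 < 1 + y ^ 2 := by positivity
    nlinarith
  · have : 0 < (2 * x * y) ^ 2 := by positivity
    nlinarith [sq_nonneg (x ^ 2 - y ^ 2 - 1)]

theorem sqrt_NN (x y : ℝ) : Real.sqrt (NN x y) =
    Real.sqrt ((x - 1) ^ 2 + y ^ 2) * Real.sqrt ((x + 1) ^ 2 + y ^ 2) := by
  rw [← Real.sqrt_mul (by positivity)]
  congr 1
  unfold NN
  ring

/-! ### G: basic facts on E0 -/
theorem alp_facts (x y : ℝ) (hy : 0 < y) :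
    0 < alp x y ∧ alp x y < Real.pi ∧ 0 < NN x y ∧
      Real.sin (alp x y) = 2 * y / Real.sqrt (NN x y) ∧
      Real.cos (alp x y) = (x ^ 2 + y ^ 2 - 1) / Real.sqrt (NN x y) := by
  have hN := NN_pos x y hy
  have h1 := arg_pos_lt (x - 1) y hy
  have h2 := arg_pos_lt (x + 1) y hy
  have n1 : 0 < Real.sqrt ((x - 1) ^ 2 + y ^ 2) := Real.sqrt_pos.2 (by positivity)
  have n2 : 0 < Real.sqrt ((x + 1) ^ 2 + y ^ 2) := Real.sqrt_pos.2 (by positivity)
  have z1 : (⟨x - 1, y⟩ : ℂ) ≠ 0 := by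
    intro h; have := congrArg Complex.im h; simp only [Complex.zero_im] at this; linarith
  have z2 : (⟨x + 1, y⟩ : ℂ) ≠ 0 := by
    intro h; have := congrArg Complex.im h; simp only [Complex.zero_im] at this; linarith
  have hsin : Real.sin (alp x y) = 2 * y / Real.sqrt (NN x y) := by
    unfold alp
    rw [mk_sub_one, mk_add_one, Real.sin_sub, Complex.sin_arg, Complex.sin_arg,
      Complex.cos_arg z1, Complex.cos_arg z2, norm_mk, norm_mk, sqrt_NN]
    field_simp
    ring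
  have hcos : Real.cos (alp x y) = (x ^ 2 + y ^ 2 - 1) / Real.sqrt (NN x y) := by
    unfold alp
    rw [mk_sub_one, mk_add_one, Real.cos_sub, Complex.sin_arg, Complex.sin_arg,
      Complex.cos_arg z1, Complex.cos_arg z2, norm_mk, norm_mk, sqrt_NN]
    field_simp
    ring
  have hsp : 0 < Real.sin (alp x y) := by
    rw [hsin]; exact div_pos (by linarith) (Real.sqrt_pos.2 hN)
  have hlt : alp x y < Real.pi := by
    unfold alp; rw [mk_sub_one, mk_add_one]; linarith
  have hgt : -Real.pi < alp x y := by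
    unfold alp; rw [mk_sub_one, mk_add_one]; linarith
  refine ⟨?_, hlt, hN, hsin, hcos⟩
  by_contra hle
  push Not at hle
  have := Real.sin_nonpos_of_nonpos_of_neg_pi_le hle hgt.le
  linarith

theorem g0_mk (l x y : ℝ) (hy : 0 < y) :
    (g0 l ⟨x, y⟩).re = -(l * alp x y) ∧ (g0 l ⟨x, y⟩).im = -(nu l x y) := by
  have n1 : 0 < (x - 1) ^ 2 + y ^ 2 := by positivity
  have n2 : 0 < (x + 1) ^ 2 + y ^ 2 := by positivity
  unfold g0 alp nu
  rw [mk_sub_one, mk_add_one]
  constructor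
  · simp [Complex.log_im]
  · simp only [Complex.mul_im, Complex.mul_re, Complex.I_re, Complex.I_im, Complex.ofReal_re,
      Complex.ofReal_im, Complex.sub_re, Complex.sub_im, Complex.log_re, Complex.log_im, norm_mk]
    rw [Real.log_div n2.ne' n1.ne', Real.log_sqrt n1.le, Real.log_sqrt n2.le]
    ring

theorem E0_mk (l x y : ℝ) (hy : 0 < y) : E0 l (⟨x, y⟩ : ℂ) = ⟨er l x y, ei l x y⟩ := by
  obtain ⟨h1, h2⟩ := g0_mk l x y hy
  unfold E0
  apply Complex.ext
  · rw [Complex.exp_re, h1, h2, Real.cos_neg]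
    rfl
  · rw [Complex.exp_im, h1, h2, Real.sin_neg]
    simp only [ei, mE]
    ring

theorem slit_of (z : ℂ) (hz : 0 < z.im ∨ 1 < z.re) :
    z - 1 ∈ Complex.slitPlane ∧ z + 1 ∈ Complex.slitPlane := by
  rw [Complex.mem_slitPlane_iff, Complex.mem_slitPlane_iff]
  simp only [Complex.sub_re, Complex.sub_im, Complex.add_re, Complex.add_im, Complex.one_re,
    Complex.one_im, sub_zero, add_zero]
  rcases hz with h | h
  · exact ⟨Or.inr h.ne', Or.inr h.ne'⟩
  · exact ⟨Or.inl (by linarith), Or.inl (by linarith)⟩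

theorem g0_deriv (l : ℝ) (z : ℂ) (hz : 0 < z.im ∨ 1 < z.re) :
    HasDerivAt (g0 l) (2 * I * l / (z ^ 2 - 1)) z := by
  obtain ⟨s1, s2⟩ := slit_of z hz
  have h1 : HasDerivAt (fun z : ℂ => Complex.log (z - 1)) (1 / (z - 1)) z :=
    ((hasDerivAt_id z).sub_const 1).clog s1
  have h2 : HasDerivAt (fun z : ℂ => Complex.log (z + 1)) (1 / (z + 1)) z :=
    ((hasDerivAt_id z).add_const 1).clog s2
  have h3 := (h1.sub h2).const_mul (I * (l : ℂ))
  have n1 : z - 1 ≠ 0 := Complex.slitPlane_ne_zero s1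
  have n2 : z + 1 ≠ 0 := Complex.slitPlane_ne_zero s2
  have n3 : z ^ 2 - 1 ≠ 0 := by
    have : z ^ 2 - 1 = (z - 1) * (z + 1) := by ring
    rw [this]; exact mul_ne_zero n1 n2
  refine h3.congr_deriv ?_
  field_simp
  ring

theorem sinh_pos_aux (l : ℝ) (hl : 0 < l) : 0 < Real.sinh (Real.pi / (4 * l)) :=
  Real.sinh_pos_iff.2 (by positivity)

theorem bet_gt (l : ℝ) (hl : 0 < l) : 1 < bet l := by
  have h := sinh_pos_aux l hl
  unfold bet
  rw [one_lt_div h]
  exact Real.sinh_lt_cosh _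

theorem bet_ratio (l : ℝ) (hl : 0 < l) :
    (bet l + 1) / (bet l - 1) = Real.exp (Real.pi / (2 * l)) := by
  have h := sinh_pos_aux l hl
  have h1 := bet_gt l hl
  have h2 : bet l - 1 ≠ 0 := by linarith
  rw [div_eq_iff h2]
  have e1 : Real.exp (Real.pi / (2 * l)) =
      Real.exp (Real.pi / (4 * l)) * Real.exp (Real.pi / (4 * l)) := by
    rw [← Real.exp_add]; congr 1; field_simp; ring
  have e2 : Real.exp (Real.pi / (4 * l)) * Real.exp (-(Real.pi / (4 * l))) = 1 := by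
    rw [← Real.exp_add]; simp
  have hb : bet l * Real.sinh (Real.pi / (4 * l)) = Real.cosh (Real.pi / (4 * l)) := by
    unfold bet; field_simp
  have e3 : (bet l + 1) * Real.sinh (Real.pi / (4 * l)) = Real.exp (Real.pi / (4 * l)) := by
    rw [add_mul, hb, one_mul, Real.cosh_add_sinh]
  have e4 : (bet l - 1) * Real.sinh (Real.pi / (4 * l)) = Real.exp (-(Real.pi / (4 * l))) := by
    rw [sub_mul, hb, one_mul, Real.cosh_sub_sinh]
  have : (bet l + 1) * Real.sinh (Real.pi / (4 * l)) =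
      Real.exp (Real.pi / (2 * l)) * (bet l - 1) * Real.sinh (Real.pi / (4 * l)) := by
    rw [mul_assoc, e4, e3, e1, mul_assoc, e2, mul_one]
  exact mul_right_cancel₀ h.ne' this

theorem E0_bet (l : ℝ) (hl : 0 < l) : E0 l (bet l) = -I := by
  have h1 := bet_gt l hl
  have h2 : g0 l (bet l) = (((-(Real.pi / 2)) : ℝ) : ℂ) * I := by
    unfold g0
    have e1 : (bet l : ℂ) - 1 = ((bet l - 1 : ℝ) : ℂ) := by push_cast; ring
    have e2 : (bet l : ℂ) + 1 = ((bet l + 1 : ℝ) : ℂ) := by push_cast; ring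
    rw [e1, e2, ← Complex.ofReal_log (by linarith), ← Complex.ofReal_log (by linarith)]
    have e3 : Real.log (bet l + 1) - Real.log (bet l - 1) = Real.pi / (2 * l) := by
      rw [← Real.log_div (by linarith) (by linarith), bet_ratio l hl, Real.log_exp]
    have e4 : Real.log (bet l - 1) = Real.log (bet l + 1) - Real.pi / (2 * l) := by linarith
    rw [e4]
    push_cast
    have : (l : ℂ) ≠ 0 := by exact_mod_cast hl.ne'
    field_simp
    ring
  unfold E0
  rw [h2, Complex.exp_mul_I, ← Complex.ofReal_cos, ← Complex.ofReal_sin, Real.cos_neg,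
    Real.sin_neg, Real.cos_pi_div_two, Real.sin_pi_div_two]
  simp

theorem E0_norm_le (l : ℝ) (hl : 0 < l) (z : ℂ) (hz : 0 < z.im ∨ 1 < z.re) (hz' : 0 ≤ z.im) :
    ‖E0 l z‖ ≤ 1 := by
  unfold E0
  rw [Complex.norm_exp, Real.exp_le_one_iff]
  rcases hz'.eq_or_lt with h | h
  · have h1 : 1 < z.re := by
      rcases hz with h' | h'
      · linarith
      · exact h'
    have hzz : z = ((z.re : ℝ) : ℂ) := by apply Complex.ext <;> simp [← h]
    unfold g0
    rw [hzz]
    have e1 : ((z.re : ℝ) : ℂ) - 1 = ((z.re - 1 : ℝ) : ℂ) := by push_cast; ring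
    have e2 : ((z.re : ℝ) : ℂ) + 1 = ((z.re + 1 : ℝ) : ℂ) := by push_cast; ring
    rw [e1, e2, ← Complex.ofReal_log (by linarith), ← Complex.ofReal_log (by linarith)]
    simp
  · have := (g0_mk l z.re z.im h).1
    rw [show (⟨z.re, z.im⟩ : ℂ) = z from rfl] at this
    rw [this]
    have h2 := (alp_facts z.re z.im h).1
    nlinarith

theorem alp_neg (x y : ℝ) (hy : 0 < y) : alp (-x) y = alp x y := by
  obtain ⟨a1, a2, _, _, a5⟩ := alp_facts x y hy
  obtain ⟨b1, b2, _, _, b5⟩ := alp_facts (-x) y hy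
  refine Real.injOn_cos ⟨b1.le, b2.le⟩ ⟨a1.le, a2.le⟩ ?_
  rw [a5, b5]
  have : NN (-x) y = NN x y := by unfold NN; ring
  rw [this, neg_sq]

theorem nu_neg (l x y : ℝ) (hy : 0 < y) : nu l (-x) y = -nu l x y := by
  have n1 : 0 < (x - 1) ^ 2 + y ^ 2 := by positivity
  have n2 : 0 < (x + 1) ^ 2 + y ^ 2 := by positivity
  unfold nu
  rw [show (-x + 1) ^ 2 + y ^ 2 = (x - 1) ^ 2 + y ^ 2 by ring,
    show (-x - 1) ^ 2 + y ^ 2 = (x + 1) ^ 2 + y ^ 2 by ring,
    Real.log_div n1.ne' n2.ne', Real.log_div n2.ne' n1.ne']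
  ring

theorem E0_reflect (l : ℝ) (z : ℂ) (hz : 0 < z.im) :
    E0 l (-(starRingEnd ℂ z)) = starRingEnd ℂ (E0 l z) := by
  have e1 : -(starRingEnd ℂ z) = ⟨-z.re, z.im⟩ := by
    apply Complex.ext <;> simp
  have e2 : E0 l z = ⟨er l z.re z.im, ei l z.re z.im⟩ := E0_mk l z.re z.im hz
  rw [e1, E0_mk l (-z.re) z.im hz, e2]
  apply Complex.ext
  · simp only [Complex.conj_re, er, mE, alp_neg _ _ hz, nu_neg _ _ _ hz, Real.cos_neg]
  · simp only [Complex.conj_im, ei, mE, alp_neg _ _ hz, nu_neg _ _ _ hz, Real.sin_neg]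
    ring

theorem nu_facts (l x y : ℝ) (hl : 0 < l) (hx : 0 ≤ x) (hy : 0 < y)
    (hO : 0 < (x - 1 / bet l) * (x - bet l) + y ^ 2) :
    0 ≤ nu l x y ∧ nu l x y < Real.pi / 2 := by
  have n1 : 0 < (x - 1) ^ 2 + y ^ 2 := by positivity
  have n2 : 0 < (x + 1) ^ 2 + y ^ 2 := by positivity
  have hb := bet_gt l hl
  have hb0 : 0 < bet l := by linarith
  constructor
  · unfold nu
    refine mul_nonneg (by linarith) (Real.log_nonneg ?_)
    rw [le_div_iff₀ n1]
    nlinarith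
  · unfold nu
    have hQ : Real.exp (Real.pi / l) = ((bet l + 1) / (bet l - 1)) ^ 2 := by
      rw [bet_ratio l hl, sq, ← Real.exp_add]
      congr 1
      field_simp
      ring
    have hlt : ((x + 1) ^ 2 + y ^ 2) / ((x - 1) ^ 2 + y ^ 2) < Real.exp (Real.pi / l) := by
      rw [hQ, div_pow, div_lt_div_iff₀ n1 (by nlinarith)]
      have h1 : 0 < bet l * ((x - 1 / bet l) * (x - bet l) + y ^ 2) := mul_pos hb0 hO
      have h2 : bet l * ((x - 1 / bet l) * (x - bet l) + y ^ 2) =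
          bet l * (x ^ 2 + y ^ 2 + 1) - x * (bet l ^ 2 + 1) := by
        field_simp
        ring
      rw [h2] at h1
      nlinarith
    have h3 : Real.log (((x + 1) ^ 2 + y ^ 2) / ((x - 1) ^ 2 + y ^ 2)) < Real.pi / l := by
      rw [Real.log_lt_iff_lt_exp (div_pos n2 n1)]
      exact hlt
    calc l / 2 * Real.log (((x + 1) ^ 2 + y ^ 2) / ((x - 1) ^ 2 + y ^ 2))
        < l / 2 * (Real.pi / l) := by
          exact mul_lt_mul_of_pos_left h3 (by linarith)
      _ = Real.pi / 2 := by field_simp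

end Pool.Agent.JohnC
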