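import Pool.Agent.Lib_MP_1fe18a_an.Root
import Pool.Agent.Lib_MP_1fe18a_an.Basics

/-! Piece E1, second part: bounds for beta. -/

set_option autoImplicit false

open Complex Set Filter Topology MeasureTheory

namespace Pool.Agent.JohnC

theorem bet_eq_q (l : ℝ) (hl : 0 < l) :
    bet l * (1 - Real.exp (-(Real.pi / (2 * l)))) = 1 + Real.exp (-(Real.pi / (2 * l))) := by
  have h1 := bet_ratio l hl
  have h2 := bet_gt l hl
  rw [div_eq_iff (by linarith)] at h1
  have h3 : Real.exp (Real.pi / (2 * l)) * Real.exp (-(Real.pi / (2 * l))) = 1 := by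
    rw [← Real.exp_add]; simp
  have h4 : (bet l + 1) * Real.exp (-(Real.pi / (2 * l))) = bet l - 1 := by
    rw [h1]
    calc Real.exp (Real.pi / (2 * l)) * (bet l - 1) * Real.exp (-(Real.pi / (2 * l)))
        = (bet l - 1) * (Real.exp (Real.pi / (2 * l)) * Real.exp (-(Real.pi / (2 * l)))) := by
          ring
      _ = bet l - 1 := by rw [h3, mul_one]
  linarith

theorem bet_bounds (l : ℝ) (h1 : (0.627834 : ℝ) < l) (h2 : l < (0.627835 : ℝ)) :
    (1.1784754 : ℝ) < bet l ∧ bet l < (1.1784763 : ℝ) := by
  have hl : 0 < l := by linarith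
  have hpi := Real.pi_pos
  have hb := bet_eq_q l hl
  have q1 : Real.exp (-(Real.pi / (2 * 0.627834))) < Real.exp (-(Real.pi / (2 * l))) := by
    apply Real.exp_lt_exp.2
    apply neg_lt_neg
    apply div_lt_div_of_pos_left hpi (by norm_num) (by linarith)
  have q2 : Real.exp (-(Real.pi / (2 * l))) < Real.exp (-(Real.pi / (2 * 0.627835))) := by
    apply Real.exp_lt_exp.2
    apply neg_lt_neg
    apply div_lt_div_of_pos_left hpi (by linarith) (by linarith)
  have q3 := q0_lo
  have q4 := q1_hi
  set q : ℝ := Real.exp (-(Real.pi / (2 * l))) with hq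
  have hqlo : 0.08192677 < q := q3.trans q1
  have hqhi : q < 0.08192711 := q2.trans q4
  constructor
  · by_contra hcon
    push Not at hcon
    have : bet l * (1 - q) ≤ 1.1784754 * (1 - q) :=
      mul_le_mul_of_nonneg_right hcon (by linarith)
    rw [hb] at this
    linarith
  · by_contra hcon
    push Not at hcon
    have : 1.1784763 * (1 - q) ≤ bet l * (1 - q) :=
      mul_le_mul_of_nonneg_right hcon (by linarith)
    rw [hb] at this
    linarith

end Pool.Agent.JohnC
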