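import Pool.Agent.Lib_MP_1fe18a_an.Defs

/-! Piece C1: the boundary integral as a limit. -/

set_option autoImplicit false

open Complex Set Filter Topology MeasureTheory

namespace Pool.Agent.JohnC

theorem bnd_bet_gt (l : ℝ) (hl : 0 < l) : 1 < bet l := by
  unfold bet
  have h : 0 < Real.pi / (4 * l) := by positivity
  have hs : 0 < Real.sinh (Real.pi / (4 * l)) := Real.sinh_pos_iff.2 h
  rw [one_lt_div hs]
  exact Real.sinh_lt_cosh _

theorem bnd_mk (x y : ℝ) : (⟨x, y⟩ : ℂ) = (x : ℂ) + (y : ℂ) * I := Complex.mk_eq_add_mul_I x y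

theorem bnd_measurable (l y : ℝ) : Measurable (fun x : ℝ => (E0 l (⟨x, y⟩ : ℂ)).re) := by
  have h0 : Measurable (fun x : ℝ => ((x : ℂ) + (y : ℂ) * I)) :=
    (Complex.measurable_ofReal).add_const _
  have h1 : Measurable (fun x : ℝ => Complex.log ((x : ℂ) + (y : ℂ) * I - 1)) :=
    Complex.measurable_log.comp (h0.sub_const 1)
  have h2 : Measurable (fun x : ℝ => Complex.log ((x : ℂ) + (y : ℂ) * I + 1)) :=
    Complex.measurable_log.comp (h0.add_const 1)
  have h3 : Measurable (fun x : ℝ => Complex.exp (I * l * (Complex.log ((x : ℂ) + (y : ℂ) * I - 1)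
      - Complex.log ((x : ℂ) + (y : ℂ) * I + 1)))) :=
    Complex.measurable_exp.comp ((h1.sub h2).const_mul _)
  have h4 := Complex.measurable_re.comp h3
  have h5 : (fun x : ℝ => (E0 l (⟨x, y⟩ : ℂ)).re) = Complex.re ∘ (fun x : ℝ =>
      Complex.exp (I * l * (Complex.log ((x : ℂ) + (y : ℂ) * I - 1)
      - Complex.log ((x : ℂ) + (y : ℂ) * I + 1)))) := by
    funext x
    simp only [Function.comp, E0, g0, bnd_mk]
  rw [h5]
  exact h4

theorem bnd_le (l : ℝ) (hl : 0 < l) (z : ℂ) : |(E0 l z).re| ≤ Real.exp (2 * l * Real.pi) := by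
  refine (Complex.abs_re_le_norm _).trans ?_
  unfold E0
  rw [Complex.norm_exp]
  apply Real.exp_le_exp.2
  unfold g0
  have h1 : (I * (l : ℂ) * (Complex.log (z - 1) - Complex.log (z + 1))).re =
      -(l * (Complex.arg (z - 1) - Complex.arg (z + 1))) := by
    have : I * (l : ℂ) * (Complex.log (z - 1) - Complex.log (z + 1)) =
        (l : ℂ) * (I * (Complex.log (z - 1) - Complex.log (z + 1))) := by ring
    rw [this, Complex.re_ofReal_mul, Complex.I_mul_re]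
    simp only [Complex.sub_im, Complex.log_im]
    ring
  rw [h1]
  have h2 := Complex.arg_le_pi (z + 1)
  have h3 := Complex.neg_pi_lt_arg (z - 1)
  nlinarith

theorem bnd_pt (l : ℝ) (x : ℝ) (h0 : 0 < x) (h1 : x ≠ 1) :
    Tendsto (fun y : ℝ => (E0 l (⟨x, y⟩ : ℂ)).re) (𝓝[>] 0) (𝓝 (E0 l (⟨x, 0⟩ : ℂ)).re) := by
  have hmk : Tendsto (fun y : ℝ => (⟨x, y⟩ : ℂ)) (𝓝[>] 0) (𝓝 ⟨x, 0⟩) := by
    have h2 : Continuous (fun y : ℝ => (x : ℂ) + (y : ℂ) * I) := by fun_prop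
    have h3 : (fun y : ℝ => (⟨x, y⟩ : ℂ)) = fun y : ℝ => (x : ℂ) + (y : ℂ) * I := by
      funext y; exact bnd_mk x y
    rw [h3, bnd_mk x 0]
    exact (h2.tendsto 0).mono_left nhdsWithin_le_nhds
  -- the first logarithm
  have hlog1 : Tendsto (fun y : ℝ => Complex.log ((⟨x, y⟩ : ℂ) - 1)) (𝓝[>] 0)
      (𝓝 (Complex.log ((⟨x, 0⟩ : ℂ) - 1))) := by
    have hsub : Tendsto (fun y : ℝ => (⟨x, y⟩ : ℂ) - 1) (𝓝[>] 0) (𝓝 ((⟨x, 0⟩ : ℂ) - 1)) :=
      hmk.sub_const 1
    rcases lt_or_gt_of_ne h1 with hx | hx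
    · have hre : ((⟨x, 0⟩ : ℂ) - 1).re < 0 := by simp; linarith
      have him : ((⟨x, 0⟩ : ℂ) - 1).im = 0 := by simp
      have hc := Complex.continuousWithinAt_log_of_re_neg_of_im_zero hre him
      refine hc.tendsto.comp (tendsto_nhdsWithin_iff.2 ⟨hsub, ?_⟩)
      filter_upwards [self_mem_nhdsWithin] with y hy
      have hy' : 0 < y := hy
      show 0 ≤ ((⟨x, y⟩ : ℂ) - 1).im
      simp only [Complex.sub_im, Complex.one_im, sub_zero]
      exact hy'.le
    · have hsl : ((⟨x, 0⟩ : ℂ) - 1) ∈ Complex.slitPlane := by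
        left; simp; linarith
      exact ((continuousAt_clog hsl).tendsto).comp hsub
  have hlog2 : Tendsto (fun y : ℝ => Complex.log ((⟨x, y⟩ : ℂ) + 1)) (𝓝[>] 0)
      (𝓝 (Complex.log ((⟨x, 0⟩ : ℂ) + 1))) := by
    have hsub : Tendsto (fun y : ℝ => (⟨x, y⟩ : ℂ) + 1) (𝓝[>] 0) (𝓝 ((⟨x, 0⟩ : ℂ) + 1)) :=
      hmk.add_const 1
    have hsl : ((⟨x, 0⟩ : ℂ) + 1) ∈ Complex.slitPlane := by
      left; simp; linarith
    exact ((continuousAt_clog hsl).tendsto).comp hsub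
  have h5 : Tendsto (fun y : ℝ => E0 l (⟨x, y⟩ : ℂ)) (𝓝[>] 0) (𝓝 (E0 l (⟨x, 0⟩ : ℂ))) := by
    unfold E0 g0
    exact (Complex.continuous_exp.tendsto _).comp ((hlog1.sub hlog2).const_mul _)
  exact (Complex.continuous_re.tendsto _).comp h5

theorem bnd_val_lt (l x : ℝ) (h0 : 0 < x) (h1 : x < 1) : (E0 l (⟨x, 0⟩ : ℂ)).re =
    Real.exp (-(l * Real.pi)) * Real.cos (l * Real.log ((1 - x) / (1 + x))) := by
  have e1 : (⟨x, 0⟩ : ℂ) - 1 = -(((1 - x : ℝ)) : ℂ) := by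
    rw [bnd_mk]; push_cast; ring
  have e2 : (⟨x, 0⟩ : ℂ) + 1 = (((1 + x : ℝ)) : ℂ) := by
    rw [bnd_mk]; push_cast; ring
  have hx1 : 0 < 1 - x := by linarith
  have hx2 : 0 < 1 + x := by linarith
  have e3 : Complex.log (-(((1 - x : ℝ)) : ℂ)) = (Real.log (1 - x) : ℂ) + Real.pi * I := by
    apply Complex.ext
    · rw [Complex.log_re, norm_neg, Complex.norm_real, Real.norm_eq_abs, abs_of_pos hx1]
      simp
    · rw [Complex.log_im, ← Complex.ofReal_neg, Complex.arg_ofReal_of_neg (by linarith)]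
      simp
  unfold E0 g0
  rw [e1, e2, e3, ← Complex.ofReal_log hx2.le]
  have e4 : I * (l : ℂ) * ((Real.log (1 - x) : ℂ) + Real.pi * I - ((Real.log (1 + x) : ℝ) : ℂ)) =
      ((-(l * Real.pi) : ℝ) : ℂ) + ((l * Real.log ((1 - x) / (1 + x)) : ℝ) : ℂ) * I := by
    rw [Real.log_div hx1.ne' hx2.ne']
    push_cast
    linear_combination (l : ℂ) * Real.pi * Complex.I_sq
  rw [e4, Complex.exp_add, ← Complex.ofReal_exp, Complex.re_ofReal_mul,
    Complex.exp_ofReal_mul_I_re]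

theorem bnd_val_gt (l x : ℝ) (h1 : 1 < x) : (E0 l (⟨x, 0⟩ : ℂ)).re =
    Real.cos (l * Real.log ((x - 1) / (x + 1))) := by
  have e1 : (⟨x, 0⟩ : ℂ) - 1 = (((x - 1 : ℝ)) : ℂ) := by
    rw [bnd_mk]; push_cast; ring
  have e2 : (⟨x, 0⟩ : ℂ) + 1 = (((x + 1 : ℝ)) : ℂ) := by
    rw [bnd_mk]; push_cast; ring
  have hx1 : 0 < x - 1 := by linarith
  have hx2 : 0 < x + 1 := by linarith
  unfold E0 g0
  rw [e1, e2, ← Complex.ofReal_log hx1.le, ← Complex.ofReal_log hx2.le]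
  have e4 : I * (l : ℂ) * (((Real.log (x - 1) : ℝ) : ℂ) - ((Real.log (x + 1) : ℝ) : ℂ)) =
      ((l * Real.log ((x - 1) / (x + 1)) : ℝ) : ℂ) * I := by
    rw [Real.log_div hx1.ne' hx2.ne']
    push_cast
    ring
  rw [e4, Complex.exp_ofReal_mul_I_re]

theorem Bnd_limit (l : ℝ) (hl : 0 < l) :
    Tendsto (fun y : ℝ => ∫ x in (0:ℝ)..(bet l), (E0 l (⟨x, y⟩ : ℂ)).re) (𝓝[>] 0)
      (𝓝 (Bnd l)) := by
  have hbet := bnd_bet_gt l hl
  have hone : ∀ᵐ x : ℝ, x ≠ 1 := by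
    rw [ae_iff]
    simp
  have hval : ∫ x in (0:ℝ)..(bet l), (E0 l (⟨x, 0⟩ : ℂ)).re = Bnd l := by
    have hint : ∀ a b : ℝ, IntervalIntegrable (fun x : ℝ => (E0 l (⟨x, 0⟩ : ℂ)).re) volume a b := by
      intro a b
      refine (intervalIntegrable_const (c := Real.exp (2 * l * Real.pi))).mono_fun
        (bnd_measurable l 0).aestronglyMeasurable ?_
      refine Filter.Eventually.of_forall fun x => ?_
      show ‖(E0 l (⟨x, 0⟩ : ℂ)).re‖ ≤ ‖Real.exp (2 * l * Real.pi)‖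
      rw [Real.norm_eq_abs, Real.norm_eq_abs, abs_of_pos (Real.exp_pos _)]
      exact bnd_le l hl _
    rw [← intervalIntegral.integral_add_adjacent_intervals (hint 0 1) (hint 1 (bet l))]
    unfold Bnd
    congr 1
    · rw [← intervalIntegral.integral_const_mul]
      refine intervalIntegral.integral_congr_ae ?_
      filter_upwards [hone] with x hx1 hx
      rw [uIoc_of_le zero_le_one] at hx
      exact bnd_val_lt l x hx.1 (lt_of_le_of_ne hx.2 hx1)
    · refine intervalIntegral.integral_congr_ae ?_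
      filter_upwards with x hx
      rw [uIoc_of_le hbet.le] at hx
      exact bnd_val_gt l x hx.1
  rw [← hval]
  refine intervalIntegral.tendsto_integral_filter_of_dominated_convergence
    (fun _ => Real.exp (2 * l * Real.pi)) ?_ ?_ intervalIntegrable_const ?_
  · exact Filter.Eventually.of_forall fun y => (bnd_measurable l y).aestronglyMeasurable
  · refine Filter.Eventually.of_forall fun y => Filter.Eventually.of_forall fun x _ => ?_
    rw [Real.norm_eq_abs]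
    exact bnd_le l hl _
  · filter_upwards [hone] with x hx1 hx
    rw [uIoc_of_le (by linarith)] at hx
    exact bnd_pt l x hx.1 hx1

end Pool.Agent.JohnC
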