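import Pool.Agent.Lib_MP_1fe18a_an.Curve

/-! John constant (MP_1fe18a_an), piece I3: derivative of the verification function. -/

set_option autoImplicit false

open Complex Set Filter Topology MeasureTheory

namespace Pool.Agent.JohnC

/-- the final algebra of the calibration derivative -/
theorem cal_algebra (E e g G w z' j : ℂ) (ρ t t' R c : ℝ) (hρ : ρ ≠ 0)
    (h1 : g * w * z' = -(ρ : ℂ)) (h2 : (t : ℂ) = j * g) :
    -(E * z').re + (((c * ρ : ℝ) - E * z') * (e - 1) + g * (e * ((G - w) * z'))).re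
      + (t' * (R - e.re) + t * (R * ((G - w) * z').re - (e * ((G - w) * z')).re))
      + (E * e * z').re =
    ρ * (c * (e.re - 1) + e.re + t' / ρ * (R - e.re) + (j * (R - e)).re)
        + (g * (e + j * (R - e)) * G * z').re := by
  have hL : -(E * z').re + (((c * ρ : ℝ) - E * z') * (e - 1) + g * (e * ((G - w) * z'))).re
      + (t' * (R - e.re) + t * (R * ((G - w) * z').re - (e * ((G - w) * z')).re))
      + (E * e * z').re =
      (-(E * z') + (((c * ρ : ℝ) - E * z') * (e - 1) + g * (e * ((G - w) * z')))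
        + ((t' : ℂ) * (R - e) + (t : ℂ) * ((R : ℂ) * ((G - w) * z') - (e * ((G - w) * z'))))
        + E * e * z').re := by
    simp only [Complex.add_re, Complex.neg_re, Complex.re_ofReal_mul, Complex.sub_re,
      Complex.ofReal_re]
  have hR : ρ * (c * (e.re - 1) + e.re + t' / ρ * (R - e.re) + (j * (R - e)).re)
        + (g * (e + j * (R - e)) * G * z').re =
      ((ρ : ℂ) * ((c : ℂ) * (e - 1) + e + (j * (R - e))) + (t' : ℂ) * (R - e)
        + (g * (e + j * (R - e)) * G * z')).re := by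
    have e1 : ρ * (c * (e.re - 1) + e.re + t' / ρ * (R - e.re) + (j * (R - e)).re) =
        ρ * (c * (e.re - 1) + e.re + (j * (R - e)).re) + t' * (R - e.re) := by
      field_simp
      ring
    rw [e1]
    simp only [Complex.add_re, Complex.re_ofReal_mul, Complex.sub_re,
      Complex.ofReal_re, Complex.one_re]
  rw [hL, hR]
  congr 1
  rw [h2]
  push_cast
  linear_combination (-(e : ℂ) - j * (R - e)) * h1

/-- derivative of the verification function along a curve with slope -p, p = K / (y er) -/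
theorem cal_deriv (l : ℝ) (hl : 0 < l) (Y T : ℝ → ℝ) (x y p t t' : ℝ)
    (hYx : Y x = y) (hY : HasDerivAt Y (-p) x) (hy : 0 < y) (her : 0 < er l x y)
    (hp : p = Kf l x y / (y * er l x y)) (hTx : T x = t) (hT : HasDerivAt T t' x)
    (Gc Φ : ℂ → ℂ) (Gc' : ℂ) (hGc : HasDerivAt Gc Gc' (⟨x, y⟩ : ℂ))
    (hΦ : HasDerivAt Φ (Complex.exp (Gc ⟨x, y⟩)) (⟨x, y⟩ : ℂ))
    (ρ R : ℝ) (e j : ℂ) (hρ : ρ = er l x y * (1 + p ^ 2)) (he : e = eps l Gc x y)
    (hR : R = ‖e‖) (hj : j = t / gg l x y) :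
    HasDerivAt (fun x => Vf l Gc x (Y x) (T x) + (Φ (⟨x, Y x⟩ : ℂ)).re)
      (ρ * (cc l x y * (e.re - 1) + e.re + t' / ρ * (R - e.re) + (j * (R - e)).re)
        + (gg l x y * (e + j * (R - e)) * Gc' * (1 - p * I)).re) x := by
  have hρ0 : 0 < ρ := by rw [hρ]; positivity
  have hN : 0 < NN x y := (alp_facts x y hy).2.2.1
  have hN' : NN x y ≠ 0 := hN.ne'
  have hK : Kf l x y = p * (y * er l x y) := by
    rw [hp]; field_simp
  -- the curve
  have hc : HasDerivAt (fun s : ℝ => (⟨s, Y s⟩ : ℂ)) (⟨1, -p⟩ : ℂ) x :=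
    curve_mk (fun s => s) Y 1 (-p) x (hasDerivAt_id x) hY
  have hz' : (⟨1, -p⟩ : ℂ) = 1 - p * I := by
    apply Complex.ext <;> simp
  obtain ⟨hF, hE, hKd, -⟩ := curve_deriv l hl (fun s => s) Y x y 1 (-p) x (hasDerivAt_id x) hY
    rfl hYx hy
  have hz2 : (⟨x, y⟩ : ℂ) ^ 2 - 1 ≠ 0 := by
    rw [sq_sub_one_mk]
    intro h
    apply hN'
    have h1 := congrArg Complex.re h
    have h2 := congrArg Complex.im h
    simp only [Complex.zero_re, Complex.zero_im] at h1 h2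
    unfold NN
    rw [h1, h2]; ring
  have hl' : (l : ℂ) ≠ 0 := by exact_mod_cast hl.ne'
  -- P
  have hPmk : PP l x y = er l x y * (1 + p * I) := by
    unfold PP
    rw [hK]
    apply Complex.ext
    · simp
    · simp
      field_simp
  have hPd : HasDerivAt (fun s : ℝ => PP l s (Y s))
      (E0 l (⟨x, y⟩ : ℂ) * (2 * I * l / ((⟨x, y⟩ : ℂ) ^ 2 - 1)) * (1 - p * I) + I * ρ / y) x := by
    have hKY : HasDerivAt (fun s : ℝ => Kf l s (Y s) / Y s) _ x :=
      hKd.div hY (by rw [hYx]; exact hy.ne')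
    have h := curve_mk (fun s : ℝ => er l s (Y s)) (fun s : ℝ => Kf l s (Y s) / Y s) _ _ x hE hKY
    refine h.congr_deriv ?_
    have e0 := (E0_deriv_mk l x y hy).unique (E0_deriv l (⟨x, y⟩ : ℂ) (Or.inl hy))
    rw [← e0]
    simp only [hYx, hK]
    apply Complex.ext
    · simp [Complex.mul_re, Complex.mul_im, Complex.div_re, Complex.div_im]
      ring
    · simp [Complex.mul_re, Complex.mul_im, Complex.div_re, Complex.div_im]
      rw [hρ]
      field_simp
      ring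
  -- h
  have hhd : HasDerivAt (fun s : ℝ => hh l s (Y s)) (I * (⟨x, y⟩ : ℂ) * (1 - p * I) / l) x := by
    unfold hh
    have h := ((((hc.pow 2).sub_const 1).const_mul I).div_const (2 * (l : ℂ)))
    refine h.congr_deriv ?_
    rw [hz', hYx]
    field_simp
    push_cast
    ring
  -- g
  have hy' : (y : ℂ) ≠ 0 := by exact_mod_cast hy.ne'
  have hI2 : I * I = -1 := Complex.I_mul_I
  have hPz : PP l x y * (1 - p * I) = ρ := by
    rw [hPmk, hρ]
    push_cast
    linear_combination (-(er l x y : ℂ) * p ^ 2) * hI2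
  have hhw : hh l x y * (2 * I * l / ((⟨x, y⟩ : ℂ) ^ 2 - 1)) = -1 := by
    unfold hh
    field_simp
    linear_combination hI2
  have hccz : I * (⟨x, y⟩ : ℂ) / l + I * hh l x y / y = cc l x y := by
    unfold hh cc
    rw [sq_sub_one_mk, Complex.mk_eq_add_mul_I x y,
      Complex.mk_eq_add_mul_I (x ^ 2 - y ^ 2 - 1) (2 * x * y)]
    push_cast
    field_simp
    have hI3 : I ^ 3 = -I := by rw [pow_succ, Complex.I_sq]; ring
    ring_nf
    rw [Complex.I_sq, hI3]
    ring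
  have hgd : HasDerivAt (fun s : ℝ => gg l s (Y s))
      ((cc l x y * ρ : ℝ) - E0 l (⟨x, y⟩ : ℂ) * (1 - p * I)) x := by
    unfold gg
    have h := hhd.mul hPd
    refine h.congr_deriv ?_
    simp only [hYx]
    push_cast
    rw [← hccz]
    linear_combination (I * (⟨x, y⟩ : ℂ) / l) * hPz + (E0 l (⟨x, y⟩ : ℂ) * (1 - p * I)) * hhw
  -- eps
  have hGc1 : HasDerivAt Gc Gc' ((fun s : ℝ => (⟨s, Y s⟩ : ℂ)) x) := by
    simp only [hYx]; exact hGc
  have hg01 : HasDerivAt (g0 l) (2 * I * l / ((⟨x, y⟩ : ℂ) ^ 2 - 1))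
      ((fun s : ℝ => (⟨s, Y s⟩ : ℂ)) x) := by
    simp only [hYx]; exact g0_deriv l _ (Or.inl hy)
  have hud : HasDerivAt (fun s : ℝ => Gc (⟨s, Y s⟩ : ℂ) - g0 l (⟨s, Y s⟩ : ℂ))
      ((Gc' - (2 * I * l / ((⟨x, y⟩ : ℂ) ^ 2 - 1))) * (1 - p * I)) x := by
    have h := (hGc1.comp x hc).sub (hg01.comp x hc)
    refine h.congr_deriv ?_
    rw [hz']; ring
  have hed : HasDerivAt (fun s : ℝ => eps l Gc s (Y s))
      (e * ((Gc' - (2 * I * l / ((⟨x, y⟩ : ℂ) ^ 2 - 1))) * (1 - p * I))) x := by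
    unfold eps
    have h := hud.cexp
    refine h.congr_deriv ?_
    rw [he, hYx]
    rfl
  have hRd : HasDerivAt (fun s : ℝ => ‖eps l Gc s (Y s)‖)
      (R * ((Gc' - (2 * I * l / ((⟨x, y⟩ : ℂ) ^ 2 - 1))) * (1 - p * I)).re) x := by
    have e1 : (fun s : ℝ => ‖eps l Gc s (Y s)‖) =
        fun s : ℝ => Real.exp ((Gc (⟨s, Y s⟩ : ℂ) - g0 l (⟨s, Y s⟩ : ℂ)).re) := by
      funext s
      unfold eps
      rw [Complex.norm_exp]
    rw [e1]
    have h := ((Complex.reCLM.hasFDerivAt (x := Gc (⟨x, Y x⟩ : ℂ) - g0 l (⟨x, Y x⟩ : ℂ))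
      ).comp_hasDerivAt x hud).exp
    refine h.congr_deriv ?_
    rw [hR, he]
    unfold eps
    rw [Complex.norm_exp, ← hYx]
    rfl
  have hΦd : HasDerivAt (fun s : ℝ => (Φ (⟨s, Y s⟩ : ℂ)).re)
      ((E0 l (⟨x, y⟩ : ℂ) * e * (1 - p * I)).re) x := by
    have hΦ1 : HasDerivAt Φ (Complex.exp (Gc ⟨x, y⟩)) ((fun s : ℝ => (⟨s, Y s⟩ : ℂ)) x) := by
      simp only [hYx]; exact hΦ
    have h := (Complex.reCLM.hasFDerivAt (x := Φ (⟨x, Y x⟩ : ℂ))).comp_hasDerivAt x
      (hΦ1.comp x hc)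
    refine h.congr_deriv ?_
    have e1 : Complex.exp (Gc ⟨x, y⟩) = E0 l (⟨x, y⟩ : ℂ) * e := by
      rw [he]
      unfold E0 eps
      rw [← Complex.exp_add]
      congr 1
      ring
    rw [e1, hz']
    rfl
  have hEz : HasDerivAt (fun s : ℝ => -(F l (⟨s, Y s⟩ : ℂ)).re)
      (-(E0 l (⟨x, y⟩ : ℂ) * (1 - p * I)).re) x := by
    refine hF.neg.congr_deriv ?_
    rw [E0_mk l x y hy]
    simp [Complex.mul_re]
  have hge : HasDerivAt (fun s : ℝ => (gg l s (Y s) * (eps l Gc s (Y s) - 1)).re)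
      ((((cc l x y * ρ : ℝ) - E0 l (⟨x, y⟩ : ℂ) * (1 - p * I)) * (e - 1) + gg l x y *
        (e * ((Gc' - (2 * I * l / ((⟨x, y⟩ : ℂ) ^ 2 - 1))) * (1 - p * I)))).re) x := by
    have h := (Complex.reCLM.hasFDerivAt (x := gg l x (Y x) * (eps l Gc x (Y x) - 1))
      ).comp_hasDerivAt x (hgd.mul (hed.sub_const 1))
    refine h.congr_deriv ?_
    simp only [hYx, ← he]
    rfl
  have hTd : HasDerivAt (fun s : ℝ => T s * (‖eps l Gc s (Y s)‖ - (eps l Gc s (Y s)).re))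
      (t' * (R - e.re) + t * (R * ((Gc' - (2 * I * l / ((⟨x, y⟩ : ℂ) ^ 2 - 1))) *
        (1 - p * I)).re - (e * ((Gc' - (2 * I * l / ((⟨x, y⟩ : ℂ) ^ 2 - 1))) *
        (1 - p * I))).re)) x := by
    have he1 := (Complex.reCLM.hasFDerivAt (x := eps l Gc x (Y x))).comp_hasDerivAt x hed
    have h := hT.mul (hRd.sub he1)
    refine h.congr_deriv ?_
    simp only [hYx, hTx, Pi.sub_apply, Function.comp, ← he, ← hR]
    rfl
  have htot := ((hEz.add hge).add hTd).add hΦd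
  have hw : gg l x y * (2 * I * l / ((⟨x, y⟩ : ℂ) ^ 2 - 1)) * (1 - p * I) = -(ρ : ℂ) := by
    unfold gg
    linear_combination (PP l x y * (1 - p * I)) * hhw - hPz
  have hg0 : gg l x y ≠ 0 := by
    intro h
    rw [h] at hw
    have : (ρ : ℂ) ≠ 0 := by exact_mod_cast hρ0.ne'
    apply this
    linear_combination hw
  have h2 : (t : ℂ) = j * gg l x y := by
    rw [hj]; field_simp
  have halg := cal_algebra (E0 l (⟨x, y⟩ : ℂ)) e (gg l x y) Gc'
    (2 * I * l / ((⟨x, y⟩ : ℂ) ^ 2 - 1)) (1 - p * I) j ρ t t' R (cc l x y) hρ0.ne' hw h2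
  rw [halg] at htot
  exact htot

end Pool.Agent.JohnC
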