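import Pool.Agent.Lib_MP_1fe18a_an.Defs
import Pool.Agent.Lib_MP_1fe18a_an.Basics

set_option autoImplicit false

open Complex Set Filter Topology MeasureTheory

namespace Pool.Agent.JohnC

private theorem dom_open : IsOpen {z : ℂ | 0 < z.im ∨ 1 < z.re} :=
  (isOpen_lt continuous_const Complex.continuous_im).union
    (isOpen_lt continuous_const Complex.continuous_re)

private theorem dom_star (b : ℝ) (hb : 1 < b) (z : ℂ) (hz : 0 < z.im ∨ 1 < z.re) (t : ℝ)
    (ht0 : 0 ≤ t) (ht1 : t ≤ 1) :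
    0 < ((b : ℂ) + (t : ℂ) * (z - (b : ℂ))).im ∨ 1 < ((b : ℂ) + (t : ℂ) * (z - (b : ℂ))).re := by
  rcases eq_or_lt_of_le ht0 with h | h
  · right
    rw [← h]; simp [hb]
  rcases hz with hz | hz
  · left
    simp
    exact mul_pos h hz
  · right
    simp
    nlinarith

private theorem E0_hasDeriv (l : ℝ) (z : ℂ) (hz : 0 < z.im ∨ 1 < z.re) :
    HasDerivAt (E0 l) (E0 l z * (2 * I * l / (z ^ 2 - 1))) z :=
  (g0_deriv l z hz).cexp

private theorem sq_ne (z : ℂ) (hz : 0 < z.im ∨ 1 < z.re) : z ^ 2 - 1 ≠ 0 := by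
  intro h
  have h1 : (z - 1) * (z + 1) = 0 := by linear_combination h
  rcases mul_eq_zero.mp h1 with h2 | h2
  · have h3 : z = 1 := by linear_combination h2
    rw [h3] at hz; simp at hz
  · have h3 : z = -1 := by linear_combination h2
    rw [h3] at hz; simp at hz
    linarith

theorem F_deriv (l : ℝ) (hl : 0 < l) (z : ℂ) (hz : 0 < z.im ∨ 1 < z.re) :
    HasDerivAt (F l) (E0 l z) z := by
  have hb : 1 < bet l := bet_gt l hl
  obtain ⟨b, hbdef⟩ : ∃ b, b = bet l := ⟨_, rfl⟩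
  rw [← hbdef] at hb
  have hF : F l = fun z => ∫ t in (0:ℝ)..1, (z - (b : ℂ)) * E0 l ((b : ℂ) + (t : ℂ) * (z - (b : ℂ))) := by
    funext z
    rw [intervalIntegral.integral_const_mul, hbdef]
    rfl
  -- the derivative of the integrand
  let G : ℂ → ℝ → ℂ := fun z t => (z - (b : ℂ)) * E0 l ((b : ℂ) + (t : ℂ) * (z - (b : ℂ)))
  let G' : ℂ → ℝ → ℂ := fun z t => E0 l ((b : ℂ) + (t : ℂ) * (z - (b : ℂ))) +
    (z - (b : ℂ)) * (E0 l ((b : ℂ) + (t : ℂ) * (z - (b : ℂ))) *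
      (2 * I * l / (((b : ℂ) + (t : ℂ) * (z - (b : ℂ))) ^ 2 - 1)) * (t : ℂ))
  have hcontE : ContinuousOn (E0 l) {z : ℂ | 0 < z.im ∨ 1 < z.re} := fun w hw =>
    (E0_hasDeriv l w hw).continuousAt.continuousWithinAt
  have hmap : Continuous (fun p : ℂ × ℝ => (b : ℂ) + (p.2 : ℂ) * (p.1 - (b : ℂ))) := by
    fun_prop
  have hmaps : MapsTo (fun p : ℂ × ℝ => (b : ℂ) + (p.2 : ℂ) * (p.1 - (b : ℂ)))
      ({z : ℂ | 0 < z.im ∨ 1 < z.re} ×ˢ Icc (0:ℝ) 1) {z : ℂ | 0 < z.im ∨ 1 < z.re} := by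
    rintro ⟨w, t⟩ ⟨hw, ht⟩
    exact dom_star b hb w hw t ht.1 ht.2
  have hcE : ContinuousOn (fun p : ℂ × ℝ => E0 l ((b : ℂ) + (p.2 : ℂ) * (p.1 - (b : ℂ))))
      ({z : ℂ | 0 < z.im ∨ 1 < z.re} ×ˢ Icc (0:ℝ) 1) :=
    hcontE.comp hmap.continuousOn hmaps
  have hcG : ContinuousOn (fun p : ℂ × ℝ => G p.1 p.2)
      ({z : ℂ | 0 < z.im ∨ 1 < z.re} ×ˢ Icc (0:ℝ) 1) := by
    apply ContinuousOn.mul _ hcE
    fun_prop
  have hcG' : ContinuousOn (fun p : ℂ × ℝ => G' p.1 p.2)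
      ({z : ℂ | 0 < z.im ∨ 1 < z.re} ×ˢ Icc (0:ℝ) 1) := by
    apply hcE.add
    apply ContinuousOn.mul (by fun_prop)
    apply ContinuousOn.mul _ (by fun_prop)
    apply hcE.mul
    apply ContinuousOn.div (by fun_prop) (by fun_prop)
    intro p hp
    exact sq_ne _ (hmaps hp)
  -- a compact neighbourhood of z
  obtain ⟨δ, hδ, hδs⟩ := Metric.isOpen_iff.mp dom_open z hz
  have hcomp : IsCompact (Metric.closedBall z (δ/2) ×ˢ Icc (0:ℝ) 1) :=
    (isCompact_closedBall z (δ/2)).prod isCompact_Icc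
  have hsub : Metric.closedBall z (δ/2) ⊆ {z : ℂ | 0 < z.im ∨ 1 < z.re} := by
    intro w hw
    apply hδs
    rw [Metric.mem_closedBall] at hw
    rw [Metric.mem_ball]
    linarith
  obtain ⟨C, hC⟩ := hcomp.exists_bound_of_continuousOn (hcG'.mono (prod_mono hsub subset_rfl))
  have hz_in : z ∈ Metric.closedBall z (δ/2) := Metric.mem_closedBall_self (by linarith)
  have hnhds : Metric.ball z (δ/2) ∈ 𝓝 z := Metric.ball_mem_nhds z (by linarith)
  have hsub' : Metric.ball z (δ/2) ⊆ {z : ℂ | 0 < z.im ∨ 1 < z.re} :=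
    Metric.ball_subset_closedBall.trans hsub
  have hcG1 : ∀ w ∈ {z : ℂ | 0 < z.im ∨ 1 < z.re}, ContinuousOn (G w) (Icc (0:ℝ) 1) := by
    intro w hw
    exact hcG.comp (f := fun t : ℝ => (w, t)) (by fun_prop) (fun t ht => ⟨hw, ht⟩)
  have hcG1' : ∀ w ∈ {z : ℂ | 0 < z.im ∨ 1 < z.re}, ContinuousOn (G' w) (Icc (0:ℝ) 1) := by
    intro w hw
    exact hcG'.comp (f := fun t : ℝ => (w, t)) (by fun_prop) (fun t ht => ⟨hw, ht⟩)
  have huI : uIoc (0:ℝ) 1 ⊆ Icc (0:ℝ) 1 := by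
    rw [uIoc_of_le zero_le_one]; exact Ioc_subset_Icc_self
  have hmeas : ∀ {f : ℝ → ℂ}, ContinuousOn f (Icc (0:ℝ) 1) →
      AEStronglyMeasurable f (volume.restrict (uIoc (0:ℝ) 1)) := by
    intro f hf
    exact (hf.mono huI).aestronglyMeasurable measurableSet_uIoc
  have key := intervalIntegral.hasDerivAt_integral_of_dominated_loc_of_deriv_le
    (μ := volume) (a := 0) (b := 1) (F := G) (F' := G') (x₀ := z) (bound := fun _ => C) hnhds
    (Filter.eventually_of_mem hnhds (fun w hw => hmeas (hcG1 w (hsub' hw))))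
    ((hcG1 z hz).intervalIntegrable_of_Icc zero_le_one)
    (hmeas (hcG1' z hz))
    (Filter.Eventually.of_forall (fun t ht w hw =>
      hC (w, t) ⟨Metric.ball_subset_closedBall hw, huI ht⟩))
    (by simp)
    (Filter.Eventually.of_forall (fun t ht w hw => by
      have hw' := hsub' hw
      have hq : HasDerivAt (fun w : ℂ => (b : ℂ) + (t : ℂ) * (w - (b : ℂ))) (t : ℂ) w := by
        have := (((hasDerivAt_id w).sub_const (b:ℂ)).const_mul (t:ℂ)).const_add (b:ℂ)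
        simpa using this
      have h1 := (E0_hasDeriv l ((b : ℂ) + (t : ℂ) * (w - (b : ℂ)))
        (dom_star b hb w hw' t (huI ht).1 (huI ht).2)).comp w hq
      have h2 := ((hasDerivAt_id w).sub_const (b:ℂ)).mul h1
      simp only [id, one_mul, Function.comp] at h2
      exact h2))
  rw [hF]
  -- evaluate the integral of G'
  have hval : (∫ t in (0:ℝ)..1, G' z t) = E0 l z := by
    have hd : ∀ t ∈ uIcc (0:ℝ) 1, HasDerivAt
        (fun t : ℝ => (t : ℂ) * E0 l ((b : ℂ) + (t : ℂ) * (z - (b : ℂ)))) (G' z t) t := by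
      intro t ht
      rw [uIcc_of_le zero_le_one] at ht
      have hq : HasDerivAt (fun t : ℝ => (b : ℂ) + (t : ℂ) * (z - (b : ℂ))) (z - (b:ℂ)) t := by
        have := (((hasDerivAt_id t).ofReal_comp).mul_const (z - (b:ℂ))).const_add (b:ℂ)
        simpa using this
      have h1 := (E0_hasDeriv l ((b : ℂ) + (t : ℂ) * (z - (b : ℂ)))
        (dom_star b hb z hz t ht.1 ht.2)).comp t hq
      have h2 := ((hasDerivAt_id t).ofReal_comp).mul h1
      simp only [id, Function.comp, Complex.ofReal_one, one_mul] at h2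
      have h3 : G' z t = E0 l ((b : ℂ) + (t : ℂ) * (z - (b : ℂ))) +
          (t : ℂ) * (E0 l ((b : ℂ) + (t : ℂ) * (z - (b : ℂ))) *
          (2 * I * l / (((b : ℂ) + (t : ℂ) * (z - (b : ℂ))) ^ 2 - 1)) * (z - (b:ℂ))) := by
        simp only [G']; ring
      rw [h3]
      exact h2
    rw [intervalIntegral.integral_eq_sub_of_hasDerivAt hd
      ((hcG1' z hz).intervalIntegrable_of_Icc zero_le_one)]
    simp
  rw [← hval]
  exact key.2

end Pool.Agent.JohnC
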