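import Pool.Agent.Lib_MP_1fe18a_an.Basics
import Pool.Agent.Lib_MP_1fe18a_an.Fprim

/-! John constant (MP_1fe18a_an), piece H3: derivatives along a curve. -/

set_option autoImplicit false

open Complex Set Filter Topology MeasureTheory

namespace Pool.Agent.JohnC

/-- a curve in the plane, as a complex valued function -/
theorem curve_mk (X Y : ℝ → ℝ) (x' y' t : ℝ) (hX : HasDerivAt X x' t)
    (hY : HasDerivAt Y y' t) :
    HasDerivAt (fun t => (⟨X t, Y t⟩ : ℂ)) (⟨x', y'⟩ : ℂ) t := by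
  have h : HasDerivAt (fun t => ((X t : ℂ) + (Y t : ℂ) * I)) ((x' : ℂ) + (y' : ℂ) * I) t :=
    (hX.ofReal_comp).add ((hY.ofReal_comp).mul_const I)
  have e : (fun t => (⟨X t, Y t⟩ : ℂ)) = (fun t => ((X t : ℂ) + (Y t : ℂ) * I)) := by
    funext t
    exact (Complex.mk_eq_add_mul_I _ _)
  rw [e, Complex.mk_eq_add_mul_I x' y']
  exact h

/-- real part of a holomorphic function along a curve -/
theorem curve_re (f : ℂ → ℂ) (f' : ℂ) (X Y : ℝ → ℝ) (x y x' y' t : ℝ) (hX : HasDerivAt X x' t)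
    (hY : HasDerivAt Y y' t) (hx : X t = x) (hy : Y t = y)
    (hf : HasDerivAt f f' (⟨x, y⟩ : ℂ)) :
    HasDerivAt (fun t => (f (⟨X t, Y t⟩ : ℂ)).re) (f'.re * x' - f'.im * y') t ∧
    HasDerivAt (fun t => (f (⟨X t, Y t⟩ : ℂ)).im) (f'.re * y' + f'.im * x') t := by
  have h1 := curve_mk X Y x' y' t hX hY
  have hf' : HasDerivAt f f' ((fun t => (⟨X t, Y t⟩ : ℂ)) t) := by
    simp only [hx, hy]; exact hf
  have h2 : HasDerivAt (fun t => f (⟨X t, Y t⟩ : ℂ)) (f' * (⟨x', y'⟩ : ℂ)) t :=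
    hf'.comp t h1
  have hre := (Complex.reCLM.hasFDerivAt (x := f (⟨X t, Y t⟩ : ℂ))).comp_hasDerivAt t h2
  have him := (Complex.imCLM.hasFDerivAt (x := f (⟨X t, Y t⟩ : ℂ))).comp_hasDerivAt t h2
  refine ⟨?_, ?_⟩
  · refine hre.congr_deriv ?_
    simp [Complex.mul_re]
  · refine him.congr_deriv ?_
    simp [Complex.mul_im]

/-- derivative of E0 -/
theorem E0_deriv (l : ℝ) (z : ℂ) (hz : 0 < z.im ∨ 1 < z.re) :
    HasDerivAt (E0 l) (E0 l z * (2 * I * l / (z ^ 2 - 1))) z := by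
  have h := (g0_deriv l z hz).cexp
  exact h

theorem sq_sub_one_mk (x y : ℝ) :
    (⟨x, y⟩ : ℂ) ^ 2 - 1 = (⟨x ^ 2 - y ^ 2 - 1, 2 * x * y⟩ : ℂ) := by
  apply Complex.ext
  · simp [pow_two, Complex.mul_re]
  · simp [pow_two, Complex.mul_im]; ring

/-- derivative of E0 in coordinates -/
theorem E0_deriv_mk (l x y : ℝ) (hy : 0 < y) :
    HasDerivAt (E0 l) (⟨2 * l / NN x y * (er l x y * (2 * x * y) - ei l x y * (x ^ 2 - y ^ 2 - 1)),
      2 * l / NN x y * (er l x y * (x ^ 2 - y ^ 2 - 1) + ei l x y * (2 * x * y))⟩ : ℂ)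
      (⟨x, y⟩ : ℂ) := by
  refine (E0_deriv l (⟨x, y⟩ : ℂ) (Or.inl hy)).congr_deriv ?_
  have hN : 0 < NN x y := (alp_facts x y hy).2.2.1
  have hN' : NN x y ≠ 0 := hN.ne'
  rw [E0_mk l x y hy, sq_sub_one_mk]
  have hq : (⟨x ^ 2 - y ^ 2 - 1, 2 * x * y⟩ : ℂ) ≠ 0 := by
    intro h
    apply hN'
    have h1 := congrArg Complex.re h
    have h2 := congrArg Complex.im h
    simp only [Complex.zero_re, Complex.zero_im] at h1 h2
    unfold NN
    rw [h1, h2]; ring
  rw [mul_div_assoc', div_eq_iff hq]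
  apply Complex.ext
  · simp [Complex.mul_re, Complex.mul_im]
    field_simp
    unfold NN
    ring
  · simp [Complex.mul_re, Complex.mul_im]
    field_simp
    unfold NN
    ring

/-- derivatives along a curve -/
theorem curve_deriv (l : ℝ) (hl : 0 < l) (X Y : ℝ → ℝ) (x y x' y' t : ℝ) (hX : HasDerivAt X x' t)
    (hY : HasDerivAt Y y' t) (hx : X t = x) (hy : Y t = y) (hpos : 0 < y) :
    HasDerivAt (fun t => (F l (⟨X t, Y t⟩ : ℂ)).re) (er l x y * x' - ei l x y * y') t ∧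
    HasDerivAt (fun t => er l (X t) (Y t))
      (2 * l / NN x y * ((er l x y * (2 * x * y) - ei l x y * (x ^ 2 - y ^ 2 - 1)) * x'
        - (er l x y * (x ^ 2 - y ^ 2 - 1) + ei l x y * (2 * x * y)) * y')) t ∧
    HasDerivAt (fun t => Kf l (X t) (Y t))
      (er l x y * x' + y * (2 * l / NN x y) *
        ((er l x y * (2 * x * y) - ei l x y * (x ^ 2 - y ^ 2 - 1)) * y'
        + (er l x y * (x ^ 2 - y ^ 2 - 1) + ei l x y * (2 * x * y)) * x')) t ∧
    HasDerivAt (fun t => Gf l (X t) (Y t)) (2 * (y * er l x y * y' + Kf l x y * x')) t := by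
  have hFd : HasDerivAt (F l) (⟨er l x y, ei l x y⟩ : ℂ) (⟨x, y⟩ : ℂ) := by
    have h := F_deriv l hl (⟨x, y⟩ : ℂ) (Or.inl hpos)
    rwa [E0_mk l x y hpos] at h
  have hF := curve_re (F l) _ X Y x y x' y' t hX hY hx hy hFd
  have hE := curve_re (E0 l) _ X Y x y x' y' t hX hY hx hy (E0_deriv_mk l x y hpos)
  have hYpos : ∀ᶠ s in 𝓝 t, 0 < Y s := by
    have hc : ContinuousAt Y t := hY.continuousAt
    have h0 : 0 < Y t := by rw [hy]; exact hpos
    exact hc.eventually (lt_mem_nhds h0)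
  have her : HasDerivAt (fun t => er l (X t) (Y t))
      (2 * l / NN x y * ((er l x y * (2 * x * y) - ei l x y * (x ^ 2 - y ^ 2 - 1)) * x'
        - (er l x y * (x ^ 2 - y ^ 2 - 1) + ei l x y * (2 * x * y)) * y')) t := by
    have h := hE.1.congr_of_eventuallyEq (f₁ := fun t => er l (X t) (Y t)) (by
      filter_upwards [hYpos] with s hs
      rw [E0_mk l _ _ hs])
    refine h.congr_deriv ?_
    simp only
    ring
  have hei : HasDerivAt (fun t => ei l (X t) (Y t))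
      (2 * l / NN x y * ((er l x y * (2 * x * y) - ei l x y * (x ^ 2 - y ^ 2 - 1)) * y'
        + (er l x y * (x ^ 2 - y ^ 2 - 1) + ei l x y * (2 * x * y)) * x')) t := by
    have h := hE.2.congr_of_eventuallyEq (f₁ := fun t => ei l (X t) (Y t)) (by
      filter_upwards [hYpos] with s hs
      rw [E0_mk l _ _ hs])
    refine h.congr_deriv ?_
    simp only
    ring
  have hN : 0 < NN x y := (alp_facts x y hpos).2.2.1
  have hN' : NN x y ≠ 0 := hN.ne'
  refine ⟨hF.1, her, ?_, ?_⟩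
  · have h := hF.1.add (hY.mul hei)
    refine h.congr_deriv ?_
    simp only [hx, hy]
    ring
  · -- the real part of (1 - z ^ 2) E0
    have hQ : ∀ᶠ s in 𝓝 t, ((1 - (⟨X s, Y s⟩ : ℂ) ^ 2) * E0 l (⟨X s, Y s⟩ : ℂ)).re =
        -((X s ^ 2 - Y s ^ 2 - 1) * er l (X s) (Y s)) + 2 * X s * Y s * ei l (X s) (Y s) := by
      filter_upwards [hYpos] with s hs
      have e : (1 - (⟨X s, Y s⟩ : ℂ) ^ 2) = -(⟨X s ^ 2 - Y s ^ 2 - 1, 2 * X s * Y s⟩ : ℂ) := by
        rw [← sq_sub_one_mk]; ring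
      rw [e, E0_mk l _ _ hs]
      simp [Complex.mul_re]
      ring
    have hX2 : HasDerivAt (fun s => X s ^ 2) (2 * x * x') t := by
      refine (hX.pow 2).congr_deriv ?_
      rw [hx]; push_cast; ring
    have hY2 : HasDerivAt (fun s => Y s ^ 2) (2 * y * y') t := by
      refine (hY.pow 2).congr_deriv ?_
      rw [hy]; push_cast; ring
    have hR : HasDerivAt (fun s => X s ^ 2 - Y s ^ 2 - 1) (2 * x * x' - 2 * y * y') t :=
      (hX2.sub hY2).sub_const 1
    have hq : HasDerivAt (fun s => 2 * X s * Y s) (2 * x' * y + 2 * x * y') t := by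
      refine ((hX.const_mul 2).mul hY).congr_deriv ?_
      rw [hx, hy]
    have hm1 : HasDerivAt (fun s => -((X s ^ 2 - Y s ^ 2 - 1) * er l (X s) (Y s)) +
        2 * X s * Y s * ei l (X s) (Y s)) _ t := (hR.mul her).neg.add (hq.mul hei)
    have h2 : HasDerivAt (fun s : ℝ =>
      ((1 - (⟨X s, Y s⟩ : ℂ) ^ 2) * E0 l (⟨X s, Y s⟩ : ℂ)).re) _ t :=
      hm1.congr_of_eventuallyEq hQ
    have hXF : HasDerivAt (fun s => 2 * X s * (F l (⟨X s, Y s⟩ : ℂ)).re)
        (2 * x' * (F l (⟨x, y⟩ : ℂ)).re + 2 * x * (er l x y * x' - ei l x y * y')) t := by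
      refine ((hX.const_mul 2).mul hF.1).congr_deriv ?_
      rw [hx, hy]
    have h3 := (h2.add hXF).sub (hF.2.const_mul (2 * l))
    refine h3.congr_deriv ?_
    simp only [hx, hy, Kf]
    field_simp
    unfold NN
    ring

end Pool.Agent.JohnC
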