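import Mathlib

/-! John constant (MP_1fe18a_an): common definitions. See Blueprint.md. -/

set_option autoImplicit false

open Complex Set Filter Topology MeasureTheory

namespace Pool.Agent.JohnC

noncomputable section

/-- the series of the frozen statement -/
def SerS (l : ℝ) : ℝ :=
  ∑' k : ℕ, ((k : ℝ) + 1) / (((k : ℝ) + 1) ^ 2 + l ^ 2) *
          Real.exp (-(((k : ℝ) + 1) * Real.pi) / (2 * l))

/-- the equation defining lambda -/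
def RootEq (l : ℝ) : Prop := Real.pi / (Real.exp (2 * Real.pi * l) - 1) = SerS l

/-- beta = coth (pi / (4 l)) -/
def bet (l : ℝ) : ℝ := Real.cosh (Real.pi / (4 * l)) / Real.sinh (Real.pi / (4 * l))

/-- boundary integral: the real part of the integral of E0 along the real axis from 0 to beta,
seen from above -/
def Bnd (l : ℝ) : ℝ :=
  Real.exp (-(l * Real.pi)) * (∫ x in (0:ℝ)..1, Real.cos (l * Real.log ((1 - x) / (1 + x)))) +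
    ∫ x in (1:ℝ)..(bet l), Real.cos (l * Real.log ((x - 1) / (x + 1)))

def g0 (l : ℝ) (z : ℂ) : ℂ := I * l * (Complex.log (z - 1) - Complex.log (z + 1))

def E0 (l : ℝ) (z : ℂ) : ℂ := Complex.exp (g0 l z)

/-- primitive of E0 on {0 < im} ∪ {1 < re}, vanishing at beta -/
def F (l : ℝ) (z : ℂ) : ℂ :=
  (z - (bet l : ℂ)) * ∫ t in (0:ℝ)..1, E0 l ((bet l : ℂ) + (t : ℂ) * (z - (bet l : ℂ)))

/-- |z^2 - 1|^2 -/
def NN (x y : ℝ) : ℝ := (x ^ 2 - y ^ 2 - 1) ^ 2 + (2 * x * y) ^ 2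

def nu (l x y : ℝ) : ℝ := l / 2 * Real.log (((x + 1) ^ 2 + y ^ 2) / ((x - 1) ^ 2 + y ^ 2))

/-- angle under which [-1,1] is seen from x + i y -/
def alp (x y : ℝ) : ℝ := Complex.arg ((⟨x, y⟩ : ℂ) - 1) - Complex.arg ((⟨x, y⟩ : ℂ) + 1)

def mE (l x y : ℝ) : ℝ := Real.exp (-(l * alp x y))

def er (l x y : ℝ) : ℝ := mE l x y * Real.cos (nu l x y)

def ei (l x y : ℝ) : ℝ := -(mE l x y * Real.sin (nu l x y))

def Kf (l x y : ℝ) : ℝ := (F l (⟨x, y⟩ : ℂ)).re + y * ei l x y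

def Gf (l x y : ℝ) : ℝ :=
  ((1 - (⟨x, y⟩ : ℂ) ^ 2) * E0 l (⟨x, y⟩ : ℂ)).re + 2 * x * (F l (⟨x, y⟩ : ℂ)).re
    - 2 * l * (F l (⟨x, y⟩ : ℂ)).im

def cc (l x y : ℝ) : ℝ := (1 - x ^ 2 - y ^ 2) / (2 * l * y)

/-- fence expression -/
def FExpr (l b r ρ ρ1 ρ2 c s : ℝ) : ℝ :=
  -(2 * r + (3 * ρ * ρ1 + r * ρ1 ^ 2 + r * ρ * ρ2) / 2) * NN (b - r ^ 2) (r * ρ) * c
  + 2 * l * (4 * r * (ρ * (ρ + r * ρ1) / 2) *
        ((2 * (b - r ^ 2) * (r * ρ)) * c + ((b - r ^ 2) ^ 2 - (r * ρ) ^ 2 - 1) * s)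
      + ((ρ * (ρ + r * ρ1) / 2) * (ρ + r * ρ1) - 2 * r * (r * ρ)) *
        (((b - r ^ 2) ^ 2 - (r * ρ) ^ 2 - 1) * c - (2 * (b - r ^ 2) * (r * ρ)) * s))

/-- upper fence -/
def rhi (r : ℝ) : ℝ := 0.816 + 0.1163 * r - 0.0783 * r ^ 2 - 0.1426 * r ^ 3
def rhi1 (r : ℝ) : ℝ := 0.1163 - 0.1566 * r - 0.4278 * r ^ 2
def rhi2 (r : ℝ) : ℝ := -0.1566 - 0.8556 * r

/-- lower fence -/
def rlo (r : ℝ) : ℝ := 0.8046 + 0.1741 * r - 0.2635 * r ^ 2 + 0.079 * r ^ 3 - 0.1028 * r ^ 4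
def rlo1 (r : ℝ) : ℝ := 0.1741 - 0.527 * r + 0.237 * r ^ 2 - 0.4112 * r ^ 3
def rlo2 (r : ℝ) : ℝ := -0.527 + 0.474 * r - 1.2336 * r ^ 2

/-- the tube between the fences, as a function of x -/
def yhi (l x : ℝ) : ℝ := Real.sqrt (bet l - x) * rhi (Real.sqrt (bet l - x))
def ylo (l x : ℝ) : ℝ := Real.sqrt (bet l - x) * rlo (Real.sqrt (bet l - x))

/-- w of the upper fence -/
def whf (r : ℝ) : ℝ := rhi r * (rhi r + r * rhi1 r) / 2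

/-- w of the lower fence -/
def wlf (r : ℝ) : ℝ := rlo r * (rlo r + r * rlo1 r) / 2

def Sf (x : ℝ) : ℝ := (1.12 - x) * (0.68 + 0.58 * x)
def Sf1 (x : ℝ) : ℝ := -0.0304 - 1.16 * x

/-- the kappa expression; c, s stand for cos nu, sin nu, and p = w / y -/
def KapE (l x y w c s : ℝ) : ℝ :=
  (NN x y * (Sf x - x * Sf1 x)
    + 2 * l * Sf x * x * (2 * x * y + w / y * (x ^ 2 - y ^ 2 - 1))
    - 6.8 * l ^ 2 * Sf x ^ 2
    - x ^ 2 * NN x y * (1 + cc l x y) * (1 + (w / y) ^ 2)) * c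
  + 2 * l * Sf x * x * (w / y * (2 * x * y) - (x ^ 2 - y ^ 2 - 1)) * s

/-- lower and upper bound for tan (l artanh u) / u, as a function of s = u ^ 2, u ≤ 0.865 -/
def tlo (s : ℝ) : ℝ :=
  0.627834 + s * (0.291770 + s * (0.221065 + s * (0.190435 + s * (0.173796 + s * (0.163784 + s * (0.157482 + s * (0.153495 + s * (0.151067 + s * (0.149753 + s * (0.149272 + s * (0.149439 + s * (0.150126 + s * (0.151244)))))))))))))
def thi (s : ℝ) : ℝ :=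
  0.627835 + s * (0.291771 + s * (0.221067 + s * (0.190438 + s * (0.173799 + s * (0.163788 + s * (0.157487 + s * (0.153501 + s * (0.151074 + s * (0.149761 + s * (0.149281 + s * (0.149449 + s * (0.150137 + s * (0.151256 + s * (0.9))))))))))))))

/-- u = tanh (nu / l) -/
def uu (x y : ℝ) : ℝ := 2 * x / (1 + x ^ 2 + y ^ 2)

/-- v = tanh ((pi / 2 - nu) / l) -/
def vv (b x y : ℝ) : ℝ :=
  (2 * b / (1 + b ^ 2) - uu x y) / (1 - 2 * b / (1 + b ^ 2) * uu x y)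

/-- what the numerical pieces may use on c = cos nu, s = sin nu -/
def TanB (b x y c s : ℝ) : Prop :=
  0 < c ∧ 0 ≤ s ∧
  (uu x y ≤ 0.865 → uu x y * tlo (uu x y ^ 2) * c ≤ s ∧ s ≤ uu x y * thi (uu x y ^ 2) * c) ∧
  (vv b x y ≤ 0.865 → vv b x y * tlo (vv b x y ^ 2) * s ≤ c ∧ c ≤ vv b x y * thi (vv b x y ^ 2) * s)

/-- the half plane theorem for the parameter l -/
def HalfPlaneThm (l : ℝ) : Prop :=
  ∀ (η ε : ℝ) (Gc : ℂ → ℂ), 0 < η → 0 < ε → DifferentiableOn ℂ Gc {z | -η < z.im} →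
    (∀ z : ℂ, -η < z.im → -(l * Real.pi) + ε ≤ (Gc z).re ∧ (Gc z).re ≤ -ε) →
    ∀ x1 x2 : ℝ, x1 < x2 → (∫ t in x1..x2, Complex.exp (Gc (t : ℂ))) ≠ 0

/-- Moebius family of paths from a to b -/
def zeta (a b s t : ℂ) : ℂ :=
  ((1 - t) * (1 - s * b) * a + t * (1 - s * a) * b) / ((1 - t) * (1 - s * b) + t * (1 - s * a))

/-- h = - 1 / g0' -/
def hh (l x y : ℝ) : ℂ := I * ((⟨x, y⟩ : ℂ) ^ 2 - 1) / (2 * l)

def PP (l x y : ℝ) : ℂ := ⟨er l x y, Kf l x y / y⟩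

def gg (l x y : ℝ) : ℂ := hh l x y * PP l x y

def eps (l : ℝ) (Gc : ℂ → ℂ) (x y : ℝ) : ℂ := Complex.exp (Gc ⟨x, y⟩ - g0 l ⟨x, y⟩)

/-- the verification function -/
def Vf (l : ℝ) (Gc : ℂ → ℂ) (x y t : ℝ) : ℝ :=
  -(F l (⟨x, y⟩ : ℂ)).re + (gg l x y * (eps l Gc x y - 1)).re
    + t * (‖eps l Gc x y‖ - (eps l Gc x y).re)

/-- t in phase 1 -/
def tf (l x y : ℝ) : ℝ := -(er l x y * (Sf x / x))

/-- the path: the curve Gf = 0 between the fences -/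
structure IsPath (l : ℝ) (Y : ℝ → ℝ) : Prop where
  lo : ∀ x ∈ Ico (0:ℝ) (bet l), ylo l x < Y x
  hi : ∀ x ∈ Ico (0:ℝ) (bet l), Y x < yhi l x
  zero : ∀ x ∈ Ico (0:ℝ) (bet l), Gf l x (Y x) = 0
  pos : ∀ x ∈ Ico (0:ℝ) (bet l), 0 < Y x
  erpos : ∀ x ∈ Ico (0:ℝ) (bet l), 0 < er l x (Y x)
  cont : ContinuousOn Y (Ico (0:ℝ) (bet l))
  der : ∀ x ∈ Ioo (0:ℝ) (bet l), HasDerivAt Y (-(Kf l x (Y x) / (Y x * er l x (Y x)))) x
  wlo : ∀ x ∈ Icc (0:ℝ) 1.12, -0.03 * er l x (Y x) ≤ Kf l x (Y x)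
  whi : ∀ x ∈ Icc (0:ℝ) 1.12, Kf l x (Y x) ≤ (0.05 + 0.36 * x) * er l x (Y x)

end

end Pool.Agent.JohnC
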