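import Pool.Agent.Lib_MP_1fe18a_an.Basics
import Pool.Agent.Lib_MP_1fe18a_an.Fprim
import Pool.Agent.Lib_MP_1fe18a_an.Curve

/-! John constant, piece K1: the fences. -/

set_option autoImplicit false

open Complex Set Filter Topology MeasureTheory

namespace Pool.Agent.JohnC

theorem fence_pos_of_deriv (B : ℝ) (f f' : ℝ → ℝ) (hf : ∀ r ∈ Ioc 0 B, HasDerivAt f (f' r) r)
    (hpos : ∀ r ∈ Ioo 0 B, 0 < f' r) (hlim : Tendsto f (𝓝[>] 0) (𝓝 0)) :
    ∀ r ∈ Ioc 0 B, 0 < f r := by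
  have hmono : StrictMonoOn f (Ioc 0 B) := by
    apply strictMonoOn_of_deriv_pos (convex_Ioc 0 B)
    · intro r hr
      exact (hf r hr).continuousAt.continuousWithinAt
    · intro r hr
      rw [interior_Ioc] at hr
      rw [(hf r ⟨hr.1, hr.2.le⟩).deriv]
      exact hpos r hr
  intro r hr
  have hr2 : r / 2 ∈ Ioc 0 B := ⟨by linarith [hr.1], by linarith [hr.1, hr.2]⟩
  have h1 : f (r / 2) < f r := hmono hr2 hr (by linarith [hr.1])
  have h2 : 0 ≤ f (r / 2) := by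
    apply le_of_tendsto hlim
    have : Ioo 0 (r / 2) ∈ 𝓝[>] (0:ℝ) := Ioo_mem_nhdsGT (by linarith [hr.1])
    filter_upwards [this] with t ht
    exact (hmono ⟨ht.1, by linarith [ht.2, hr2.2]⟩ hr2 ht.2).le
  linarith

theorem fence (l σ : ℝ) (hl : 0 < l) (hσ : σ = 1 ∨ σ = -1) (ρ ρ1 ρ2 : ℝ → ℝ)
    (h1 : ∀ r, HasDerivAt ρ (ρ1 r) r) (h2 : ∀ r, HasDerivAt ρ1 (ρ2 r) r)
    (hpos : ∀ r ∈ Icc 0 (Real.sqrt (bet l)), 0 < ρ r)
    (hD : ∀ r ∈ Ioo 0 (Real.sqrt (bet l)), 0 < σ * FExpr l (bet l) r (ρ r) (ρ1 r) (ρ2 r)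
      (Real.cos (nu l (bet l - r ^ 2) (r * ρ r))) (Real.sin (nu l (bet l - r ^ 2) (r * ρ r)))) :
    ∀ r ∈ Ioc 0 (Real.sqrt (bet l)),
      σ * Gf l (bet l - r ^ 2) (r * ρ r) < 0 ∧
      0 < σ * (Kf l (bet l - r ^ 2) (r * ρ r)
        - ρ r * (ρ r + r * ρ1 r) / 2 * er l (bet l - r ^ 2) (r * ρ r)) := by
  set b := bet l with hb
  have hb1 : 1 < b := bet_gt l hl
  have hsb : 0 < Real.sqrt b := Real.sqrt_pos.2 (by linarith)
  have hXd : ∀ r : ℝ, HasDerivAt (fun r : ℝ => b - r ^ 2) (-(2 * r)) r := by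
    intro r
    have := (hasDerivAt_pow 2 r).const_sub b
    simpa using this
  have hYd : ∀ r : ℝ, HasDerivAt (fun r : ℝ => r * ρ r) (ρ r + r * ρ1 r) r := by
    intro r
    have := (hasDerivAt_id r).mul (h1 r)
    exact this.congr_deriv (by simp)
  have hWd : ∀ r : ℝ, HasDerivAt (fun r : ℝ => ρ r * (ρ r + r * ρ1 r) / 2)
      ((3 * ρ r * ρ1 r + r * ρ1 r ^ 2 + r * ρ r * ρ2 r) / 2) r := by
    intro r
    have h3 : HasDerivAt (fun r : ℝ => r * ρ1 r) (ρ1 r + r * ρ2 r) r := by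
      have := (hasDerivAt_id r).mul (h2 r)
      exact this.congr_deriv (by simp)
    have := ((h1 r).mul ((h1 r).add h3)).div_const 2
    refine this.congr_deriv ?_
    simp only [Pi.add_apply]
    ring
  have hypos : ∀ r ∈ Ioc 0 (Real.sqrt b), 0 < r * ρ r := fun r hr =>
    mul_pos hr.1 (hpos r ⟨hr.1.le, hr.2⟩)
  -- derivative of M
  have hM : ∀ r ∈ Ioc 0 (Real.sqrt b), HasDerivAt
      (fun r => Kf l (b - r ^ 2) (r * ρ r)
        - ρ r * (ρ r + r * ρ1 r) / 2 * er l (b - r ^ 2) (r * ρ r))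
      (mE l (b - r ^ 2) (r * ρ r) / NN (b - r ^ 2) (r * ρ r) *
        FExpr l b r (ρ r) (ρ1 r) (ρ2 r)
      (Real.cos (nu l (b - r ^ 2) (r * ρ r))) (Real.sin (nu l (b - r ^ 2) (r * ρ r)))) r := by
    intro r hr
    have hy := hypos r hr
    obtain ⟨_, hder, hdK, _⟩ := curve_deriv l hl (fun r => b - r ^ 2) (fun r => r * ρ r)
      (b - r ^ 2) (r * ρ r) _ _ r (hXd r) (hYd r) rfl rfl hy
    have hNN : NN (b - r ^ 2) (r * ρ r) ≠ 0 := (alp_facts (b - r ^ 2) (r * ρ r) hy).2.2.1.ne'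
    have := hdK.sub ((hWd r).mul hder)
    refine this.congr_deriv ?_
    simp only [er, ei, FExpr]
    field_simp
    ring
  have hG : ∀ r ∈ Ioc 0 (Real.sqrt b), HasDerivAt
      (fun r => Gf l (b - r ^ 2) (r * ρ r))
      (-(4 * r) * (Kf l (b - r ^ 2) (r * ρ r)
        - ρ r * (ρ r + r * ρ1 r) / 2 * er l (b - r ^ 2) (r * ρ r))) r := by
    intro r hr
    have hy := hypos r hr
    obtain ⟨_, _, _, hdG⟩ := curve_deriv l hl (fun r => b - r ^ 2) (fun r => r * ρ r)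
      (b - r ^ 2) (r * ρ r) _ _ r (hXd r) (hYd r) rfl rfl hy
    refine hdG.congr_deriv ?_
    ring
  -- limits at 0
  have hz : Tendsto (fun r : ℝ => (⟨b - r ^ 2, r * ρ r⟩ : ℂ)) (𝓝 0) (𝓝 (b : ℂ)) := by
    have hX0 : Tendsto (fun r : ℝ => b - r ^ 2) (𝓝 0) (𝓝 b) := by
      have := (hXd 0).continuousAt.tendsto
      simpa using this
    have hY0 : Tendsto (fun r : ℝ => r * ρ r) (𝓝 0) (𝓝 0) := by
      have := (hYd 0).continuousAt.tendsto
      simpa using this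
    have h3 : Tendsto (fun r : ℝ => ((b - r ^ 2 : ℝ) : ℂ) + ((r * ρ r : ℝ) : ℂ) * I) (𝓝 0)
        (𝓝 ((b : ℂ) + ((0:ℝ) : ℂ) * I)) :=
      ((Complex.continuous_ofReal.tendsto _).comp hX0).add
        (((Complex.continuous_ofReal.tendsto _).comp hY0).mul_const I)
    have h4 : (b : ℂ) + ((0:ℝ) : ℂ) * I = (b : ℂ) := by simp
    rw [h4] at h3
    refine h3.congr fun r => ?_
    rw [Complex.mk_eq_add_mul_I]
  have hb' : (0:ℝ) < (b : ℂ).im ∨ (1:ℝ) < (b : ℂ).re := Or.inr (by simpa using hb1)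
  have hFb : F l (b : ℂ) = 0 := by simp [F, hb]
  have hFc : Tendsto (fun r : ℝ => F l (⟨b - r ^ 2, r * ρ r⟩ : ℂ)) (𝓝 0) (𝓝 0) := by
    have := (F_deriv l hl (b : ℂ) hb').continuousAt.tendsto
    rw [hFb] at this
    exact this.comp hz
  have hEc : Tendsto (fun r : ℝ => E0 l (⟨b - r ^ 2, r * ρ r⟩ : ℂ)) (𝓝 0) (𝓝 (-I)) := by
    have h3 : ContinuousAt (E0 l) (b : ℂ) := (g0_deriv l (b : ℂ) hb').continuousAt.cexp
    have := h3.tendsto
    rw [hb, E0_bet l hl] at this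
    exact this.comp hz
  have hmem : Ioc 0 (Real.sqrt b) ∈ 𝓝[>] (0:ℝ) := Ioc_mem_nhdsGT hsb
  have hzr : Tendsto (fun r : ℝ => (⟨b - r ^ 2, r * ρ r⟩ : ℂ)) (𝓝[>] 0) (𝓝 (b : ℂ)) :=
    hz.mono_left nhdsWithin_le_nhds
  have hFr := hFc.mono_left (nhdsWithin_le_nhds (s := Ioi (0:ℝ)))
  have hEr := hEc.mono_left (nhdsWithin_le_nhds (s := Ioi (0:ℝ)))
  have herlim : Tendsto (fun r => er l (b - r ^ 2) (r * ρ r)) (𝓝[>] 0) (𝓝 0) := by
    have h3 := (Complex.continuous_re.tendsto _).comp hEr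
    have h4 : (-I : ℂ).re = 0 := by simp
    rw [h4] at h3
    refine h3.congr' ?_
    filter_upwards [hmem] with r hr
    simp only [Function.comp_apply]
    rw [E0_mk l _ _ (hypos r hr)]
  have heilim : Tendsto (fun r => ei l (b - r ^ 2) (r * ρ r)) (𝓝[>] 0) (𝓝 (-1)) := by
    have h3 := (Complex.continuous_im.tendsto _).comp hEr
    have h4 : (-I : ℂ).im = -1 := by simp
    rw [h4] at h3
    refine h3.congr' ?_
    filter_upwards [hmem] with r hr
    simp only [Function.comp_apply]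
    rw [E0_mk l _ _ (hypos r hr)]
  have hYr : Tendsto (fun r : ℝ => r * ρ r) (𝓝[>] 0) (𝓝 0) := by
    have := (hYd 0).continuousAt.tendsto
    simp only [zero_mul] at this
    exact this.mono_left nhdsWithin_le_nhds
  have hWr : Tendsto (fun r : ℝ => ρ r * (ρ r + r * ρ1 r) / 2) (𝓝[>] 0)
      (𝓝 (ρ 0 * (ρ 0 + 0 * ρ1 0) / 2)) :=
    (hWd 0).continuousAt.tendsto.mono_left nhdsWithin_le_nhds
  have hKlim : Tendsto (fun r => Kf l (b - r ^ 2) (r * ρ r)) (𝓝[>] 0) (𝓝 0) := by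
    have h3 := ((Complex.continuous_re.tendsto _).comp hFr).add (hYr.mul heilim)
    simpa [Kf] using h3
  have hMlim : Tendsto (fun r => Kf l (b - r ^ 2) (r * ρ r)
        - ρ r * (ρ r + r * ρ1 r) / 2 * er l (b - r ^ 2) (r * ρ r)) (𝓝[>] 0) (𝓝 0) := by
    have h3 := hKlim.sub (hWr.mul herlim)
    simpa using h3
  have hXr : Tendsto (fun r : ℝ => b - r ^ 2) (𝓝[>] 0) (𝓝 b) := by
    have := (hXd 0).continuousAt.tendsto
    have h4 : b - (0:ℝ) ^ 2 = b := by ring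
    rw [h4] at this
    exact this.mono_left nhdsWithin_le_nhds
  have hGlim : Tendsto (fun r => Gf l (b - r ^ 2) (r * ρ r)) (𝓝[>] 0) (𝓝 0) := by
    have h3 : Tendsto (fun r : ℝ => ((1 - (⟨b - r ^ 2, r * ρ r⟩ : ℂ) ^ 2)
        * E0 l (⟨b - r ^ 2, r * ρ r⟩ : ℂ)).re) (𝓝[>] 0) (𝓝 0) := by
      have h5 := (Complex.continuous_re.tendsto _).comp (((hzr.pow 2).const_sub 1).mul hEr)
      have h6 : ((1 - (b : ℂ) ^ 2) * (-I)).re = 0 := by
        have : ((1 - (b : ℂ) ^ 2) * (-I)) = ((-(1 - b ^ 2) : ℝ) : ℂ) * I := by push_cast; ring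
        rw [this, Complex.re_ofReal_mul, Complex.I_re, mul_zero]
      rw [h6] at h5
      exact h5
    have h4 := (h3.add ((hXr.const_mul 2).mul ((Complex.continuous_re.tendsto _).comp hFr))).sub
      (((Complex.continuous_im.tendsto _).comp hFr).const_mul (2 * l))
    simpa [Gf, Function.comp_def] using h4
  -- conclusion for M
  have hMpos : ∀ r ∈ Ioc 0 (Real.sqrt b), 0 < σ * (Kf l (b - r ^ 2) (r * ρ r)
        - ρ r * (ρ r + r * ρ1 r) / 2 * er l (b - r ^ 2) (r * ρ r)) := by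
    apply fence_pos_of_deriv (Real.sqrt b) _ _ (fun r hr => (hM r hr).const_mul σ)
    · intro r hr
      have hy := hypos r ⟨hr.1, hr.2.le⟩
      have hNN : 0 < NN (b - r ^ 2) (r * ρ r) := (alp_facts (b - r ^ 2) (r * ρ r) hy).2.2.1
      have hmE : 0 < mE l (b - r ^ 2) (r * ρ r) := Real.exp_pos _
      have := mul_pos (div_pos hmE hNN) (hD r hr)
      calc 0 < _ := this
        _ = _ := by ring
    · have := hMlim.const_mul σ
      simpa using this
  have hGneg : ∀ r ∈ Ioc 0 (Real.sqrt b), 0 < -σ * Gf l (b - r ^ 2) (r * ρ r) := by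
    apply fence_pos_of_deriv (Real.sqrt b) _ _ (fun r hr => (hG r hr).const_mul (-σ))
    · intro r hr
      have h3 := hMpos r ⟨hr.1, hr.2.le⟩
      have h4 : 0 < 4 * r := by linarith [hr.1]
      have := mul_pos h4 h3
      calc 0 < _ := this
        _ = _ := by ring
    · have := hGlim.const_mul (-σ)
      simpa using this
  intro r hr
  refine ⟨?_, hMpos r hr⟩
  have := hGneg r hr
  linarith

end Pool.Agent.JohnC
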