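import Pool.Agent.Lib_MP_1fe18a_an.BndL
import Pool.Agent.Lib_MP_1fe18a_an.Basics
import Pool.Agent.Lib_MP_1fe18a_an.Fprim

/-! Piece H2: the real part of F vanishes on the imaginary axis. -/

set_option autoImplicit false

open Complex Set Filter Topology MeasureTheory

namespace Pool.Agent.JohnC


theorem F_bet (l : ℝ) : F l (bet l : ℂ) = 0 := by
  unfold F
  simp

theorem F_re_horizontal (l : ℝ) (hl : 0 < l) (y : ℝ) (hy : 0 < y) :
    ∫ x in (0:ℝ)..(bet l), (E0 l (⟨x, y⟩ : ℂ)).re =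
      (F l (⟨bet l, y⟩ : ℂ)).re - (F l (⟨0, y⟩ : ℂ)).re := by
  have hd : ∀ x : ℝ, HasDerivAt (fun x : ℝ => (F l (⟨x, y⟩ : ℂ)).re) (E0 l (⟨x, y⟩ : ℂ)).re x := by
    intro x
    have h1 : HasDerivAt (fun w : ℂ => w + (y : ℂ) * I) 1 (x : ℂ) :=
      (hasDerivAt_id _).add_const _
    have h2 : HasDerivAt (F l) (E0 l ((x : ℂ) + (y : ℂ) * I)) ((x : ℂ) + (y : ℂ) * I) := by
      apply F_deriv l hl
      left
      simpa using hy
    have h3 : HasDerivAt (fun w : ℂ => F l (w + (y : ℂ) * I))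
        (E0 l ((x : ℂ) + (y : ℂ) * I) * 1) (x : ℂ) :=
      HasDerivAt.comp (h := fun w : ℂ => w + (y : ℂ) * I) (h₂ := F l) (x : ℂ) h2 h1
    have h4 := h3.real_of_complex
    rw [mul_one] at h4
    have e : (fun x : ℝ => (F l (⟨x, y⟩ : ℂ)).re) =
        fun x : ℝ => (F l ((x : ℂ) + (y : ℂ) * I)).re := by
      funext x; rw [bnd_mk]
    rw [e, bnd_mk]
    exact h4
  rw [intervalIntegral.integral_eq_sub_of_hasDerivAt (fun x _ => hd x)]
  refine (intervalIntegrable_const (c := Real.exp (2 * l * Real.pi))).mono_fun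
    (bnd_measurable l y).aestronglyMeasurable ?_
  refine Filter.Eventually.of_forall fun x => ?_
  show ‖(E0 l (⟨x, y⟩ : ℂ)).re‖ ≤ ‖Real.exp (2 * l * Real.pi)‖
  rw [Real.norm_eq_abs, Real.norm_eq_abs, abs_of_pos (Real.exp_pos _)]
  exact bnd_le l hl _

theorem F_re_vertical (l : ℝ) (hl : 0 < l) (y : ℝ) (hy : 0 < y) :
    HasDerivAt (fun y : ℝ => (F l (⟨0, y⟩ : ℂ)).re) 0 y := by
  have h1 : HasDerivAt (fun w : ℂ => w * I) I (y : ℂ) := by
    simpa using (hasDerivAt_id (y : ℂ)).mul_const I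
  have h2 : HasDerivAt (F l) (E0 l ((y : ℂ) * I)) ((y : ℂ) * I) := by
    apply F_deriv l hl
    left
    simpa using hy
  have h3 : HasDerivAt (fun w : ℂ => F l (w * I)) (E0 l ((y : ℂ) * I) * I) (y : ℂ) :=
    HasDerivAt.comp (h := fun w : ℂ => w * I) (h₂ := F l) (y : ℂ) h2 h1
  have h4 := h3.real_of_complex
  have e : (fun y : ℝ => (F l (⟨0, y⟩ : ℂ)).re) = fun y : ℝ => (F l ((y : ℂ) * I)).re := by
    funext y; rw [bnd_mk]; simp
  have hz : (E0 l ((y : ℂ) * I) * I).re = 0 := by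
    have e1 : (y : ℂ) * I = (⟨0, y⟩ : ℂ) := by rw [bnd_mk]; simp
    rw [e1, E0_mk l 0 y hy, Complex.mul_I_re]
    have hnu : nu l 0 y = 0 := by
      unfold nu
      have : ((0 + 1) ^ 2 + y ^ 2) / ((0 - 1) ^ 2 + y ^ 2) = 1 := by
        have h5 : (0 : ℝ) < (0 - 1) ^ 2 + y ^ 2 := by positivity
        rw [div_eq_one_iff_eq h5.ne']
        ring
      rw [this]; simp
    simp [ei, hnu]
  rw [e, ← hz]
  exact h4

theorem F_imag (l : ℝ) (hl : 0 < l) (hB : Bnd l = 0) (y : ℝ) (hy : 0 < y) :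
    (F l (⟨0, y⟩ : ℂ)).re = 0 := by
  -- constancy
  have hconst : ∀ u v : ℝ, 0 < u → 0 < v → (F l (⟨0, u⟩ : ℂ)).re = (F l (⟨0, v⟩ : ℂ)).re := by
    intro u v hu hv
    have hs : Convex ℝ (Ioi (0 : ℝ)) := convex_Ioi 0
    have := hs.is_const_of_fderivWithin_eq_zero (𝕜 := ℝ)
      (f := fun y : ℝ => (F l (⟨0, y⟩ : ℂ)).re)
      (fun w hw => (F_re_vertical l hl w hw).differentiableAt.differentiableWithinAt)
      (fun w hw => by
        have h1 := (F_re_vertical l hl w hw).hasFDerivAt.hasFDerivWithinAt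
          (s := Ioi (0 : ℝ))
        rw [h1.fderivWithin (isOpen_Ioi.uniqueDiffWithinAt hw)]
        ext; simp) hu hv
    exact this
  -- the limit
  have hlim1 : Tendsto (fun u : ℝ => (F l (⟨bet l, u⟩ : ℂ)).re) (𝓝[>] 0) (𝓝 0) := by
    have hc : ContinuousAt (F l) (bet l : ℂ) := by
      apply (F_deriv l hl (bet l : ℂ) _).continuousAt
      right
      rw [Complex.ofReal_re]
      exact bnd_bet_gt l hl
    have h2 : Continuous (fun u : ℝ => ((bet l : ℝ) : ℂ) + (u : ℂ) * I) := by fun_prop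
    have h3 : Tendsto (fun u : ℝ => ((bet l : ℝ) : ℂ) + (u : ℂ) * I) (𝓝[>] 0)
        (𝓝 ((bet l : ℝ) : ℂ)) := by
      have := (h2.tendsto 0).mono_left (nhdsWithin_le_nhds (s := Ioi (0 : ℝ)))
      simpa using this
    have h4 := (Complex.continuous_re.tendsto _).comp (hc.tendsto.comp h3)
    rw [F_bet] at h4
    have e : (fun u : ℝ => (F l (⟨bet l, u⟩ : ℂ)).re) =
        Complex.re ∘ (F l ∘ fun u : ℝ => ((bet l : ℝ) : ℂ) + (u : ℂ) * I) := by
      funext u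
      simp only [Function.comp, bnd_mk]
    rw [e]
    simpa using h4
  have hlim2 := Bnd_limit l hl
  rw [hB] at hlim2
  have hlim3 : Tendsto (fun u : ℝ => (F l (⟨0, u⟩ : ℂ)).re) (𝓝[>] 0) (𝓝 (0 - 0)) := by
    refine (hlim1.sub hlim2).congr' ?_
    filter_upwards [self_mem_nhdsWithin] with u hu
    rw [F_re_horizontal l hl u hu]
    ring
  have hlim4 : Tendsto (fun u : ℝ => (F l (⟨0, u⟩ : ℂ)).re) (𝓝[>] 0)
      (𝓝 (F l (⟨0, y⟩ : ℂ)).re) := by
    refine Tendsto.congr' (f₁ := fun _ : ℝ => (F l (⟨0, y⟩ : ℂ)).re) ?_ tendsto_const_nhds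
    filter_upwards [self_mem_nhdsWithin] with u hu
    exact hconst y u hy hu
  have := tendsto_nhds_unique hlim4 hlim3
  rw [this, sub_zero]

end Pool.Agent.JohnC
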