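import Pool.Agent.Lib_MP_1fe18a_an.Basics

/-! John constant: from the half theorem to the half plane theorem. -/

set_option autoImplicit false

open Complex Set Filter Topology MeasureTheory

namespace Pool.Agent.JohnC

theorem half_plane_of_half (l : ℝ) (hl : 0 < l)
    (H : ∃ Y0 : ℝ, 0 < Y0 ∧ ∀ (η ε : ℝ) (Gc Φ : ℂ → ℂ), 0 < η → 0 < ε →
      DifferentiableOn ℂ Gc {z | -η < z.im} →
      (∀ z : ℂ, -η < z.im → -(l * Real.pi) + ε ≤ (Gc z).re ∧ (Gc z).re ≤ -ε) →
      (∀ z : ℂ, -η < z.im → HasDerivAt Φ (Complex.exp (Gc z)) z) →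
      (Gc (⟨0, Y0⟩ : ℂ)).im = 0 →
      0 < (Φ (bet l) - Φ (⟨0, Y0⟩ : ℂ)).re) : HalfPlaneThm l := by
  obtain ⟨Y0, hY0, H⟩ := H
  have hb : 0 < bet l := zero_lt_one.trans (bet_gt l hl)
  set b := bet l with hbdef
  intro η ε Gc hη hε hG hr x1 x2 hx hzero
  have hopen : ∀ e : ℝ, IsOpen {z : ℂ | e < z.im} := fun e =>
    isOpen_lt continuous_const Complex.continuous_im
  -- a primitive of `exp Gc`
  obtain ⟨P, hP'⟩ := (convex_halfSpace_im_gt (-η)).exists_forall_hasDerivWithinAt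
    (f := fun z => Complex.exp (Gc z)) hG.cexp
  have hP : ∀ z : ℂ, -η < z.im → HasDerivAt P (Complex.exp (Gc z)) z := fun z hz =>
    (hP' z hz).hasDerivAt ((hopen (-η)).mem_nhds hz)
  have hPint : P x2 - P x1 = 0 := by
    rw [← hzero]
    symm
    refine intervalIntegral.integral_eq_sub_of_hasDerivAt (f := fun t : ℝ => P t) ?_ ?_
    · intro t _
      exact (hP (t : ℂ) (by simpa using hη)).comp_ofReal
    · apply ContinuousOn.intervalIntegrable
      intro t _
      have h1 : ContinuousAt Gc (t : ℂ) :=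
        ((hG (t : ℂ) (by simpa using hη)).differentiableAt
          ((hopen (-η)).mem_nhds (by simpa using hη))).continuousAt
      exact (h1.cexp.comp_of_eq Complex.continuous_ofReal.continuousAt rfl).continuousWithinAt
  set r : ℝ := (x2 - x1) / (2 * b) with hrdef
  have hr0 : 0 < r := by
    rw [hrdef]
    have : 0 < x2 - x1 := by linarith
    positivity
  set c : ℝ := (x1 + x2) / 2 with hcdef
  have hcb : c + r * b = x2 := by
    rw [hrdef, hcdef]; field_simp; ring
  have hcb' : c - r * b = x1 := by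
    rw [hrdef, hcdef]; field_simp; ring
  set θ : ℝ := (Gc ((c : ℂ) + r * (⟨0, Y0⟩ : ℂ))).im with hθ
  have him : ∀ z : ℂ, ((c : ℂ) + r * z).im = r * z.im := by
    intro z; simp
  have hdom : ∀ z : ℂ, -(η / r) < z.im → -η < ((c : ℂ) + r * z).im := by
    intro z hz
    rw [him]
    have h1 := mul_lt_mul_of_pos_left hz hr0
    have h2 : r * -(η / r) = -η := by field_simp
    linarith
  set G1 : ℂ → ℂ := fun z => Gc ((c : ℂ) + r * z) - θ * I with hG1
  set P1 : ℂ → ℂ := fun z => Complex.exp (-(θ * I)) * P ((c : ℂ) + r * z) / r with hP1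
  have hη1 : 0 < η / r := by positivity
  have hG1d : DifferentiableOn ℂ G1 {z | -(η / r) < z.im} := by
    refine DifferentiableOn.sub_const ?_ _
    refine hG.comp (f := fun z : ℂ => (c : ℂ) + r * z) (by fun_prop) ?_
    intro z hz
    exact hdom z hz
  have hG1r : ∀ z : ℂ, -(η / r) < z.im → -(l * Real.pi) + ε ≤ (G1 z).re ∧ (G1 z).re ≤ -ε := by
    intro z hz
    have h1 : (G1 z).re = (Gc ((c : ℂ) + r * z)).re := by simp [hG1]
    rw [h1]
    exact hr _ (hdom z hz)
  have hP1d : ∀ z : ℂ, -(η / r) < z.im → HasDerivAt P1 (Complex.exp (G1 z)) z := by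
    intro z hz
    have h1 : HasDerivAt (fun z : ℂ => (c : ℂ) + r * z) (r : ℂ) z := by
      simpa using ((hasDerivAt_id z).const_mul (r : ℂ)).const_add (c : ℂ)
    have h2 := (hP _ (hdom z hz)).comp z h1
    have h3 := (h2.const_mul (Complex.exp (-(θ * I)))).div_const (r : ℂ)
    have hrc : (r : ℂ) ≠ 0 := by exact_mod_cast hr0.ne'
    refine (h3.congr_deriv ?_)
    have : Complex.exp (G1 z) = Complex.exp (-(θ * I)) * Complex.exp (Gc ((c : ℂ) + r * z)) := by
      rw [← Complex.exp_add, hG1]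
      congr 1
      ring
    rw [this]
    field_simp
  have hG1i : (G1 (⟨0, Y0⟩ : ℂ)).im = 0 := by
    simp [hG1, hθ]
  have hA := H (η / r) ε G1 P1 hη1 hε hG1d hG1r hP1d hG1i
  -- reflection
  have hrefl : ∀ z : ℂ, (-(starRingEnd ℂ z)).im = z.im := by intro z; simp
  have hdd : ∀ (f : ℂ → ℂ) (f' z : ℂ), HasDerivAt f f' (-(starRingEnd ℂ z)) →
      HasDerivAt (fun w => starRingEnd ℂ (f (-(starRingEnd ℂ w)))) (-(starRingEnd ℂ f')) z := by
    intro f f' z hf
    have h1 : HasDerivAt (fun w : ℂ => -w) (-1 : ℂ) (starRingEnd ℂ z) := (hasDerivAt_id _).neg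
    have h2 : HasDerivAt (fun w => f (-w)) (f' * -1) (starRingEnd ℂ z) :=
      HasDerivAt.comp (starRingEnd ℂ z) hf h1
    have h3 := h2.conj_conj
    rw [Complex.conj_conj] at h3
    refine h3.congr_deriv ?_
    simp
  have hB := H (η / r) ε (fun z => starRingEnd ℂ (G1 (-(starRingEnd ℂ z))))
    (fun z => -(starRingEnd ℂ (P1 (-(starRingEnd ℂ z))))) hη1 hε
    (by
      intro z hz
      have hz' : -(starRingEnd ℂ z) ∈ {z : ℂ | -(η / r) < z.im} := by
        simp only [Set.mem_ofPred_eq, hrefl]; exact hz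
      exact (hdd _ _ z ((hG1d _ hz').differentiableAt
        ((hopen _).mem_nhds hz')).hasDerivAt).differentiableAt.differentiableWithinAt)
    (by
      intro z hz
      rw [Complex.conj_re]
      exact hG1r _ (by rw [hrefl]; exact hz))
    (by
      intro z hz
      refine (hdd _ _ z (hP1d _ (by rw [hrefl]; exact hz))).neg.congr_deriv ?_
      rw [neg_neg, Complex.exp_conj])
    (by
      have h1 : -(starRingEnd ℂ (⟨0, Y0⟩ : ℂ)) = ⟨0, Y0⟩ := by
        apply Complex.ext <;> simp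
      rw [h1, Complex.conj_im, hG1i, neg_zero])
  have h1 : -(starRingEnd ℂ (⟨0, Y0⟩ : ℂ)) = ⟨0, Y0⟩ := by
    apply Complex.ext <;> simp
  have h2 : -(starRingEnd ℂ (b : ℂ)) = -(b : ℂ) := by simp
  simp only [h1, h2] at hB
  have h3 : P1 b = P1 (-(b : ℂ)) := by
    have e1 : (c : ℂ) + r * (b : ℂ) = (x2 : ℂ) := by exact_mod_cast hcb
    have e2 : (c : ℂ) + r * (-(b : ℂ)) = (x1 : ℂ) := by
      rw [← hcb']; push_cast; ring
    simp only [hP1, e1, e2]
    rw [sub_eq_zero.1 hPint]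
  have h4 : (-(starRingEnd ℂ (P1 (-(b : ℂ)))) - -(starRingEnd ℂ (P1 (⟨0, Y0⟩ : ℂ)))).re
      = (P1 (⟨0, Y0⟩ : ℂ)).re - (P1 (-(b : ℂ))).re := by
    simp
    ring
  rw [h4] at hB
  rw [Complex.sub_re, h3] at hA
  linarith

end Pool.Agent.JohnC
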