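import Pool.Agent.Lib_MP_1fe18a_an.Basics

/-! John constant (MP_1fe18a_an), piece L2: the limit of the verification function at the end
`beta` of the path. -/

set_option autoImplicit false

open Complex Set Filter Topology MeasureTheory

namespace Pool.Agent.JohnC

theorem LE_E0_deriv (l : ℝ) (z : ℂ) (hz : 0 < z.im ∨ 1 < z.re) :
    HasDerivAt (E0 l) (E0 l z * (2 * I * l / (z ^ 2 - 1))) z :=
  (g0_deriv l z hz).cexp

/-- near `beta`, `E0` is Lipschitz at `beta` -/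
theorem LE_E0_lip (l : ℝ) (hl : 0 < l) :
    ∃ C : ℝ, 0 < C ∧ ∃ δ : ℝ, 0 < δ ∧ δ ≤ bet l - 1 ∧
      ∀ z : ℂ, ‖z - (bet l : ℂ)‖ < δ → ‖E0 l z + I‖ ≤ C * ‖z - (bet l : ℂ)‖ := by
  have hb := bet_gt l hl
  have hd : HasDerivAt (E0 l) _ (bet l : ℂ) := LE_E0_deriv l (bet l : ℂ) (Or.inr (by simpa using hb))
  have hO := hd.differentiableAt.isBigO_sub
  obtain ⟨C, hC⟩ := hO.bound
  obtain ⟨δ, hδ, h⟩ := Metric.eventually_nhds_iff.1 hC
  refine ⟨max C 1, lt_of_lt_of_le one_pos (le_max_right _ _), min δ (bet l - 1),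
    lt_min hδ (by linarith), min_le_right _ _, fun z hz => ?_⟩
  have h1 := h (y := z) (by rw [dist_eq_norm]; exact lt_of_lt_of_le hz (min_le_left _ _))
  rw [E0_bet l hl, sub_neg_eq_add] at h1
  exact h1.trans (mul_le_mul_of_nonneg_right (le_max_left _ _) (norm_nonneg _))

/-- second order expansion of `F` at `beta` -/
theorem LE_F_quad (l : ℝ) (_hl : 0 < l) (C δ : ℝ) (hC : 0 < C) (hδ' : δ ≤ bet l - 1)
    (h : ∀ z : ℂ, ‖z - (bet l : ℂ)‖ < δ → ‖E0 l z + I‖ ≤ C * ‖z - (bet l : ℂ)‖)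
    (z : ℂ) (hz : ‖z - (bet l : ℂ)‖ < δ) :
    ‖F l z + I * (z - (bet l : ℂ))‖ ≤ C * ‖z - (bet l : ℂ)‖ ^ 2 := by
  set w : ℂ := z - (bet l : ℂ) with hw
  have hmem : ∀ t ∈ Icc (0:ℝ) 1, ‖((bet l : ℂ) + (t : ℂ) * w) - (bet l : ℂ)‖ ≤ ‖w‖ := by
    intro t ht
    rw [add_sub_cancel_left, norm_mul, Complex.norm_real, Real.norm_eq_abs, abs_of_nonneg ht.1]
    exact mul_le_of_le_one_left (norm_nonneg _) ht.2
  have hcont : ContinuousOn (fun t : ℝ => E0 l ((bet l : ℂ) + (t : ℂ) * w)) (uIcc (0:ℝ) 1) := by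
    intro t ht
    rw [uIcc_of_le zero_le_one] at ht
    refine ContinuousAt.continuousWithinAt ?_
    have h1 : 1 < ((bet l : ℂ) + (t : ℂ) * w).re := by
      have h2 := (Complex.abs_re_le_norm (((bet l : ℂ) + (t : ℂ) * w) - (bet l : ℂ))).trans
        (hmem t ht)
      rw [Complex.sub_re, Complex.ofReal_re] at h2
      have := (abs_le.1 h2).1
      linarith
    have h3 : ContinuousAt (E0 l) ((bet l : ℂ) + (t : ℂ) * w) :=
      (LE_E0_deriv l _ (Or.inr h1)).continuousAt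
    exact ContinuousAt.comp (f := fun t : ℝ => (bet l : ℂ) + (t : ℂ) * w) h3
      (by fun_prop)
  have hint : IntervalIntegrable (fun t : ℝ => E0 l ((bet l : ℂ) + (t : ℂ) * w)) volume 0 1 :=
    hcont.intervalIntegrable
  have e1 : F l z + I * w = w * ∫ t in (0:ℝ)..1, (E0 l ((bet l : ℂ) + (t : ℂ) * w) + I) := by
    rw [intervalIntegral.integral_add hint intervalIntegrable_const]
    unfold F
    rw [← hw]
    simp only [intervalIntegral.integral_const, sub_zero, one_smul]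
    ring
  rw [e1, norm_mul]
  have h4 : ‖∫ t in (0:ℝ)..1, (E0 l ((bet l : ℂ) + (t : ℂ) * w) + I)‖ ≤ C * ‖w‖ * |(1:ℝ) - 0| := by
    refine intervalIntegral.norm_integral_le_of_norm_le_const fun t ht => ?_
    rw [uIoc_of_le zero_le_one] at ht
    have h5 := hmem t ⟨ht.1.le, ht.2⟩
    exact (h _ (lt_of_le_of_lt h5 hz)).trans (mul_le_mul_of_nonneg_left h5 hC.le)
  rw [sub_zero, abs_one, mul_one] at h4
  calc ‖w‖ * ‖∫ t in (0:ℝ)..1, (E0 l ((bet l : ℂ) + (t : ℂ) * w) + I)‖ ≤ ‖w‖ * (C * ‖w‖) :=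
        mul_le_mul_of_nonneg_left h4 (norm_nonneg _)
    _ = C * ‖w‖ ^ 2 := by ring

/-- `Kf` is of second order at `beta` -/
theorem LE_Kf_quad (l : ℝ) (hl : 0 < l) (C δ : ℝ) (hC : 0 < C) (hδ' : δ ≤ bet l - 1)
    (h : ∀ z : ℂ, ‖z - (bet l : ℂ)‖ < δ → ‖E0 l z + I‖ ≤ C * ‖z - (bet l : ℂ)‖)
    (x y : ℝ) (hy : 0 < y) (hz : ‖(⟨x, y⟩ : ℂ) - (bet l : ℂ)‖ < δ) :
    |Kf l x y| ≤ 2 * C * ‖(⟨x, y⟩ : ℂ) - (bet l : ℂ)‖ ^ 2 := by
  have h1 := LE_F_quad l hl C δ hC hδ' h ⟨x, y⟩ hz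
  have h2 := h ⟨x, y⟩ hz
  have e1 : Kf l x y = (F l (⟨x, y⟩ : ℂ) + I * ((⟨x, y⟩ : ℂ) - (bet l : ℂ))).re
      + y * (E0 l (⟨x, y⟩ : ℂ) + I).im := by
    rw [E0_mk l x y hy]
    simp [Kf]
    ring
  have hyn : y ≤ ‖(⟨x, y⟩ : ℂ) - (bet l : ℂ)‖ := by
    have := Complex.abs_im_le_norm ((⟨x, y⟩ : ℂ) - (bet l : ℂ))
    simp only [Complex.sub_im, Complex.ofReal_im, sub_zero] at this
    exact (le_abs_self y).trans this
  rw [e1]
  set N := ‖(⟨x, y⟩ : ℂ) - (bet l : ℂ)‖ with hN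
  have hN0 : 0 ≤ N := norm_nonneg _
  have h3 := (Complex.abs_re_le_norm (F l (⟨x, y⟩ : ℂ) + I * ((⟨x, y⟩ : ℂ) - (bet l : ℂ)))).trans h1
  have h4 := (Complex.abs_im_le_norm (E0 l (⟨x, y⟩ : ℂ) + I)).trans h2
  refine (abs_add_le _ _).trans ?_
  rw [abs_mul, abs_of_pos hy]
  have h5 : y * |(E0 l (⟨x, y⟩ : ℂ) + I).im| ≤ N * (C * N) :=
    mul_le_mul hyn h4 (abs_nonneg _) hN0
  nlinarith

theorem limit_end (l : ℝ) (h1 : (0.627834 : ℝ) < l) (h2 : l < (0.627835 : ℝ))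
    (Y : ℝ → ℝ) (hY : IsPath l Y) (Gc : ℂ → ℂ) (hGc : ContinuousAt Gc (bet l)) :
    Tendsto (fun x => Vf l Gc x (Y x) 0) (𝓝[<] (bet l)) (𝓝 0) ∧
    Tendsto Y (𝓝[<] (bet l)) (𝓝 0) ∧
    Tendsto (fun x => alp x (Y x)) (𝓝[<] (bet l)) (𝓝 0) := by
  have hl : 0 < l := by linarith
  have _ := h2
  have hb := bet_gt l hl
  -- x is in the range of the path, eventually
  have hev : ∀ᶠ x in 𝓝[<] (bet l), x ∈ Ico (0:ℝ) (bet l) :=
    Ico_mem_nhdsLT (by linarith)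
  have hid : Tendsto (fun x : ℝ => x) (𝓝[<] (bet l)) (𝓝 (bet l)) := tendsto_id.mono_left inf_le_left
  -- r = sqrt (beta - x)
  have hr : Tendsto (fun x : ℝ => Real.sqrt (bet l - x)) (𝓝[<] (bet l)) (𝓝 0) := by
    have : ContinuousAt (fun x : ℝ => Real.sqrt (bet l - x)) (bet l) := by fun_prop
    have h := this.tendsto
    simp only [sub_self, Real.sqrt_zero] at h
    exact h.mono_left inf_le_left
  have hrhi : Tendsto (fun x : ℝ => yhi l x) (𝓝[<] (bet l)) (𝓝 0) := by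
    have hc : Continuous rhi := by unfold rhi; fun_prop
    have := hr.mul ((hc.tendsto 0).comp hr)
    rw [zero_mul] at this
    exact this
  have hrlo : ∀ᶠ x in 𝓝[<] (bet l), (0.6 : ℝ) < rlo (Real.sqrt (bet l - x)) := by
    have hc : Continuous rlo := by unfold rlo; fun_prop
    have h3 : Tendsto (fun x : ℝ => rlo (Real.sqrt (bet l - x))) (𝓝[<] (bet l)) (𝓝 (rlo 0)) :=
      (hc.tendsto 0).comp hr
    refine h3.eventually_const_lt ?_
    unfold rlo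
    norm_num
  -- Y tends to 0
  have hY0 : Tendsto Y (𝓝[<] (bet l)) (𝓝 0) := by
    refine tendsto_of_tendsto_of_tendsto_of_le_of_le' tendsto_const_nhds hrhi ?_ ?_
    · filter_upwards [hev] with x hx using (hY.pos x hx).le
    · filter_upwards [hev] with x hx using (hY.hi x hx).le
  -- Z tends to beta
  have hZ : Tendsto (fun x : ℝ => (⟨x, Y x⟩ : ℂ)) (𝓝[<] (bet l)) (𝓝 (bet l : ℂ)) := by
    have h3 : Tendsto (fun x : ℝ => ((x : ℂ) + (Y x : ℂ) * I)) (𝓝[<] (bet l))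
        (𝓝 ((bet l : ℂ) + ((0:ℝ) : ℂ) * I)) := by
      refine Tendsto.add ?_ (Tendsto.mul_const _ ?_)
      · exact (Complex.continuous_ofReal.tendsto _).comp hid
      · exact (Complex.continuous_ofReal.tendsto _).comp hY0
    simp only [Complex.ofReal_zero, zero_mul, add_zero] at h3
    refine h3.congr fun x => ?_
    rw [Complex.mk_eq_add_mul_I]
  have hZn : Tendsto (fun x : ℝ => ‖(⟨x, Y x⟩ : ℂ) - (bet l : ℂ)‖) (𝓝[<] (bet l)) (𝓝 0) := by
    have := (hZ.sub_const (bet l : ℂ)).norm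
    simpa using this
  obtain ⟨C, hC, δ, hδ, hδ', hlip⟩ := LE_E0_lip l hl
  have hsm : ∀ᶠ x in 𝓝[<] (bet l), ‖(⟨x, Y x⟩ : ℂ) - (bet l : ℂ)‖ < δ := hZn.eventually_lt_const hδ
  have hYs : ∀ᶠ x in 𝓝[<] (bet l), Y x < 0.36 := hY0.eventually_lt_const (by norm_num)
  -- |z - b| ≤ 2 Y
  have hNY : ∀ᶠ x in 𝓝[<] (bet l), ‖(⟨x, Y x⟩ : ℂ) - (bet l : ℂ)‖ ≤ 2 * Y x := by
    filter_upwards [hev, hrlo, hYs] with x hx hlo hys
    have hp := hY.pos x hx
    have h3 := hY.lo x hx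
    unfold ylo at h3
    set r := Real.sqrt (bet l - x) with hrdef
    have hr0 : 0 ≤ r := Real.sqrt_nonneg _
    have hrsq : r ^ 2 = bet l - x := Real.sq_sqrt (by linarith [hx.2])
    have h4 : 0.6 * r ≤ Y x := by nlinarith
    have h5 : r ^ 2 ≤ Y x := by nlinarith
    have e1 : (⟨x, Y x⟩ : ℂ) - (bet l : ℂ) = ((-(r ^ 2) : ℝ) : ℂ) + (Y x : ℂ) * I := by
      rw [hrsq, Complex.mk_eq_add_mul_I]
      push_cast
      ring
    rw [e1]
    refine (norm_add_le _ _).trans ?_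
    rw [norm_mul, Complex.norm_I, mul_one, Complex.norm_real, Complex.norm_real, Real.norm_eq_abs,
      Real.norm_eq_abs, abs_neg, abs_of_nonneg (sq_nonneg r), abs_of_pos hp]
    linarith
  -- Kf / Y tends to 0
  have hK : Tendsto (fun x => Kf l x (Y x) / Y x) (𝓝[<] (bet l)) (𝓝 0) := by
    have hg : Tendsto (fun x => 8 * C * Y x) (𝓝[<] (bet l)) (𝓝 0) := by
      simpa using hY0.const_mul (8 * C)
    refine squeeze_zero_norm' ?_ hg
    filter_upwards [hev, hsm, hNY] with x hx hs hn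
    have hp := hY.pos x hx
    have h3 := LE_Kf_quad l hl C δ hC hδ' hlip x (Y x) hp hs
    rw [Real.norm_eq_abs, abs_div, abs_of_pos hp, div_le_iff₀ hp]
    refine h3.trans ?_
    have h4 : ‖(⟨x, Y x⟩ : ℂ) - (bet l : ℂ)‖ ^ 2 ≤ (2 * Y x) ^ 2 :=
      pow_le_pow_left₀ (norm_nonneg _) hn 2
    nlinarith
  -- E0 and F at Z
  have hE : Tendsto (fun x : ℝ => E0 l (⟨x, Y x⟩ : ℂ)) (𝓝[<] (bet l)) (𝓝 (-I)) := by
    have h3 : ContinuousAt (E0 l) (bet l : ℂ) :=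
      (LE_E0_deriv l (bet l : ℂ) (Or.inr (by simpa using hb))).continuousAt
    have := h3.tendsto.comp hZ
    rw [E0_bet l hl] at this
    exact this
  have her : Tendsto (fun x : ℝ => er l x (Y x)) (𝓝[<] (bet l)) (𝓝 0) := by
    have h3 := (Complex.continuous_re.tendsto _).comp hE
    simp only [Complex.neg_re, Complex.I_re, neg_zero] at h3
    refine h3.congr' ?_
    filter_upwards [hev] with x hx
    simp only [Function.comp_apply]
    rw [E0_mk l x (Y x) (hY.pos x hx)]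
  have hF : Tendsto (fun x : ℝ => F l (⟨x, Y x⟩ : ℂ)) (𝓝[<] (bet l)) (𝓝 0) := by
    have hg : Tendsto (fun x : ℝ => (C * ‖(⟨x, Y x⟩ : ℂ) - (bet l : ℂ)‖ ^ 2
        + ‖(⟨x, Y x⟩ : ℂ) - (bet l : ℂ)‖)) (𝓝[<] (bet l)) (𝓝 0) := by
      simpa using ((hZn.pow 2).const_mul C).add hZn
    refine squeeze_zero_norm' ?_ hg
    filter_upwards [hsm] with x hs
    have h3 := LE_F_quad l hl C δ hC hδ' hlip _ hs
    have h4 : F l (⟨x, Y x⟩ : ℂ) = (F l (⟨x, Y x⟩ : ℂ) + I * ((⟨x, Y x⟩ : ℂ) - (bet l : ℂ)))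
        - I * ((⟨x, Y x⟩ : ℂ) - (bet l : ℂ)) := by ring
    rw [h4]
    refine (norm_sub_le _ _).trans ?_
    rw [norm_mul, Complex.norm_I, one_mul]
    linarith
  have hPP : Tendsto (fun x : ℝ => PP l x (Y x)) (𝓝[<] (bet l)) (𝓝 0) := by
    have h3 : Tendsto (fun x : ℝ => ((er l x (Y x) : ℂ) + ((Kf l x (Y x) / Y x : ℝ) : ℂ) * I))
        (𝓝[<] (bet l)) (𝓝 (((0:ℝ) : ℂ) + ((0:ℝ) : ℂ) * I)) := by
      refine Tendsto.add ?_ (Tendsto.mul_const _ ?_)
      · exact (Complex.continuous_ofReal.tendsto _).comp her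
      · exact (Complex.continuous_ofReal.tendsto _).comp hK
    simp only [Complex.ofReal_zero, zero_mul, add_zero] at h3
    refine h3.congr fun x => ?_
    unfold PP
    rw [Complex.mk_eq_add_mul_I]
  have hhh : Tendsto (fun x : ℝ => hh l x (Y x)) (𝓝[<] (bet l))
      (𝓝 (I * ((bet l : ℂ) ^ 2 - 1) / (2 * l))) := by
    unfold hh
    exact (((hZ.pow 2).sub_const 1).const_mul I).div_const _
  have hgg : Tendsto (fun x : ℝ => gg l x (Y x)) (𝓝[<] (bet l)) (𝓝 0) := by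
    have := hhh.mul hPP
    rw [mul_zero] at this
    exact this
  have heps : Tendsto (fun x : ℝ => eps l Gc x (Y x)) (𝓝[<] (bet l))
      (𝓝 (Complex.exp (Gc (bet l) - g0 l (bet l)))) := by
    have h3 : ContinuousAt (fun z => Complex.exp (Gc z - g0 l z)) (bet l : ℂ) := by
      have h4 : ContinuousAt (g0 l) (bet l : ℂ) :=
        (g0_deriv l (bet l : ℂ) (Or.inr (by simpa using hb))).continuousAt
      exact (hGc.sub h4).cexp
    exact h3.tendsto.comp hZ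
  refine ⟨?_, hY0, ?_⟩
  · have h3 := ((Complex.continuous_re.tendsto _).comp hF).neg
    have h4 := (Complex.continuous_re.tendsto _).comp (hgg.mul (heps.sub_const 1))
    have h5 := h3.add h4
    simp only [Complex.zero_re, neg_zero, zero_mul, add_zero] at h5
    refine h5.congr fun x => ?_
    simp only [Vf, Function.comp_apply, zero_mul, add_zero]
  · have s1 : (bet l : ℂ) - 1 ∈ Complex.slitPlane ∧ (bet l : ℂ) + 1 ∈ Complex.slitPlane :=
      slit_of (bet l : ℂ) (Or.inr (by simpa using hb))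
    have h3 := ((Complex.continuousAt_arg s1.1).tendsto.comp (hZ.sub_const 1)).sub
      ((Complex.continuousAt_arg s1.2).tendsto.comp (hZ.add_const 1))
    have e1 : Complex.arg ((bet l : ℂ) - 1) = 0 := by
      rw [show (bet l : ℂ) - 1 = ((bet l - 1 : ℝ) : ℂ) by push_cast; ring]
      exact Complex.arg_ofReal_of_nonneg (by linarith)
    have e2 : Complex.arg ((bet l : ℂ) + 1) = 0 := by
      rw [show (bet l : ℂ) + 1 = ((bet l + 1 : ℝ) : ℂ) by push_cast; ring]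
      exact Complex.arg_ofReal_of_nonneg (by linarith)
    rw [e1, e2, sub_zero] at h3
    exact h3

end Pool.Agent.JohnC
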