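import Pool.Agent.Lib_MP_1fe18a_an.Basics
import Pool.Agent.Lib_MP_1fe18a_an.Fprim
import Pool.Agent.Lib_MP_1fe18a_an.Fimag

/-! L1: the limit of the verification function at the start of the path. -/

set_option autoImplicit false

open Complex Set Filter Topology MeasureTheory

namespace Pool.Agent.JohnC

theorem limS_er_abs_le (l x y : ℝ) (hl : 0 < l) (hy : 0 < y) : |er l x y| ≤ 1 := by
  unfold er
  rw [abs_mul]
  have h1 : |mE l x y| ≤ 1 := by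
    unfold mE
    rw [abs_of_pos (Real.exp_pos _), Real.exp_le_one_iff]
    have := (alp_facts x y hy).1
    nlinarith [mul_pos hl this]
  calc |mE l x y| * |Real.cos (nu l x y)| ≤ 1 * 1 :=
        mul_le_mul h1 (Real.abs_cos_le_one _) (abs_nonneg _) zero_le_one
    _ = 1 := one_mul 1

theorem limS_nu_zero (l y : ℝ) (hy : 0 < y) : nu l 0 y = 0 := by
  unfold nu
  have : (((0:ℝ) + 1) ^ 2 + y ^ 2) / (((0:ℝ) - 1) ^ 2 + y ^ 2) = 1 := by
    have h : (((0:ℝ) - 1) ^ 2 + y ^ 2) ≠ 0 := by positivity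
    rw [div_eq_one_iff_eq h]
    ring
  rw [this, Real.log_one, mul_zero]

/-- `‖exp w‖ - Re (exp w)` is of second order in the imaginary part of `w`. -/
theorem limS_exp_sub_re (w : ℂ) :
    0 ≤ ‖Complex.exp w‖ - (Complex.exp w).re ∧
      ‖Complex.exp w‖ - (Complex.exp w).re ≤ Real.exp w.re * (w.im ^ 2 / 2) := by
  refine ⟨sub_nonneg.mpr (Complex.re_le_norm _), ?_⟩
  rw [Complex.norm_exp, Complex.exp_re]
  have h := Real.one_sub_sq_div_two_le_cos (x := w.im)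
  have h2 := Real.exp_pos w.re
  nlinarith [mul_le_mul_of_nonneg_left h h2.le]

/-- the path is Lipschitz at the start -/
theorem limS_lip (l : ℝ) (hl : 0 < l) (Y : ℝ → ℝ) (hY : IsPath l Y) (hb : 1 < bet l) :
    ∃ δ : ℝ, 0 < δ ∧ δ < 1 ∧ ∀ x ∈ Ioo (0:ℝ) δ, |Y x - Y 0| ≤ 1 / Y 0 * x := by
  have h0 : (0:ℝ) ∈ Ico (0:ℝ) (bet l) := ⟨le_refl _, by linarith⟩
  have hY0 : 0 < Y 0 := hY.pos 0 h0
  have hc : ContinuousWithinAt Y (Ico (0:ℝ) (bet l)) 0 := hY.cont 0 h0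
  have hev : ∀ᶠ x in 𝓝[Ico (0:ℝ) (bet l)] 0, Y 0 / 2 < Y x :=
    hc.eventually (lt_mem_nhds (by linarith : Y 0 / 2 < Y 0))
  rw [eventually_nhdsWithin_iff, Metric.eventually_nhds_iff] at hev
  obtain ⟨ε, hε, hev⟩ := hev
  refine ⟨min ε (1 / 2), by positivity, by
    have := min_le_right ε (1 / 2 : ℝ)
    linarith, ?_⟩
  intro x hx
  have hx1 : x < ε := lt_of_lt_of_le hx.2 (min_le_left _ _)
  have hx2 : x < 1 / 2 := lt_of_lt_of_le hx.2 (min_le_right _ _)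
  have hsub : Icc (0:ℝ) x ⊆ Ico (0:ℝ) (bet l) := fun s hs => ⟨hs.1, by linarith [hs.2]⟩
  obtain ⟨c, hc1, hc2⟩ := exists_hasDerivAt_eq_slope Y
    (fun x => -(Kf l x (Y x) / (Y x * er l x (Y x)))) hx.1 (hY.cont.mono hsub)
    (fun s hs => hY.der s ⟨hs.1, by linarith [hs.2]⟩)
  have hc3 : c ∈ Ico (0:ℝ) (bet l) := ⟨hc1.1.le, by linarith [hc1.2]⟩
  have hc4 : c ∈ Icc (0:ℝ) 1.12 := ⟨hc1.1.le, by linarith [hc1.2]⟩
  have her := hY.erpos c hc3
  have hYc := hY.pos c hc3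
  have hYc2 : Y 0 / 2 < Y c := hev (by
    rw [Real.dist_eq, sub_zero, abs_of_pos hc1.1]; linarith [hc1.2]) hc3
  have hK : |Kf l c (Y c)| ≤ 1 / 2 * er l c (Y c) := by
    rw [abs_le]
    constructor
    · have := hY.wlo c hc4
      nlinarith
    · have := hY.whi c hc4
      have hc5 : c < 1 / 2 := by linarith [hc1.2]
      nlinarith
  have hslope : |(Y x - Y 0) / (x - 0)| ≤ 1 / Y 0 := by
    rw [← hc2, abs_neg, abs_div, abs_of_pos (mul_pos hYc her), div_le_div_iff₀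
      (mul_pos hYc her) hY0, one_mul]
    calc |Kf l c (Y c)| * Y 0 ≤ (1 / 2 * er l c (Y c)) * Y 0 :=
          mul_le_mul_of_nonneg_right hK hY0.le
      _ = er l c (Y c) * (Y 0 / 2) := by ring
      _ ≤ er l c (Y c) * Y c := mul_le_mul_of_nonneg_left hYc2.le her.le
      _ = Y c * er l c (Y c) := mul_comm _ _
  rw [sub_zero, abs_div, abs_of_pos hx.1, div_le_iff₀ hx.1] at hslope
  exact hslope

/-- the limit at the start of the path -/
theorem limit_start (l : ℝ) (h1 : (0.627834 : ℝ) < l) (h2 : l < (0.627835 : ℝ)) (hB : Bnd l = 0)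
    (Y : ℝ → ℝ) (hY : IsPath l Y) (Gc : ℂ → ℂ)
    (hGd : DifferentiableOn ℂ Gc {z | 0 < z.im}) (him : (Gc (⟨0, Y 0⟩ : ℂ)).im = 0) :
    Tendsto (fun x => Vf l Gc x (Y x) (tf l x (Y x))) (𝓝[>] 0) (𝓝 0) := by
  have hl : 0 < l := by linarith
  have hb : 1 < bet l := bet_gt l hl
  have h0 : (0:ℝ) ∈ Ico (0:ℝ) (bet l) := ⟨le_refl _, by linarith⟩
  have hY0 : 0 < Y 0 := hY.pos 0 h0
  set z₀ : ℂ := ⟨0, Y 0⟩ with hz₀
  have hz₀im : 0 < z₀.im := hY0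
  -- the point moves continuously
  have hYt : Tendsto Y (𝓝[>] 0) (𝓝 (Y 0)) := by
    have hc : ContinuousWithinAt Y (Ico (0:ℝ) (bet l)) 0 := hY.cont 0 h0
    have h3 : ContinuousWithinAt Y (Ioo (0:ℝ) (bet l)) 0 := hc.mono Ioo_subset_Ico_self
    rw [ContinuousWithinAt, nhdsWithin_Ioo_eq_nhdsGT (by linarith)] at h3
    exact h3
  have hxt : Tendsto (fun x : ℝ => x) (𝓝[>] 0) (𝓝 0) := tendsto_id.mono_left nhdsWithin_le_nhds
  have hzt : Tendsto (fun x : ℝ => (⟨x, Y x⟩ : ℂ)) (𝓝[>] 0) (𝓝 z₀) := by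
    have h3 : Tendsto (fun x : ℝ => ((x : ℂ) + (Y x : ℂ) * I)) (𝓝[>] 0)
        (𝓝 (((0:ℝ) : ℂ) + ((Y 0 : ℝ) : ℂ) * I)) :=
      ((Complex.continuous_ofReal.tendsto _).comp hxt).add
        (((Complex.continuous_ofReal.tendsto _).comp hYt).mul tendsto_const_nhds)
    have h4 : ∀ a b : ℝ, ((a : ℂ) + (b : ℂ) * I) = (⟨a, b⟩ : ℂ) := fun a b => by
      apply Complex.ext <;> simp
    simp only [h4] at h3
    exact h3
  -- w
  set w : ℂ → ℂ := fun z => Gc z - g0 l z with hw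
  have hopen : IsOpen {z : ℂ | 0 < z.im} := isOpen_lt continuous_const Complex.continuous_im
  have hGd0 : DifferentiableAt ℂ Gc z₀ := (hGd z₀ hz₀im).differentiableAt (hopen.mem_nhds hz₀im)
  have hwd : DifferentiableAt ℂ w z₀ :=
    hGd0.sub (g0_deriv l z₀ (Or.inl hz₀im)).differentiableAt
  have hnu0 : nu l 0 (Y 0) = 0 := limS_nu_zero l (Y 0) hY0
  have hw0im : (w z₀).im = 0 := by
    simp only [hw, Complex.sub_im]
    rw [him, (g0_mk l 0 (Y 0) hY0).2, hnu0]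
    ring
  have heps : ∀ x : ℝ, eps l Gc x (Y x) = Complex.exp (w (⟨x, Y x⟩ : ℂ)) := fun x => rfl
  have hwt : Tendsto (fun x : ℝ => w (⟨x, Y x⟩ : ℂ)) (𝓝[>] 0) (𝓝 (w z₀)) :=
    hwd.continuousAt.tendsto.comp hzt
  have hept : Tendsto (fun x : ℝ => eps l Gc x (Y x)) (𝓝[>] 0) (𝓝 (Complex.exp (w z₀))) :=
    (Complex.continuous_exp.tendsto _).comp hwt
  -- term 1
  have hF0 : (F l z₀).re = 0 := F_imag l hl hB (Y 0) hY0
  have t1 : Tendsto (fun x : ℝ => -(F l (⟨x, Y x⟩ : ℂ)).re) (𝓝[>] 0) (𝓝 0) := by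
    have h3 : ContinuousAt (F l) z₀ := (F_deriv l hl z₀ (Or.inl hz₀im)).continuousAt
    have h4 := ((Complex.continuous_re.tendsto _).comp (h3.tendsto.comp hzt)).neg
    rw [hF0, neg_zero] at h4
    exact h4
  -- term 2
  have hE0 : ContinuousAt (fun z : ℂ => E0 l z) z₀ := by
    have h3 : ContinuousAt (g0 l) z₀ := (g0_deriv l z₀ (Or.inl hz₀im)).continuousAt
    exact Complex.continuous_exp.continuousAt.comp h3
  have hposY : ∀ᶠ x in 𝓝[>] (0:ℝ), 0 < Y x := hYt.eventually (lt_mem_nhds hY0)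
  have hE0t : Tendsto (fun x : ℝ => E0 l (⟨x, Y x⟩ : ℂ)) (𝓝[>] 0) (𝓝 (E0 l z₀)) :=
    hE0.tendsto.comp hzt
  have hE00 : E0 l z₀ = ⟨er l 0 (Y 0), ei l 0 (Y 0)⟩ := E0_mk l 0 (Y 0) hY0
  have hei0 : ei l 0 (Y 0) = 0 := by
    unfold ei
    rw [hnu0, Real.sin_zero, mul_zero, neg_zero]
  have hert : Tendsto (fun x : ℝ => er l x (Y x)) (𝓝[>] 0) (𝓝 (er l 0 (Y 0))) := by
    have h3 := (Complex.continuous_re.tendsto _).comp hE0t
    rw [hE00] at h3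
    refine h3.congr' ?_
    filter_upwards [hposY] with x hx
    simp only [Function.comp_apply, E0_mk l x (Y x) hx]
  have heit : Tendsto (fun x : ℝ => ei l x (Y x)) (𝓝[>] 0) (𝓝 0) := by
    have h3 := (Complex.continuous_im.tendsto _).comp hE0t
    rw [hE00] at h3
    simp only [hei0] at h3
    refine h3.congr' ?_
    filter_upwards [hposY] with x hx
    simp only [Function.comp_apply, E0_mk l x (Y x) hx]
  have hKt : Tendsto (fun x : ℝ => Kf l x (Y x)) (𝓝[>] 0) (𝓝 0) := by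
    unfold Kf
    have h3 := t1.neg.add (hYt.mul heit)
    simpa using h3
  have hPPt : Tendsto (fun x : ℝ => PP l x (Y x)) (𝓝[>] 0) (𝓝 ((er l 0 (Y 0) : ℝ) : ℂ)) := by
    have h3 : Tendsto (fun x : ℝ => ((er l x (Y x) : ℂ) + ((Kf l x (Y x) / Y x : ℝ) : ℂ) * I))
        (𝓝[>] 0) (𝓝 (((er l 0 (Y 0) : ℝ) : ℂ) + ((0 / Y 0 : ℝ) : ℂ) * I)) :=
      ((Complex.continuous_ofReal.tendsto _).comp hert).add
        (((Complex.continuous_ofReal.tendsto _).comp (hKt.div hYt hY0.ne')).mul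
          tendsto_const_nhds)
    have h4 : ∀ a b : ℝ, ((a : ℂ) + (b : ℂ) * I) = (⟨a, b⟩ : ℂ) := fun a b => by
      apply Complex.ext <;> simp
    have h5 : (((er l 0 (Y 0) : ℝ) : ℂ) + ((0 / Y 0 : ℝ) : ℂ) * I) = ((er l 0 (Y 0) : ℝ) : ℂ) := by
      simp
    rw [h5] at h3
    simp only [h4] at h3
    exact h3
  have hht : Tendsto (fun x : ℝ => hh l x (Y x)) (𝓝[>] 0) (𝓝 (I * (z₀ ^ 2 - 1) / (2 * l))) := by
    unfold hh
    exact (((hzt.pow 2).sub_const 1).const_mul I).div_const _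
  have hz₀sq : z₀ ^ 2 - 1 = ((-(Y 0 ^ 2 + 1) : ℝ) : ℂ) := by
    rw [hz₀]
    apply Complex.ext <;> simp [pow_two]
    ring
  have t2 : Tendsto (fun x : ℝ => (gg l x (Y x) * (eps l Gc x (Y x) - 1)).re) (𝓝[>] 0)
      (𝓝 0) := by
    have h3 : Tendsto (fun x : ℝ => gg l x (Y x) * (eps l Gc x (Y x) - 1)) (𝓝[>] 0)
        (𝓝 (I * (z₀ ^ 2 - 1) / (2 * l) * ((er l 0 (Y 0) : ℝ) : ℂ)
          * (Complex.exp (w z₀) - 1))) :=
      (hht.mul hPPt).mul (hept.sub_const 1)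
    have h4 := (Complex.continuous_re.tendsto _).comp h3
    have h5 : Complex.exp (w z₀) = ((Real.exp (w z₀).re : ℝ) : ℂ) := by
      have h6 : w z₀ = (((w z₀).re : ℝ) : ℂ) := by
        apply Complex.ext
        · simp
        · simp [hw0im]
      rw [h6, Complex.ofReal_re, Complex.ofReal_exp]
    have h6 : (I * (z₀ ^ 2 - 1) / (2 * l) * ((er l 0 (Y 0) : ℝ) : ℂ)
          * (Complex.exp (w z₀) - 1)).re = 0 := by
      rw [hz₀sq, h5]
      have h7 : I * ((-(Y 0 ^ 2 + 1) : ℝ) : ℂ) / (2 * (l : ℂ)) * ((er l 0 (Y 0) : ℝ) : ℂ)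
          * (((Real.exp (w z₀).re : ℝ) : ℂ) - 1) =
          I * ((-(Y 0 ^ 2 + 1) / (2 * l) * er l 0 (Y 0) * (Real.exp (w z₀).re - 1) : ℝ) : ℂ) := by
        push_cast
        ring
      rw [h7, Complex.I_mul_re, Complex.ofReal_im, neg_zero]
    rw [h6] at h4
    exact h4
  -- term 3
  obtain ⟨δ, hδ, hδ1, hlip⟩ := limS_lip l hl Y hY hb
  obtain ⟨C, hC⟩ := (hwd.isBigO_sub).bound
  have hC' : ∀ᶠ x in 𝓝[>] (0:ℝ), ‖w (⟨x, Y x⟩ : ℂ) - w z₀‖ ≤ C * ‖(⟨x, Y x⟩ : ℂ) - z₀‖ :=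
    hzt.eventually hC
  have hre : ∀ᶠ x in 𝓝[>] (0:ℝ), (w (⟨x, Y x⟩ : ℂ)).re < (w z₀).re + 1 :=
    ((Complex.continuous_re.tendsto _).comp hwt).eventually
      (gt_mem_nhds (by simp : (w z₀).re < (w z₀).re + 1))
  have hmem : ∀ᶠ x in 𝓝[>] (0:ℝ), x ∈ Ioo (0:ℝ) δ := Ioo_mem_nhdsGT hδ
  set A : ℝ := |C| * (1 + 1 / Y 0) with hA
  have hApos : 0 ≤ A := by positivity
  have t3 : Tendsto (fun x : ℝ => tf l x (Y x) * (‖eps l Gc x (Y x)‖ - (eps l Gc x (Y x)).re))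
      (𝓝[>] 0) (𝓝 0) := by
    have hbd : Tendsto (fun x : ℝ => Real.exp ((w z₀).re + 1) * A ^ 2 * x) (𝓝[>] 0) (𝓝 0) := by
      have h3 := hxt.const_mul (Real.exp ((w z₀).re + 1) * A ^ 2)
      rw [mul_zero] at h3
      exact h3
    refine squeeze_zero_norm' ?_ hbd
    filter_upwards [hC', hre, hmem, hposY] with x hx1 hx2 hx3 hx4
    have hx0 : 0 < x := hx3.1
    have hx5 : x < 1 := by linarith [hx3.2]
    rw [heps x, norm_mul, Real.norm_eq_abs, Real.norm_eq_abs]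
    obtain ⟨g1, g2⟩ := limS_exp_sub_re (w (⟨x, Y x⟩ : ℂ))
    rw [abs_of_nonneg g1]
    have hz : ‖(⟨x, Y x⟩ : ℂ) - z₀‖ ≤ (1 + 1 / Y 0) * x := by
      have e1 : (⟨x, Y x⟩ : ℂ) - z₀ = ((x : ℝ) : ℂ) + ((Y x - Y 0 : ℝ) : ℂ) * I := by
        rw [hz₀]
        apply Complex.ext <;> simp
      rw [e1]
      calc ‖((x : ℝ) : ℂ) + ((Y x - Y 0 : ℝ) : ℂ) * I‖
          ≤ ‖((x : ℝ) : ℂ)‖ + ‖((Y x - Y 0 : ℝ) : ℂ) * I‖ := norm_add_le _ _
        _ = |x| + |Y x - Y 0| := by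
            rw [norm_mul, Complex.norm_I, mul_one, Complex.norm_real, Complex.norm_real,
              Real.norm_eq_abs, Real.norm_eq_abs]
        _ ≤ x + 1 / Y 0 * x := by
            rw [abs_of_pos hx0]
            linarith [hlip x hx3]
        _ = (1 + 1 / Y 0) * x := by ring
    have him1 : |(w (⟨x, Y x⟩ : ℂ)).im| ≤ A * x := by
      have e1 : (w (⟨x, Y x⟩ : ℂ)).im = (w (⟨x, Y x⟩ : ℂ) - w z₀).im := by
        have e2 := Complex.sub_im (w (⟨x, Y x⟩ : ℂ)) (w z₀)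
        rw [e2, hw0im, sub_zero]
      rw [e1]
      calc |(w (⟨x, Y x⟩ : ℂ) - w z₀).im| ≤ ‖w (⟨x, Y x⟩ : ℂ) - w z₀‖ := Complex.abs_im_le_norm _
        _ ≤ C * ‖(⟨x, Y x⟩ : ℂ) - z₀‖ := hx1
        _ ≤ |C| * ‖(⟨x, Y x⟩ : ℂ) - z₀‖ :=
            mul_le_mul_of_nonneg_right (le_abs_self C) (norm_nonneg _)
        _ ≤ |C| * ((1 + 1 / Y 0) * x) := mul_le_mul_of_nonneg_left hz (abs_nonneg _)
        _ = A * x := by rw [hA]; ring
    have him2 : (w (⟨x, Y x⟩ : ℂ)).im ^ 2 ≤ (A * x) ^ 2 := by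
      rw [← sq_abs]
      exact pow_le_pow_left₀ (abs_nonneg _) him1 2
    have htf : |tf l x (Y x)| ≤ 2 / x := by
      unfold tf
      rw [abs_neg, abs_mul, abs_div, abs_of_pos hx0]
      have s1 : |Sf x| ≤ 2 := by
        unfold Sf
        rw [abs_le]
        constructor <;> nlinarith
      calc |er l x (Y x)| * (|Sf x| / x) ≤ 1 * (2 / x) :=
            mul_le_mul (limS_er_abs_le l x (Y x) hl hx4)
              (div_le_div_of_nonneg_right s1 hx0.le) (by positivity) zero_le_one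
        _ = 2 / x := one_mul _
    calc |tf l x (Y x)| * (‖Complex.exp (w (⟨x, Y x⟩ : ℂ))‖ - (Complex.exp (w (⟨x, Y x⟩ : ℂ))).re)
        ≤ 2 / x * (Real.exp (w (⟨x, Y x⟩ : ℂ)).re * ((w (⟨x, Y x⟩ : ℂ)).im ^ 2 / 2)) :=
          mul_le_mul htf g2 g1 (by positivity)
      _ ≤ 2 / x * (Real.exp ((w z₀).re + 1) * ((A * x) ^ 2 / 2)) := by
          apply mul_le_mul_of_nonneg_left _ (by positivity)
          apply mul_le_mul (Real.exp_le_exp.mpr hx2.le) (by linarith) (by positivity)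
            (Real.exp_pos _).le
      _ = Real.exp ((w z₀).re + 1) * A ^ 2 * x := by
          field_simp
  have h3 := (t1.add t2).add t3
  simp only [add_zero] at h3
  exact h3

end Pool.Agent.JohnC
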