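import Pool.Agent.Lib_MP_1fe18a_an.NumF

set_option autoImplicit false

open Set

namespace Pool.Agent.JohnC

namespace TM

def rloT (r : TM) : TM :=
  add (k 804600000) (mul r (add (k 174100000) (mul r (add (k (-263500000)) (mul r (add (k 79000000)
    (mul r (k (-102800000)))))))))
def rlo1T (r : TM) : TM :=
  add (k 174100000) (mul r (add (k (-527000000)) (mul r (add (k 237000000) (mul r (k (-411200000)))))))
def rlo2T (r : TM) : TM :=
  add (k (-527000000)) (mul r (add (k 474000000) (mul r (k (-1233600000)))))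

theorem M_rloT {X : TM} {t r : ℝ} (ht : |t| ≤ 1) (h : M X t r) : M (rloT X) t (rlo r) := by
  have e : rlo r = 0.8046 + r * (0.1741 + r * (-0.2635 + r * (0.079 + r * (-0.1028)))) := by
    unfold rlo; ring
  rw [e]
  exact M_add (M_k _ _ _ (by push_cast; norm_num)) (M_mul ht h (M_add (M_k _ _ _ (by push_cast; norm_num))
    (M_mul ht h (M_add (M_k _ _ _ (by push_cast; norm_num)) (M_mul ht h
      (M_add (M_k _ _ _ (by push_cast; norm_num)) (M_mul ht h (M_k _ _ _ (by push_cast; norm_num)))))))))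

theorem M_rlo1T {X : TM} {t r : ℝ} (ht : |t| ≤ 1) (h : M X t r) : M (rlo1T X) t (rlo1 r) := by
  have e : rlo1 r = 0.1741 + r * (-0.527 + r * (0.237 + r * (-0.4112))) := by
    unfold rlo1; ring
  rw [e]
  exact M_add (M_k _ _ _ (by push_cast; norm_num)) (M_mul ht h (M_add (M_k _ _ _ (by push_cast; norm_num))
    (M_mul ht h (M_add (M_k _ _ _ (by push_cast; norm_num)) (M_mul ht h
      (M_k _ _ _ (by push_cast; norm_num)))))))

theorem M_rlo2T {X : TM} {t r : ℝ} (ht : |t| ≤ 1) (h : M X t r) : M (rlo2T X) t (rlo2 r) := by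
  have e : rlo2 r = -0.527 + r * (0.474 + r * (-1.2336)) := by
    unfold rlo2; ring
  rw [e]
  exact M_add (M_k _ _ _ (by push_cast; norm_num)) (M_mul ht h (M_add (M_k _ _ _ (by push_cast; norm_num))
    (M_mul ht h (M_k _ _ _ (by push_cast; norm_num)))))

def rT (i : ℕ) : TM := ⟨(2 * (i:ℤ) + 1) * 2500000, 2500000, 0⟩

def goodP (z : Bool × TM) : Bool := z.1 && pos z.2

def cellC (i : ℕ) : Bool :=
  goodP (FC tl tb (rT i) (rloT (rT i)) (rlo1T (rT i)) (rlo2T (rT i)))
def cellT (i : ℕ) : Bool :=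
  goodP (FT tl tb (rT i) (rloT (rT i)) (rlo1T (rT i)) (rlo2T (rT i)))

def loopB (f : ℕ → Bool) (s : ℕ) : ℕ → Bool
  | 0 => true
  | n + 1 => f (s + n) && loopB f s n

theorem loopB_spec (f : ℕ → Bool) (s n : ℕ) (h : loopB f s n = true) (i : ℕ) (h1 : s ≤ i)
    (h2 : i < s + n) : f i = true := by
  induction n with
  | zero => omega
  | succ n ih =>
    simp only [loopB, Bool.and_eq_true] at h
    rcases Nat.lt_or_ge i (s + n) with h3 | h3
    · exact ih h.2 h3
    · have : i = s + n := by omega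
      rw [this]; exact h.1

/-- the cell of r -/
theorem cell_exists (r : ℝ) (hr : 0 < r) (hr2 : r ^ 2 < 1.1784763) :
    ∃ (i : ℕ) (t : ℝ), i < 218 ∧ |t| ≤ 1 ∧ M (rT i) t r := by
  have hr3 : r < 1.086 := by nlinarith
  set i := ⌊r / 0.005⌋₊ with hi
  have h0 : 0 ≤ r / 0.005 := by positivity
  have h1 : (i:ℝ) ≤ r / 0.005 := Nat.floor_le h0
  have h2 : r / 0.005 < i + 1 := Nat.lt_floor_add_one _
  rw [le_div_iff₀ (by norm_num)] at h1
  rw [div_lt_iff₀ (by norm_num)] at h2
  refine ⟨i, (r - (2 * i + 1) * 0.0025) / 0.0025, ?_, ?_, ?_⟩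
  · have : (i:ℝ) < 218 := by nlinarith
    exact_mod_cast this
  · rw [abs_le]
    constructor
    · rw [le_div_iff₀ (by norm_num)]; linarith
    · rw [div_le_iff₀ (by norm_num)]; linarith
  · apply M_var
    push_cast
    field_simp
    ring

set_option maxRecDepth 100000 in
theorem lowC : loopB cellC 0 120 = true := by decide +kernel
set_option maxRecDepth 100000 in
theorem lowT : loopB cellT 120 98 = true := by decide +kernel

end TM

open TM in
theorem num_lower (l b r c s : ℝ) (h1 : (0.627834 : ℝ) < l) (h2 : l < (0.627835 : ℝ))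
    (hb1 : (1.1784754 : ℝ) < b) (hb2 : b < (1.1784763 : ℝ)) (hr : 0 < r) (hr2 : r ^ 2 < b)
    (hT : TanB b (b - r ^ 2) (r * rlo r) c s) :
    0 < FExpr l b r (rlo r) (rlo1 r) (rlo2 r) c s := by
  obtain ⟨i, t, hi, ht, hM⟩ := cell_exists r hr (by linarith)
  have hc := hT.1
  rcases Nat.lt_or_ge i 120 with h | h
  · have hok := loopB_spec _ _ _ lowC i (Nat.zero_le _) (by omega)
    simp only [cellC, goodP, Bool.and_eq_true] at hok
    obtain ⟨hs, v, hv, he⟩ := FC_sound ht (M_tl l t h1 h2) (M_tb b t hb1 hb2) hM (M_rloT ht hM)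
      (M_rlo1T ht hM) (M_rlo2T ht hM) hr hT hok.1
    rw [he]
    have := pos_of ht hv hok.2
    positivity
  · have hok := loopB_spec _ _ _ lowT i h (by omega)
    simp only [cellT, goodP, Bool.and_eq_true] at hok
    obtain ⟨v, hv, he⟩ := FT_sound ht (M_tl l t h1 h2) (M_tb b t hb1 hb2) hM (M_rloT ht hM)
      (M_rlo1T ht hM) (M_rlo2T ht hM) (by linarith) hT hok.1
    rw [he]
    have := pos_of ht hv hok.2
    positivity

end Pool.Agent.JohnC
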