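import Pool.Agent.Lib_MP_1fe18a_an.Defs

/-! John constant (MP_1fe18a_an): simple inequalities on the fences. Bernstein certificates. -/

set_option autoImplicit false

open Complex Set Filter Topology MeasureTheory

namespace Pool.Agent.JohnC

theorem NS_mul {u v : ℝ} (hu : 0 ≤ u) (hv : 0 ≤ v) (i j : ℕ) : 0 ≤ u ^ i * v ^ j :=
  mul_nonneg (pow_nonneg hu i) (pow_nonneg hv j)

theorem NS_1 (r : ℝ) (hu : 0 ≤ r) (hv : 0 ≤ 1.0857 - r) : 0.6 < rlo r := by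
  unfold rlo
  linarith [NS_mul hu hv 0 4, NS_mul hu hv 1 3, NS_mul hu hv 2 2, NS_mul hu hv 3 1,
    NS_mul hu hv 4 0]

theorem NS_2 (r : ℝ) (hu : 0 ≤ r) (hv : 0 ≤ 1.0857 - r) : rlo r < rhi r := by
  unfold rlo rhi
  rcases le_total r 0.54285 with h | h
  · have hw : 0 ≤ 0.54285 - r := by linarith
    linarith [NS_mul hu hw 0 4, NS_mul hu hw 1 3, NS_mul hu hw 2 2, NS_mul hu hw 3 1,
      NS_mul hu hw 4 0]
  · have hw : 0 ≤ r - 0.54285 := by linarith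
    linarith [NS_mul hw hv 0 4, NS_mul hw hv 1 3, NS_mul hw hv 2 2, NS_mul hw hv 3 1,
      NS_mul hw hv 4 0]

theorem NS_3 (r : ℝ) (hu : 0 ≤ r) (hv : 0 ≤ 1.0857 - r) : -0.03 ≤ wlf r := by
  unfold wlf rlo rlo1
  linarith [NS_mul hu hv 0 8, NS_mul hu hv 1 7, NS_mul hu hv 2 6, NS_mul hu hv 3 5,
    NS_mul hu hv 4 4, NS_mul hu hv 5 3, NS_mul hu hv 6 2, NS_mul hu hv 7 1, NS_mul hu hv 8 0]

theorem NS_4 (r : ℝ) (hu : 0 ≤ r) (hv : 0 ≤ 1.0857 - r) : 0.33 < rlo r ^ 2 + r ^ 2 := by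
  unfold rlo
  linarith [NS_mul hu hv 0 8, NS_mul hu hv 1 7, NS_mul hu hv 2 6, NS_mul hu hv 3 5,
    NS_mul hu hv 4 4, NS_mul hu hv 5 3, NS_mul hu hv 6 2, NS_mul hu hv 7 1, NS_mul hu hv 8 0]

theorem NS_5a (r : ℝ) (hu : 0 ≤ r - 0.2418) (hv : 0 ≤ 1.0857 - r) :
    0 < 1.2 * 0.627834 * (r * rlo r) + (r * rlo r) ^ 2 + (1.1784754 - r ^ 2) ^ 2 - 1
      - 0.000003 := by
  unfold rlo
  linarith [NS_mul hu hv 0 10, NS_mul hu hv 1 9, NS_mul hu hv 2 8, NS_mul hu hv 3 7,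
    NS_mul hu hv 4 6, NS_mul hu hv 5 5, NS_mul hu hv 6 4, NS_mul hu hv 7 3, NS_mul hu hv 8 2,
    NS_mul hu hv 9 1, NS_mul hu hv 10 0]

theorem NS_5b (r : ℝ) (hu : 0 ≤ r - 0.2418) (hv : 0 ≤ 1.0857 - r) :
    0 < 2.6 * 0.627834 * (r * rlo r) - (r * rlo r) ^ 2 - (1.1784754 - r ^ 2) ^ 2 + 1
      - 0.000003 := by
  unfold rlo
  linarith [NS_mul hu hv 0 10, NS_mul hu hv 1 9, NS_mul hu hv 2 8, NS_mul hu hv 3 7,
    NS_mul hu hv 4 6, NS_mul hu hv 5 5, NS_mul hu hv 6 4, NS_mul hu hv 7 3, NS_mul hu hv 8 2,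
    NS_mul hu hv 9 1, NS_mul hu hv 10 0]

theorem NS_5c (r : ℝ) (hu : 0 ≤ r - 0.2418) (hv : 0 ≤ 1.0857 - r) :
    0 < 2.6 * 0.627834 * (r * rhi r) - (r * rhi r) ^ 2 - (1.1784754 - r ^ 2) ^ 2 + 1
      - 0.000003 := by
  unfold rhi
  linarith [NS_mul hu hv 0 8, NS_mul hu hv 1 7, NS_mul hu hv 2 6, NS_mul hu hv 3 5,
    NS_mul hu hv 4 4, NS_mul hu hv 5 3, NS_mul hu hv 6 2, NS_mul hu hv 7 1, NS_mul hu hv 8 0]

theorem NS_6 (r : ℝ) (hu : 0 ≤ r) (hv : 0 ≤ 0.2419 - r) :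
    0 < -(2 * 0.627835 * (r * rhi r)) + (r * rhi r) ^ 2 + (1.1784754 - r ^ 2) ^ 2 - 1
      - 0.000003 := by
  unfold rhi
  linarith [NS_mul hu hv 0 8, NS_mul hu hv 1 7, NS_mul hu hv 2 6, NS_mul hu hv 3 5,
    NS_mul hu hv 4 4, NS_mul hu hv 5 3, NS_mul hu hv 6 2, NS_mul hu hv 7 1, NS_mul hu hv 8 0]

theorem NS_rhi_lt (r : ℝ) (hu : 0 ≤ r) (hv : 0 ≤ 1.0857 - r) : rhi r < 1 ∧ 0 < rhi r := by
  unfold rhi
  constructor
  · linarith [NS_mul hu hv 0 3, NS_mul hu hv 1 2, NS_mul hu hv 2 1, NS_mul hu hv 3 0]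
  · linarith [NS_mul hu hv 0 3, NS_mul hu hv 1 2, NS_mul hu hv 2 1, NS_mul hu hv 3 0]

/-- the square of `b - r ^ 2` -/
theorem NS_sq (b r : ℝ) (hb1 : (1.1784754 : ℝ) < b) (hb2 : b < (1.1784763 : ℝ))
    (hr2 : r ^ 2 ≤ b) :
    (1.1784754 - r ^ 2) ^ 2 - 0.000003 ≤ (b - r ^ 2) ^ 2 ∧
      (b - r ^ 2) ^ 2 ≤ (1.1784754 - r ^ 2) ^ 2 + 0.000003 := by
  have h0 : 0 ≤ r ^ 2 := sq_nonneg r
  have e : (b - r ^ 2) ^ 2 - (1.1784754 - r ^ 2) ^ 2 =
      (b - 1.1784754) * (b + 1.1784754 - 2 * r ^ 2) := by ring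
  have h1 : 0 < b - 1.1784754 := by linarith
  have h2 : b - 1.1784754 < 0.0000009 := by linarith
  have h3 : -1 ≤ b + 1.1784754 - 2 * r ^ 2 := by linarith
  have h4 : b + 1.1784754 - 2 * r ^ 2 ≤ 3 := by linarith
  constructor
  · nlinarith
  · nlinarith

theorem num_simple (l b r y : ℝ) (h1 : (0.627834 : ℝ) < l) (h2 : l < (0.627835 : ℝ))
    (hb1 : (1.1784754 : ℝ) < b) (hb2 : b < (1.1784763 : ℝ)) (hr : 0 < r) (hr2 : r ^ 2 ≤ b)
    (hy1 : r * rlo r ≤ y) (hy2 : y ≤ r * rhi r) :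
    0.6 < rlo r ∧ rlo r < rhi r ∧ -0.03 ≤ wlf r ∧
    0 < (b - r ^ 2 - 1 / b) * (b - r ^ 2 - b) + y ^ 2 ∧
    (b - r ^ 2 ≤ 1.12 → -1.3 ≤ cc l (b - r ^ 2) y ∧ cc l (b - r ^ 2) y ≤ 0.6) ∧
    (1.12 ≤ b - r ^ 2 → cc l (b - r ^ 2) y ≤ -1) := by
  have hu : 0 ≤ r := hr.le
  have hv : 0 ≤ 1.0857 - r := by
    by_contra h
    push Not at h
    nlinarith
  have q1 := NS_1 r hu hv
  have q2 := NS_2 r hu hv
  have q3 := NS_3 r hu hv
  have q4 := NS_4 r hu hv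
  obtain ⟨q7, q8⟩ := NS_rhi_lt r hu hv
  obtain ⟨s1, s2⟩ := NS_sq b r hb1 hb2 hr2
  have hylo : 0 < r * rlo r := mul_pos hr (by linarith)
  have hy : 0 < y := lt_of_lt_of_le hylo hy1
  have hly : 0 < 2 * l * y := by positivity
  have hys : (r * rlo r) ^ 2 ≤ y ^ 2 := pow_le_pow_left₀ hylo.le hy1 2
  refine ⟨q1, q2, q3, ?_, ?_, ?_⟩
  · have hb : 1 / b > 0.8485 := by
      rw [gt_iff_lt, lt_div_iff₀ (by linarith)]
      linarith
    have e : (b - r ^ 2 - 1 / b) * (b - r ^ 2 - b) + y ^ 2 =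
        r ^ 2 * (r ^ 2 + 1 / b - b) + y ^ 2 := by ring
    rw [e]
    have hr0 : 0 < r ^ 2 := by positivity
    nlinarith [mul_pos hr0 (sub_pos.2 q4)]
  · intro hx
    have hr3 : 0 ≤ r - 0.2418 := by
      by_contra h
      push Not at h
      nlinarith
    have q5a := NS_5a r hr3 hv
    have q5b := NS_5b r hr3 hv
    have q5c := NS_5c r hr3 hv
    unfold cc
    constructor
    · rw [le_div_iff₀ hly]
      -- concavity in y
      have hc : 0 ≤ (y - r * rlo r) * (r * rhi r - y) :=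
        mul_nonneg (by linarith) (by linarith)
      have hgap : 0 < r * rhi r - r * rlo r := by nlinarith
      set y1 := r * rlo r with hy1d
      set y2 := r * rhi r with hy2d
      have hly1 : 2.6 * 0.627834 * y ≤ 2.6 * l * y := by nlinarith
      have hlin : 0 < 2.6 * 0.627834 * y - (y1 + y2) * y + y1 * y2 -
          (1.1784754 - r ^ 2) ^ 2 + 1 - 0.000003 := by
        -- linear in y, positive at both ends
        have hA : 0 < 2.6 * 0.627834 * y1 - (y1 + y2) * y1 + y1 * y2 -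
          (1.1784754 - r ^ 2) ^ 2 + 1 - 0.000003 := by nlinarith [q5b]
        have hB : 0 < 2.6 * 0.627834 * y2 - (y1 + y2) * y2 + y1 * y2 -
          (1.1784754 - r ^ 2) ^ 2 + 1 - 0.000003 := by nlinarith [q5c]
        have hcomb : (y2 - y1) * (2.6 * 0.627834 * y - (y1 + y2) * y + y1 * y2 -
          (1.1784754 - r ^ 2) ^ 2 + 1 - 0.000003) =
          (y2 - y) * (2.6 * 0.627834 * y1 - (y1 + y2) * y1 + y1 * y2 -
          (1.1784754 - r ^ 2) ^ 2 + 1 - 0.000003) +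
          (y - y1) * (2.6 * 0.627834 * y2 - (y1 + y2) * y2 + y1 * y2 -
          (1.1784754 - r ^ 2) ^ 2 + 1 - 0.000003) := by ring
        have hpos : 0 < (y2 - y1) * (2.6 * 0.627834 * y - (y1 + y2) * y + y1 * y2 -
          (1.1784754 - r ^ 2) ^ 2 + 1 - 0.000003) := by
          rw [hcomb]
          rcases eq_or_lt_of_le hy2 with h | h
          · have : 0 < (y - y1) * (2.6 * 0.627834 * y2 - (y1 + y2) * y2 + y1 * y2 -
              (1.1784754 - r ^ 2) ^ 2 + 1 - 0.000003) := mul_pos (by linarith) hB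
            have h0 : y2 - y = 0 := by linarith
            rw [h0, zero_mul, zero_add]
            exact this
          · have h3 := mul_pos (sub_pos.2 h) hA
            have h4 := mul_nonneg (sub_nonneg.2 hy1) hB.le
            linarith
        exact (mul_pos_iff_of_pos_left hgap).1 hpos
      nlinarith
    · rw [div_le_iff₀ hly]
      have h3 : 1.2 * 0.627834 * (r * rlo r) ≤ 1.2 * l * y := by
        have := mul_le_mul h1.le hy1 hylo.le (by linarith : (0:ℝ) ≤ l)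
        linarith
      nlinarith
  · intro hx
    have hr3 : 0 ≤ 0.2419 - r := by
      by_contra h
      push Not at h
      nlinarith
    have q6 := NS_6 r hu hr3
    unfold cc
    rw [div_le_iff₀ hly]
    have hy3 : r * rhi r ≤ 0.2419 := by nlinarith
    -- y ^ 2 - 2 l y is decreasing for y ≤ l
    have h3 : (r * rhi r) ^ 2 - 2 * l * (r * rhi r) ≤ y ^ 2 - 2 * l * y := by
      nlinarith [mul_nonneg (sub_nonneg.2 hy2) (by linarith : (0:ℝ) ≤ 2 * l - y - r * rhi r)]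
    have h4 : 2 * l * (r * rhi r) ≤ 2 * 0.627835 * (r * rhi r) := by
      have : 0 ≤ r * rhi r := by positivity
      nlinarith
    nlinarith

end Pool.Agent.JohnC
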