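import Pool.Agent.Lib_MP_1fe18a_an.NumF

/-! Piece J3: the three inequalities on the tube. -/

set_option autoImplicit false

open Set

namespace Pool.Agent.JohnC

namespace TM

/-- Taylor model of the upper fence -/
def ph (r : TM) : TM :=
  add (k 816000000) (mul r (add (k 116300000) (mul r (add (k (-78300000))
    (mul r (k (-142600000)))))))

/-- Taylor model of the derivative of the upper fence -/
def ph1 (r : TM) : TM :=
  add (k 116300000) (mul r (add (k (-156600000)) (mul r (k (-427800000)))))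

/-- Taylor model of the lower fence -/
def pl (r : TM) : TM :=
  add (k 804600000) (mul r (add (k 174100000) (mul r (add (k (-263500000))
    (mul r (add (k 79000000) (mul r (k (-102800000)))))))))

/-- Taylor model of `whf` -/
def pw (r : TM) : TM :=
  mul (k 500000000) (mul (ph r) (add (ph r) (mul r (ph1 r))))

theorem M_ph {R : TM} {t r : ℝ} (ht : |t| ≤ 1) (h : M R t r) : M (ph R) t (rhi r) := by
  have e : rhi r = 0.816 + r * (0.1163 + r * (-0.0783 + r * (-0.1426))) := by
    unfold rhi; ring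
  rw [e]
  exact M_add (M_k _ _ _ (by push_cast; norm_num)) (M_mul ht h
    (M_add (M_k _ _ _ (by push_cast; norm_num)) (M_mul ht h
    (M_add (M_k _ _ _ (by push_cast; norm_num)) (M_mul ht h
    (M_k _ _ _ (by push_cast; norm_num)))))))

theorem M_ph1 {R : TM} {t r : ℝ} (ht : |t| ≤ 1) (h : M R t r) : M (ph1 R) t (rhi1 r) := by
  have e : rhi1 r = 0.1163 + r * (-0.1566 + r * (-0.4278)) := by
    unfold rhi1; ring
  rw [e]
  exact M_add (M_k _ _ _ (by push_cast; norm_num)) (M_mul ht h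
    (M_add (M_k _ _ _ (by push_cast; norm_num)) (M_mul ht h
    (M_k _ _ _ (by push_cast; norm_num)))))

theorem M_pl {R : TM} {t r : ℝ} (ht : |t| ≤ 1) (h : M R t r) : M (pl R) t (rlo r) := by
  have e : rlo r = 0.8046 + r * (0.1741 + r * (-0.2635 + r * (0.079 + r * (-0.1028)))) := by
    unfold rlo; ring
  rw [e]
  exact M_add (M_k _ _ _ (by push_cast; norm_num)) (M_mul ht h
    (M_add (M_k _ _ _ (by push_cast; norm_num)) (M_mul ht h
    (M_add (M_k _ _ _ (by push_cast; norm_num)) (M_mul ht h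
    (M_add (M_k _ _ _ (by push_cast; norm_num)) (M_mul ht h
    (M_k _ _ _ (by push_cast; norm_num)))))))))

theorem M_pw {R : TM} {t r : ℝ} (ht : |t| ≤ 1) (h : M R t r) : M (pw R) t (whf r) := by
  have e : whf r = 1 / 2 * (rhi r * (rhi r + r * rhi1 r)) := by
    unfold whf; ring
  rw [e]
  exact M_mul ht (M_kh t) (M_mul ht (M_ph ht h) (M_add (M_ph ht h) (M_mul ht h (M_ph1 ht h))))

/-- any number between zero and one -/
def th : TM := kk 500000000 500000000

/-- T regime: all three quantities divided by `c` are positive -/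
def TT (l b r : TM) : Bool :=
  let dp := sub (ph r) (pl r)
  let p := add (pl r) (mul th dp)
  let x := sub b (mul r r)
  let y := mul r p
  let x2 := mul x x
  let y2 := mul y y
  let R := sub (sub x2 y2) (k 1000000000)
  let q := mul (k 2000000000) (mul x y)
  let N := add (mul R R) (mul q q)
  let D := add (k 1000000000) (add x2 y2)
  let u := mul (mul (k 2000000000) x) (inv D)
  let T := mul u (tau (mul u u))
  let A := sub (mul q T) R
  let yB := mul y (add q (mul R T))
  let V := add (k 50000000) (mul (k 360000000) x)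
  pos D && (le u 865000000 && (pos A && (pos (add yB (mul (k 30000000) A)) &&
    pos (sub (mul (sub V (pw r)) N)
      (mul (mul (mul r dp) (mul (k 2000000000) l)) (sub (mul V A) yB))))))

/-- C regime: all three quantities divided by `s` are positive -/
def TC (l b r : TM) : Bool :=
  let dp := sub (ph r) (pl r)
  let p := add (pl r) (mul th dp)
  let x := sub b (mul r r)
  let y := mul r p
  let x2 := mul x x
  let y2 := mul y y
  let R := sub (sub x2 y2) (k 1000000000)
  let q := mul (k 2000000000) (mul x y)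
  let N := add (mul R R) (mul q q)
  let D := add (k 1000000000) (add x2 y2)
  let E := sub (mul (add (k 1000000000) (mul b b)) D) (mul (k 4000000000) (mul b x))
  let v2 := mul (mul (k 2000000000) (add (mul b (mul p p)) (sub (k 1000000000) (mul b x)))) (inv E)
  let v := mul (mul r r) v2
  let C := mul v (tau (mul v v))
  let A := sub q (mul R C)
  let yB := mul y (add (mul q C) R)
  let V := add (k 50000000) (mul (k 360000000) x)
  pos D && (pos E && (pos v2 && (le v 865000000 && (pos A && (pos (add yB (mul (k 30000000) A)) &&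
    pos (sub (mul (mul (sub V (pw r)) N) C)
      (mul (mul (mul r dp) (mul (k 2000000000) l)) (sub (mul V A) yB))))))))

/-- the three inequalities -/
def Tub (l b r y c s : ℝ) : Prop :=
    0 < 2 * (b - r ^ 2) * y * s - ((b - r ^ 2) ^ 2 - y ^ 2 - 1) * c ∧
    0 < y * (2 * (b - r ^ 2) * y * c + ((b - r ^ 2) ^ 2 - y ^ 2 - 1) * s)
        + 0.03 * (2 * (b - r ^ 2) * y * s - ((b - r ^ 2) ^ 2 - y ^ 2 - 1) * c) ∧
    (r * rhi r - r * rlo r) * (2 * l) *
      ((0.05 + 0.36 * (b - r ^ 2)) * (2 * (b - r ^ 2) * y * s - ((b - r ^ 2) ^ 2 - y ^ 2 - 1) * c)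
        - y * (2 * (b - r ^ 2) * y * c + ((b - r ^ 2) ^ 2 - y ^ 2 - 1) * s))
      < (0.05 + 0.36 * (b - r ^ 2) - whf r) * NN (b - r ^ 2) y * c

theorem TT_sound {l b r θ c s : ℝ} {L B Rr : TM} {t : ℝ} (ht : |t| ≤ 1)
    (hl : M L t l) (hb : M B t b) (hr : M Rr t r) (hθ0 : 0 ≤ θ) (hθ1 : θ ≤ 1)
    (hx : 0 ≤ b - r ^ 2)
    (hT : TanB b (b - r ^ 2) (r * (rlo r + θ * (rhi r - rlo r))) c s)
    (hok : TT L B Rr = true) :
    Tub l b r (r * (rlo r + θ * (rhi r - rlo r))) c s := by
  have hc := hT.1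
  have hθm : M th t θ := M_kk _ _ _ _ (by push_cast; linarith) (by push_cast; linarith)
  have hdp := M_sub (M_ph ht hr) (M_pl ht hr)
  have hp := M_add (M_pl ht hr) (M_mul ht hθm hdp)
  set p := rlo r + θ * (rhi r - rlo r) with hpd
  have hxm : M (sub B (mul Rr Rr)) t (b - r * r) := M_sub hb (M_mul ht hr hr)
  have hym := M_mul ht hr hp
  have hx2 := M_mul ht hxm hxm
  have hy2 := M_mul ht hym hym
  have hR := M_sub (M_sub hx2 hy2) (M_k1 t)
  have hq := M_mul ht (M_k2 t) (M_mul ht hxm hym)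
  have hN := M_add (M_mul ht hR hR) (M_mul ht hq hq)
  have hD := M_add (M_k1 t) (M_add hx2 hy2)
  simp only [TT, Bool.and_eq_true] at hok
  obtain ⟨ok1, ok2, ok3, ok4, ok5⟩ := hok
  have hDi := M_inv ht hD ok1
  have hu := M_mul ht (M_mul ht (M_k2 t) hxm) hDi
  have hule := le_of ht hu ok2
  have hux : 2 * (b - r * r) * (1 + ((b - r * r) * (b - r * r) + r * p * (r * p)))⁻¹
      = uu (b - r ^ 2) (r * p) := by
    unfold uu; rw [div_eq_mul_inv]; ring_nf
  rw [hux] at hu hule
  have hule' : uu (b - r ^ 2) (r * p) ≤ 0.865 := by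
    push_cast at hule; norm_num at hule ⊢; linarith
  obtain ⟨τ, h1, h2, h3⟩ := T_of_TanB hT hx hule'
  have huu := M_mul ht hu hu
  have hτ := M_tau ht huu h1 h2
  have hTm := M_mul ht hu hτ
  set T := uu (b - r ^ 2) (r * p) * τ with hTd
  have hA := M_sub (M_mul ht hq hTm) hR
  have hyB := M_mul ht hym (M_add hq (M_mul ht hR hTm))
  have hV := M_add (M_k 50000000 t 0.05 (by push_cast; norm_num))
    (M_mul ht (M_k 360000000 t 0.36 (by push_cast; norm_num)) hxm)
  have g1 := pos_of ht hA ok3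
  have g2 := pos_of ht (M_add hyB (M_mul ht (M_k 30000000 t 0.03 (by push_cast; norm_num)) hA)) ok4
  have g3 := pos_of ht (M_sub (M_mul ht (M_sub hV (M_pw ht hr)) hN)
    (M_mul ht (M_mul ht (M_mul ht hr hdp) (M_mul ht (M_k2 t) hl)) (M_sub (M_mul ht hV hA) hyB))) ok5
  have f1 := mul_pos hc g1
  have f2 := mul_pos hc g2
  have f3 := mul_pos hc g3
  refine ⟨?_, ?_, ?_⟩
  · rw [h3]
    refine lt_of_lt_of_eq f1 ?_
    ring
  · rw [h3]
    refine lt_of_lt_of_eq f2 ?_
    ring
  · rw [h3, ← sub_pos]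
    refine lt_of_lt_of_eq f3 ?_
    unfold NN
    ring

theorem TC_sound {l b r θ c s : ℝ} {L B Rr : TM} {t : ℝ} (ht : |t| ≤ 1)
    (hl : M L t l) (hb : M B t b) (hr : M Rr t r) (hθ0 : 0 ≤ θ) (hθ1 : θ ≤ 1)
    (hr0 : 0 < r)
    (hT : TanB b (b - r ^ 2) (r * (rlo r + θ * (rhi r - rlo r))) c s)
    (hok : TC L B Rr = true) :
    Tub l b r (r * (rlo r + θ * (rhi r - rlo r))) c s := by
  have hθm : M th t θ := M_kk _ _ _ _ (by push_cast; linarith) (by push_cast; linarith)
  have hdp := M_sub (M_ph ht hr) (M_pl ht hr)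
  have hp := M_add (M_pl ht hr) (M_mul ht hθm hdp)
  set p := rlo r + θ * (rhi r - rlo r) with hpd
  have hxm : M (sub B (mul Rr Rr)) t (b - r * r) := M_sub hb (M_mul ht hr hr)
  have hym := M_mul ht hr hp
  have hx2 := M_mul ht hxm hxm
  have hy2 := M_mul ht hym hym
  have hR := M_sub (M_sub hx2 hy2) (M_k1 t)
  have hq := M_mul ht (M_k2 t) (M_mul ht hxm hym)
  have hN := M_add (M_mul ht hR hR) (M_mul ht hq hq)
  have hD := M_add (M_k1 t) (M_add hx2 hy2)
  have hE := M_sub (M_mul ht (M_add (M_k1 t) (M_mul ht hb hb)) hD)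
    (M_mul ht (M_k4 t) (M_mul ht hb hxm))
  simp only [TC, Bool.and_eq_true] at hok
  obtain ⟨ok1, ok2, ok3, ok4, ok5, ok6, ok7⟩ := hok
  have hEi := M_inv ht hE ok2
  have hv2 := M_mul ht (M_mul ht (M_k2 t) (M_add (M_mul ht hb (M_mul ht hp hp))
    (M_sub (M_k1 t) (M_mul ht hb hxm)))) hEi
  have hv2p := pos_of ht hv2 ok3
  have hv := M_mul ht (M_mul ht hr hr) hv2
  have hvle := le_of ht hv ok4
  set v2 := 2 * (b * (p * p) + (1 - b * (b - r * r))) *
    ((1 + b * b) * (1 + ((b - r * r) * (b - r * r) + r * p * (r * p))) - 4 * (b * (b - r * r)))⁻¹ with hv2d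
  have hvx : r * r * v2 = vv b (b - r ^ 2) (r * p) := by
    rw [vv_eq, hv2d]
    have e6 : (1 + b * b) * (1 + ((b - r * r) * (b - r * r) + r * p * (r * p))) - 4 * (b * (b - r * r)) =
      (1 + b ^ 2) * (1 + (b - r ^ 2) ^ 2 + (r * p) ^ 2) - 4 * b * (b - r ^ 2) := by ring
    rw [e6, div_eq_mul_inv]
    ring
  rw [hvx] at hv hvle
  have hvle' : vv b (b - r ^ 2) (r * p) ≤ 0.865 := by
    push_cast at hvle; norm_num at hvle ⊢; linarith
  have hv0 : 0 < vv b (b - r ^ 2) (r * p) := by rw [← hvx]; positivity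
  obtain ⟨hs, τ, h1, h2, h3⟩ := C_of_TanB hT hv0 hvle'
  have hvv := M_mul ht hv hv
  have hτ := M_tau ht hvv h1 h2
  have hCm := M_mul ht hv hτ
  set C := vv b (b - r ^ 2) (r * p) * τ with hCd
  have hA := M_sub hq (M_mul ht hR hCm)
  have hyB := M_mul ht hym (M_add (M_mul ht hq hCm) hR)
  have hV := M_add (M_k 50000000 t 0.05 (by push_cast; norm_num))
    (M_mul ht (M_k 360000000 t 0.36 (by push_cast; norm_num)) hxm)
  have g1 := pos_of ht hA ok5
  have g2 := pos_of ht (M_add hyB (M_mul ht (M_k 30000000 t 0.03 (by push_cast; norm_num)) hA)) ok6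
  have g3 := pos_of ht (M_sub (M_mul ht (M_mul ht (M_sub hV (M_pw ht hr)) hN) hCm)
    (M_mul ht (M_mul ht (M_mul ht hr hdp) (M_mul ht (M_k2 t) hl)) (M_sub (M_mul ht hV hA) hyB))) ok7
  have f1 := mul_pos hs g1
  have f2 := mul_pos hs g2
  have f3 := mul_pos hs g3
  refine ⟨?_, ?_, ?_⟩
  · rw [h3]
    refine lt_of_lt_of_eq f1 ?_
    ring
  · rw [h3]
    refine lt_of_lt_of_eq f2 ?_
    ring
  · rw [h3, ← sub_pos]
    refine lt_of_lt_of_eq f3 ?_
    unfold NN
    ring

/-- the cell number `i` -/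
def tubeR (i : ℕ) : TM := ⟨245000000 + 10000000 * (i : ℤ), 5000000, 0⟩

def tubeOk (i : ℕ) : Bool :=
  if i < 36 then TC tl tb (tubeR i) else TT tl tb (tubeR i)

theorem tube_all : (List.range 85).all tubeOk = true := by decide +kernel

end TM

open TM in
theorem num_tube (l b r y c s : ℝ) (h1 : (0.627834 : ℝ) < l) (h2 : l < (0.627835 : ℝ))
    (hb1 : (1.1784754 : ℝ) < b) (hb2 : b < (1.1784763 : ℝ)) (hr : 0 < r) (hr2 : r ^ 2 ≤ b)
    (hx : b - r ^ 2 ≤ 1.12) (hy1 : r * rlo r ≤ y) (hy2 : y ≤ r * rhi r)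
    (hT : TanB b (b - r ^ 2) y c s) :
    0 < 2 * (b - r ^ 2) * y * s - ((b - r ^ 2) ^ 2 - y ^ 2 - 1) * c ∧
    0 < y * (2 * (b - r ^ 2) * y * c + ((b - r ^ 2) ^ 2 - y ^ 2 - 1) * s)
        + 0.03 * (2 * (b - r ^ 2) * y * s - ((b - r ^ 2) ^ 2 - y ^ 2 - 1) * c) ∧
    (r * rhi r - r * rlo r) * (2 * l) *
      ((0.05 + 0.36 * (b - r ^ 2)) * (2 * (b - r ^ 2) * y * s - ((b - r ^ 2) ^ 2 - y ^ 2 - 1) * c)
        - y * (2 * (b - r ^ 2) * y * c + ((b - r ^ 2) ^ 2 - y ^ 2 - 1) * s))
      < (0.05 + 0.36 * (b - r ^ 2) - whf r) * NN (b - r ^ 2) y * c := by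
  have hlow : 0.24 ≤ r := by nlinarith
  have hhigh : r ≤ 1.09 - 0.001 := by nlinarith
  -- the parameter of `y`
  obtain ⟨θ, hθ0, hθ1, hyθ⟩ : ∃ θ : ℝ, 0 ≤ θ ∧ θ ≤ 1 ∧ y = r * (rlo r + θ * (rhi r - rlo r)) := by
    rcases eq_or_lt_of_le (hy1.trans hy2) with he | hlt
    · refine ⟨0, le_refl _, zero_le_one, ?_⟩
      linarith
    · refine ⟨(y - r * rlo r) / (r * rhi r - r * rlo r), div_nonneg (by linarith) (by linarith),
        ?_, ?_⟩
      · rw [div_le_one (by linarith)]; linarith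
      · have h0 : r * rhi r - r * rlo r ≠ 0 := by linarith
        have h3 : r * (rlo r + (y - r * rlo r) / (r * rhi r - r * rlo r) * (rhi r - rlo r)) =
            r * rlo r + (y - r * rlo r) / (r * rhi r - r * rlo r) * (r * rhi r - r * rlo r) := by
          ring
        rw [h3, div_mul_cancel₀ _ h0]
        ring
  -- the cell
  obtain ⟨i, hi, t, ht, hrt⟩ : ∃ i : ℕ, i < 85 ∧ ∃ t : ℝ, |t| ≤ 1 ∧
      r * 1000000000 = 245000000 + 10000000 * (i : ℝ) + 5000000 * t := by
    have h0 : 0 ≤ (r * 1000000000 - 240000000) / 10000000 := by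
      apply div_nonneg _ (by norm_num)
      linarith
    refine ⟨⌊(r * 1000000000 - 240000000) / 10000000⌋₊, ?_,
      (r * 1000000000 - 245000000 -
        10000000 * (⌊(r * 1000000000 - 240000000) / 10000000⌋₊ : ℝ)) / 5000000, ?_, ?_⟩
    · rw [Nat.floor_lt h0, div_lt_iff₀ (by norm_num)]
      push_cast
      linarith
    · have h3 := Nat.floor_le h0
      have h4 := Nat.lt_floor_add_one ((r * 1000000000 - 240000000) / 10000000)
      rw [le_div_iff₀ (by norm_num)] at h3
      rw [div_lt_iff₀ (by norm_num)] at h4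
      rw [abs_le]
      constructor
      · rw [le_div_iff₀ (by norm_num)]
        linarith
      · rw [div_le_iff₀ (by norm_num)]
        linarith
    · ring
  have hrm : M (tubeR i) t r := by
    apply M_var
    push_cast
    linarith
  have hok : tubeOk i = true := by
    have := tube_all
    rw [List.all_eq_true] at this
    exact this i (List.mem_range.2 hi)
  have hlm := M_tl l t h1 h2
  have hbm := M_tb b t hb1 hb2
  rw [hyθ] at hT ⊢
  unfold tubeOk at hok
  split_ifs at hok with hi2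
  · exact TC_sound ht hlm hbm hrm hθ0 hθ1 hr hT hok
  · exact TT_sound ht hlm hbm hrm hθ0 hθ1 (by linarith) hT hok

end Pool.Agent.JohnC
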