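import Pool.Agent.Lib_MP_1fe18a_an.NumLower

set_option autoImplicit false

open Set

namespace Pool.Agent.JohnC

namespace TM

def rhiT (r : TM) : TM :=
  add (k 816000000) (mul r (add (k 116300000) (mul r (add (k (-78300000)) (mul r (k (-142600000)))))))
def rhi1T (r : TM) : TM :=
  add (k 116300000) (mul r (add (k (-156600000)) (mul r (k (-427800000)))))
def rhi2T (r : TM) : TM :=
  add (k (-156600000)) (mul r (k (-855600000)))

theorem M_rhiT {X : TM} {t r : ℝ} (ht : |t| ≤ 1) (h : M X t r) : M (rhiT X) t (rhi r) := by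
  have e : rhi r = 0.816 + r * (0.1163 + r * (-0.0783 + r * (-0.1426))) := by
    unfold rhi; ring
  rw [e]
  exact M_add (M_k _ _ _ (by push_cast; norm_num)) (M_mul ht h (M_add (M_k _ _ _ (by push_cast; norm_num))
    (M_mul ht h (M_add (M_k _ _ _ (by push_cast; norm_num)) (M_mul ht h
      (M_k _ _ _ (by push_cast; norm_num)))))))

theorem M_rhi1T {X : TM} {t r : ℝ} (ht : |t| ≤ 1) (h : M X t r) : M (rhi1T X) t (rhi1 r) := by
  have e : rhi1 r = 0.1163 + r * (-0.1566 + r * (-0.4278)) := by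
    unfold rhi1; ring
  rw [e]
  exact M_add (M_k _ _ _ (by push_cast; norm_num)) (M_mul ht h (M_add (M_k _ _ _ (by push_cast; norm_num))
    (M_mul ht h (M_k _ _ _ (by push_cast; norm_num)))))

theorem M_rhi2T {X : TM} {t r : ℝ} (ht : |t| ≤ 1) (h : M X t r) : M (rhi2T X) t (rhi2 r) := by
  have e : rhi2 r = -0.1566 + r * (-0.8556) := by
    unfold rhi2; ring
  rw [e]
  exact M_add (M_k _ _ _ (by push_cast; norm_num)) (M_mul ht h (M_k _ _ _ (by push_cast; norm_num)))

def goodN (z : Bool × TM) : Bool := z.1 && ngt z.2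

def cellCU (i : ℕ) : Bool :=
  goodN (FC tl tb (rT i) (rhiT (rT i)) (rhi1T (rT i)) (rhi2T (rT i)))
def cellTU (i : ℕ) : Bool :=
  goodN (FT tl tb (rT i) (rhiT (rT i)) (rhi1T (rT i)) (rhi2T (rT i)))

set_option maxRecDepth 100000 in
theorem uppC : loopB cellCU 0 120 = true := by decide +kernel
set_option maxRecDepth 100000 in
theorem uppT : loopB cellTU 120 98 = true := by decide +kernel

end TM

open TM in
theorem num_upper (l b r c s : ℝ) (h1 : (0.627834 : ℝ) < l) (h2 : l < (0.627835 : ℝ))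
    (hb1 : (1.1784754 : ℝ) < b) (hb2 : b < (1.1784763 : ℝ)) (hr : 0 < r) (hr2 : r ^ 2 < b)
    (hT : TanB b (b - r ^ 2) (r * rhi r) c s) :
    FExpr l b r (rhi r) (rhi1 r) (rhi2 r) c s < 0 := by
  obtain ⟨i, t, hi, ht, hM⟩ := cell_exists r hr (by linarith)
  have hc := hT.1
  rcases Nat.lt_or_ge i 120 with h | h
  · have hok := loopB_spec _ _ _ uppC i (Nat.zero_le _) (by omega)
    simp only [cellCU, goodN, Bool.and_eq_true] at hok
    obtain ⟨hs, v, hv, he⟩ := FC_sound ht (M_tl l t h1 h2) (M_tb b t hb1 hb2) hM (M_rhiT ht hM)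
      (M_rhi1T ht hM) (M_rhi2T ht hM) hr hT hok.1
    rw [he]
    exact mul_neg_of_pos_of_neg (mul_pos hr hs) (neg_of ht hv hok.2)
  · have hok := loopB_spec _ _ _ uppT i h (by omega)
    simp only [cellTU, goodN, Bool.and_eq_true] at hok
    obtain ⟨v, hv, he⟩ := FT_sound ht (M_tl l t h1 h2) (M_tb b t hb1 hb2) hM (M_rhiT ht hM)
      (M_rhi1T ht hM) (M_rhi2T ht hM) (by linarith) hT hok.1
    rw [he]
    exact mul_neg_of_pos_of_neg hc (neg_of ht hv hok.2)

end Pool.Agent.JohnC
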