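import Pool.Agent.Lib_MP_1fe18a_an.Basics

/-! Polynomial bounds for the tangent (piece G2). -/

set_option autoImplicit false

open Complex Set Filter Topology MeasureTheory

namespace Pool.Agent.JohnC

/-- derivative of `tlo` -/
noncomputable def tlo1 (s : ℝ) : ℝ :=
    29177/100000 + s * (44213/100000 + s * (114261/200000 + s * (43449/62500 + s *
    (20473/25000 + s * (236223/250000 + s * (214893/200000 + s * (151067/125000 + s *
    (1347777/1000000 + s * (18659/12500 + s * (1643829/1000000 + s * (225189/125000 + s *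
    (491543/250000))))))))))))

/-- derivative of `thi` -/
noncomputable def thi1 (s : ℝ) : ℝ :=
    291771/1000000 + s * (221067/500000 + s * (285657/500000 + s * (173799/250000 + s *
    (40947/50000 + s * (472461/500000 + s * (1074507/1000000 + s * (75537/62500 + s *
    (1347849/1000000 + s * (149281/100000 + s * (1643939/1000000 + s * (450411/250000 + s *
    (245791/125000 + s * (63/5)))))))))))))

theorem horner_aux (f : ℝ → ℝ) (f' a s : ℝ) (h : HasDerivAt f f' s) :
    HasDerivAt (fun s => a + s * f s) (f s + s * f') s := by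
  refine (((hasDerivAt_id s).mul h).const_add a).congr_deriv ?_
  simp

theorem tlo_deriv (s : ℝ) : HasDerivAt tlo (tlo1 s) s := by
  unfold tlo
  refine HasDerivAt.congr_deriv (horner_aux _ _ _ _ (horner_aux _ _ _ _ (horner_aux _ _ _ _ (horner_aux _ _ _ _ (horner_aux _ _ _ _ (horner_aux _ _ _ _ (horner_aux _ _ _ _ (horner_aux _ _ _ _ (horner_aux _ _ _ _ (horner_aux _ _ _ _ (horner_aux _ _ _ _ (horner_aux _ _ _ _ (horner_aux _ _ _ _ (hasDerivAt_const s _)))))))))))))) ?_
  unfold tlo1
  ring

theorem thi_deriv (s : ℝ) : HasDerivAt thi (thi1 s) s := by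
  unfold thi
  refine HasDerivAt.congr_deriv (horner_aux _ _ _ _ (horner_aux _ _ _ _ (horner_aux _ _ _ _ (horner_aux _ _ _ _ (horner_aux _ _ _ _ (horner_aux _ _ _ _ (horner_aux _ _ _ _ (horner_aux _ _ _ _ (horner_aux _ _ _ _ (horner_aux _ _ _ _ (horner_aux _ _ _ _ (horner_aux _ _ _ _ (horner_aux _ _ _ _ (horner_aux _ _ _ _ (hasDerivAt_const s _))))))))))))))) ?_
  unfold thi1
  ring

theorem tlo_ineq (s : ℝ) (hs : 0 ≤ s) :
    (1 - s) * (tlo s + 2 * s * tlo1 s) ≤ 0.627834 * (1 + s * tlo s ^ 2) := by
  have h : 0.627834 * (1 + s * tlo s ^ 2) - (1 - s) * (tlo s + 2 * s * tlo1 s) = s * (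
    100084866213/125000000000000000 + s * (27371052353/12500000000000000 + s *
    (52106154911/12500000000000000 + s * (8689260607/6250000000000000 + s *
    (1649675104201/500000000000000000 + s * (3008920721767/250000000000000000 + s *
    (4385625216597/500000000000000000 + s * (313481836223/25000000000000000 + s *
    (505126287451/125000000000000000 + s * (1691416040417/250000000000000000 + s *
    (661361386473/125000000000000000 + s * (1438522380297/62500000000000000 + s *
    (3474012647391/250000000000000000 + s * (1107275112389476209/250000000000000000 + s *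
    (120428100952732887/500000000000000000 + s * (49980513789714741/250000000000000000 +
    s * (86185143690008547/500000000000000000 + s * (37652157309061149/250000000000000000
    + s * (65994571925233791/500000000000000000 + s *
    (28814764515573819/250000000000000000 + s * (24929494349514177/250000000000000000 + s
    * (10616179248070689/125000000000000000 + s * (35299877726417493/500000000000000000 +
    s * (7064886304366197/125000000000000000 + s * (5316287996085759/125000000000000000 +
    s * (890961456013281/31250000000000000 + s *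
    (448798257641157/31250000000000000))))))))))))))))))))))))))) := by
    unfold tlo tlo1
    ring
  have h2 : 0 ≤ s * (
    100084866213/125000000000000000 + s * (27371052353/12500000000000000 + s *
    (52106154911/12500000000000000 + s * (8689260607/6250000000000000 + s *
    (1649675104201/500000000000000000 + s * (3008920721767/250000000000000000 + s *
    (4385625216597/500000000000000000 + s * (313481836223/25000000000000000 + s *
    (505126287451/125000000000000000 + s * (1691416040417/250000000000000000 + s *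
    (661361386473/125000000000000000 + s * (1438522380297/62500000000000000 + s *
    (3474012647391/250000000000000000 + s * (1107275112389476209/250000000000000000 + s *
    (120428100952732887/500000000000000000 + s * (49980513789714741/250000000000000000 +
    s * (86185143690008547/500000000000000000 + s * (37652157309061149/250000000000000000
    + s * (65994571925233791/500000000000000000 + s *
    (28814764515573819/250000000000000000 + s * (24929494349514177/250000000000000000 + s
    * (10616179248070689/125000000000000000 + s * (35299877726417493/500000000000000000 +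
    s * (7064886304366197/125000000000000000 + s * (5316287996085759/125000000000000000 +
    s * (890961456013281/31250000000000000 + s *
    (448798257641157/31250000000000000))))))))))))))))))))))))))) := by
    positivity
  linarith

theorem thi_ineq (s : ℝ) (hs : 0 ≤ s) (hs1 : s ≤ 0.748225) :
    0.627835 * (1 + s * thi s ^ 2) ≤ (1 - s) * (thi s + 2 * s * thi1 s) := by
  set W : ℝ :=     1082015767464649559/40000000000000000 + s * (26483545919154103/50000000000000000 + s
    * (42221496944186183/100000000000000000 + s * (18291911903986643/50000000000000000 +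
    s * (65682809571056067/200000000000000000 + s * (1877309550714637/6250000000000000 +
    s * (55541318944770009/200000000000000000 + s * (2584122555536379/10000000000000000 +
    s * (48267691891205709/200000000000000000 + s * (22577244375736583/100000000000000000
    + s * (42247900470775519/200000000000000000 + s * (2467599081989353/12500000000000000
    + s * (287553312923929/1562500000000000 + s * (21366857421/125000000000 + s *
    (10170927/20000000)))))))))))))) with hW
  have h : (1 - s) * (thi s + 2 * s * thi1 s) - 0.627835 * (1 + s * thi s ^ 2) = s * (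
    134340737/8000000000000000 + s * (65784582981/20000000000000000 + s *
    (849626865323/200000000000000000 + s * (62708978571/100000000000000000 + s *
    (353829308619/40000000000000000 + s * (51712571143/20000000000000000 + s *
    (100313513323/12500000000000000 + s * (61912976181/10000000000000000 + s *
    (3281358889877/200000000000000000 + s * (759722229871/50000000000000000 + s *
    (1798334098251/100000000000000000 + s * (6888047333/5000000000000000 + s *
    (457007989671/40000000000000000))))))))))))) +
      s ^ 14 * (1083527430358926819/50000000000000000 - s * W) := by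
    rw [hW]
    unfold thi thi1
    ring
  have h2 : 0 ≤ s * (
    134340737/8000000000000000 + s * (65784582981/20000000000000000 + s *
    (849626865323/200000000000000000 + s * (62708978571/100000000000000000 + s *
    (353829308619/40000000000000000 + s * (51712571143/20000000000000000 + s *
    (100313513323/12500000000000000 + s * (61912976181/10000000000000000 + s *
    (3281358889877/200000000000000000 + s * (759722229871/50000000000000000 + s *
    (1798334098251/100000000000000000 + s * (6888047333/5000000000000000 + s *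
    (457007989671/40000000000000000))))))))))))) := by
    positivity
  have h3 : s * W ≤ 1083527430358926819/50000000000000000 := by
    have h4 : s * W ≤ 0.748225 * (
    1082015767464649559/40000000000000000 + 0.748225 *
    (26483545919154103/50000000000000000 + 0.748225 *
    (42221496944186183/100000000000000000 + 0.748225 *
    (18291911903986643/50000000000000000 + 0.748225 *
    (65682809571056067/200000000000000000 + 0.748225 * (1877309550714637/6250000000000000
    + 0.748225 * (55541318944770009/200000000000000000 + 0.748225 *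
    (2584122555536379/10000000000000000 + 0.748225 *
    (48267691891205709/200000000000000000 + 0.748225 *
    (22577244375736583/100000000000000000 + 0.748225 *
    (42247900470775519/200000000000000000 + 0.748225 *
    (2467599081989353/12500000000000000 + 0.748225 * (287553312923929/1562500000000000 +
    0.748225 * (21366857421/125000000000 + 0.748225 * (10170927/20000000))))))))))))))) := by
      rw [hW]
      gcongr
    refine h4.trans ?_
    norm_num
  have h5 : 0 ≤ s ^ 14 * (1083527430358926819/50000000000000000 - s * W) :=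
    mul_nonneg (by positivity) (by linarith)
  linarith

/-- `l artanh u` -/
noncomputable def Aa (l u : ℝ) : ℝ := l / 2 * (Real.log (1 + u) - Real.log (1 - u))

theorem Aa_deriv (l u : ℝ) (h0 : 0 ≤ u) (h1 : u < 1) :
    HasDerivAt (Aa l) (l / (1 - u ^ 2)) u := by
  have e1 : (1 + u) ≠ 0 := by linarith
  have e2 : (1 - u) ≠ 0 := by linarith
  have e3 : (1 - u ^ 2) ≠ 0 := by nlinarith
  have d1 : HasDerivAt (fun u : ℝ => Real.log (1 + u)) (1 / (1 + u)) u :=
    ((hasDerivAt_id u).const_add 1).log e1
  have d2 : HasDerivAt (fun u : ℝ => Real.log (1 - u)) (-1 / (1 - u)) u :=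
    ((hasDerivAt_id u).const_sub 1).log e2
  refine ((d1.sub d2).const_mul (l / 2)).congr_deriv ?_
  field_simp
  ring

theorem mono_aux (f f' : ℝ → ℝ) (c : ℝ) (hd : ∀ u ∈ Icc 0 c, HasDerivAt f (f' u) u)
    (hn : ∀ u ∈ Icc 0 c, 0 ≤ f' u) (u : ℝ) (hu : u ∈ Icc 0 c) : f 0 ≤ f u := by
  have hm : MonotoneOn f (Icc 0 c) := by
    refine monotoneOn_of_deriv_nonneg (convex_Icc 0 c)
      (fun x hx => (hd x hx).continuousAt.continuousWithinAt)
      (fun x hx => ?_) (fun x hx => ?_)
    · rw [interior_Icc] at hx
      exact (hd x ⟨hx.1.le, hx.2.le⟩).differentiableAt.differentiableWithinAt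
    · rw [interior_Icc] at hx
      rw [(hd x ⟨hx.1.le, hx.2.le⟩).deriv]
      exact hn x ⟨hx.1.le, hx.2.le⟩
  exact hm ⟨le_refl 0, hu.1.trans hu.2⟩ hu hu.1

theorem core_aux (l : ℝ) (h1 : (0.627834 : ℝ) < l) (h2 : l < (0.627835 : ℝ)) (u : ℝ)
    (hu : u ∈ Icc (0:ℝ) 0.865) :
    Real.arctan (u * tlo (u ^ 2)) ≤ Aa l u ∧ Aa l u ≤ Real.arctan (u * thi (u ^ 2)) := by
  have hA0 : Aa l 0 = 0 := by simp [Aa]
  have sq_deriv : ∀ v : ℝ, HasDerivAt (fun v : ℝ => v ^ 2) (2 * v) v := by
    intro v
    simpa using hasDerivAt_pow 2 v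
  have dP : ∀ v : ℝ, HasDerivAt (fun v : ℝ => v * tlo (v ^ 2))
      (tlo (v ^ 2) + 2 * v ^ 2 * tlo1 (v ^ 2)) v := by
    intro v
    have := (hasDerivAt_id v).mul ((tlo_deriv (v ^ 2)).comp v (sq_deriv v))
    refine this.congr_deriv ?_
    simp only [id, Function.comp]
    ring
  have dQ : ∀ v : ℝ, HasDerivAt (fun v : ℝ => v * thi (v ^ 2))
      (thi (v ^ 2) + 2 * v ^ 2 * thi1 (v ^ 2)) v := by
    intro v
    have := (hasDerivAt_id v).mul ((thi_deriv (v ^ 2)).comp v (sq_deriv v))
    refine this.congr_deriv ?_
    simp only [id, Function.comp]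
    ring
  constructor
  · have := mono_aux (fun v => Aa l v - Real.arctan (v * tlo (v ^ 2)))
      (fun v => l / (1 - v ^ 2) - 1 / (1 + (v * tlo (v ^ 2)) ^ 2) *
        (tlo (v ^ 2) + 2 * v ^ 2 * tlo1 (v ^ 2))) 0.865
      (fun v hv => (Aa_deriv l v hv.1 (by linarith [hv.2])).sub ((dP v).arctan)) ?_ u hu
    · simp only [hA0, zero_mul, Real.arctan_zero, sub_zero] at this
      linarith
    · intro v hv
      have e1 : 0 < 1 - v ^ 2 := by nlinarith [hv.1, hv.2]
      have e2 : 0 < 1 + (v * tlo (v ^ 2)) ^ 2 := by positivity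
      have e3 := tlo_ineq (v ^ 2) (by positivity)
      rw [sub_nonneg, one_div, inv_mul_eq_div, div_le_div_iff₀ e2 e1]
      have e4 : 0.627834 * (1 + v ^ 2 * tlo (v ^ 2) ^ 2) ≤ l * (1 + (v * tlo (v ^ 2)) ^ 2) := by
        rw [mul_pow] at e2 ⊢
        nlinarith
      linarith
  · have := mono_aux (fun v => Real.arctan (v * thi (v ^ 2)) - Aa l v)
      (fun v => 1 / (1 + (v * thi (v ^ 2)) ^ 2) *
        (thi (v ^ 2) + 2 * v ^ 2 * thi1 (v ^ 2)) - l / (1 - v ^ 2)) 0.865
      (fun v hv => ((dQ v).arctan).sub (Aa_deriv l v hv.1 (by linarith [hv.2]))) ?_ u hu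
    · simp only [hA0, zero_mul, Real.arctan_zero, sub_zero] at this
      linarith
    · intro v hv
      have e1 : 0 < 1 - v ^ 2 := by nlinarith [hv.1, hv.2]
      have e2 : 0 < 1 + (v * thi (v ^ 2)) ^ 2 := by positivity
      have e3 := thi_ineq (v ^ 2) (by positivity) (by nlinarith [hv.1, hv.2])
      rw [sub_nonneg, one_div, inv_mul_eq_div, div_le_div_iff₀ e1 e2]
      have e4 : l * (1 + (v * thi (v ^ 2)) ^ 2) ≤ 0.627835 * (1 + v ^ 2 * thi (v ^ 2) ^ 2) := by
        rw [mul_pow] at e2 ⊢
        nlinarith
      linarith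

theorem core (l : ℝ) (h1 : (0.627834 : ℝ) < l) (h2 : l < (0.627835 : ℝ)) (u : ℝ)
    (hu : u ∈ Icc (0:ℝ) 0.865) :
    u * tlo (u ^ 2) * Real.cos (Aa l u) ≤ Real.sin (Aa l u) ∧
      Real.sin (Aa l u) ≤ u * thi (u ^ 2) * Real.cos (Aa l u) := by
  obtain ⟨c1, c2⟩ := core_aux l h1 h2 u hu
  have b1 := Real.neg_pi_div_two_lt_arctan (u * tlo (u ^ 2))
  have b2 := Real.arctan_lt_pi_div_two (u * thi (u ^ 2))
  have hmem : Aa l u ∈ Ioo (-(Real.pi / 2)) (Real.pi / 2) := ⟨by linarith, by linarith⟩
  have hc : 0 < Real.cos (Aa l u) := Real.cos_pos_of_mem_Ioo hmem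
  have t1 : u * tlo (u ^ 2) ≤ Real.tan (Aa l u) := by
    rw [← Real.tan_arctan (u * tlo (u ^ 2))]
    exact Real.strictMonoOn_tan.monotoneOn ⟨b1, by linarith⟩ hmem c1
  have t2 : Real.tan (Aa l u) ≤ u * thi (u ^ 2) := by
    rw [← Real.tan_arctan (u * thi (u ^ 2))]
    exact Real.strictMonoOn_tan.monotoneOn hmem ⟨by linarith, b2⟩ c2
  rw [Real.tan_eq_sin_div_cos] at t1 t2
  exact ⟨(le_div_iff₀ hc).1 t1, (div_le_iff₀ hc).1 t2⟩

/-- the bounds for tan nu which the numerical pieces use -/
theorem tanB_nu (l x y : ℝ) (h1 : (0.627834 : ℝ) < l) (h2 : l < (0.627835 : ℝ)) (hx : 0 ≤ x)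
    (hy : 0 < y) (hO : 0 < (x - 1 / bet l) * (x - bet l) + y ^ 2) :
    TanB (bet l) x y (Real.cos (nu l x y)) (Real.sin (nu l x y)) := by
  have hl : 0 < l := by linarith
  obtain ⟨n0, n1⟩ := nu_facts l x y hl hx hy hO
  have hb := bet_gt l hl
  have hc : 0 < Real.cos (nu l x y) :=
    Real.cos_pos_of_mem_Ioo ⟨by linarith [Real.pi_pos], n1⟩
  have hs : 0 ≤ Real.sin (nu l x y) :=
    Real.sin_nonneg_of_nonneg_of_le_pi n0 (by linarith [Real.pi_pos])
  have p1 : 0 < (x - 1) ^ 2 + y ^ 2 := by positivity
  have p2 : 0 < (x + 1) ^ 2 + y ^ 2 := by positivity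
  have p3 : 0 < 1 + x ^ 2 + y ^ 2 := by positivity
  have hu0 : 0 ≤ uu x y := by unfold uu; positivity
  have hu1 : 1 - uu x y = ((x - 1) ^ 2 + y ^ 2) / (1 + x ^ 2 + y ^ 2) := by
    unfold uu; field_simp; ring
  have hu2 : 1 + uu x y = ((x + 1) ^ 2 + y ^ 2) / (1 + x ^ 2 + y ^ 2) := by
    unfold uu; field_simp; ring
  have q1 : 0 < 1 - uu x y := by rw [hu1]; positivity
  have q2 : 0 < 1 + uu x y := by linarith
  have hnu : nu l x y = Aa l (uu x y) := by
    unfold nu Aa
    rw [← Real.log_div q2.ne' q1.ne', hu1, hu2]
    congr 2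
    field_simp
  set B : ℝ := 2 * bet l / (1 + bet l ^ 2) with hB
  have hBp : 0 < 1 + bet l ^ 2 := by positivity
  have hB1 : 1 - B = (bet l - 1) ^ 2 / (1 + bet l ^ 2) := by
    rw [hB]; field_simp; ring
  have hB2 : 1 + B = (bet l + 1) ^ 2 / (1 + bet l ^ 2) := by
    rw [hB]; field_simp; ring
  have r1 : 0 < 1 - B := by
    rw [hB1]; exact div_pos (pow_pos (by linarith) 2) hBp
  have r2 : 0 < 1 + B := by rw [hB2]; positivity
  have hAB : Aa l B = Real.pi / 2 := by
    unfold Aa
    rw [← Real.log_div r2.ne' r1.ne', hB1, hB2]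
    have : (bet l + 1) ^ 2 / (1 + bet l ^ 2) / ((bet l - 1) ^ 2 / (1 + bet l ^ 2)) =
        Real.exp (Real.pi / l) := by
      have h5 : ((bet l + 1) / (bet l - 1)) ^ 2 = Real.exp (Real.pi / l) := by
        rw [bet_ratio l hl, sq, ← Real.exp_add]
        congr 1
        field_simp
        ring
      rw [← h5]
      have : bet l - 1 ≠ 0 := by linarith
      field_simp
    rw [this, Real.log_exp]
    field_simp
  have huB : uu x y < B := by
    rw [hB]
    unfold uu
    rw [div_lt_div_iff₀ p3 hBp]
    have h3 : 0 < bet l * ((x - 1 / bet l) * (x - bet l) + y ^ 2) :=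
      mul_pos (by linarith) hO
    have h4 : bet l * ((x - 1 / bet l) * (x - bet l) + y ^ 2) =
        bet l * (x ^ 2 + y ^ 2 + 1) - x * (bet l ^ 2 + 1) := by
      have : bet l ≠ 0 := by linarith
      field_simp
      ring
    rw [h4] at h3
    nlinarith
  have hden : 0 < 1 - B * uu x y := by nlinarith
  have hv : vv (bet l) x y = (B - uu x y) / (1 - B * uu x y) := by
    unfold vv; rw [← hB]
  have hv0 : 0 ≤ vv (bet l) x y := by
    rw [hv]; exact div_nonneg (by linarith) hden.le
  have hv1 : 1 - vv (bet l) x y = (1 - B) * (1 + uu x y) / (1 - B * uu x y) := by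
    rw [hv]; field_simp; ring
  have hv2 : 1 + vv (bet l) x y = (1 + B) * (1 - uu x y) / (1 - B * uu x y) := by
    rw [hv]; field_simp; ring
  have hAv : Aa l (vv (bet l) x y) = Real.pi / 2 - nu l x y := by
    rw [hnu, ← hAB]
    unfold Aa
    rw [hv1, hv2, Real.log_div (mul_pos r2 q1).ne' hden.ne',
      Real.log_div (mul_pos r1 q2).ne' hden.ne', Real.log_mul r2.ne' q1.ne',
      Real.log_mul r1.ne' q2.ne']
    ring
  refine ⟨hc, hs, fun h => ?_, fun h => ?_⟩
  · rw [hnu]
    exact core l h1 h2 (uu x y) ⟨hu0, h⟩
  · have := core l h1 h2 (vv (bet l) x y) ⟨hv0, h⟩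
    rw [hAv, Real.cos_pi_div_two_sub, Real.sin_pi_div_two_sub] at this
    exact this

end Pool.Agent.JohnC
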