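import Pool.Agent.Lib_MP_1fe18a_an.PathCore
import Pool.Agent.Lib_MP_1fe18a_an.BetB
import Pool.Agent.Lib_MP_1fe18a_an.TanB
import Pool.Agent.Lib_MP_1fe18a_an.NumS
import Pool.Agent.Lib_MP_1fe18a_an.NumLower
import Pool.Agent.Lib_MP_1fe18a_an.NumUpper
import Pool.Agent.Lib_MP_1fe18a_an.NumTube

/-! John constant, piece K2: the path (assembly of `PathCore.lean` with the numerical pieces). -/

set_option autoImplicit false

namespace Pool.Agent.JohnC

theorem path_inputs : PathCore.PathInputs where
  bet_bounds := bet_bounds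
  tanB_nu := tanB_nu
  num_lower := num_lower
  num_upper := num_upper
  num_tube := num_tube
  num_simple := num_simple

theorem path_exists (l : ℝ) (h1 : (0.627834 : ℝ) < l) (h2 : l < (0.627835 : ℝ))
    (hB : Bnd l = 0) : ∃ Y : ℝ → ℝ, IsPath l Y :=
  PathCore.path_exists path_inputs l h1 h2 hB

end Pool.Agent.JohnC
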