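import Pool.Agent.Lib_MP_1fe18a_an.Defs

/-! Piece I2: the inequality of the second phase. -/

set_option autoImplicit false

open Set Filter Topology MeasureTheory

namespace Pool.Agent.JohnC

theorem P2_aux_small (l a0 : ℝ) (h1 : (0.6 : ℝ) < l) (ha0 : 0 < a0) (ha0' : a0 < Real.pi)
    (h : l * Real.sin a0 ≤ Real.cos a0) : a0 < 1.05 := by
  by_contra hcon
  push Not at hcon
  have hs0 : 0 < Real.sin a0 := Real.sin_pos_of_pos_of_lt_pi ha0 ha0'
  have hpi : 3.14 < Real.pi := Real.pi_gt_d2
  have hcos : 0 < Real.cos a0 := by nlinarith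
  have ha2 : a0 < Real.pi / 2 := by
    by_contra h2
    push Not at h2
    have := Real.cos_nonpos_of_pi_div_two_le_of_le h2 (by linarith)
    linarith
  have hc1 : Real.cos a0 ≤ Real.cos 1.05 :=
    Real.cos_le_cos_of_nonneg_of_le_pi (by norm_num) ha0'.le hcon
  have hs1 : Real.sin 1.05 ≤ Real.sin a0 := by
    apply Real.sin_le_sin_of_le_of_le_pi_div_two (by linarith) ha2.le hcon
  have hs2 : (0.857 : ℝ) < Real.sin 1.05 := by
    have := Real.sin_gt_sub_cube (x := 1.05) (by norm_num)
    refine lt_trans ?_ this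
    norm_num
  have hs3 : (0.5008 : ℝ) < Real.sin 0.525 := by
    have := Real.sin_gt_sub_cube (x := 0.525) (by norm_num)
    refine lt_trans ?_ this
    norm_num
  have hc2 : Real.cos 1.05 < 0.499 := by
    have h3 : Real.cos 1.05 = 1 - 2 * Real.sin 0.525 ^ 2 := by
      have h4 := Real.cos_two_mul (0.525 : ℝ)
      have h5 := Real.sin_sq_add_cos_sq (0.525 : ℝ)
      have h6 : (2 : ℝ) * 0.525 = 1.05 := by norm_num
      rw [h6] at h4
      rw [h4]
      linarith
    rw [h3]
    nlinarith
  nlinarith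

theorem P2_ineq (l a0 a : ℝ) (h1 : (0.6 : ℝ) < l) (h2 : l < (0.7 : ℝ))
    (ha0 : 0 < a0) (ha0' : a0 < Real.pi) (ha : 0 < a) (ha' : a < Real.pi) (hne : a ≠ a0)
    (hc : -(Real.cos a0 / (l * Real.sin a0)) ≤ -1) :
    0 < -(Real.cos a0 / (l * Real.sin a0)) * (1 - Real.exp (l * (a - a0)))
      + (1 - Real.sin a / Real.sin a0) := by
  have hs0 : 0 < Real.sin a0 := Real.sin_pos_of_pos_of_lt_pi ha0 ha0'
  have hl : 0 < l := by linarith
  set C : ℝ := Real.cos a0 / (l * Real.sin a0) with hC
  have hC1 : 1 ≤ C := by linarith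
  have hcos : Real.cos a0 = C * l * Real.sin a0 := by
    rw [hC]
    field_simp
  have hsm : a0 < 1.05 := by
    apply P2_aux_small l a0 h1 ha0 ha0'
    rw [hcos]
    nlinarith [mul_pos hl hs0]
  set τ : ℝ := a0 - a with hτ
  have hsin : Real.sin a / Real.sin a0 = Real.cos τ - C * l * Real.sin τ := by
    have h3 : a = a0 - τ := by rw [hτ]; ring
    rw [h3, Real.sin_sub, hcos]
    field_simp
  have hexp : l * (a - a0) = -(l * τ) := by rw [hτ]; ring
  rw [hsin, hexp]
  have hτ0 : τ ≠ 0 := by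
    intro h
    apply hne
    linarith
  have hpi : 3.14 < Real.pi := Real.pi_gt_d2
  have hcosτ : Real.cos τ < 1 := by
    have h4 : Real.cos τ ≤ 1 := Real.cos_le_one τ
    rcases h4.lt_or_eq with h5 | h5
    · exact h5
    · exfalso
      have h6 : Real.cos |τ| = Real.cos 0 := by rw [Real.cos_abs, h5, Real.cos_zero]
      have h7 : |τ| ≤ Real.pi := by
        rw [abs_le]
        constructor <;> linarith
      have h8 := Real.injOn_cos ⟨abs_nonneg τ, h7⟩ ⟨le_refl 0, by linarith⟩ h6
      exact hτ0 (abs_eq_zero.1 h8)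
  have hkey : 0 ≤ Real.exp (-(l * τ)) - 1 + l * Real.sin τ := by
    rcases lt_or_gt_of_ne hτ0 with h | h
    · have h3 : -(l * τ) + 1 ≤ Real.exp (-(l * τ)) := Real.add_one_le_exp _
      have h4 : τ ≤ Real.sin τ := by
        have h5 := Real.sin_le (x := -τ) (by linarith)
        rw [Real.sin_neg] at h5
        linarith
      nlinarith
    · have hlt : τ < 1.05 := by linarith
      have h3 := Real.sin_gt_sub_cube h
      have hlτ : 0 < l * τ := by positivity
      have hlτ1 : l * τ ≤ 0.735 := by nlinarith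
      have h4 := Real.exp_bound (x := -(l * τ)) (n := 3)
        (by rw [abs_neg, abs_of_pos hlτ]; linarith) (by norm_num)
      rw [abs_neg, abs_of_pos hlτ] at h4
      simp only [Finset.sum_range_succ, Finset.sum_range_zero, Nat.factorial] at h4
      norm_num at h4
      have h5 := (abs_le.1 h4).1
      have h6 : 1 - l * τ + (l * τ) ^ 2 / 2 - (l * τ) ^ 3 * (2 / 9) ≤ Real.exp (-(l * τ)) := by
        linarith
      have h7 : 0 ≤ l * τ ^ 2 * (l / 2 - 2 / 9 * l * (l * τ) - τ / 6) := by
        apply mul_nonneg (by positivity)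
        nlinarith
      nlinarith
  nlinarith [mul_nonneg (sub_nonneg.2 hC1) hkey]

end Pool.Agent.JohnC
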