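import Pool.Agent.Lib_MP_1fe18a_an.Defs

set_option autoImplicit false

open Complex Set Filter Topology MeasureTheory

namespace Pool.Agent.JohnC

/-- Schwarz Pick for self maps of the upper half plane -/
theorem schwarz_pick_half (X : ℂ → ℂ) (hX : DifferentiableOn ℂ X {z | 0 < z.im})
    (hm : ∀ z : ℂ, 0 < z.im → 0 < (X z).im) (z : ℂ) (hz : 0 < z.im) :
    ‖deriv X z‖ * z.im ≤ (X z).im := by
  have hopen : IsOpen {z : ℂ | 0 < z.im} := isOpen_lt continuous_const Complex.continuous_im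
  obtain ⟨w, hw⟩ : ∃ w, w = X z := ⟨_, rfl⟩
  have hwim : 0 < w.im := hw ▸ hm z hz
  let c : ℂ → ℂ := fun ζ => (z - (starRingEnd ℂ z) * ζ) / (1 - ζ)
  let ψ : ℂ → ℂ := fun v => (v - w) / (v - starRingEnd ℂ w)
  have hne : ∀ ζ ∈ Metric.ball (0:ℂ) 1, (1 - ζ) ≠ 0 := by
    intro ζ hζ h
    have h1 : ζ = 1 := (sub_eq_zero.mp h).symm
    rw [h1] at hζ
    simp at hζ
  have hc_im : ∀ ζ ∈ Metric.ball (0:ℂ) 1, 0 < (c ζ).im := by
    intro ζ hζ
    have h1 : Complex.normSq (1 - ζ) > 0 := Complex.normSq_pos.mpr (hne ζ hζ)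
    have h2 : ζ.re ^ 2 + ζ.im ^ 2 < 1 := by
      have h3 : ‖ζ‖ < 1 := by simpa using hζ
      have h4 : ‖ζ‖ ^ 2 = ζ.re ^ 2 + ζ.im ^ 2 := by
        rw [Complex.sq_norm, Complex.normSq_apply]; ring
      nlinarith [norm_nonneg ζ]
    have h3 : (c ζ).im = z.im * (1 - (ζ.re ^ 2 + ζ.im ^ 2)) / Complex.normSq (1 - ζ) := by
      simp only [c]
      rw [Complex.div_im]
      simp
      field_simp
      ring
    rw [h3]
    apply div_pos _ h1
    apply mul_pos hz
    linarith
  have hψne : ∀ v : ℂ, 0 < v.im → v - starRingEnd ℂ w ≠ 0 := by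
    intro v hv h
    have h1 := congrArg Complex.im h
    simp at h1
    linarith
  have hψ_ball : ∀ v : ℂ, 0 < v.im → ‖ψ v‖ < 1 := by
    intro v hv
    simp only [ψ]
    rw [norm_div, div_lt_one (norm_pos_iff.mpr (hψne v hv))]
    apply lt_of_pow_lt_pow_left₀ 2 (norm_nonneg _)
    rw [Complex.sq_norm, Complex.sq_norm, Complex.normSq_apply, Complex.normSq_apply]
    simp
    nlinarith [mul_pos hv hwim]
  have hc0 : c 0 = z := by simp [c]
  have hderc : HasDerivAt c (z - starRingEnd ℂ z) 0 := by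
    have h1 : HasDerivAt (fun ζ : ℂ => z - (starRingEnd ℂ z) * ζ) (-(starRingEnd ℂ z)) 0 := by
      have := ((hasDerivAt_id (0:ℂ)).const_mul (starRingEnd ℂ z)).const_sub z
      simpa using this
    have h2 : HasDerivAt (fun ζ : ℂ => 1 - ζ) (-1) 0 := by
      simpa using (hasDerivAt_id (0:ℂ)).const_sub 1
    have h3 := h1.div h2 (by simp)
    have h4 : (-(starRingEnd ℂ z) * (1 - 0) - (z - (starRingEnd ℂ z) * 0) * (-1)) / (1 - 0) ^ 2 =
        z - starRingEnd ℂ z := by ring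
    rw [← h4]
    exact h3
  have hderψ : HasDerivAt ψ (1 / (w - starRingEnd ℂ w)) w := by
    have h1 : HasDerivAt (fun v : ℂ => v - w) 1 w := (hasDerivAt_id w).sub_const w
    have h2 : HasDerivAt (fun v : ℂ => v - starRingEnd ℂ w) 1 w :=
      (hasDerivAt_id w).sub_const _
    have hw' := hψne w hwim
    have h3 := h1.div h2 hw'
    have h4 : (1 * (w - starRingEnd ℂ w) - (w - w) * 1) / (w - starRingEnd ℂ w) ^ 2 =
        1 / (w - starRingEnd ℂ w) := by
      field_simp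
      ring
    rw [← h4]
    exact h3
  have hderX : HasDerivAt X (deriv X z) z :=
    ((hX z hz).differentiableAt (hopen.mem_nhds hz)).hasDerivAt
  have hg : HasDerivAt (fun ζ => ψ (X (c ζ)))
      (1 / (w - starRingEnd ℂ w) * (deriv X z * (z - starRingEnd ℂ z))) 0 := by
    have h1 : HasDerivAt (fun ζ => X (c ζ)) (deriv X z * (z - starRingEnd ℂ z)) 0 := by
      have h2 : HasDerivAt X (deriv X z) (c 0) := by rw [hc0]; exact hderX
      exact h2.comp 0 hderc
    have h3 : HasDerivAt ψ (1 / (w - starRingEnd ℂ w)) (X (c 0)) := by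
      rw [hc0, ← hw]; exact hderψ
    exact h3.comp 0 h1
  have hdiff : DifferentiableOn ℂ (fun ζ => ψ (X (c ζ))) (Metric.ball 0 1) := by
    intro ζ hζ
    apply DifferentiableAt.differentiableWithinAt
    have h1 : DifferentiableAt ℂ c ζ := by
      apply DifferentiableAt.div
      · fun_prop
      · fun_prop
      · exact hne ζ hζ
    have h2 : DifferentiableAt ℂ X (c ζ) :=
      (hX (c ζ) (hc_im ζ hζ)).differentiableAt (hopen.mem_nhds (hc_im ζ hζ))
    have h3 : DifferentiableAt ℂ ψ (X (c ζ)) := by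
      apply DifferentiableAt.div
      · fun_prop
      · fun_prop
      · exact hψne _ (hm _ (hc_im ζ hζ))
    have h4 : DifferentiableAt ℂ (fun ζ => X (c ζ)) ζ := h2.comp ζ h1
    exact h3.comp ζ h4
  have hg0 : ψ (X (c 0)) = 0 := by
    rw [hc0, ← hw]; simp [ψ]
  have hmaps : MapsTo (fun ζ => ψ (X (c ζ))) (Metric.ball 0 1)
      (Metric.closedBall ((fun ζ => ψ (X (c ζ))) 0) 1) := by
    intro ζ hζ
    simp only [hg0]
    rw [mem_closedBall_zero_iff]
    exact (hψ_ball _ (hm _ (hc_im ζ hζ))).le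
  have hfin := Complex.norm_deriv_le_one_of_mapsTo_ball hdiff hmaps one_pos
  rw [hg.deriv] at hfin
  have e1 : ‖w - starRingEnd ℂ w‖ = 2 * w.im := by
    rw [Complex.sub_conj]
    simp [abs_of_pos hwim]
  have e2 : ‖z - starRingEnd ℂ z‖ = 2 * z.im := by
    rw [Complex.sub_conj]
    simp [abs_of_pos hz]
  rw [norm_mul, norm_mul, norm_div, norm_one, e1, e2] at hfin
  rw [← hw]
  have h5 : 1 / (2 * w.im) * (‖deriv X z‖ * (2 * z.im)) = ‖deriv X z‖ * z.im / w.im := by
    field_simp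
  rw [h5, div_le_one hwim] at hfin
  exact hfin

theorem schwarz_pick_strip (l : ℝ) (hl : 0 < l) (Gc : ℂ → ℂ)
    (hG : DifferentiableOn ℂ Gc {z | 0 < z.im})
    (hr : ∀ z : ℂ, 0 < z.im → -(l * Real.pi) < (Gc z).re ∧ (Gc z).re < 0)
    (z : ℂ) (hz : 0 < z.im) :
    ‖deriv Gc z‖ * z.im ≤ l * Real.sin (-(Gc z).re / l) := by
  have hopen : IsOpen {z : ℂ | 0 < z.im} := isOpen_lt continuous_const Complex.continuous_im
  have hlne : (l:ℂ) ≠ 0 := by exact_mod_cast hl.ne'
  have him : ∀ ζ : ℂ, (Complex.exp (-I * Gc ζ / l)).im =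
      Real.exp ((Gc ζ).im / l) * Real.sin (-(Gc ζ).re / l) := by
    intro ζ
    rw [Complex.exp_im]
    have h1 : (-I * Gc ζ / (l:ℂ)).re = (Gc ζ).im / l := by
      rw [Complex.div_ofReal_re]; simp
    have h2 : (-I * Gc ζ / (l:ℂ)).im = -(Gc ζ).re / l := by
      rw [Complex.div_ofReal_im]; simp
    rw [h1, h2]
  have hnorm : ‖Complex.exp (-I * Gc z / l)‖ = Real.exp ((Gc z).im / l) := by
    rw [Complex.norm_exp]
    rw [Complex.div_ofReal_re]; simp
  have hX : DifferentiableOn ℂ (fun ζ => Complex.exp (-I * Gc ζ / l)) {z | 0 < z.im} := by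
    apply DifferentiableOn.cexp
    apply DifferentiableOn.div_const
    exact hG.const_mul _
  have hm : ∀ ζ : ℂ, 0 < ζ.im → 0 < (Complex.exp (-I * Gc ζ / l)).im := by
    intro ζ hζ
    rw [him]
    apply mul_pos (Real.exp_pos _)
    obtain ⟨h1, h2⟩ := hr ζ hζ
    apply Real.sin_pos_of_pos_of_lt_pi
    · apply div_pos _ hl; linarith
    · rw [div_lt_iff₀ hl]; linarith
  have key := schwarz_pick_half _ hX hm z hz
  have hderG : HasDerivAt Gc (deriv Gc z) z :=
    ((hG z hz).differentiableAt (hopen.mem_nhds hz)).hasDerivAt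
  have hder : HasDerivAt (fun ζ => Complex.exp (-I * Gc ζ / l))
      (Complex.exp (-I * Gc z / l) * (-I * deriv Gc z / l)) z :=
    ((hderG.const_mul (-I)).div_const (l:ℂ)).cexp
  rw [hder.deriv, him, norm_mul, hnorm, norm_div, norm_mul, norm_neg, Complex.norm_I,
    Complex.norm_real, Real.norm_eq_abs, abs_of_pos hl, one_mul] at key
  have hE := Real.exp_pos ((Gc z).im / l)
  have h1 : Real.exp ((Gc z).im / l) * (‖deriv Gc z‖ / l) * z.im =
      Real.exp ((Gc z).im / l) * (‖deriv Gc z‖ * z.im / l) := by ring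
  rw [h1] at key
  have h2 := le_of_mul_le_mul_left key hE
  rw [div_le_iff₀ hl] at h2
  linarith

end Pool.Agent.JohnC
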