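import Pool.Agent.Lib_MP_1fe18a_an.Defs

/-!
The elementary two variable inequality `U_ineq`.
-/

set_option autoImplicit false

namespace Pool.Agent.JohnC

theorem uq_mono {f f' : ℝ → ℝ} (h0 : 0 ≤ f 0) (hd : ∀ x, HasDerivAt f (f' x) x)
    (h : ∀ x, 0 ≤ x → 0 ≤ f' x) (x : ℝ) (hx : 0 ≤ x) : 0 ≤ f x := by
  have hm : MonotoneOn f (Set.Ici 0) := by
    apply monotoneOn_of_deriv_nonneg (convex_Ici 0)
    · exact fun y _ => (hd y).continuousAt.continuousWithinAt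
    · exact fun y _ => (hd y).differentiableAt.differentiableWithinAt
    · intro y hy
      rw [interior_Ici] at hy
      rw [(hd y).deriv]
      exact h y hy.le
  exact h0.trans (hm (Set.mem_Ici.mpr le_rfl) (Set.mem_Ici.mpr hx) hx)

theorem uq_sin_lo (x : ℝ) (hx : 0 ≤ x) : x - x ^ 3 / 6 ≤ Real.sin x := by
  have := uq_mono (f := fun x => Real.sin x - (x - x ^ 3 / 6))
    (f' := fun x => Real.cos x - (1 - x ^ 2 / 2)) (by simp) (by
      intro y
      have h1 := (Real.hasDerivAt_sin y).sub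
        ((hasDerivAt_id y).sub (((hasDerivAt_id y).pow 3).div_const 6))
      refine h1.congr_deriv ?_
      simp
      ring) (by
      intro y hy
      have := Real.one_sub_sq_div_two_le_cos (x := y)
      linarith) x hx
  linarith

theorem uq_cos_hi (x : ℝ) (hx : 0 ≤ x) : Real.cos x ≤ 1 - x ^ 2 / 2 + x ^ 4 / 24 := by
  have := uq_mono (f := fun x => (1 - x ^ 2 / 2 + x ^ 4 / 24) - Real.cos x)
    (f' := fun x => Real.sin x - (x - x ^ 3 / 6)) (by simp) (by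
      intro y
      have h1 := ((((hasDerivAt_const y (1 : ℝ)).sub (((hasDerivAt_id y).pow 2).div_const 2))).add
        (((hasDerivAt_id y).pow 4).div_const 24)).sub (Real.hasDerivAt_cos y)
      refine h1.congr_deriv ?_
      simp
      ring) (by
      intro y hy
      have := uq_sin_lo y hy
      linarith) x hx
  linarith

theorem uq_exp1 (x : ℝ) (hx : 0 ≤ x) : Real.exp (-x) ≤ 1 - x + x ^ 2 / 2 := by
  have := uq_mono (f := fun x => (1 - x + x ^ 2 / 2) - Real.exp (-x))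
    (f' := fun x => Real.exp (-x) - (1 - x)) (by simp) (by
      intro y
      have h1 := ((((hasDerivAt_const y (1 : ℝ)).sub (hasDerivAt_id y))).add
        (((hasDerivAt_id y).pow 2).div_const 2)).sub ((hasDerivAt_id y).neg.exp)
      refine h1.congr_deriv ?_
      simp
      ring) (by
      intro y hy
      have := Real.add_one_le_exp (-y)
      linarith) x hx
  linarith

theorem uq_exp2 (x : ℝ) (hx : 0 ≤ x) : 1 - x + x ^ 2 / 2 - x ^ 3 / 6 ≤ Real.exp (-x) := by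
  have := uq_mono (f := fun x => Real.exp (-x) - (1 - x + x ^ 2 / 2 - x ^ 3 / 6))
    (f' := fun x => (1 - x + x ^ 2 / 2) - Real.exp (-x)) (by simp) (by
      intro y
      have h1 := ((hasDerivAt_id y).neg.exp).sub (((((hasDerivAt_const y (1 : ℝ)).sub
        (hasDerivAt_id y))).add (((hasDerivAt_id y).pow 2).div_const 2)).sub
        (((hasDerivAt_id y).pow 3).div_const 6))
      refine h1.congr_deriv ?_
      simp
      ring) (by
      intro y hy
      have := uq_exp1 y hy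
      linarith) x hx
  linarith

theorem uq_sincos (s : ℝ) (hs : 0 ≤ s) : Real.sin s * Real.cos s ≤ s := by
  have h1 : Real.sin (2 * s) ≤ 2 * s := Real.sin_le (by linarith)
  rw [Real.sin_two_mul] at h1
  linarith

/-- case `k ≤ 0`, `a ≥ a0` -/
theorem uq_A1 (l k s : ℝ) (hl : 0 < l) (hk : k ≤ 0) (hk1 : -1 ≤ k) (hs : 0 ≤ s) :
    0 ≤ k / l * (1 - Real.exp (l * s)) + (1 - (Real.cos s - k * Real.sin s) ^ 2) / 2 := by
  have h1 : l * s + 1 ≤ Real.exp (l * s) := Real.add_one_le_exp _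
  have h2 : -(k * s) ≤ k / l * (1 - Real.exp (l * s)) := by
    have h3 : k / l * (1 - Real.exp (l * s)) = (-k / l) * (Real.exp (l * s) - 1) := by ring
    rw [h3]
    have h4 : (-k / l) * (l * s) ≤ (-k / l) * (Real.exp (l * s) - 1) :=
      mul_le_mul_of_nonneg_left (by linarith) (div_nonneg (by linarith) hl.le)
    have h5 : (-k / l) * (l * s) = -(k * s) := by field_simp
    linarith
  have h6 := uq_sincos s hs
  have h7 := Real.sin_sq_add_cos_sq s
  have h8 : (1 - (Real.cos s - k * Real.sin s) ^ 2) / 2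
      = (Real.sin s ^ 2 * (1 - k ^ 2)) / 2 + k * (Real.sin s * Real.cos s) := by
    linear_combination (-1 / 2) * h7
  rw [h8]
  have h9 : 0 ≤ Real.sin s ^ 2 * (1 - k ^ 2) := mul_nonneg (sq_nonneg _) (by nlinarith)
  nlinarith

/-- concavity in `k` -/
theorem uq_conc (K k W A S : ℝ) (hK : 0 < K) (hk : 0 ≤ k) (hkK : k ≤ K) (hA : 0 ≤ A) (hA1 : A ≤ 1)
    (hq : 0 ≤ -2 * K * W + 2 * (A + K * S) - 10 / 17 * (A + K * S) ^ 2) :
    0 ≤ -2 * k * W + 2 * (A + k * S) - 10 / 17 * (A + k * S) ^ 2 := by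
  have h0 : 0 ≤ 2 * A - 10 / 17 * A ^ 2 := by nlinarith
  have key : K * (-2 * k * W + 2 * (A + k * S) - 10 / 17 * (A + k * S) ^ 2)
      = (K - k) * (2 * A - 10 / 17 * A ^ 2)
        + k * (-2 * K * W + 2 * (A + K * S) - 10 / 17 * (A + K * S) ^ 2)
        + 10 / 17 * S ^ 2 * (k * K * (K - k)) := by ring
  have h1 : 0 ≤ K * (-2 * k * W + 2 * (A + k * S) - 10 / 17 * (A + k * S) ^ 2) := by
    rw [key]
    have h2 : 0 ≤ (K - k) * (2 * A - 10 / 17 * A ^ 2) := mul_nonneg (by linarith) h0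
    have h3 := mul_nonneg hk hq
    have h4 : 0 ≤ 10 / 17 * S ^ 2 * (k * K * (K - k)) :=
      mul_nonneg (by positivity) (mul_nonneg (mul_nonneg hk hK.le) (by linarith))
    linarith
  exact nonneg_of_mul_nonneg_right h1 hK

theorem uq_R2 (s : ℝ) (hs : 0 ≤ s) (hs' : s ≤ 61 / 50) :
    0 ≤ (3611719 / 5312500 : ℝ) * s ^ 0 + (-(526975681 / 1328125000) : ℝ) * s ^ 1 +
        (-(838034483251 / 3984375000000) : ℝ) * s ^ 2 +
        (90370574626531 / 1660156250000000 : ℝ) * s ^ 3 +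
        (329766128702057569 / 14941406250000000000 : ℝ) * s ^ 4 + (-(157 / 51000) : ℝ) * s ^ 5 +
        (-(5 / 4896) : ℝ) * s ^ 6 := by
  have hc : 0 ≤ (61 / 50 : ℝ) - s := by linarith
  have key : (3611719 / 5312500 : ℝ) * s ^ 0 + (-(526975681 / 1328125000) : ℝ) * s ^ 1 +
        (-(838034483251 / 3984375000000) : ℝ) * s ^ 2 +
        (90370574626531 / 1660156250000000 : ℝ) * s ^ 3 +
        (329766128702057569 / 14941406250000000000 : ℝ) * s ^ 4 + (-(157 / 51000) : ℝ) * s ^ 5 +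
        (-(5 / 4896) : ℝ) * s ^ 6
      = (180585950000 / 875846364137 : ℝ) * (s ^ 0 * ((61 / 50 : ℝ) - s) ^ 6) +
        (954933633836 / 875846364137 : ℝ) * (s ^ 1 * ((61 / 50 : ℝ) - s) ^ 5) +
        (74352133157073029 / 32844238655137500 : ℝ) * (s ^ 2 * ((61 / 50 : ℝ) - s) ^ 4) +
        (4733279862684921148733 / 2052764915946093750000 : ℝ) * (s ^ 3 * ((61 / 50 : ℝ) - s) ^ 3) +
        (357114173259613361153070529 / 307914737391914062500000000 : ℝ) * (s ^ 4 * ((61 / 50 : ℝ) - s) ^ 2) +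
        (37004824571161529250645529 / 153957368695957031250000000 : ℝ) * (s ^ 5 * ((61 / 50 : ℝ) - s) ^ 1) +
        (194817680729306654727281 / 34212748599101562500000000 : ℝ) * (s ^ 6 * ((61 / 50 : ℝ) - s) ^ 0) := by ring
  rw [key]
  positivity

theorem uq_R1 (s : ℝ) (hs : 0 ≤ s) (hs' : s ≤ 9 / 10) :
    0 ≤ (4761311541 / 4250000000 : ℝ) * s ^ 0 + (-(6850683853 / 7968750000) : ℝ) * s ^ 1 +
        (-(3178069 / 31875000) : ℝ) * s ^ 2 + (2041 / 17000 : ℝ) * s ^ 3 +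
        (5209319 / 382500000 : ℝ) * s ^ 4 + (-(2041 / 306000) : ℝ) * s ^ 5 +
        (-(5 / 4896) : ℝ) * s ^ 6 := by
  have hc : 0 ≤ (9 / 10 : ℝ) - s := by linarith
  have key : (4761311541 / 4250000000 : ℝ) * s ^ 0 + (-(6850683853 / 7968750000) : ℝ) * s ^ 1 +
        (-(3178069 / 31875000) : ℝ) * s ^ 2 + (2041 / 17000 : ℝ) * s ^ 3 +
        (5209319 / 382500000 : ℝ) * s ^ 4 + (-(2041 / 306000) : ℝ) * s ^ 5 +
        (-(5 / 4896) : ℝ) * s ^ 6
      = (1587103847 / 752874750 : ℝ) * (s ^ 0 * ((9 / 10 : ℝ) - s) ^ 6) +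
        (105331420819 / 9410934375 : ℝ) * (s ^ 1 * ((9 / 10 : ℝ) - s) ^ 5) +
        (91058000693 / 3764373750 : ℝ) * (s ^ 2 * ((9 / 10 : ℝ) - s) ^ 4) +
        (17039442991 / 627395625 : ℝ) * (s ^ 3 * ((9 / 10 : ℝ) - s) ^ 3) +
        (1254363153137 / 75287475000 : ℝ) * (s ^ 4 * ((9 / 10 : ℝ) - s) ^ 2) +
        (397614402019 / 75287475000 : ℝ) * (s ^ 5 * ((9 / 10 : ℝ) - s) ^ 1) +
        (202753956301 / 301149900000 : ℝ) * (s ^ 6 * ((9 / 10 : ℝ) - s) ^ 0) := by ring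
  rw [key]
  positivity

theorem uq_R2' (s : ℝ) (hs : 0 ≤ s) (hs' : s ≤ 61 / 50) :
    0 ≤ 1 - s ^ 2 / 12 - 0.2 * 0.628 * s - 1.2 * (0.628 ^ 2 / 2 + 0.628 ^ 3 * s / 6
      + 0.628 ^ 4 * s ^ 2 / 24 + 0.628 ^ 5 * s ^ 3 / 120 + 7 * 0.628 ^ 6 * s ^ 4 / 4320)
      - 10 / 17 * (s / 2 - s ^ 3 / 24 + 0.6 * 0.628 * (1 - s ^ 2 / 6)) ^ 2 := by
  refine (uq_R2 s hs hs').trans_eq ?_
  ring

theorem uq_R1' (s : ℝ) (hs : 0 ≤ s) (hs' : s ≤ 9 / 10) :
    0 ≤ 1 + 1.3 * 0.6278 ^ 2 - 26 / 60 * (0.628 ^ 3 + 0.628) * s - s ^ 2 / 12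
      - 10 / 17 * (s / 2 - s ^ 3 / 24 + 1.3 * 0.628 * (1 - s ^ 2 / 6)) ^ 2 := by
  refine (uq_R1 s hs hs').trans_eq ?_
  ring

theorem uq_E2 (l s : ℝ) (hl : 0 < l) (hl2 : l ≤ 0.628) (hs : 0 ≤ s) (hs' : s ≤ 61 / 50) :
    0 ≤ -2 * (0.6 * l) * ((Real.exp (l * s) - 1) / l)
      + 2 * ((1 - Real.cos s) + 0.6 * l * Real.sin s)
      - 10 / 17 * ((1 - Real.cos s) + 0.6 * l * Real.sin s) ^ 2 := by
  have hx0 : 0 ≤ l * s := mul_nonneg hl.le hs
  have hx1 : l * s ≤ 1 := by nlinarith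
  have he := Real.exp_bound' hx0 hx1 (n := 6) (by norm_num)
  simp only [Finset.sum_range_succ, Finset.sum_range_zero, Nat.factorial] at he
  norm_num at he
  have hc := uq_cos_hi s hs
  have hc2 := Real.one_sub_sq_div_two_le_cos (x := s)
  have hsn := uq_sin_lo s hs
  have hsn1 := Real.sin_le_one s
  have hs2 : s ^ 2 ≤ 1.4884 := by nlinarith
  set V := (1 - Real.cos s) + 0.6 * l * Real.sin s with hV
  set V' := s ^ 2 / 2 - s ^ 4 / 24 + 0.6 * l * (s - s ^ 3 / 6) with hV'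
  have h1 : V' ≤ V := by
    have : 0.6 * l * (s - s ^ 3 / 6) ≤ 0.6 * l * Real.sin s :=
      mul_le_mul_of_nonneg_left hsn (by positivity)
    linarith
  have h2 : V ≤ 1.2 := by
    have : 0.6 * l * Real.sin s ≤ 0.6 * l * 1 := mul_le_mul_of_nonneg_left hsn1 (by positivity)
    linarith
  have h3 : 2 * V' - 10 / 17 * V' ^ 2 ≤ 2 * V - 10 / 17 * V ^ 2 := by
    nlinarith [mul_nonneg (sub_nonneg.mpr h1) (show (0 : ℝ) ≤ 3.4 - V - V' by linarith)]
  have h4 : -2 * (0.6 * l) * ((Real.exp (l * s) - 1) / l) = -1.2 * (Real.exp (l * s) - 1) := by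
    field_simp
    ring
  rw [h4]
  set v := s / 2 - s ^ 3 / 24 + 0.6 * l * (1 - s ^ 2 / 6) with hv
  set w := s / 2 - s ^ 3 / 24 + 0.6 * 0.628 * (1 - s ^ 2 / 6) with hw
  have h5 : v ≤ w := by
    have : 0.6 * l * (1 - s ^ 2 / 6) ≤ 0.6 * 0.628 * (1 - s ^ 2 / 6) :=
      mul_le_mul_of_nonneg_right (by linarith) (by linarith)
    linarith
  have h6 : 0 ≤ v := by
    have h61 : 0 ≤ 0.6 * l * (1 - s ^ 2 / 6) := mul_nonneg (by positivity) (by linarith)
    have h62 : 0 ≤ s / 2 - s ^ 3 / 24 := by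
      have : s / 2 - s ^ 3 / 24 = s * (1 / 2 - s ^ 2 / 24) := by ring
      rw [this]
      exact mul_nonneg hs (by linarith)
    linarith
  have h7 : v ^ 2 ≤ w ^ 2 := pow_le_pow_left₀ h6 h5 2
  have p2 : l ^ 2 ≤ 0.628 ^ 2 := pow_le_pow_left₀ hl.le hl2 2
  have p3 : l ^ 3 * s ≤ 0.628 ^ 3 * s := mul_le_mul_of_nonneg_right (pow_le_pow_left₀ hl.le hl2 3) hs
  have p4 : l ^ 4 * s ^ 2 ≤ 0.628 ^ 4 * s ^ 2 :=
    mul_le_mul_of_nonneg_right (pow_le_pow_left₀ hl.le hl2 4) (by positivity)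
  have p5 : l ^ 5 * s ^ 3 ≤ 0.628 ^ 5 * s ^ 3 :=
    mul_le_mul_of_nonneg_right (pow_le_pow_left₀ hl.le hl2 5) (by positivity)
  have p6 : l ^ 6 * s ^ 4 ≤ 0.628 ^ 6 * s ^ 4 :=
    mul_le_mul_of_nonneg_right (pow_le_pow_left₀ hl.le hl2 6) (by positivity)
  have p1 : l * s ≤ 0.628 * s := mul_le_mul_of_nonneg_right hl2 hs
  have hR := uq_R2' s hs hs'
  rw [← hw] at hR
  have h8 : 0 ≤ 1 - s ^ 2 / 12 - 0.2 * (l * s) - 1.2 * (l ^ 2 / 2 + l ^ 3 * s / 6
      + l ^ 4 * s ^ 2 / 24 + l ^ 5 * s ^ 3 / 120 + 7 * l ^ 6 * s ^ 4 / 4320)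
      - 10 / 17 * v ^ 2 := by linarith
  have h9 := mul_nonneg (sq_nonneg s) h8
  have h10 : s ^ 2 * (1 - s ^ 2 / 12 - 0.2 * (l * s) - 1.2 * (l ^ 2 / 2 + l ^ 3 * s / 6
      + l ^ 4 * s ^ 2 / 24 + l ^ 5 * s ^ 3 / 120 + 7 * l ^ 6 * s ^ 4 / 4320)
      - 10 / 17 * v ^ 2) = -1.2 * (l * s + (l * s) ^ 2 / 2 + (l * s) ^ 3 / 6 + (l * s) ^ 4 / 24
        + (l * s) ^ 5 / 120 + 7 * (l * s) ^ 6 / 4320) + (2 * V' - 10 / 17 * V' ^ 2) := by
    have : V' = s * v := by rw [hV', hv]; ring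
    rw [hV', hv]
    ring
  rw [h10] at h9
  have h11 : Real.exp (l * s) - 1 ≤ l * s + (l * s) ^ 2 / 2 + (l * s) ^ 3 / 6 + (l * s) ^ 4 / 24
        + (l * s) ^ 5 / 120 + 7 * (l * s) ^ 6 / 4320 := by
    linarith
  linarith

theorem uq_E1 (l s : ℝ) (hl : 0.6278 ≤ l) (hl2 : l ≤ 0.628) (hs : 0 ≤ s) (hs' : s ≤ 9 / 10) :
    0 ≤ -2 * (1.3 * l) * ((1 - Real.exp (-(l * s))) / l)
      + 2 * ((1 - Real.cos s) + 1.3 * l * Real.sin s)
      - 10 / 17 * ((1 - Real.cos s) + 1.3 * l * Real.sin s) ^ 2 := by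
  have hl0 : 0 < l := by linarith
  have hx0 : 0 ≤ l * s := mul_nonneg hl0.le hs
  have he := uq_exp2 (l * s) hx0
  have hc := uq_cos_hi s hs
  have hc2 := Real.one_sub_sq_div_two_le_cos (x := s)
  have hsn := uq_sin_lo s hs
  have hsn1 := Real.sin_le_one s
  have hs2 : s ^ 2 ≤ 0.81 := by nlinarith
  set V := (1 - Real.cos s) + 1.3 * l * Real.sin s with hV
  set V' := s ^ 2 / 2 - s ^ 4 / 24 + 1.3 * l * (s - s ^ 3 / 6) with hV'
  have h1 : V' ≤ V := by
    have : 1.3 * l * (s - s ^ 3 / 6) ≤ 1.3 * l * Real.sin s :=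
      mul_le_mul_of_nonneg_left hsn (by positivity)
    linarith
  have h2 : V ≤ 1.3 := by
    have : 1.3 * l * Real.sin s ≤ 1.3 * l * 1 := mul_le_mul_of_nonneg_left hsn1 (by positivity)
    linarith
  have h3 : 2 * V' - 10 / 17 * V' ^ 2 ≤ 2 * V - 10 / 17 * V ^ 2 := by
    nlinarith [mul_nonneg (sub_nonneg.mpr h1) (show (0 : ℝ) ≤ 3.4 - V - V' by linarith)]
  have h4 : -2 * (1.3 * l) * ((1 - Real.exp (-(l * s))) / l)
      = -2.6 * (1 - Real.exp (-(l * s))) := by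
    field_simp
    ring
  rw [h4]
  set v := s / 2 - s ^ 3 / 24 + 1.3 * l * (1 - s ^ 2 / 6) with hv
  set w := s / 2 - s ^ 3 / 24 + 1.3 * 0.628 * (1 - s ^ 2 / 6) with hw
  have h5 : v ≤ w := by
    have : 1.3 * l * (1 - s ^ 2 / 6) ≤ 1.3 * 0.628 * (1 - s ^ 2 / 6) :=
      mul_le_mul_of_nonneg_right (by linarith) (by linarith)
    linarith
  have h6 : 0 ≤ v := by
    have h61 : 0 ≤ 1.3 * l * (1 - s ^ 2 / 6) := mul_nonneg (by positivity) (by linarith)
    have h62 : 0 ≤ s / 2 - s ^ 3 / 24 := by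
      have : s / 2 - s ^ 3 / 24 = s * (1 / 2 - s ^ 2 / 24) := by ring
      rw [this]
      exact mul_nonneg hs (by linarith)
    linarith
  have h7 : v ^ 2 ≤ w ^ 2 := pow_le_pow_left₀ h6 h5 2
  have p2 : 0.6278 ^ 2 ≤ l ^ 2 := pow_le_pow_left₀ (by norm_num) hl 2
  have p3 : l ^ 3 * s ≤ 0.628 ^ 3 * s :=
    mul_le_mul_of_nonneg_right (pow_le_pow_left₀ hl0.le hl2 3) hs
  have p1 : l * s ≤ 0.628 * s := mul_le_mul_of_nonneg_right hl2 hs
  have hR := uq_R1' s hs hs'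
  rw [← hw] at hR
  have h8 : 0 ≤ 1 + 1.3 * l ^ 2 - 26 / 60 * (l ^ 3 * s + l * s) - s ^ 2 / 12
      - 10 / 17 * v ^ 2 := by linarith
  have h9 := mul_nonneg (sq_nonneg s) h8
  have h10 : s ^ 2 * (1 + 1.3 * l ^ 2 - 26 / 60 * (l ^ 3 * s + l * s) - s ^ 2 / 12
      - 10 / 17 * v ^ 2) = -2.6 * (l * s - (l * s) ^ 2 / 2 + (l * s) ^ 3 / 6)
        + (2 * V' - 10 / 17 * V' ^ 2) := by
    rw [hV', hv]
    ring
  rw [h10] at h9
  linarith

theorem uq_exp_half_pi (l : ℝ) (hl2 : l ≤ 0.628) : Real.exp (l * (Real.pi / 2)) ≤ 2.682 := by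
  have hpi := Real.pi_lt_d6
  have hpi0 := Real.pi_pos
  have h1 : l * (Real.pi / 2) ≤ 0.98647 := by
    have : l * (Real.pi / 2) ≤ 0.628 * (Real.pi / 2) :=
      mul_le_mul_of_nonneg_right hl2 (by positivity)
    linarith
  have h2 : Real.exp (l * (Real.pi / 2)) ≤ Real.exp 1 * Real.exp (-0.01353) := by
    rw [← Real.exp_add]
    exact Real.exp_le_exp.mpr (by linarith)
  have h3 := uq_exp1 0.01353 (by norm_num)
  have h4 := Real.exp_one_lt_d9
  have h5 : Real.exp 1 * Real.exp (-0.01353) ≤ 2.7182818286 * (1 - 0.01353 + 0.01353 ^ 2 / 2) :=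
    mul_le_mul h4.le h3 (Real.exp_pos _).le (by norm_num)
  refine h2.trans (h5.trans ?_)
  norm_num

theorem uq_A2b (l s : ℝ) (hl : 0.6278 ≤ l) (hl2 : l ≤ 0.628) (hs : 61 / 50 ≤ s)
    (hs' : s ≤ Real.pi / 2) :
    Real.cos s * ((Real.exp (l * s) - 1) / l) ≤ 12 / 17 * Real.sin s := by
  have hl0 : 0 < l := by linarith
  have hpi := Real.pi_lt_d6
  obtain ⟨t, ht⟩ : ∃ t, s = Real.pi / 2 - t := ⟨Real.pi / 2 - s, by ring⟩
  have ht0 : 0 ≤ t := by linarith
  have ht1 : t ≤ 0.351 := by linarith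
  rw [ht, Real.cos_pi_div_two_sub, Real.sin_pi_div_two_sub]
  have h1 : Real.sin t ≤ t := Real.sin_le ht0
  have h2 := Real.one_sub_sq_div_two_le_cos (x := t)
  have h3 : Real.exp (l * (Real.pi / 2 - t)) ≤ 2.682 * (1 - l * t + (l * t) ^ 2 / 2) := by
    have : l * (Real.pi / 2 - t) = l * (Real.pi / 2) + -(l * t) := by ring
    rw [this, Real.exp_add]
    exact mul_le_mul (uq_exp_half_pi l hl2) (uq_exp1 _ (by positivity)) (Real.exp_pos _).le
      (by norm_num)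
  have h4 : 0 ≤ (Real.exp (l * (Real.pi / 2 - t)) - 1) / l := by
    apply div_nonneg _ hl0.le
    have := Real.add_one_le_exp (l * (Real.pi / 2 - t))
    have h5 : 0 ≤ l * (Real.pi / 2 - t) := mul_nonneg hl0.le (by linarith)
    linarith
  have h5 : (Real.exp (l * (Real.pi / 2 - t)) - 1) / l
      ≤ 2.6793 - 2.682 * t + 1.341 * 0.628 * t ^ 2 := by
    rw [div_le_iff₀ hl0]
    have h6 : l * (l * t ^ 2) ≤ 0.628 * (l * t ^ 2) :=
      mul_le_mul_of_nonneg_right hl2 (by positivity)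
    nlinarith
  have h6 : Real.sin t * ((Real.exp (l * (Real.pi / 2 - t)) - 1) / l)
      ≤ t * (2.6793 - 2.682 * t + 1.341 * 0.628 * t ^ 2) :=
    mul_le_mul h1 h5 h4 ht0
  have h7 : t * (2.6793 - 2.682 * t + 1.341 * 0.628 * t ^ 2) ≤ 12 / 17 * (1 - t ^ 2 / 2) := by
    nlinarith [mul_nonneg ht0 (sub_nonneg.mpr ht1), mul_nonneg ht0 (mul_nonneg ht0 ht0),
      mul_nonneg (mul_nonneg ht0 ht0) (sub_nonneg.mpr ht1)]
  linarith

theorem uq_B2b (l s : ℝ) (hl : 0.6278 ≤ l) (hl2 : l ≤ 0.628) (hs : 9 / 10 ≤ s)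
    (hs' : s ≤ Real.pi / 2) :
    Real.cos s * ((1 - Real.exp (-(l * s))) / l) ≤ 12 / 17 * Real.sin s := by
  have hl0 : 0 < l := by linarith
  have hs0 : 0 < s := by linarith
  have hpi := Real.pi_lt_d6
  have he := uq_exp2 (l * s) (by positivity)
  have hc := uq_cos_hi s hs0.le
  have hsn := uq_sin_lo s hs0.le
  have hy1 : 0.565 ≤ l * s := by nlinarith
  have hy2 : l * s ≤ 0.99 := by nlinarith
  have h5 : (1 - Real.exp (-(l * s))) / l ≤ 0.771 * s := by
    rw [div_le_iff₀ hl0]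
    have : (l * s) * (1 - l * s / 2 + (l * s) ^ 2 / 6) ≤ (l * s) * 0.771 := by
      apply mul_le_mul_of_nonneg_left _ (by positivity)
      nlinarith
    nlinarith
  have hcos : 0 ≤ Real.cos s := Real.cos_nonneg_of_neg_pi_div_two_le_of_le (by linarith) hs'
  have h6 : Real.cos s * ((1 - Real.exp (-(l * s))) / l) ≤ Real.cos s * (0.771 * s) :=
    mul_le_mul_of_nonneg_left h5 hcos
  have h7 : Real.cos s * (0.771 * s) ≤ (1 - s ^ 2 / 2 + s ^ 4 / 24) * (0.771 * s) :=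
    mul_le_mul_of_nonneg_right hc (by positivity)
  have hq1 : 0.81 ≤ s ^ 2 := by nlinarith
  have hq2 : s ^ 2 ≤ 2.5 := by nlinarith
  have h8 : s * (0.771 * (1 - s ^ 2 / 2 + s ^ 4 / 24)) ≤ s * (12 / 17 * (1 - s ^ 2 / 6)) := by
    apply mul_le_mul_of_nonneg_left _ hs0.le
    nlinarith [mul_nonneg (sub_nonneg.mpr hq1) (sub_nonneg.mpr hq2)]
  have h9 : 12 / 17 * (s - s ^ 3 / 6) ≤ 12 / 17 * Real.sin s :=
    mul_le_mul_of_nonneg_left hsn (by norm_num)
  nlinarith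

/-- case `0 ≤ k`, `a ≤ a0` -/
theorem uq_B1 (l k s : ℝ) (hl : 0.6278 ≤ l) (hl2 : l ≤ 0.628) (hk : 0 ≤ k) (hk1 : k ≤ 0.377)
    (hs : 0 ≤ s) (hs' : s ≤ Real.pi) :
    0 ≤ k / l * (1 - Real.exp (-(l * s))) + (1 - (Real.cos s + k * Real.sin s) ^ 2) / 2 := by
  have hl0 : 0 < l := by linarith
  have h7 := Real.sin_sq_add_cos_sq s
  have h8 : (1 - (Real.cos s + k * Real.sin s) ^ 2) / 2
      = (Real.sin s ^ 2 * (1 - k ^ 2)) / 2 - k * (Real.sin s * Real.cos s) := by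
    linear_combination (-1 / 2) * h7
  rw [h8]
  have hk2 : 0.857 ≤ 1 - k ^ 2 := by nlinarith
  by_cases hc : s ≤ Real.pi / 2
  · have he := uq_exp1 (l * s) (by positivity)
    have h1 : k / l * (l * s - (l * s) ^ 2 / 2) ≤ k / l * (1 - Real.exp (-(l * s))) :=
      mul_le_mul_of_nonneg_left (by linarith) (by positivity)
    have h2 : k / l * (l * s - (l * s) ^ 2 / 2) = k * s - k * l * s ^ 2 / 2 := by
      field_simp
    have h3 := uq_sincos s hs
    have h4 := Real.mul_le_sin hs hc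
    have hpi := Real.pi_lt_d6
    have h5 : 0.636 ≤ 2 / Real.pi := by
      rw [le_div_iff₀ Real.pi_pos]
      linarith
    have h6 : 0.636 * s ≤ Real.sin s := le_trans (mul_le_mul_of_nonneg_right h5 hs) h4
    have h9 : (0.636 * s) ^ 2 ≤ Real.sin s ^ 2 := pow_le_pow_left₀ (by positivity) h6 2
    have h10 : (0.636 * s) ^ 2 * 0.857 ≤ Real.sin s ^ 2 * (1 - k ^ 2) :=
      mul_le_mul h9 hk2 (by norm_num) (by positivity)
    have h11 : k * (Real.sin s * Real.cos s) ≤ k * s := mul_le_mul_of_nonneg_left h3 hk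
    have h12 : k * l * s ^ 2 ≤ 0.377 * 0.628 * s ^ 2 :=
      mul_le_mul_of_nonneg_right (mul_le_mul hk1 hl2 hl0.le (by norm_num)) (by positivity)
    nlinarith [sq_nonneg s]
  · push Not at hc
    have h1 : Real.cos s ≤ 0 := Real.cos_nonpos_of_pi_div_two_le_of_le hc.le (by linarith)
    have h2 : 0 ≤ Real.sin s := Real.sin_nonneg_of_nonneg_of_le_pi hs hs'
    have h3 : 0 ≤ k / l * (1 - Real.exp (-(l * s))) := by
      apply mul_nonneg (by positivity)
      have : Real.exp (-(l * s)) ≤ 1 := Real.exp_le_one_iff.mpr (by nlinarith)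
      linarith
    have h4 : Real.sin s * Real.cos s ≤ 0 := mul_nonpos_of_nonneg_of_nonpos h2 h1
    have h5 : 0 ≤ Real.sin s ^ 2 * (1 - k ^ 2) := mul_nonneg (sq_nonneg _) (by linarith)
    nlinarith

theorem uq_lin (k W C S : ℝ) (hS : 0 < S) (hk : 0 ≤ k) (hkC : k * S ≤ C) (hC : C ≤ 1)
    (hW : C * W ≤ 12 / 17 * S) : 0 ≤ 12 / 17 * (1 - C + k * S) - k * W := by
  by_cases h : W ≤ 12 / 17 * S
  · nlinarith [mul_nonneg hk (sub_nonneg.mpr h)]
  · push Not at h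
    have h1 : 0 ≤ S * (12 / 17 * (1 - C + k * S) - k * W) := by
      nlinarith [mul_nonneg (sub_nonneg.mpr hkC) (sub_nonneg.mpr h.le)]
    exact nonneg_of_mul_nonneg_right h1 hS

/-- from the form in `V` to the form in `mu` -/
theorem uq_V (c E μ : ℝ) (hμ : μ ≤ 1)
    (h : 0 ≤ 2 * (c * E) + 2 * (1 - μ) - 10 / 17 * (1 - μ) ^ 2) :
    0 ≤ c * E + (1 - μ ^ 2) / 2 + 7 / 34 * (max 0 (1 - μ)) ^ 2 := by
  rw [max_eq_right (by linarith)]
  nlinarith

/-- case `0 ≤ k`, `a0 ≤ a` -/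
theorem uq_A2 (l k s : ℝ) (hl : 0.6278 ≤ l) (hl2 : l ≤ 0.628) (hk : 0 ≤ k) (hk1 : k ≤ 0.6 * l)
    (hs : 0 ≤ s) (hs' : s ≤ Real.pi / 2) (hμ : 0 ≤ Real.cos s - k * Real.sin s) :
    0 ≤ k / l * (1 - Real.exp (l * s)) + (1 - (Real.cos s - k * Real.sin s) ^ 2) / 2
      + 7 / 34 * (max 0 (1 - (Real.cos s - k * Real.sin s))) ^ 2 := by
  have hl0 : 0 < l := by linarith
  have hc1 := Real.cos_le_one s
  have hs1 : 0 ≤ Real.sin s := Real.sin_nonneg_of_nonneg_of_le_pi hs (by linarith [Real.pi_pos])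
  have hc0 : 0 ≤ Real.cos s :=
    Real.cos_nonneg_of_neg_pi_div_two_le_of_le (by linarith [Real.pi_pos]) hs'
  have hks := mul_nonneg hk hs1
  apply uq_V _ _ _ (by linarith)
  by_cases h : s ≤ 61 / 50
  · have h1 := uq_conc (0.6 * l) k ((Real.exp (l * s) - 1) / l) (1 - Real.cos s) (Real.sin s)
      (by positivity) hk hk1 (by linarith) (by linarith) (uq_E2 l s hl0 hl2 hs h)
    have h2 : 2 * (k / l * (1 - Real.exp (l * s))) = -2 * k * ((Real.exp (l * s) - 1) / l) := by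
      ring
    rw [h2]
    have h3 : 1 - (Real.cos s - k * Real.sin s) = 1 - Real.cos s + k * Real.sin s := by ring
    rw [h3]
    exact h1
  · push Not at h
    have hspos : 0 < Real.sin s :=
      Real.sin_pos_of_pos_of_lt_pi (by linarith) (by linarith [Real.pi_pos])
    have h1 := uq_lin k ((Real.exp (l * s) - 1) / l) (Real.cos s) (Real.sin s) hspos hk
      (by linarith) hc1 (uq_A2b l s hl hl2 h.le hs')
    have h2 : 2 * (k / l * (1 - Real.exp (l * s))) = -2 * (k * ((Real.exp (l * s) - 1) / l)) := by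
      ring
    rw [h2]
    have h3 : 1 - (Real.cos s - k * Real.sin s) = 1 - Real.cos s + k * Real.sin s := by ring
    rw [h3]
    have h4 : 1 - Real.cos s + k * Real.sin s ≤ 1 := by linarith
    have h5 : 0 ≤ 1 - Real.cos s + k * Real.sin s := by linarith
    nlinarith [mul_nonneg h5 (sub_nonneg.mpr h4)]

/-- case `k ≤ 0`, `a ≤ a0`; here `m = -k` -/
theorem uq_B2 (l m s : ℝ) (hl : 0.6278 ≤ l) (hl2 : l ≤ 0.628) (hm : 0 ≤ m) (hm1 : m ≤ 1.3 * l)
    (hs : 0 ≤ s) (hs' : s ≤ Real.pi / 2) (hμ : 0 ≤ Real.cos s - m * Real.sin s) :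
    0 ≤ -m / l * (1 - Real.exp (-(l * s))) + (1 - (Real.cos s - m * Real.sin s) ^ 2) / 2
      + 7 / 34 * (max 0 (1 - (Real.cos s - m * Real.sin s))) ^ 2 := by
  have hl0 : 0 < l := by linarith
  have hc1 := Real.cos_le_one s
  have hs1 : 0 ≤ Real.sin s := Real.sin_nonneg_of_nonneg_of_le_pi hs (by linarith [Real.pi_pos])
  have hc0 : 0 ≤ Real.cos s :=
    Real.cos_nonneg_of_neg_pi_div_two_le_of_le (by linarith [Real.pi_pos]) hs'
  have hks := mul_nonneg hm hs1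
  apply uq_V _ _ _ (by linarith)
  by_cases h : s ≤ 9 / 10
  · have h1 := uq_conc (1.3 * l) m ((1 - Real.exp (-(l * s))) / l) (1 - Real.cos s) (Real.sin s)
      (by positivity) hm hm1 (by linarith) (by linarith) (uq_E1 l s hl hl2 hs h)
    have h2 : 2 * (-m / l * (1 - Real.exp (-(l * s))))
        = -2 * m * ((1 - Real.exp (-(l * s))) / l) := by
      ring
    rw [h2]
    have h3 : 1 - (Real.cos s - m * Real.sin s) = 1 - Real.cos s + m * Real.sin s := by ring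
    rw [h3]
    exact h1
  · push Not at h
    have hspos : 0 < Real.sin s :=
      Real.sin_pos_of_pos_of_lt_pi (by linarith) (by linarith [Real.pi_pos])
    have h1 := uq_lin m ((1 - Real.exp (-(l * s))) / l) (Real.cos s) (Real.sin s) hspos hm
      (by linarith) hc1 (uq_B2b l s hl hl2 h.le hs')
    have h2 : 2 * (-m / l * (1 - Real.exp (-(l * s))))
        = -2 * (m * ((1 - Real.exp (-(l * s))) / l)) := by
      ring
    rw [h2]
    have h3 : 1 - (Real.cos s - m * Real.sin s) = 1 - Real.cos s + m * Real.sin s := by ring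
    rw [h3]
    have h4 : 1 - Real.cos s + m * Real.sin s ≤ 1 := by linarith
    have h5 : 0 ≤ 1 - Real.cos s + m * Real.sin s := by linarith
    nlinarith [mul_nonneg h5 (sub_nonneg.mpr h4)]

theorem U_ineq (l a0 a : ℝ) (h1 : (0.627834 : ℝ) < l) (h2 : l < (0.627835 : ℝ))
    (ha0 : 0 < a0) (ha0' : a0 < Real.pi) (ha : 0 < a) (ha' : a < Real.pi)
    (hc1 : -1.3 ≤ -(Real.cos a0 / (l * Real.sin a0)))
    (hc2 : -(Real.cos a0 / (l * Real.sin a0)) ≤ 0.6) :
    0 ≤ -(Real.cos a0 / (l * Real.sin a0)) * (1 - Real.exp (l * (a - a0)))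
      + (1 - (Real.sin a / Real.sin a0) ^ 2) / 2
      + 7 / 34 * (max 0 (1 - Real.sin a / Real.sin a0)) ^ 2 := by
  have hl0 : 0 < l := by linarith
  have hS : 0 < Real.sin a0 := Real.sin_pos_of_pos_of_lt_pi ha0 ha0'
  have hSa : 0 < Real.sin a := Real.sin_pos_of_pos_of_lt_pi ha ha'
  have hμ : 0 < Real.sin a / Real.sin a0 := div_pos hSa hS
  obtain ⟨k, hk⟩ : ∃ k, k = -(Real.cos a0 / Real.sin a0) := ⟨_, rfl⟩
  have hck : -(Real.cos a0 / (l * Real.sin a0)) = k / l := by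
    rw [hk]
    field_simp
  rw [hck] at hc1 hc2 ⊢
  have hk1 : -(1.3 * l) ≤ k := by
    rw [le_div_iff₀ hl0] at hc1
    linarith
  have hk2 : k ≤ 0.6 * l := by
    rw [div_le_iff₀ hl0] at hc2
    linarith
  have hkc : k * Real.sin a0 = -Real.cos a0 := by
    rw [hk]
    field_simp
  rcases le_total a0 a with hle | hle
  · obtain ⟨s, hs⟩ : ∃ s, a = a0 + s := ⟨a - a0, by ring⟩
    have hs0 : 0 ≤ s := by linarith
    have hμs : Real.sin a / Real.sin a0 = Real.cos s - k * Real.sin s := by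
      rw [div_eq_iff hS.ne', hs, Real.sin_add]
      linear_combination Real.sin s * hkc
    rw [hμs] at hμ ⊢
    have hexp : l * (a - a0) = l * s := by rw [hs]; ring
    rw [hexp]
    rcases le_total k 0 with hk0 | hk0
    · have := uq_A1 l k s hl0 hk0 (by linarith) hs0
      have h3 : 0 ≤ 7 / 34 * (max 0 (1 - (Real.cos s - k * Real.sin s))) ^ 2 := by positivity
      linarith
    · have hcos : Real.cos a0 ≤ 0 := by
        have := mul_nonneg hk0 hS.le
        linarith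
      have ha0pi : Real.pi / 2 ≤ a0 := by
        by_contra hcon
        push Not at hcon
        have := Real.cos_pos_of_mem_Ioo ⟨by linarith [Real.pi_pos], hcon⟩
        linarith
      exact uq_A2 l k s (by linarith) (by linarith) hk0 hk2 hs0 (by linarith) hμ.le
  · obtain ⟨s, hs⟩ : ∃ s, a = a0 - s := ⟨a0 - a, by ring⟩
    have hs0 : 0 ≤ s := by linarith
    have hμs : Real.sin a / Real.sin a0 = Real.cos s + k * Real.sin s := by
      rw [div_eq_iff hS.ne', hs, Real.sin_sub]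
      linear_combination (-Real.sin s) * hkc
    rw [hμs] at hμ ⊢
    have hexp : l * (a - a0) = -(l * s) := by rw [hs]; ring
    rw [hexp]
    rcases le_total k 0 with hk0 | hk0
    · have hcos : 0 ≤ Real.cos a0 := by
        have := mul_nonneg (neg_nonneg.mpr hk0) hS.le
        linarith
      have ha0pi : a0 ≤ Real.pi / 2 := by
        by_contra hcon
        push Not at hcon
        have := Real.cos_neg_of_pi_div_two_lt_of_lt hcon (by linarith [Real.pi_pos])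
        linarith
      have h3 := uq_B2 l (-k) s (by linarith) (by linarith) (by linarith) (by linarith) hs0
        (by linarith) (by linarith)
      have h4 : Real.cos s - -k * Real.sin s = Real.cos s + k * Real.sin s := by ring
      rw [h4, neg_neg] at h3
      exact h3
    · have := uq_B1 l k s (by linarith) (by linarith) hk0 (by linarith) hs0 (by linarith)
      have h3 : 0 ≤ 7 / 34 * (max 0 (1 - (Real.cos s + k * Real.sin s))) ^ 2 := by positivity
      linarith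

end Pool.Agent.JohnC
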