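import Pool.Agent.Lib_MP_1fe18a_an.Defs
import Pool.Agent.Lib_MP_1fe18a_an.Basics
import Pool.Agent.Lib_MP_1fe18a_an.SP
import Pool.Agent.Lib_MP_1fe18a_an.Alg
import Pool.Agent.Lib_MP_1fe18a_an.P2
import Pool.Agent.Lib_MP_1fe18a_an.Uineq
import Pool.Agent.Lib_MP_1fe18a_an.Cal
import Pool.Agent.Lib_MP_1fe18a_an.Curve
import Pool.Agent.Lib_MP_1fe18a_an.TanB
import Pool.Agent.Lib_MP_1fe18a_an.BetB
import Pool.Agent.Lib_MP_1fe18a_an.NumS
import Pool.Agent.Lib_MP_1fe18a_an.NumKappa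

/-! Piece I4: the derivative of the verification function is nonnegative. -/

set_option autoImplicit false

open Complex Set Filter Topology MeasureTheory

namespace Pool.Agent.JohnC

theorem norm_zsq (x y : ℝ) : ‖(⟨x, y⟩ : ℂ) ^ 2 - 1‖ = Real.sqrt (NN x y) := by
  have h : (⟨x, y⟩ : ℂ) ^ 2 - 1 = ⟨x ^ 2 - y ^ 2 - 1, 2 * x * y⟩ := by
    apply Complex.ext
    · simp [pow_two]
    · simp [pow_two]; ring
  rw [h, norm_mk]
  rfl

theorem PP_eq (l x y p : ℝ) (hy : 0 < y) (her : 0 < er l x y)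
    (hp : p = Kf l x y / (y * er l x y)) : PP l x y = (er l x y : ℂ) * (1 + p * I) := by
  have h : Kf l x y / y = er l x y * p := by rw [hp]; field_simp
  unfold PP
  rw [h]
  apply Complex.ext <;> simp

theorem norm_gg (l x y p : ℝ) (hl : 0 < l) (hy : 0 < y) (her : 0 < er l x y)
    (hp : p = Kf l x y / (y * er l x y)) :
    ‖gg l x y‖ * ‖(1:ℂ) - p * I‖ =
      er l x y * (1 + p ^ 2) * (Real.sqrt (NN x y) / (2 * l)) := by
  have h1 : ‖(1:ℂ) - p * I‖ = Real.sqrt (1 + p ^ 2) := by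
    have : (1:ℂ) - p * I = ⟨1, -p⟩ := by apply Complex.ext <;> simp
    rw [this, norm_mk]
    congr 1; ring
  have h2 : ‖(1:ℂ) + p * I‖ = Real.sqrt (1 + p ^ 2) := by
    have : (1:ℂ) + p * I = ⟨1, p⟩ := by apply Complex.ext <;> simp
    rw [this, norm_mk]
    congr 1; ring
  have h3 : ‖((2:ℂ) * (l:ℂ))‖ = 2 * l := by
    rw [norm_mul, Complex.norm_real, Real.norm_of_nonneg hl.le]; simp
  have h4 : ‖(er l x y : ℂ)‖ = er l x y := by
    rw [Complex.norm_real, Real.norm_of_nonneg her.le]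
  have e1 : ‖I * ((⟨x, y⟩ : ℂ) ^ 2 - 1) / (2 * l)‖ = Real.sqrt (NN x y) / (2 * l) := by
    rw [norm_div, norm_mul, Complex.norm_I, one_mul, norm_zsq, h3]
  have e2 : ‖(er l x y : ℂ) * (1 + p * I)‖ = er l x y * Real.sqrt (1 + p ^ 2) := by
    rw [norm_mul, h4, h2]
  unfold gg hh
  rw [PP_eq l x y p hy her hp, norm_mul, e1, e2, h1]
  have h5 : Real.sqrt (1 + p ^ 2) * Real.sqrt (1 + p ^ 2) = 1 + p ^ 2 :=
    Real.mul_self_sqrt (by positivity)
  linear_combination er l x y * (Real.sqrt (NN x y) / (2 * l)) * h5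

theorem last_term (l x y p a : ℝ) (q Gc' : ℂ) (hl : 0 < l) (hy : 0 < y) (her : 0 < er l x y)
    (hp : p = Kf l x y / (y * er l x y)) (hG : ‖Gc'‖ * y ≤ l * Real.sin a) :
    -(er l x y * (1 + p ^ 2) * ((Real.sin a / Real.sin (alp x y)) * ‖q‖)) ≤
      (gg l x y * q * Gc' * (1 - p * I)).re := by
  obtain ⟨-, -, hN, hsin, -⟩ := alp_facts x y hy
  have hs : 0 < Real.sqrt (NN x y) := Real.sqrt_pos.2 hN
  have h1 : ‖gg l x y * q * Gc' * (1 - p * I)‖ ≤
      er l x y * (1 + p ^ 2) * ((Real.sin a / Real.sin (alp x y)) * ‖q‖) := by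
    have h2 : ‖gg l x y * q * Gc' * (1 - p * I)‖ =
        (‖gg l x y‖ * ‖(1:ℂ) - p * I‖) * ‖q‖ * ‖Gc'‖ := by
      rw [norm_mul, norm_mul, norm_mul]; ring
    have h3 : ‖Gc'‖ ≤ l * Real.sin a / y := by rwa [le_div_iff₀ hy]
    rw [h2, norm_gg l x y p hl hy her hp, hsin]
    have h4 : 0 ≤ er l x y * (1 + p ^ 2) * (Real.sqrt (NN x y) / (2 * l)) * ‖q‖ := by positivity
    refine (mul_le_mul_of_nonneg_left h3 h4).trans (le_of_eq ?_)
    field_simp
  have h5 := Complex.abs_re_le_norm (gg l x y * q * Gc' * (1 - p * I))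
  have h6 := neg_abs_le (gg l x y * q * Gc' * (1 - p * I)).re
  linarith

/-- the geometric facts at a point of the path -/
theorem path_point (l : ℝ) (Y : ℝ → ℝ)
    (hY : IsPath l Y) (x : ℝ) (hx : x ∈ Ico (0:ℝ) (bet l)) :
    ∃ r : ℝ, 0 < r ∧ r ^ 2 = bet l - x ∧ r ^ 2 ≤ bet l ∧ r * rlo r ≤ Y x ∧ Y x ≤ r * rhi r := by
  have hlo := hY.lo x hx
  have hhi := hY.hi x hx
  have hpos : 0 < bet l - x := by linarith [hx.2]
  refine ⟨Real.sqrt (bet l - x), Real.sqrt_pos.2 hpos, Real.sq_sqrt hpos.le, ?_, hlo.le, hhi.le⟩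
  rw [Real.sq_sqrt hpos.le]
  linarith [hx.1]

theorem cc_eq (l x y : ℝ) (hl : 0 < l) (hy : 0 < y) :
    cc l x y = -(Real.cos (alp x y) / (l * Real.sin (alp x y))) := by
  obtain ⟨-, -, hN, hsin, hcos⟩ := alp_facts x y hy
  have hs : 0 < Real.sqrt (NN x y) := Real.sqrt_pos.2 hN
  rw [hsin, hcos]
  unfold cc
  field_simp
  ring

theorem norm_eps (l : ℝ) (hl : 0 < l) (Gc : ℂ → ℂ) (x y : ℝ) (hy : 0 < y) :
    ‖eps l Gc x y‖ = Real.exp (l * (alp x y - -(Gc ⟨x, y⟩).re / l)) := by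
  unfold eps
  rw [Complex.norm_exp, Complex.sub_re, (g0_mk l x y hy).1]
  congr 1
  field_simp
  ring

/-- phase 1: the derivative is nonnegative -/
theorem phase1 (l : ℝ) (h1 : (0.627834 : ℝ) < l) (h2 : l < (0.627835 : ℝ)) (Y : ℝ → ℝ)
    (hY : IsPath l Y) (x : ℝ) (hx : x ∈ Ioo (0:ℝ) 1.12) (Gc Φ : ℂ → ℂ)
    (hGd : DifferentiableOn ℂ Gc {z | 0 < z.im})
    (hGr : ∀ z : ℂ, 0 < z.im → -(l * Real.pi) < (Gc z).re ∧ (Gc z).re < 0)
    (hΦ : ∀ z : ℂ, 0 < z.im → HasDerivAt Φ (Complex.exp (Gc z)) z) :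
    ∃ d : ℝ, 0 ≤ d ∧
      HasDerivAt (fun x => Vf l Gc x (Y x) (tf l x (Y x)) + (Φ (⟨x, Y x⟩ : ℂ)).re) d x := by
  have hl : 0 < l := by linarith
  obtain ⟨hb1, hb2⟩ := bet_bounds l h1 h2
  have hxb : x < bet l := by
    have := hx.2
    norm_num at this hb1 ⊢
    linarith
  have hx0 : x ∈ Ico (0:ℝ) (bet l) := ⟨hx.1.le, hxb⟩
  have hx1 : x ∈ Icc (0:ℝ) 1.12 := ⟨hx.1.le, hx.2.le⟩
  obtain ⟨r, hr, hr1, hr2, hy1, hy2⟩ := path_point l Y hY x hx0
  have hxr : x = bet l - r ^ 2 := by linarith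
  set y := Y x with hydef
  have hy : 0 < y := hY.pos x hx0
  have her : 0 < er l x y := hY.erpos x hx0
  have hder : HasDerivAt Y (-(Kf l x y / (y * er l x y))) x := hY.der x ⟨hx.1, hxb⟩
  have hwlo : -0.03 * er l x y ≤ Kf l x y := hY.wlo x hx1
  have hwhi : Kf l x y ≤ (0.05 + 0.36 * x) * er l x y := hY.whi x hx1
  set p : ℝ := Kf l x y / (y * er l x y) with hp
  set m := mE l x y with hm
  have hm0 : 0 < m := Real.exp_pos _
  set c := Real.cos (nu l x y) with hc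
  set s := Real.sin (nu l x y) with hs
  have hee : er l x y = m * c := rfl
  have hei : ei l x y = -(m * s) := rfl
  have hc0 : 0 < c := by
    by_contra hcon
    push Not at hcon
    have : m * c ≤ 0 := mul_nonpos_of_nonneg_of_nonpos hm0.le hcon
    linarith
  obtain ⟨-, -, -, hO, hcc1, hcc2⟩ := num_simple l (bet l) r y h1 h2 hb1 hb2 hr hr2 hy1 hy2
  rw [← hxr] at hO hcc1 hcc2
  obtain ⟨hccl, hccu⟩ := hcc1 hx1.2
  have hT : TanB (bet l) x y c s := tanB_nu l x y h1 h2 hx.1.le hy hO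
  obtain ⟨ha0, ha0', hN, hsin0, hcos0⟩ := alp_facts x y hy
  -- derivative of the multiplier
  have hcur := (curve_deriv l hl (fun t => t) Y x y 1 (-p) x (hasDerivAt_id x) hder rfl rfl hy).2.1
  set e' : ℝ := 2 * l / NN x y * ((er l x y * (2 * x * y) + m * s * (x ^ 2 - y ^ 2 - 1))
    + (er l x y * (x ^ 2 - y ^ 2 - 1) - m * s * (2 * x * y)) * p) with he'
  have hcur' : HasDerivAt (fun t => er l t (Y t)) e' x := by
    convert hcur using 1
    rw [he', hei]; ring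
  have hxne : x ≠ 0 := hx.1.ne'
  have hSf : HasDerivAt Sf (Sf1 x) x := by
    have h3 : HasDerivAt (fun x : ℝ => (1.12 - x) * (0.68 + 0.58 * x))
        ((-1) * (0.68 + 0.58 * x) + (1.12 - x) * (0.58 * 1)) x := by
      refine HasDerivAt.mul ?_ ?_
      · simpa using (hasDerivAt_id x).const_sub (1.12:ℝ)
      · exact ((hasDerivAt_id x).const_mul (0.58:ℝ)).const_add (0.68:ℝ)
    have h4 : HasDerivAt Sf ((-1) * (0.68 + 0.58 * x) + (1.12 - x) * (0.58 * 1)) x := h3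
    convert h4 using 1
    unfold Sf1; ring
  have hS : HasDerivAt (fun t => -(Sf t / t)) (Sf x / x ^ 2 - Sf1 x / x) x := by
    have h3 : HasDerivAt (fun t => -(Sf t / t)) (-((Sf1 x * x - Sf x * 1) / x ^ 2)) x :=
      (hSf.div (hasDerivAt_id x) hxne).neg
    have h4 : -((Sf1 x * x - Sf x * 1) / x ^ 2) = Sf x / x ^ 2 - Sf1 x / x := by
      field_simp
      ring
    rwa [h4] at h3
  set t' : ℝ := e' * (-(Sf x / x)) + er l x y * (Sf x / x ^ 2 - Sf1 x / x) with ht'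
  have hTd : HasDerivAt (fun t => tf l t (Y t)) t' x := by
    have h3 := hcur'.mul hS
    refine h3.congr_of_eventuallyEq (Filter.Eventually.of_forall fun t => ?_)
    simp only [tf, Pi.mul_apply]
    ring
  set t : ℝ := tf l x y with ht
  have ht1 : t = er l x y * (-(Sf x / x)) := by rw [ht]; unfold tf; ring
  -- the main derivative
  have hGc : HasDerivAt Gc (deriv Gc ⟨x, y⟩) (⟨x, y⟩ : ℂ) := by
    refine (hGd.differentiableAt ?_).hasDerivAt
    exact (isOpen_lt continuous_const Complex.continuous_im).mem_nhds hy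
  set ρ : ℝ := er l x y * (1 + p ^ 2) with hρ
  set e : ℂ := eps l Gc x y with he
  set R : ℝ := ‖e‖ with hR
  set j : ℂ := t / gg l x y with hj
  have hmain := cal_deriv l hl Y (fun t => tf l t (Y t)) x y p t t' rfl hder hy her rfl rfl hTd
    Gc Φ (deriv Gc ⟨x, y⟩) hGc (hΦ _ hy) ρ R e j rfl rfl rfl rfl
  refine ⟨_, ?_, hmain⟩
  set κ : ℝ := t' / ρ + 2 * j.re - ‖j‖ ^ 2 - 1 - cc l x y with hκ
  have hρ0 : 0 < ρ := by positivity
  have hR0 : 0 < R := norm_pos_iff.2 (Complex.exp_ne_zero _)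
  set a : ℝ := -(Gc ⟨x, y⟩).re / l with ha
  obtain ⟨hg1, hg2⟩ := hGr ⟨x, y⟩ hy
  have ha1 : 0 < a := by rw [ha]; exact div_pos (by linarith) hl
  have ha2 : a < Real.pi := by rw [ha, div_lt_iff₀ hl]; linarith
  set μ : ℝ := Real.sin a / Real.sin (alp x y) with hμ
  have hμ0 : 0 ≤ μ :=
    div_nonneg (Real.sin_pos_of_pos_of_lt_pi ha1 ha2).le (Real.sin_pos_of_pos_of_lt_pi ha0 ha0').le
  have hlast := last_term l x y p a (e + j * (R - e)) (deriv Gc ⟨x, y⟩) hl hy her rfl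
    (schwarz_pick_strip l hl Gc hGd hGr ⟨x, y⟩ hy)
  -- kappa
  have hgg : gg l x y = hh l x y * (⟨er l x y, er l x y * p⟩ : ℂ) := by
    unfold gg PP
    have : Kf l x y / y = er l x y * p := by rw [hp]; field_simp
    rw [this]
  have hkap := kappa_identity l x y p m c s hl hx.1 hy hm0 hc0 hN (er l x y) e' (-(Sf x / x))
    (Sf x / x ^ 2 - Sf1 x / x) t t' ρ (NN x y) (2 * x * y) (x ^ 2 - y ^ 2 - 1) rfl rfl rfl hee he'
    rfl rfl ht1 ht' rfl j (by rw [hj, hgg])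
  have hpy : p * y = Kf l x y / er l x y := by rw [hp]; field_simp
  have hw1 : -0.03 ≤ p * y := by rw [hpy, le_div_iff₀ her]; exact hwlo
  have hw2 : p * y ≤ 0.05 + 0.36 * x := by rw [hpy, div_le_iff₀ her]; exact hwhi
  have hnk : 0 < KapE l x y (p * y) c s := by
    have := num_kappa l (bet l) r y (p * y) c s h1 h2 hb1 hb2 hr hr2 (by rw [← hxr]; exact hx1.2)
      hy1 hy2 hw1 (by rw [← hxr]; exact hw2) (by rw [← hxr]; exact hT)
    rwa [← hxr] at this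
  have hκ1 : 0.7 * ‖j‖ ^ 2 ≤ κ := by
    have hpos : 0 < x ^ 2 * NN x y * c * (1 + p ^ 2) := by
      have := hx.1
      positivity
    have h5 : x ^ 2 * NN x y * c * (1 + p ^ 2) * (0.7 * ‖j‖ ^ 2) <
        x ^ 2 * NN x y * c * (1 + p ^ 2) * κ := by
      rw [hkap.1]
      have h6 := hkap.2
      norm_num at h6 ⊢
      linarith
    exact (lt_of_mul_lt_mul_left h5 hpos.le).le
  have hal := al_identity e j R (cc l x y) (t' / ρ) μ rfl hR0
  have hal2 := al_lower e j R κ μ rfl hR0 hμ0 hκ1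
  have hcceq := cc_eq l x y hl hy
  have hU := U_ineq l (alp x y) a h1 h2 ha0 ha0' ha1 ha2 (by rw [← hcceq]; exact hccl)
    (by rw [← hcceq]; exact hccu)
  rw [← hcceq, ← hμ] at hU
  have hRexp : R = Real.exp (l * (alp x y - a)) := norm_eps l hl Gc x y hy
  have hRinv : Real.exp (l * (a - alp x y)) = 1 / R := by
    rw [hRexp, one_div, ← Real.exp_neg]; congr 1; ring
  rw [hRinv] at hU
  have hU2 : 0 ≤ R * (cc l x y * (1 - 1 / R) + (1 - μ ^ 2) / 2 + 7 / 34 * (max 0 (1 - μ)) ^ 2) :=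
    mul_nonneg hR0.le hU
  have hU3 : R * (cc l x y * (1 - 1 / R) + (1 - μ ^ 2) / 2 + 7 / 34 * (max 0 (1 - μ)) ^ 2) =
      cc l x y * (R - 1) + R * (1 - μ ^ 2) / 2 + R * (7 / 34 * (max 0 (1 - μ)) ^ 2) := by
    field_simp
  have hfin : 0 ≤ cc l x y * (e.re - 1) + e.re + t' / ρ * (R - e.re) + (j * (R - e)).re
      - μ * ‖e + j * (R - e)‖ := by
    rw [hal]
    rw [hU3] at hU2
    have hk2 : (t' / ρ + 2 * j.re - ‖j‖ ^ 2 - 1 - cc l x y) * (R - e.re) = κ * (R - e.re) := rfl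
    rw [hk2]
    linarith
  have hprod := mul_nonneg hρ0.le hfin
  have hexp : ρ * (cc l x y * (e.re - 1) + e.re + t' / ρ * (R - e.re) + (j * (R - e)).re
      - μ * ‖e + j * (R - e)‖) =
      ρ * (cc l x y * (e.re - 1) + e.re + t' / ρ * (R - e.re) + (j * (R - e)).re)
      - ρ * (μ * ‖e + j * (R - e)‖) := by ring
  rw [hexp] at hprod
  linarith

/-- phase 2: the derivative is nonnegative, and positive if the real parts differ -/
theorem phase2 (l : ℝ) (h1 : (0.627834 : ℝ) < l) (h2 : l < (0.627835 : ℝ)) (Y : ℝ → ℝ)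
    (hY : IsPath l Y) (x : ℝ) (hx : x ∈ Ico (1.12:ℝ) (bet l)) (Gc Φ : ℂ → ℂ)
    (hGd : DifferentiableOn ℂ Gc {z | 0 < z.im})
    (hGr : ∀ z : ℂ, 0 < z.im → -(l * Real.pi) < (Gc z).re ∧ (Gc z).re < 0)
    (hΦ : ∀ z : ℂ, 0 < z.im → HasDerivAt Φ (Complex.exp (Gc z)) z) :
    ∃ d : ℝ, 0 ≤ d ∧ ((Gc (⟨x, Y x⟩ : ℂ)).re ≠ -(l * alp x (Y x)) → 0 < d) ∧
      HasDerivAt (fun x => Vf l Gc x (Y x) 0 + (Φ (⟨x, Y x⟩ : ℂ)).re) d x := by
  have hl : 0 < l := by linarith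
  obtain ⟨hb1, hb2⟩ := bet_bounds l h1 h2
  have hxpos : 0 < x := by
    have := hx.1
    norm_num at this
    linarith
  have hx0 : x ∈ Ico (0:ℝ) (bet l) := ⟨hxpos.le, hx.2⟩
  obtain ⟨r, hr, hr1, hr2, hy1, hy2⟩ := path_point l Y hY x hx0
  have hxr : x = bet l - r ^ 2 := by linarith
  set y := Y x with hydef
  have hy : 0 < y := hY.pos x hx0
  have her : 0 < er l x y := hY.erpos x hx0
  have hder : HasDerivAt Y (-(Kf l x y / (y * er l x y))) x := hY.der x ⟨hxpos, hx.2⟩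
  set p : ℝ := Kf l x y / (y * er l x y) with hp
  obtain ⟨-, -, -, hO, hcc1, hcc2⟩ := num_simple l (bet l) r y h1 h2 hb1 hb2 hr hr2 hy1 hy2
  rw [← hxr] at hO hcc1 hcc2
  have hccl := hcc2 hx.1
  obtain ⟨ha0, ha0', hN, hsin0, hcos0⟩ := alp_facts x y hy
  have hGc : HasDerivAt Gc (deriv Gc ⟨x, y⟩) (⟨x, y⟩ : ℂ) := by
    refine (hGd.differentiableAt ?_).hasDerivAt
    exact (isOpen_lt continuous_const Complex.continuous_im).mem_nhds hy
  set ρ : ℝ := er l x y * (1 + p ^ 2) with hρ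
  set e : ℂ := eps l Gc x y with he
  set R : ℝ := ‖e‖ with hR
  have hmain := cal_deriv l hl Y (fun _ => 0) x y p 0 0 rfl hder hy her rfl rfl
    (hasDerivAt_const x (0:ℝ)) Gc Φ (deriv Gc ⟨x, y⟩) hGc (hΦ _ hy) ρ R e 0 rfl rfl rfl (by simp)
  have hρ0 : 0 < ρ := by positivity
  have hR0 : 0 < R := norm_pos_iff.2 (Complex.exp_ne_zero _)
  set a : ℝ := -(Gc ⟨x, y⟩).re / l with ha
  obtain ⟨hg1, hg2⟩ := hGr ⟨x, y⟩ hy
  have ha1 : 0 < a := by rw [ha]; exact div_pos (by linarith) hl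
  have ha2 : a < Real.pi := by rw [ha, div_lt_iff₀ hl]; linarith
  set μ : ℝ := Real.sin a / Real.sin (alp x y) with hμ
  have hlast := last_term l x y p a (e + 0 * (R - e)) (deriv Gc ⟨x, y⟩) hl hy her rfl
    (schwarz_pick_strip l hl Gc hGd hGr ⟨x, y⟩ hy)
  have hcceq := cc_eq l x y hl hy
  have hRexp : R = Real.exp (l * (alp x y - a)) := norm_eps l hl Gc x y hy
  have hRinv : Real.exp (l * (a - alp x y)) = 1 / R := by
    rw [hRexp, one_div, ← Real.exp_neg]; congr 1; ring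
  have hq : ‖e + 0 * ((R:ℂ) - e)‖ = R := by rw [zero_mul, add_zero]
  have heR : e.re ≤ R := Complex.re_le_norm e
  -- lower bound
  have hlow : ρ * (cc l x y * (R - 1) + R * (1 - μ)) ≤
      ρ * (cc l x y * (e.re - 1) + e.re + 0 / ρ * (R - e.re) + ((0:ℂ) * (R - e)).re)
        + (gg l x y * (e + 0 * (R - e)) * deriv Gc ⟨x, y⟩ * (1 - p * I)).re := by
    rw [hq] at hlast
    have h3 : cc l x y * (R - 1) + R * (1 - μ) ≤
        cc l x y * (e.re - 1) + e.re + 0 / ρ * (R - e.re) + ((0:ℂ) * (R - e)).re - μ * R := by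
      simp only [zero_div, zero_mul, Complex.zero_re, add_zero]
      nlinarith
    have h4 := mul_le_mul_of_nonneg_left h3 hρ0.le
    linarith
  have hpos : a ≠ alp x y → 0 < ρ * (cc l x y * (R - 1) + R * (1 - μ)) := by
    intro hne
    have hP := P2_ineq l (alp x y) a (by linarith) (by linarith) ha0 ha0' ha1 ha2 hne
      (by rw [← hcceq]; exact hccl)
    rw [← hcceq, ← hμ, hRinv] at hP
    have h5 : cc l x y * (R - 1) + R * (1 - μ) = R * (cc l x y * (1 - 1 / R) + (1 - μ)) := by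
      field_simp
    rw [h5]
    positivity
  refine ⟨_, ?_, ?_, hmain⟩
  · refine le_trans ?_ hlow
    by_cases hne : a = alp x y
    · have hR1 : R = 1 := by rw [hRexp, hne]; simp
      have hμ1 : μ = 1 := by
        rw [hμ, hne]
        exact div_self (Real.sin_pos_of_pos_of_lt_pi ha0 ha0').ne'
      rw [hR1, hμ1]; simp
    · exact (hpos hne).le
  · intro hne
    refine lt_of_lt_of_le (hpos ?_) hlow
    intro h
    apply hne
    rw [← h, ha]
    field_simp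

end Pool.Agent.JohnC
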