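import Pool.Agent.Lib_MP_1fe18a_an.Basics
import Pool.Agent.Lib_MP_1fe18a_an.Curve
import Pool.Agent.Lib_MP_1fe18a_an.BetB
import Pool.Agent.Lib_MP_1fe18a_an.Path
import Pool.Agent.Lib_MP_1fe18a_an.Phase
import Pool.Agent.Lib_MP_1fe18a_an.LimS
import Pool.Agent.Lib_MP_1fe18a_an.LimE

/-! John constant, piece L3: the half theorem. -/

set_option autoImplicit false

open Complex Set Filter Topology MeasureTheory

namespace Pool.Agent.JohnC

namespace Half

theorem continuousAt_mk (Y : ℝ → ℝ) (x : ℝ) (hY : ContinuousAt Y x) :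
    ContinuousAt (fun t : ℝ => (⟨t, Y t⟩ : ℂ)) x := by
  have : (fun t : ℝ => (⟨t, Y t⟩ : ℂ)) = fun t => Complex.equivRealProdCLM.symm (t, Y t) := by
    funext t
    rfl
  rw [this]
  exact (Complex.equivRealProdCLM.symm.continuous.continuousAt).comp
    (continuousAt_id.prodMk hY)

theorem tendsto_mk (Y : ℝ → ℝ) (f : Filter ℝ) (x y : ℝ) (hx : Tendsto (fun t => t) f (𝓝 x))
    (hY : Tendsto Y f (𝓝 y)) : Tendsto (fun t : ℝ => (⟨t, Y t⟩ : ℂ)) f (𝓝 ⟨x, y⟩) := by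
  have : (fun t : ℝ => (⟨t, Y t⟩ : ℂ)) = fun t => Complex.equivRealProdCLM.symm (t, Y t) := by
    funext t
    rfl
  rw [this]
  exact ((Complex.equivRealProdCLM.symm.continuous.tendsto (x, y)).comp
    (hx.prodMk_nhds hY))

theorem monotoneOn_of_exists_deriv (U : ℝ → ℝ) (s : Set ℝ) (hs : Convex ℝ s)
    (h : ∀ x ∈ s, ∃ d : ℝ, 0 ≤ d ∧ HasDerivAt U d x) : MonotoneOn U s := by
  refine monotoneOn_of_deriv_nonneg hs ?_ ?_ ?_
  · intro x hx
    obtain ⟨d, -, hd⟩ := h x hx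
    exact hd.continuousAt.continuousWithinAt
  · intro x hx
    obtain ⟨d, -, hd⟩ := h x (interior_subset hx)
    exact hd.differentiableAt.differentiableWithinAt
  · intro x hx
    obtain ⟨d, hd0, hd⟩ := h x (interior_subset hx)
    rw [hd.deriv]
    exact hd0

theorem Vf_zero (l : ℝ) (Gc : ℂ → ℂ) (x y t : ℝ) :
    Vf l Gc x y t = Vf l Gc x y 0 + t * (‖eps l Gc x y‖ - (eps l Gc x y).re) := by
  unfold Vf
  ring

end Half

open Half in
/-- the half theorem -/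
theorem half_theorem (l : ℝ) (h1 : (0.627834 : ℝ) < l) (h2 : l < (0.627835 : ℝ)) (hB : Bnd l = 0) :
    ∃ Y0 : ℝ, 0 < Y0 ∧ ∀ (η ε : ℝ) (Gc Φ : ℂ → ℂ), 0 < η → 0 < ε →
      DifferentiableOn ℂ Gc {z | -η < z.im} →
      (∀ z : ℂ, -η < z.im → -(l * Real.pi) + ε ≤ (Gc z).re ∧ (Gc z).re ≤ -ε) →
      (∀ z : ℂ, -η < z.im → HasDerivAt Φ (Complex.exp (Gc z)) z) →
      (Gc (⟨0, Y0⟩ : ℂ)).im = 0 →
      0 < (Φ (bet l) - Φ (⟨0, Y0⟩ : ℂ)).re := by
  have hl : 0 < l := by linarith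
  obtain ⟨hb1, hb2⟩ := bet_bounds l h1 h2
  have hb3 : (1.12 : ℝ) < bet l := by linarith
  obtain ⟨Y, hY⟩ := path_exists l h1 h2 hB
  have h0mem : (0:ℝ) ∈ Ico (0:ℝ) (bet l) := ⟨le_rfl, by linarith⟩
  have hmmem : (1.12:ℝ) ∈ Ico (0:ℝ) (bet l) := ⟨by norm_num, hb3⟩
  refine ⟨Y 0, hY.pos 0 h0mem, ?_⟩
  intro η ε Gc Φ hη hε hGd hGr hΦ him
  have hGd' : DifferentiableOn ℂ Gc {z | 0 < z.im} :=
    hGd.mono fun z (hz : 0 < z.im) => show -η < z.im by linarith
  have hGr' : ∀ z : ℂ, 0 < z.im → -(l * Real.pi) < (Gc z).re ∧ (Gc z).re < 0 := by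
    intro z hz
    obtain ⟨q1, q2⟩ := hGr z (by linarith)
    exact ⟨by linarith, by linarith⟩
  have hΦ' : ∀ z : ℂ, 0 < z.im → HasDerivAt Φ (Complex.exp (Gc z)) z :=
    fun z hz => hΦ z (by linarith)
  have hopen : IsOpen {z : ℂ | -η < z.im} := isOpen_lt continuous_const Complex.continuous_im
  have hGcont : ∀ z : ℂ, -η < z.im → ContinuousAt Gc z := fun z hz =>
    (hGd.differentiableAt (hopen.mem_nhds hz)).continuousAt
  -- the two functions
  let U1 : ℝ → ℝ := fun x => Vf l Gc x (Y x) (tf l x (Y x)) + (Φ (⟨x, Y x⟩ : ℂ)).re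
  let U2 : ℝ → ℝ := fun x => Vf l Gc x (Y x) 0 + (Φ (⟨x, Y x⟩ : ℂ)).re
  have m1 : MonotoneOn U1 (Ioo (0:ℝ) 1.12) :=
    monotoneOn_of_exists_deriv U1 _ (convex_Ioo _ _) fun x hx =>
      phase1 l h1 h2 Y hY x hx Gc Φ hGd' hGr' hΦ'
  have m2 : MonotoneOn U2 (Ico (1.12:ℝ) (bet l)) :=
    monotoneOn_of_exists_deriv U2 _ (convex_Ico _ _) fun x hx => by
      obtain ⟨d, hd, -, hd'⟩ := phase2 l h1 h2 Y hY x hx Gc Φ hGd' hGr' hΦ'
      exact ⟨d, hd, hd'⟩
  -- the limit at `0`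
  have l0 : Tendsto U1 (𝓝[>] 0) (𝓝 (Φ (⟨0, Y 0⟩ : ℂ)).re) := by
    have hs := limit_start l h1 h2 hB Y hY Gc hGd' him
    have hY0 : Tendsto Y (𝓝[>] 0) (𝓝 (Y 0)) := by
      have := hY.cont 0 h0mem
      refine this.mono_left ?_
      refine nhdsWithin_le_iff.2 ?_
      filter_upwards [Ioo_mem_nhdsGT (show (0:ℝ) < bet l by linarith)] with x hx
      exact ⟨hx.1.le, hx.2⟩
    have hx0 : Tendsto (fun t : ℝ => t) (𝓝[>] 0) (𝓝 0) := tendsto_id.mono_left nhdsWithin_le_nhds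
    have hz := tendsto_mk Y _ _ _ hx0 hY0
    have hΦc : ContinuousAt Φ (⟨0, Y 0⟩ : ℂ) := (hΦ' _ (hY.pos 0 h0mem)).continuousAt
    have := (Complex.continuous_re.tendsto _).comp (hΦc.tendsto.comp hz)
    have h3 := hs.add this
    rw [zero_add] at h3
    exact h3
  -- the limit at `1.12`
  have hYm : ContinuousAt Y 1.12 :=
    hY.cont.continuousAt (Ico_mem_nhds (by norm_num) hb3)
  have l1 : Tendsto U1 (𝓝[<] 1.12) (𝓝 (U2 1.12)) := by
    have hU2 : ContinuousAt U2 1.12 := by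
      obtain ⟨d, hd, -, hd'⟩ := phase2 l h1 h2 Y hY 1.12 ⟨le_rfl, hb3⟩ Gc Φ hGd' hGr' hΦ'
      exact hd'.continuousAt
    have hpos : 0 < Y 1.12 := hY.pos _ hmmem
    have hzc := continuousAt_mk Y 1.12 hYm
    have hg0 : ContinuousAt (g0 l) (⟨1.12, Y 1.12⟩ : ℂ) :=
      (g0_deriv l _ (Or.inl hpos)).continuousAt
    have hGc : ContinuousAt Gc (⟨1.12, Y 1.12⟩ : ℂ) := hGcont _ (by
      show -η < Y 1.12
      linarith)
    have heps : ContinuousAt (fun x => eps l Gc x (Y x)) 1.12 := by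
      have e1 : ContinuousAt (fun x : ℝ => Gc ⟨x, Y x⟩) 1.12 :=
        ContinuousAt.comp (f := fun t : ℝ => (⟨t, Y t⟩ : ℂ)) (g := Gc) hGc hzc
      have e2 : ContinuousAt (fun x : ℝ => g0 l ⟨x, Y x⟩) 1.12 :=
        ContinuousAt.comp (f := fun t : ℝ => (⟨t, Y t⟩ : ℂ)) (g := g0 l) hg0 hzc
      exact (e1.sub e2).cexp
    have her : ContinuousAt (fun x => er l x (Y x)) 1.12 := by
      have hdY := hY.der 1.12 ⟨by norm_num, hb3⟩
      exact (curve_deriv l hl id Y 1.12 (Y 1.12) 1 _ 1.12 (hasDerivAt_id _) hdY rfl rfl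
        hpos).2.1.continuousAt
    have hSf : Continuous Sf := by unfold Sf; fun_prop
    have htf : ContinuousAt (fun x => tf l x (Y x)) 1.12 := by
      unfold tf
      exact (her.mul ((hSf.continuousAt).div continuousAt_id (by norm_num))).neg
    have hprod : ContinuousAt (fun x => tf l x (Y x) *
        (‖eps l Gc x (Y x)‖ - (eps l Gc x (Y x)).re)) 1.12 :=
      htf.mul (heps.norm.sub (Complex.continuous_re.continuousAt.comp heps))
    have htf0 : tf l 1.12 (Y 1.12) = 0 := by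
      have : Sf 1.12 = 0 := by norm_num [Sf]
      simp [tf, this]
    have hsum : ContinuousAt (fun x => U2 x + tf l x (Y x) *
        (‖eps l Gc x (Y x)‖ - (eps l Gc x (Y x)).re)) 1.12 := hU2.add hprod
    have hval : U2 1.12 + tf l 1.12 (Y 1.12) *
        (‖eps l Gc 1.12 (Y 1.12)‖ - (eps l Gc 1.12 (Y 1.12)).re) = U2 1.12 := by
      rw [htf0, zero_mul, add_zero]
    have ht := hsum.tendsto
    rw [hval] at ht
    refine (ht.mono_left nhdsWithin_le_nhds).congr fun x => ?_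
    show Vf l Gc x (Y x) 0 + (Φ (⟨x, Y x⟩ : ℂ)).re + _ = Vf l Gc x (Y x) _ + _
    rw [Vf_zero l Gc x (Y x) (tf l x (Y x))]
    ring
  -- the limit at `bet l`
  obtain ⟨le1, le2, le3⟩ := limit_end l h1 h2 Y hY Gc (hGcont _ (by
    rw [Complex.ofReal_im]
    linarith))
  have l2 : Tendsto U2 (𝓝[<] (bet l)) (𝓝 (Φ (bet l)).re) := by
    have hx0 : Tendsto (fun t : ℝ => t) (𝓝[<] (bet l)) (𝓝 (bet l)) :=
      tendsto_id.mono_left nhdsWithin_le_nhds
    have hz := tendsto_mk Y _ _ _ hx0 le2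
    have hbz : (⟨bet l, 0⟩ : ℂ) = (bet l : ℂ) := rfl
    have hΦc : ContinuousAt Φ (bet l : ℂ) := (hΦ _ (by
      rw [Complex.ofReal_im]
      linarith)).continuousAt
    rw [hbz] at hz
    have := (Complex.continuous_re.tendsto _).comp (hΦc.tendsto.comp hz)
    have h3 := le1.add this
    rw [zero_add] at h3
    exact h3
  -- first part
  have a1 : (Φ (⟨0, Y 0⟩ : ℂ)).re ≤ U1 1 := by
    refine le_of_tendsto l0 ?_
    filter_upwards [Ioo_mem_nhdsGT (show (0:ℝ) < 1 by norm_num)] with x hx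
    exact m1 ⟨hx.1, by linarith [hx.2]⟩ ⟨by norm_num, by norm_num⟩ hx.2.le
  have a2 : U1 1 ≤ U2 1.12 := by
    refine ge_of_tendsto l1 ?_
    filter_upwards [Ioo_mem_nhdsLT (show (1:ℝ) < 1.12 by norm_num)] with x hx
    exact m1 ⟨by norm_num, by norm_num⟩ ⟨by linarith [hx.1], hx.2⟩ hx.1.le
  -- second part
  have hev : ∀ᶠ x in 𝓝[<] (bet l), alp x (Y x) < ε / l := by
    exact le3.eventually (Iio_mem_nhds (by positivity))
  obtain ⟨x0, hx0, hx0'⟩ := (mem_nhdsLT_iff_exists_Ioo_subset).1 hev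
  set x1 : ℝ := (max x0 1.12 + bet l) / 2 with hx1
  set x2 : ℝ := (x1 + bet l) / 2 with hx2
  have hmax : max x0 1.12 < bet l := max_lt hx0 hb3
  have hx1a : max x0 1.12 < x1 := by rw [hx1]; linarith
  have hx1b : x1 < bet l := by rw [hx1]; linarith
  have hx12 : x1 < x2 := by rw [hx2]; linarith
  have hx2b : x2 < bet l := by rw [hx2]; linarith
  have hx1c : 1.12 < x1 := lt_of_le_of_lt (le_max_right _ _) hx1a
  have hx1d : x0 < x1 := lt_of_le_of_lt (le_max_left _ _) hx1a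
  have hstrict : U2 x1 < U2 x2 := by
    have hsm : StrictMonoOn U2 (Icc x1 x2) := by
      refine strictMonoOn_of_deriv_pos (convex_Icc _ _) ?_ ?_
      · intro x hx
        obtain ⟨d, hd, -, hd'⟩ := phase2 l h1 h2 Y hY x ⟨by linarith [hx.1], by linarith [hx.2]⟩
          Gc Φ hGd' hGr' hΦ'
        exact hd'.continuousAt.continuousWithinAt
      · intro x hx
        rw [interior_Icc] at hx
        obtain ⟨d, hd, hd0, hd'⟩ := phase2 l h1 h2 Y hY x ⟨by linarith [hx.1], by linarith [hx.2]⟩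
          Gc Φ hGd' hGr' hΦ'
        rw [hd'.deriv]
        refine hd0 ?_
        have halp : alp x (Y x) < ε / l := hx0' ⟨by linarith [hx.1], by linarith [hx.2]⟩
        have hle := (hGr (⟨x, Y x⟩ : ℂ) (by
          have := hY.pos x ⟨by linarith [hx.1], by linarith [hx.2]⟩
          show -η < Y x
          linarith)).2
        have : l * alp x (Y x) < ε := by
          rw [lt_div_iff₀ hl] at halp
          linarith
        intro heq
        linarith
    exact hsm (left_mem_Icc.2 hx12.le) (right_mem_Icc.2 hx12.le) hx12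
  have a3 : U2 1.12 ≤ U2 x1 := m2 ⟨le_rfl, hb3⟩ ⟨hx1c.le, hx1b⟩ hx1c.le
  have a4 : U2 x2 ≤ (Φ (bet l)).re := by
    refine ge_of_tendsto l2 ?_
    filter_upwards [Ioo_mem_nhdsLT hx2b] with x hx
    exact m2 ⟨by linarith, hx2b⟩ ⟨by linarith [hx.1], hx.2⟩ hx.1.le
  rw [Complex.sub_re]
  linarith

end Pool.Agent.JohnC
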