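import Pool.Agent.Lib_MP_1fe18a_an.Defs

/-! Piece D1: the beta integral. -/

set_option autoImplicit false

open Complex Set Filter Topology MeasureTheory

namespace Pool.Agent.JohnC

theorem betaf_measurable (l : ℝ) :
    Measurable (fun x : ℝ => Real.cos (l * Real.log ((1 - x) / (1 + x)))) := by
  have h1 : Measurable (fun x : ℝ => (1 - x) / (1 + x)) :=
    (measurable_const.sub measurable_id).div (measurable_const.add measurable_id)
  exact Real.measurable_cos.comp ((Real.measurable_log.comp h1).const_mul l)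

theorem betaf_integrable (l a b : ℝ) :
    IntervalIntegrable (fun x : ℝ => Real.cos (l * Real.log ((1 - x) / (1 + x)))) volume a b := by
  refine (intervalIntegrable_const (c := (1 : ℝ))).mono_fun
    (betaf_measurable l).aestronglyMeasurable ?_
  refine Filter.Eventually.of_forall fun x => ?_
  simp only [norm_one, Real.norm_eq_abs]
  exact Real.abs_cos_le_one _

theorem beta_value (l : ℝ) (hl : 0 < l) :
    Complex.betaIntegral (1 + l * I) (1 - l * I) =
      ((Real.pi * l / Real.sinh (Real.pi * l) : ℝ) : ℂ) := by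
  have hs : 0 < (1 + l * I : ℂ).re := by simp
  have ht : 0 < (1 - l * I : ℂ).re := by simp
  have h1 := Complex.Gamma_mul_Gamma_eq_betaIntegral hs ht
  have h2 : (1 + l * I : ℂ) + (1 - l * I) = ((1 : ℕ) : ℂ) + 1 := by push_cast; ring
  rw [h2, Complex.Gamma_nat_eq_factorial] at h1
  simp only [Nat.factorial_one, Nat.cast_one, one_mul] at h1
  rw [← h1]
  have hne : (l * I : ℂ) ≠ 0 := by
    refine mul_ne_zero ?_ I_ne_zero
    exact_mod_cast hl.ne'
  have h3 : Complex.Gamma (1 + l * I) = (l * I) * Complex.Gamma (l * I) := by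
    rw [add_comm]; exact Complex.Gamma_add_one _ hne
  rw [h3, mul_assoc, Complex.Gamma_mul_Gamma_one_sub]
  have h4 : Complex.sin (Real.pi * (l * I)) = Complex.sinh (Real.pi * l) * I := by
    rw [← mul_assoc, Complex.sin_mul_I]
  rw [h4]
  have h5 : Complex.sinh (Real.pi * l) ≠ 0 := by
    have : Complex.sinh (Real.pi * l) = ((Real.sinh (Real.pi * l) : ℝ) : ℂ) := by push_cast; rfl
    rw [this]
    have h6 : 0 < Real.sinh (Real.pi * l) := Real.sinh_pos_iff.2 (by positivity)
    exact_mod_cast h6.ne'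
  push_cast
  field_simp

theorem beta_re (l : ℝ) :
    (Complex.betaIntegral (1 + l * I) (1 - l * I)).re =
      ∫ u in (0 : ℝ)..1, Real.cos (l * Real.log (u / (1 - u))) := by
  have hs : 0 < (1 + l * I : ℂ).re := by simp
  have ht : 0 < (1 - l * I : ℂ).re := by simp
  have hint := Complex.betaIntegral_convergent hs ht
  have h4 := Complex.reCLM.intervalIntegral_comp_comm hint
  simp only [Complex.reCLM_apply] at h4
  rw [Complex.betaIntegral, ← h4]
  refine intervalIntegral.integral_congr_ae ?_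
  have hone : ∀ᵐ x : ℝ, x ≠ 1 := by
    rw [ae_iff]
    simp
  filter_upwards [hone] with x hx1 hx
  rw [uIoc_of_le zero_le_one] at hx
  have hx0 : 0 < x := hx.1
  have hxl : x < 1 := lt_of_le_of_ne hx.2 hx1
  have hx1' : 0 < 1 - x := by linarith
  have e1 : (1 + l * I : ℂ) - 1 = l * I := by ring
  have e2 : (1 - l * I : ℂ) - 1 = -(l * I) := by ring
  have e3 : (1 : ℂ) - (x : ℂ) = ((1 - x : ℝ) : ℂ) := by push_cast; ring
  rw [e1, e2, e3, Complex.cpow_def_of_ne_zero (by exact_mod_cast hx0.ne'),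
    Complex.cpow_def_of_ne_zero (by exact_mod_cast hx1'.ne'), ← Complex.ofReal_log hx0.le,
    ← Complex.ofReal_log hx1'.le, ← Complex.exp_add]
  have e4 : ((Real.log x : ℝ) : ℂ) * (l * I) + ((Real.log (1 - x) : ℝ) : ℂ) * -(l * I) =
      ((l * Real.log (x / (1 - x)) : ℝ) : ℂ) * I := by
    rw [Real.log_div hx0.ne' hx1'.ne']
    push_cast; ring
  rw [e4, Complex.exp_ofReal_mul_I_re]

theorem int_beta (l : ℝ) (hl : 0 < l) :
    (∫ x in (0:ℝ)..1, Real.cos (l * Real.log ((1 - x) / (1 + x)))) =
      Real.pi * l / Real.sinh (Real.pi * l) := by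
  set f : ℝ → ℝ := fun x => Real.cos (l * Real.log ((1 - x) / (1 + x))) with hf
  set h : ℝ → ℝ := fun u => Real.cos (l * Real.log (u / (1 - u))) with hh
  have h1 : ∫ u in (0 : ℝ)..1, h u = Real.pi * l / Real.sinh (Real.pi * l) := by
    rw [← beta_re l, beta_value l hl, Complex.ofReal_re]
  have h2 : ∫ x in (-1 : ℝ)..1, f x = 2 * ∫ u in (0 : ℝ)..1, h u := by
    have h3 := intervalIntegral.integral_comp_sub_mul (a := -1) (b := 1) h
      (c := 1 / 2) (by norm_num) (1 / 2)
    have e1 : (1 / 2 : ℝ) - 1 / 2 * 1 = 0 := by norm_num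
    have e2 : (1 / 2 : ℝ) - 1 / 2 * (-1) = 1 := by norm_num
    rw [e1, e2] at h3
    have e3 : ∀ x : ℝ, h (1 / 2 - 1 / 2 * x) = f x := by
      intro x
      simp only [hh, hf]
      congr 3
      have a1 : (1 / 2 : ℝ) - 1 / 2 * x = (1 - x) * (1 / 2) := by ring
      have a2 : 1 - ((1 - x) * (1 / 2)) = (1 + x) * (1 / 2) := by ring
      rw [a1, a2, mul_div_mul_right _ _ (by norm_num)]
    simp only [e3] at h3
    rw [h3]
    norm_num
  have h3 : ∫ x in (-1 : ℝ)..1, f x = 2 * ∫ x in (0 : ℝ)..1, f x := by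
    rw [← intervalIntegral.integral_add_adjacent_intervals (betaf_integrable l (-1) 0)
      (betaf_integrable l 0 1)]
    have h4 : ∫ x in (-1 : ℝ)..0, f x = ∫ x in (0 : ℝ)..1, f x := by
      have h5 := intervalIntegral.integral_comp_neg (a := 0) (b := 1) f
      rw [neg_zero] at h5
      rw [← h5]
      refine intervalIntegral.integral_congr fun x _ => ?_
      simp only [hf]
      have e1 : (1 - -x) / (1 + -x) = ((1 - x) / (1 + x))⁻¹ := by
        rw [inv_div]; congr 1 <;> ring
      rw [e1, Real.log_inv, mul_neg, Real.cos_neg]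
    rw [h4]; ring
  linarith

end Pool.Agent.JohnC
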