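import Pool.Agent.Lib_MP_1fe18a_an.Defs

/-! John constant (MP_1fe18a_an), piece D2: the series for the boundary integral on `[1, beta]`. -/

set_option autoImplicit false

open Complex Set Filter Topology MeasureTheory

namespace Pool.Agent.JohnC

/-- `q = exp (-(pi / (2 l)))` and `bet l = (1 + q) / (1 - q)`. -/
theorem intSer_bet (l : ℝ) (hl : 0 < l) :
    bet l = (1 + Real.exp (-(Real.pi / (2 * l)))) / (1 - Real.exp (-(Real.pi / (2 * l)))) := by
  have hpos : 0 < Real.pi / (4 * l) := by positivity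
  have h1 : Real.exp (-(Real.pi / (2 * l))) = Real.exp (-(Real.pi / (4 * l))) ^ 2 := by
    rw [← Real.exp_nat_mul]
    congr 1
    push_cast
    field_simp
    ring
  have h2 : Real.exp (-(Real.pi / (4 * l))) < 1 := by
    rw [Real.exp_lt_one_iff]
    linarith
  have h0 : 0 < Real.exp (-(Real.pi / (4 * l))) := Real.exp_pos _
  unfold bet
  rw [Real.cosh_eq, Real.sinh_eq, h1]
  have h3 : Real.exp (Real.pi / (4 * l)) = (Real.exp (-(Real.pi / (4 * l))))⁻¹ := by
    rw [← Real.exp_neg, neg_neg]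
  rw [h3]
  set E := Real.exp (-(Real.pi / (4 * l)))
  have h4 : 1 - E ^ 2 ≠ 0 := by nlinarith
  have h5 : E⁻¹ - E ≠ 0 := by
    intro h
    apply h4
    field_simp at h
    linarith
  field_simp

/-- The `k`-th term. -/
noncomputable def fk (l : ℝ) (k : ℕ) (x : ℝ) : ℝ :=
  ((k : ℝ) + 1) * ((x - 1) / (x + 1)) ^ k * (4 / (x + 1) ^ 2) *
    Real.cos (l * Real.log ((x - 1) / (x + 1)))

/-- A primitive of the `k`-th term. -/
noncomputable def pk (l : ℝ) (k : ℕ) (x : ℝ) : ℝ :=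
  2 * ((k : ℝ) + 1) / (((k : ℝ) + 1) ^ 2 + l ^ 2) * ((x - 1) / (x + 1)) ^ (k + 1) *
    (((k : ℝ) + 1) * Real.cos (l * Real.log ((x - 1) / (x + 1))) +
      l * Real.sin (l * Real.log ((x - 1) / (x + 1))))

theorem pk_deriv (l : ℝ) (k : ℕ) (x : ℝ) (hx : 1 < x) :
    HasDerivAt (pk l k) (fk l k x) x := by
  have hx1 : x + 1 ≠ 0 := by linarith
  have hx2 : x - 1 ≠ 0 := by linarith
  have hu : HasDerivAt (fun x : ℝ => (x - 1) / (x + 1)) (2 / (x + 1) ^ 2) x := by
    have h := ((hasDerivAt_id' x).sub_const 1).div ((hasDerivAt_id' x).add_const 1) hx1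
    refine h.congr_deriv ?_
    ring
  have hupos : (x - 1) / (x + 1) ≠ 0 := div_ne_zero hx2 hx1
  have hlog := (hu.log hupos).const_mul l
  have hcos := hlog.cos
  have hsin := hlog.sin
  have hpow : HasDerivAt (fun x : ℝ => ((x - 1) / (x + 1)) ^ (k + 1))
      (((k + 1 : ℕ) : ℝ) * ((x - 1) / (x + 1)) ^ k * (2 / (x + 1) ^ 2)) x := hu.pow (k + 1)
  have h := ((hpow.const_mul (2 * ((k : ℝ) + 1) / (((k : ℝ) + 1) ^ 2 + l ^ 2))).mul
    ((hcos.const_mul ((k : ℝ) + 1)).add (hsin.const_mul l)))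
  have hd : ((k : ℝ) + 1) ^ 2 + l ^ 2 ≠ 0 := by positivity
  unfold fk
  refine h.congr_deriv ?_
  simp only [Pi.add_apply]
  set u := (x - 1) / (x + 1) with hudef
  push_cast
  set c := Real.cos (l * Real.log u)
  set s := Real.sin (l * Real.log u)
  have hup : u ^ (k + 1) = u ^ k * u := pow_succ u k
  rw [hup]
  field_simp
  ring

theorem u_mem (q x : ℝ) (hq : 0 < q) (hq1 : q < 1) (hx : x ∈ Icc (1:ℝ) ((1 + q) / (1 - q))) :
    0 ≤ (x - 1) / (x + 1) ∧ (x - 1) / (x + 1) ≤ q := by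
  obtain ⟨h1, h2⟩ := hx
  have hx1 : 0 < x + 1 := by linarith
  refine ⟨div_nonneg (by linarith) hx1.le, ?_⟩
  rw [div_le_iff₀ hx1]
  rw [le_div_iff₀ (by linarith)] at h2
  linarith

theorem fk_bound (l q : ℝ) (k : ℕ) (x : ℝ) (hq : 0 < q) (hq1 : q < 1)
    (hx : x ∈ Icc (1:ℝ) ((1 + q) / (1 - q))) :
    ‖fk l k x‖ ≤ ((k : ℝ) + 1) * q ^ k := by
  obtain ⟨h1, h2⟩ := u_mem q x hq hq1 hx
  have hx1 : 2 ≤ x + 1 := by linarith [hx.1]
  unfold fk
  rw [norm_mul, norm_mul, norm_mul, norm_pow, Real.norm_eq_abs, Real.norm_eq_abs, Real.norm_eq_abs,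
    Real.norm_eq_abs, abs_of_nonneg h1, abs_of_nonneg (by positivity : (0:ℝ) ≤ (k:ℝ) + 1),
    abs_of_nonneg (by positivity : (0:ℝ) ≤ 4 / (x + 1) ^ 2)]
  have h3 : 4 / (x + 1) ^ 2 ≤ 1 := by
    rw [div_le_one (by positivity)]
    nlinarith
  have h4 := Real.abs_cos_le_one (l * Real.log ((x - 1) / (x + 1)))
  have h5 : ((x - 1) / (x + 1)) ^ k ≤ q ^ k := pow_le_pow_left₀ h1 h2 k
  have h6 : 0 ≤ 4 / (x + 1) ^ 2 := by positivity
  calc ((k:ℝ) + 1) * ((x - 1) / (x + 1)) ^ k * (4 / (x + 1) ^ 2) *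
        |Real.cos (l * Real.log ((x - 1) / (x + 1)))|
      ≤ ((k:ℝ) + 1) * q ^ k * 1 * 1 := by gcongr
    _ = ((k:ℝ) + 1) * q ^ k := by ring

theorem fk_meas (l : ℝ) (k : ℕ) : Measurable (fk l k) := by
  unfold fk
  fun_prop

theorem fk_int (l q : ℝ) (k : ℕ) (hq : 0 < q) (hq1 : q < 1) :
    IntervalIntegrable (fk l k) volume 1 ((1 + q) / (1 - q)) := by
  have hb : (1:ℝ) ≤ (1 + q) / (1 - q) := by
    rw [le_div_iff₀ (by linarith)]
    linarith
  rw [intervalIntegrable_iff_integrableOn_Icc_of_le hb]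
  refine Measure.integrableOn_of_bounded (M := ((k : ℝ) + 1) * q ^ k) ?_
    (fk_meas l k).aestronglyMeasurable ?_
  · simp
  · exact (ae_restrict_iff' measurableSet_Icc).2
      (Filter.Eventually.of_forall fun x hx => fk_bound l q k x hq hq1 hx)

theorem pk_cont (l q : ℝ) (k : ℕ) (hq : 0 < q) (hq1 : q < 1) :
    ContinuousOn (pk l k) (Icc 1 ((1 + q) / (1 - q))) := by
  intro x hx
  rcases eq_or_lt_of_le hx.1 with h1 | h1
  · subst h1
    -- continuity at the left end point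
    apply ContinuousAt.continuousWithinAt
    unfold ContinuousAt
    have h0 : pk l k 1 = 0 := by
      unfold pk
      simp
    rw [h0]
    have hu : Tendsto (fun x : ℝ => ((x - 1) / (x + 1)) ^ (k + 1)) (𝓝 1) (𝓝 0) := by
      have hc : ContinuousAt (fun x : ℝ => ((x - 1) / (x + 1)) ^ (k + 1)) 1 := by
        apply ContinuousAt.pow
        apply ContinuousAt.div
        · fun_prop
        · fun_prop
        · norm_num
      have := hc.tendsto
      simpa using this
    have hu2 : Tendsto (fun x : ℝ => 2 * ((k : ℝ) + 1) / (((k : ℝ) + 1) ^ 2 + l ^ 2) *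
        ((x - 1) / (x + 1)) ^ (k + 1)) (𝓝 1) (𝓝 0) := by
      simpa using hu.const_mul (2 * ((k : ℝ) + 1) / (((k : ℝ) + 1) ^ 2 + l ^ 2))
    unfold pk
    refine hu2.zero_mul_isBoundedUnder_le ?_
    refine ⟨((k : ℝ) + 1) + |l|, ?_⟩
    rw [Filter.eventually_map]
    refine Filter.Eventually.of_forall fun y => ?_
    simp only [Function.comp]
    refine (norm_add_le _ _).trans ?_
    rw [norm_mul, norm_mul]
    have h4 := Real.abs_cos_le_one (l * Real.log ((y - 1) / (y + 1)))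
    have h5 := Real.abs_sin_le_one (l * Real.log ((y - 1) / (y + 1)))
    simp only [Real.norm_eq_abs]
    rw [abs_of_nonneg (by positivity : (0:ℝ) ≤ (k:ℝ) + 1)]
    have h6 : 0 ≤ |l| := abs_nonneg _
    have h7 : (0:ℝ) ≤ (k:ℝ) + 1 := by positivity
    nlinarith
  · exact (pk_deriv l k x h1).continuousAt.continuousWithinAt

theorem fk_integral (l : ℝ) (k : ℕ) (hl : 0 < l) :
    (∫ x in (1:ℝ)..(bet l), fk l k x) = -(2 * l * (((k : ℝ) + 1) / (((k : ℝ) + 1) ^ 2 + l ^ 2) *
      Real.exp (-(((k : ℝ) + 1) * Real.pi) / (2 * l)))) := by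
  set q := Real.exp (-(Real.pi / (2 * l))) with hqdef
  have hq : 0 < q := Real.exp_pos _
  have hq1 : q < 1 := by
    rw [hqdef, Real.exp_lt_one_iff]
    have : 0 < Real.pi / (2 * l) := by positivity
    linarith
  have hbet : bet l = (1 + q) / (1 - q) := intSer_bet l hl
  have hb : (1:ℝ) ≤ (1 + q) / (1 - q) := by
    rw [le_div_iff₀ (by linarith)]
    linarith
  rw [hbet, intervalIntegral.integral_eq_sub_of_hasDerivAt_of_le hb (pk_cont l q k hq hq1)
    (fun x hx => pk_deriv l k x hx.1) (fk_int l q k hq hq1)]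
  have h0 : pk l k 1 = 0 := by
    unfold pk
    simp
  have hu : ((1 + q) / (1 - q) - 1) / ((1 + q) / (1 - q) + 1) = q := by
    have : 1 - q ≠ 0 := by linarith
    field_simp
    ring
  have hlog : l * Real.log q = -(Real.pi / 2) := by
    rw [hqdef, Real.log_exp]
    field_simp
  rw [h0]
  unfold pk
  rw [hu, hlog, Real.cos_neg, Real.sin_neg, Real.cos_pi_div_two, Real.sin_pi_div_two]
  have hexp : Real.exp (-(((k : ℝ) + 1) * Real.pi) / (2 * l)) = q ^ (k + 1) := by
    rw [hqdef, ← Real.exp_nat_mul]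
    congr 1
    push_cast
    ring
  rw [hexp]
  ring

theorem int_series (l : ℝ) (hl : 0 < l) :
    (∫ x in (1:ℝ)..(bet l), Real.cos (l * Real.log ((x - 1) / (x + 1)))) = -(2 * l * SerS l) := by
  set q := Real.exp (-(Real.pi / (2 * l))) with hqdef
  have hq : 0 < q := Real.exp_pos _
  have hq1 : q < 1 := by
    rw [hqdef, Real.exp_lt_one_iff]
    have : 0 < Real.pi / (2 * l) := by positivity
    linarith
  have hbet : bet l = (1 + q) / (1 - q) := intSer_bet l hl
  have hb : (1:ℝ) ≤ (1 + q) / (1 - q) := by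
    rw [le_div_iff₀ (by linarith)]
    linarith
  have hgeo : ∀ r : ℝ, 0 ≤ r → r < 1 →
      HasSum (fun k : ℕ => ((k : ℝ) + 1) * r ^ k) (1 / (1 - r) ^ 2) := by
    intro r hr0 hr1
    have h := hasSum_choose_mul_geometric_of_norm_lt_one (𝕜 := ℝ) 1 (r := r)
      (by rw [Real.norm_eq_abs, abs_of_nonneg hr0]; exact hr1)
    simpa using h
  have hsum : HasSum (fun k : ℕ => ∫ x in (1:ℝ)..(bet l), fk l k x)
      (∫ x in (1:ℝ)..(bet l), Real.cos (l * Real.log ((x - 1) / (x + 1)))) := by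
    refine intervalIntegral.hasSum_integral_of_dominated_convergence
      (fun k _ => ((k : ℝ) + 1) * q ^ k) ?_ ?_ ?_ ?_ ?_
    · exact fun k => (fk_meas l k).aestronglyMeasurable
    · refine fun k => Filter.Eventually.of_forall fun x hx => ?_
      rw [hbet, uIoc_of_le hb] at hx
      exact fk_bound l q k x hq hq1 (Ioc_subset_Icc_self hx)
    · exact Filter.Eventually.of_forall fun x _ => (hgeo q hq.le hq1).summable
    · exact intervalIntegrable_const
    · refine Filter.Eventually.of_forall fun x hx => ?_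
      rw [hbet, uIoc_of_le hb] at hx
      obtain ⟨h1, h2⟩ := u_mem q x hq hq1 (Ioc_subset_Icc_self hx)
      have h3 := hgeo ((x - 1) / (x + 1)) h1 (lt_of_le_of_lt h2 hq1)
      have h4 := (h3.mul_right (4 / (x + 1) ^ 2)).mul_right
        (Real.cos (l * Real.log ((x - 1) / (x + 1))))
      have hx1 : x + 1 ≠ 0 := by linarith [hx.1]
      have h5 : 1 - (x - 1) / (x + 1) = 2 / (x + 1) := by
        field_simp
        ring
      have h6 : 1 / (1 - (x - 1) / (x + 1)) ^ 2 * (4 / (x + 1) ^ 2) *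
          Real.cos (l * Real.log ((x - 1) / (x + 1))) =
          Real.cos (l * Real.log ((x - 1) / (x + 1))) := by
        rw [h5]
        field_simp
        ring
      rw [h6] at h4
      exact h4
  rw [← hsum.tsum_eq]
  unfold SerS
  rw [← tsum_mul_left, ← tsum_neg]
  exact tsum_congr fun k => fk_integral l k hl

end Pool.Agent.JohnC
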