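import Pool.Agent.Lib_MP_1fe18a_an.Basics
import Pool.Agent.Lib_MP_1fe18a_an.BndL
import Pool.Agent.Lib_MP_1fe18a_an.Fprim

/-! John constant (MP_1fe18a_an): the extremal example. -/

set_option autoImplicit false

open Complex Set Filter Topology MeasureTheory

namespace Pool.Agent.JohnC

/-- the modulus of `E0` -/
theorem NI_norm_E0 (l x y : ℝ) (hy : 0 < y) : ‖E0 l (⟨x, y⟩ : ℂ)‖ = Real.exp (-(l * alp x y)) := by
  rw [E0_mk l x y hy]
  have h : ‖(⟨er l x y, ei l x y⟩ : ℂ)‖ ^ 2 = (Real.exp (-(l * alp x y))) ^ 2 := by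
    rw [← Complex.normSq_eq_norm_sq, Complex.normSq_mk]
    unfold er ei mE
    have := Real.sin_sq_add_cos_sq (nu l x y)
    nlinarith [this]
  exact (pow_left_inj₀ (norm_nonneg _) (Real.exp_pos _).le two_ne_zero).1 h

theorem NI_norm_bounds (l : ℝ) (hl : 0 < l) (z : ℂ) (hz : 0 < z.im) :
    Real.exp (-(l * Real.pi)) ≤ ‖E0 l z‖ ∧ ‖E0 l z‖ ≤ 1 := by
  have h1 := NI_norm_E0 l z.re z.im hz
  have h2 := alp_facts z.re z.im hz
  have e : (⟨z.re, z.im⟩ : ℂ) = z := Complex.eta z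
  rw [e] at h1
  rw [h1]
  constructor
  · apply Real.exp_le_exp.2
    nlinarith [h2.2.1]
  · rw [Real.exp_le_one_iff]
    nlinarith [h2.1, mul_pos hl h2.1]

theorem NI_nu_zero (l y : ℝ) (_hy : 0 < y) : nu l 0 y = 0 := by
  unfold nu
  have h : ((0 + 1 : ℝ) ^ 2 + y ^ 2) / ((0 - 1) ^ 2 + y ^ 2) = 1 := by
    have : (0 - 1 : ℝ) ^ 2 + y ^ 2 = (0 + 1) ^ 2 + y ^ 2 := by ring
    rw [this]
    exact div_self (by positivity)
  rw [h, Real.log_one, mul_zero]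

theorem NI_re_pos (l y : ℝ) (hy : 0 < y) : 0 < (E0 l (⟨0, y⟩ : ℂ)).re := by
  rw [E0_mk l 0 y hy]
  change 0 < er l 0 y
  unfold er mE
  rw [NI_nu_zero l y hy, Real.cos_zero, mul_one]
  exact Real.exp_pos _

/-- continuity of `E0` along a horizontal line -/
theorem NI_cont (l y : ℝ) (hy : 0 < y) : Continuous fun x : ℝ => E0 l (⟨x, y⟩ : ℂ) := by
  rw [continuous_iff_continuousAt]
  intro x
  have h1 : ContinuousAt (g0 l) (⟨x, y⟩ : ℂ) := (g0_deriv l ⟨x, y⟩ (Or.inl hy)).continuousAt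
  have h2 : Continuous fun x : ℝ => (⟨x, y⟩ : ℂ) := by
    have : (fun x : ℝ => (⟨x, y⟩ : ℂ)) = fun x : ℝ => (x : ℂ) + (y : ℂ) * I := by
      funext x
      apply Complex.ext <;> simp
    rw [this]
    fun_prop
  have h3 : ContinuousAt (fun x : ℝ => g0 l (⟨x, y⟩ : ℂ)) x :=
    ContinuousAt.comp (f := fun x : ℝ => (⟨x, y⟩ : ℂ)) h1 h2.continuousAt
  exact h3.cexp

/-- the difference of `F` at symmetric points -/
theorem NI_sym (l y : ℝ) (hl : 0 < l) (hy : 0 < y) (u : ℝ) :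
    F l (⟨u, y⟩ : ℂ) - F l (⟨-u, y⟩ : ℂ) =
      ((2 * ∫ x in (0:ℝ)..u, (E0 l (⟨x, y⟩ : ℂ)).re : ℝ) : ℂ) := by
  have hd : ∀ x : ℝ, HasDerivAt (fun x : ℝ => F l (⟨x, y⟩ : ℂ) - F l (⟨-x, y⟩ : ℂ))
      (((2 * (E0 l (⟨x, y⟩ : ℂ)).re : ℝ) : ℂ)) x := by
    intro x
    have e1 : ∀ t : ℝ, (⟨t, y⟩ : ℂ) = (t : ℂ) + (y : ℂ) * I := by
      intro t
      apply Complex.ext <;> simp
    have h1 : HasDerivAt (fun t : ℝ => (⟨t, y⟩ : ℂ)) 1 x := by
      have : (fun t : ℝ => (⟨t, y⟩ : ℂ)) = fun t : ℝ => (t : ℂ) + (y : ℂ) * I := funext e1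
      rw [this]
      exact (Complex.ofRealCLM.hasDerivAt).add_const _
    have h2 : HasDerivAt (fun t : ℝ => (⟨-t, y⟩ : ℂ)) (-1) x := by
      have : (fun t : ℝ => (⟨-t, y⟩ : ℂ)) = fun t : ℝ => (-(t : ℂ)) + (y : ℂ) * I := by
        funext t
        rw [e1]
        push_cast
        ring
      rw [this]
      exact (Complex.ofRealCLM.hasDerivAt).neg.add_const _
    have h3 := (F_deriv l hl (⟨x, y⟩ : ℂ) (Or.inl hy)).comp x h1
    have h4 := HasDerivAt.comp (h₂ := F l) (h := fun t : ℝ => (⟨-t, y⟩ : ℂ)) x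
      (F_deriv l hl (⟨-x, y⟩ : ℂ) (Or.inl hy)) h2
    have h5 := h3.sub h4
    have hr : E0 l (⟨-x, y⟩ : ℂ) = (starRingEnd ℂ) (E0 l (⟨x, y⟩ : ℂ)) := by
      rw [← E0_reflect l ⟨x, y⟩ hy]
      congr 1
      apply Complex.ext <;> simp
    have e : E0 l (⟨x, y⟩ : ℂ) * 1 - E0 l (⟨-x, y⟩ : ℂ) * (-1) =
        ((2 * (E0 l (⟨x, y⟩ : ℂ)).re : ℝ) : ℂ) := by
      rw [hr]
      apply Complex.ext <;> simp
      ring
    rw [e] at h5
    exact h5
  have hcont : Continuous fun x : ℝ => (((2 * (E0 l (⟨x, y⟩ : ℂ)).re : ℝ) : ℂ)) := by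
    have := NI_cont l y hy
    have h2 : Continuous fun x : ℝ => (E0 l (⟨x, y⟩ : ℂ)).re := Complex.continuous_re.comp this
    exact Complex.continuous_ofReal.comp (continuous_const.mul h2)
  have hft := intervalIntegral.integral_eq_sub_of_hasDerivAt (a := 0) (b := u)
    (fun x _ => hd x) (hcont.intervalIntegrable 0 u)
  have h0 : F l (⟨0, y⟩ : ℂ) - F l (⟨-0, y⟩ : ℂ) = 0 := by
    rw [neg_zero, sub_self]
  rw [h0, sub_zero] at hft
  rw [← hft, intervalIntegral.integral_ofReal, intervalIntegral.integral_const_mul]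

theorem not_inj (l : ℝ) (hl : 0 < l) (hneg : Bnd l < 0) :
    ∃ f : ℂ → ℂ, DifferentiableOn ℂ f (Metric.ball (0 : ℂ) 1) ∧
      (∀ z ∈ Metric.ball (0 : ℂ) 1, Real.exp (-(l * Real.pi)) ≤ ‖deriv f z‖ ∧ ‖deriv f z‖ ≤ 1) ∧
      ¬ Set.InjOn f (Metric.ball (0 : ℂ) 1) := by
  -- a small height at which the integral is negative
  have hlim := Bnd_limit l hl
  have hev : ∀ᶠ y in 𝓝[>] (0:ℝ), ∫ x in (0:ℝ)..(bet l), (E0 l (⟨x, y⟩ : ℂ)).re < 0 :=
    hlim.eventually (gt_mem_nhds hneg)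
  have hev2 : ∀ᶠ y in 𝓝[>] (0:ℝ), 0 < y := eventually_mem_nhdsWithin
  obtain ⟨y, hyneg, hy⟩ := (hev.and hev2).exists
  have hcont := NI_cont l y hy
  have hcr : Continuous fun x : ℝ => (E0 l (⟨x, y⟩ : ℂ)).re := Complex.continuous_re.comp hcont
  -- positivity near zero
  obtain ⟨δ, hδ, hpos⟩ : ∃ δ > 0, ∀ x, |x| < δ → 0 < (E0 l (⟨x, y⟩ : ℂ)).re := by
    have h1 : ∀ᶠ x in 𝓝 (0:ℝ), 0 < (E0 l (⟨x, y⟩ : ℂ)).re :=
      hcr.continuousAt.eventually (lt_mem_nhds (NI_re_pos l y hy))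
    obtain ⟨δ, hδ, h2⟩ := Metric.eventually_nhds_iff.1 h1
    refine ⟨δ, hδ, fun x hx => h2 ?_⟩
    rw [Real.dist_eq, sub_zero]
    exact hx
  set J : ℝ → ℝ := fun u => ∫ x in (0:ℝ)..u, (E0 l (⟨x, y⟩ : ℂ)).re with hJ
  have hJc : Continuous J := intervalIntegral.continuous_primitive
    (fun a b => hcr.intervalIntegrable a b) 0
  have hb1 := bet_gt l hl
  have hu0 : ∃ u0, 0 < u0 ∧ u0 < bet l ∧ 0 < J u0 := by
    refine ⟨min (δ / 2) (1 / 2), by positivity, ?_, ?_⟩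
    · exact lt_of_le_of_lt (min_le_right _ _) (by linarith)
    · apply intervalIntegral.intervalIntegral_pos_of_pos_on (hcr.intervalIntegrable _ _)
      · intro x hx
        apply hpos
        rw [abs_of_pos hx.1]
        have := lt_of_lt_of_le hx.2 (min_le_left (δ / 2) (1 / 2))
        linarith
      · positivity
  obtain ⟨u0, hu0, hu0b, hJu0⟩ := hu0
  obtain ⟨u, hu, hJu⟩ : ∃ u ∈ Icc u0 (bet l), J u = 0 := by
    have := intermediate_value_Icc' hu0b.le hJc.continuousOn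
    have h0 : (0:ℝ) ∈ Icc (J (bet l)) (J u0) := ⟨hyneg.le, hJu0.le⟩
    obtain ⟨u, hu, h⟩ := this h0
    exact ⟨u, hu, h⟩
  have hupos : 0 < u := lt_of_lt_of_le hu0 hu.1
  have hF : F l (⟨u, y⟩ : ℂ) = F l (⟨-u, y⟩ : ℂ) := by
    have h1 := NI_sym l y hl hy u
    have h2 : (∫ x in (0:ℝ)..u, (E0 l (⟨x, y⟩ : ℂ)).re) = 0 := hJu
    rw [h2, mul_zero, Complex.ofReal_zero] at h1
    exact sub_eq_zero.1 h1
  -- the disc
  obtain ⟨R, hR0, hR⟩ : ∃ R : ℝ, 0 < R ∧ u ^ 2 + y ^ 2 < 2 * R * y := by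
    refine ⟨(u ^ 2 + y ^ 2 + 1) / (2 * y), by positivity, ?_⟩
    have : 2 * ((u ^ 2 + y ^ 2 + 1) / (2 * y)) * y = u ^ 2 + y ^ 2 + 1 := by
      field_simp
    rw [this]
    linarith
  have him : ∀ w ∈ Metric.ball (0:ℂ) 1, 0 < ((R : ℂ) * I + (R : ℂ) * w).im := by
    intro w hw
    rw [mem_ball_zero_iff] at hw
    have h1 : -‖w‖ ≤ w.im := by
      have := Complex.abs_im_le_norm w
      linarith [neg_abs_le w.im]
    have h2 : ((R : ℂ) * I + (R : ℂ) * w).im = R * (1 + w.im) := by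
      simp
      ring
    rw [h2]
    apply mul_pos hR0
    linarith
  set f : ℂ → ℂ := fun w => F l ((R : ℂ) * I + (R : ℂ) * w) / (R : ℂ) with hf
  have hRc : (R : ℂ) ≠ 0 := Complex.ofReal_ne_zero.2 hR0.ne'
  have hfd : ∀ w ∈ Metric.ball (0:ℂ) 1,
      HasDerivAt f (E0 l ((R : ℂ) * I + (R : ℂ) * w)) w := by
    intro w hw
    have h1 : HasDerivAt (fun w : ℂ => (R : ℂ) * I + (R : ℂ) * w) (R : ℂ) w := by
      have := ((hasDerivAt_id w).const_mul (R : ℂ)).const_add ((R : ℂ) * I)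
      rw [mul_one] at this
      exact this
    have h2 := (F_deriv l hl _ (Or.inl (him w hw))).comp w h1
    have h3 := h2.div_const (R : ℂ)
    have e : E0 l ((R : ℂ) * I + (R : ℂ) * w) * (R : ℂ) / (R : ℂ) =
        E0 l ((R : ℂ) * I + (R : ℂ) * w) := by
      field_simp
    rw [e] at h3
    exact h3
  refine ⟨f, fun w hw => (hfd w hw).differentiableAt.differentiableWithinAt, ?_, ?_⟩
  · intro w hw
    rw [(hfd w hw).deriv]
    exact NI_norm_bounds l hl _ (him w hw)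
  · intro hinj
    have key : ∀ v : ℝ, v ^ 2 = u ^ 2 →
        ((⟨v, y⟩ : ℂ) - (R : ℂ) * I) / (R : ℂ) ∈ Metric.ball (0:ℂ) 1 := by
      intro v hv
      rw [mem_ball_zero_iff, norm_div, Complex.norm_real, Real.norm_eq_abs, abs_of_pos hR0,
        div_lt_one hR0]
      have h1 : ‖(⟨v, y⟩ : ℂ) - (R : ℂ) * I‖ ^ 2 < R ^ 2 := by
        rw [← Complex.normSq_eq_norm_sq, Complex.normSq_apply]
        simp
        nlinarith
      exact lt_of_pow_lt_pow_left₀ 2 hR0.le h1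
    have val : ∀ v : ℝ, f (((⟨v, y⟩ : ℂ) - (R : ℂ) * I) / (R : ℂ)) =
        F l (⟨v, y⟩ : ℂ) / (R : ℂ) := by
      intro v
      simp only [hf]
      congr 2
      field_simp
      ring
    have h1 := hinj (key u rfl) (key (-u) (by ring)) (by rw [val, val, hF])
    have h2 : (⟨u, y⟩ : ℂ) - (R : ℂ) * I = (⟨-u, y⟩ : ℂ) - (R : ℂ) * I := by
      have := congrArg (fun z => z * (R : ℂ)) h1
      simpa [div_mul_cancel₀ _ hRc] using this
    have h3 := congrArg Complex.re h2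
    simp at h3
    linarith

end Pool.Agent.JohnC
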