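import Pool.Agent.Lib_MP_1fe18a_an.TMTau

set_option autoImplicit false

open Set

namespace Pool.Agent.JohnC

namespace TM

/-- T regime value of the fence expression divided by c -/
def FT (l b r p p1 p2 : TM) : Bool × TM :=
  let x := sub b (mul r r)
  let y := mul r p
  let yd := add p (mul r p1)
  let w := mul (k 500000000) (mul p yd)
  let wd := mul (k 500000000) (add (mul (k 3000000000) (mul p p1))
    (add (mul r (mul p1 p1)) (mul r (mul p p2))))
  let x2 := mul x x
  let y2 := mul y y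
  let R := sub (sub x2 y2) (k 1000000000)
  let q := mul (k 2000000000) (mul x y)
  let N := add (mul R R) (mul q q)
  let D := add (k 1000000000) (add x2 y2)
  let u := mul (mul (k 2000000000) x) (inv D)
  let T := mul u (tau (mul u u))
  (pos D && le u 865000000,
    add (neg (mul (add (mul (k 2000000000) r) wd) N))
     (mul (k 2000000000) (mul l (add
       (mul (k 4000000000) (mul (mul r w) (add q (mul R T))))
       (mul (sub (mul w yd) (mul (k 2000000000) (mul r y))) (sub R (mul q T)))))))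

/-- C regime value of the fence expression divided by r * s -/
def FC (l b r p p1 p2 : TM) : Bool × TM :=
  let x := sub b (mul r r)
  let y := mul r p
  let yd := add p (mul r p1)
  let w := mul (k 500000000) (mul p yd)
  let wd := mul (k 500000000) (add (mul (k 3000000000) (mul p p1))
    (add (mul r (mul p1 p1)) (mul r (mul p p2))))
  let x2 := mul x x
  let y2 := mul y y
  let R := sub (sub x2 y2) (k 1000000000)
  let q := mul (k 2000000000) (mul x y)
  let N := add (mul R R) (mul q q)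
  let D := add (k 1000000000) (add x2 y2)
  let E := sub (mul (add (k 1000000000) (mul b b)) D) (mul (k 4000000000) (mul b x))
  let v2 := mul (mul (k 2000000000) (add (mul b (mul p p)) (sub (k 1000000000) (mul b x)))) (inv E)
  let v := mul (mul r r) v2
  let c1 := mul r (mul v2 (tau (mul v v)))
  (pos D && (pos E && (pos v2 && le v 865000000)),
    add (neg (mul (mul (add (mul (k 2000000000) r) wd) N) c1))
     (mul (k 2000000000) (mul l (add
       (mul (k 4000000000) (mul w (add (mul q (mul r c1)) R)))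
       (mul (sub (mul w yd) (mul (k 2000000000) (mul r y)))
         (sub (mul R c1) (mul (k 2000000000) (mul x p))))))))

theorem M_k2 (t : ℝ) : M (k 2000000000) t 2 := M_k _ _ _ (by push_cast; norm_num)
theorem M_k1 (t : ℝ) : M (k 1000000000) t 1 := M_k _ _ _ (by push_cast; norm_num)
theorem M_k3 (t : ℝ) : M (k 3000000000) t 3 := M_k _ _ _ (by push_cast; norm_num)
theorem M_k4 (t : ℝ) : M (k 4000000000) t 4 := M_k _ _ _ (by push_cast; norm_num)
theorem M_kh (t : ℝ) : M (k 500000000) t (1/2) := M_k _ _ _ (by push_cast; norm_num)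

theorem FT_sound {l b r p p1 p2 : ℝ} {L B Rr P P1 P2 : TM} {t c s : ℝ} (ht : |t| ≤ 1)
    (hl : M L t l) (hb : M B t b) (hr : M Rr t r) (hp : M P t p) (hp1 : M P1 t p1) (hp2 : M P2 t p2)
    (hx : 0 ≤ b - r ^ 2) (hT : TanB b (b - r ^ 2) (r * p) c s)
    (hok : (FT L B Rr P P1 P2).1 = true) :
    ∃ v : ℝ, M (FT L B Rr P P1 P2).2 t v ∧ FExpr l b r p p1 p2 c s = c * v := by
  have hxm : M (sub B (mul Rr Rr)) t (b - r * r) := M_sub hb (M_mul ht hr hr)
  have hym := M_mul ht hr hp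
  have hyd := M_add hp (M_mul ht hr hp1)
  have hw := M_mul ht (M_kh t) (M_mul ht hp hyd)
  have hwd := M_mul ht (M_kh t) (M_add (M_mul ht (M_k3 t) (M_mul ht hp hp1))
    (M_add (M_mul ht hr (M_mul ht hp1 hp1)) (M_mul ht hr (M_mul ht hp hp2))))
  have hx2 := M_mul ht hxm hxm
  have hy2 := M_mul ht hym hym
  have hR := M_sub (M_sub hx2 hy2) (M_k1 t)
  have hq := M_mul ht (M_k2 t) (M_mul ht hxm hym)
  have hN := M_add (M_mul ht hR hR) (M_mul ht hq hq)
  have hD := M_add (M_k1 t) (M_add hx2 hy2)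
  simp only [FT, Bool.and_eq_true] at hok
  have hDi := M_inv ht hD hok.1
  have hu := M_mul ht (M_mul ht (M_k2 t) hxm) hDi
  have hule := le_of ht hu hok.2
  have hux : 2 * (b - r * r) * (1 + ((b - r * r) * (b - r * r) + r * p * (r * p)))⁻¹
      = uu (b - r ^ 2) (r * p) := by
    unfold uu; rw [div_eq_mul_inv]; ring_nf
  rw [hux] at hu hule
  have hule' : uu (b - r ^ 2) (r * p) ≤ 0.865 := by
    push_cast at hule; norm_num at hule ⊢; linarith
  obtain ⟨τ, h1, h2, h3⟩ := T_of_TanB hT hx hule'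
  have huu := M_mul ht hu hu
  have hτ := M_tau ht huu h1 h2
  have hTm := M_mul ht hu hτ
  set T := uu (b - r ^ 2) (r * p) * τ with hTd
  refine ⟨_, M_add (M_neg (M_mul ht (M_add (M_mul ht (M_k2 t) hr) hwd) hN))
    (M_mul ht (M_k2 t) (M_mul ht hl (M_add
      (M_mul ht (M_k4 t) (M_mul ht (M_mul ht hr hw) (M_add hq (M_mul ht hR hTm))))
      (M_mul ht (M_sub (M_mul ht hw hyd) (M_mul ht (M_k2 t) (M_mul ht hr hym)))
        (M_sub hR (M_mul ht hq hTm)))))), ?_⟩
  rw [h3]
  unfold FExpr NN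
  ring

theorem FC_sound {l b r p p1 p2 : ℝ} {L B Rr P P1 P2 : TM} {t c s : ℝ} (ht : |t| ≤ 1)
    (hl : M L t l) (hb : M B t b) (hr : M Rr t r) (hp : M P t p) (hp1 : M P1 t p1) (hp2 : M P2 t p2)
    (hr0 : 0 < r) (hT : TanB b (b - r ^ 2) (r * p) c s)
    (hok : (FC L B Rr P P1 P2).1 = true) :
    0 < s ∧ ∃ v : ℝ, M (FC L B Rr P P1 P2).2 t v ∧ FExpr l b r p p1 p2 c s = r * s * v := by
  have hxm : M (sub B (mul Rr Rr)) t (b - r * r) := M_sub hb (M_mul ht hr hr)
  have hym := M_mul ht hr hp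
  have hyd := M_add hp (M_mul ht hr hp1)
  have hw := M_mul ht (M_kh t) (M_mul ht hp hyd)
  have hwd := M_mul ht (M_kh t) (M_add (M_mul ht (M_k3 t) (M_mul ht hp hp1))
    (M_add (M_mul ht hr (M_mul ht hp1 hp1)) (M_mul ht hr (M_mul ht hp hp2))))
  have hx2 := M_mul ht hxm hxm
  have hy2 := M_mul ht hym hym
  have hR := M_sub (M_sub hx2 hy2) (M_k1 t)
  have hq := M_mul ht (M_k2 t) (M_mul ht hxm hym)
  have hN := M_add (M_mul ht hR hR) (M_mul ht hq hq)
  have hD := M_add (M_k1 t) (M_add hx2 hy2)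
  have hE := M_sub (M_mul ht (M_add (M_k1 t) (M_mul ht hb hb)) hD)
    (M_mul ht (M_k4 t) (M_mul ht hb hxm))
  simp only [FC, Bool.and_eq_true] at hok
  obtain ⟨ok1, ok2, ok3, ok4⟩ := hok
  have hDp := pos_of ht hD ok1
  have hEp := pos_of ht hE ok2
  have hEi := M_inv ht hE ok2
  have hv2 := M_mul ht (M_mul ht (M_k2 t) (M_add (M_mul ht hb (M_mul ht hp hp))
    (M_sub (M_k1 t) (M_mul ht hb hxm)))) hEi
  have hv2p := pos_of ht hv2 ok3
  have hv := M_mul ht (M_mul ht hr hr) hv2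
  have hvle := le_of ht hv ok4
  set v2 := 2 * (b * (p * p) + (1 - b * (b - r * r))) *
    ((1 + b * b) * (1 + ((b - r * r) * (b - r * r) + r * p * (r * p))) - 4 * (b * (b - r * r)))⁻¹ with hv2d
  have hvx : r * r * v2 = vv b (b - r ^ 2) (r * p) := by
    rw [vv_eq, hv2d]
    have e6 : (1 + b * b) * (1 + ((b - r * r) * (b - r * r) + r * p * (r * p))) - 4 * (b * (b - r * r)) =
      (1 + b ^ 2) * (1 + (b - r ^ 2) ^ 2 + (r * p) ^ 2) - 4 * b * (b - r ^ 2) := by ring
    rw [e6, div_eq_mul_inv]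
    ring
  rw [hvx] at hv hvle
  have hvle' : vv b (b - r ^ 2) (r * p) ≤ 0.865 := by
    push_cast at hvle; norm_num at hvle ⊢; linarith
  have hv0 : 0 < vv b (b - r ^ 2) (r * p) := by rw [← hvx]; positivity
  obtain ⟨hs, τ, h1, h2, h3⟩ := C_of_TanB hT hv0 hvle'
  refine ⟨hs, ?_⟩
  have hvv := M_mul ht hv hv
  have hτ := M_tau ht hvv h1 h2
  have hc1 := M_mul ht hr (M_mul ht hv2 hτ)
  refine ⟨_, M_add (M_neg (M_mul ht (M_mul ht (M_add (M_mul ht (M_k2 t) hr) hwd) hN) hc1))
    (M_mul ht (M_k2 t) (M_mul ht hl (M_add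
      (M_mul ht (M_k4 t) (M_mul ht hw (M_add (M_mul ht hq (M_mul ht hr hc1)) hR)))
      (M_mul ht (M_sub (M_mul ht hw hyd) (M_mul ht (M_k2 t) (M_mul ht hr hym)))
        (M_sub (M_mul ht hR hc1) (M_mul ht (M_k2 t) (M_mul ht hxm hp))))))), ?_⟩
  rw [h3, ← hvx]
  unfold FExpr NN
  ring

end TM

end Pool.Agent.JohnC
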