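import Pool.Agent.Lib_MP_1fe18a_an.NumF

/-! John constant (MP_1fe18a_an): positivity of the kappa expression on the tube. The expression divided
by c is a quadratic polynomial in p = w / y, so it is enough to check the two ends of the interval of p
(with and without the quadratic term). -/

set_option autoImplicit false

open Set

namespace Pool.Agent.JohnC

namespace TM

def kR (x y : TM) : TM := sub (sub (mul x x) (mul y y)) (k 1000000000)
def kq (x y : TM) : TM := mul (k 2000000000) (mul x y)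
def kN (x y : TM) : TM := add (mul (kR x y) (kR x y)) (mul (kq x y) (kq x y))
def kS (x : TM) : TM := mul (sub (k 1120000000) x) (add (k 680000000) (mul (k 580000000) x))
def kS1 (x : TM) : TM := sub (k (-30400000)) (mul (k 1160000000) x)
def kl2 (l : TM) : TM := mul (k 2000000000) l
def kcm (l x y : TM) : TM :=
  mul (sub (sub (k 1000000000) (mul x x)) (mul y y)) (mul (inv y) (inv (kl2 l)))
def klsx (l x : TM) : TM := mul (kl2 l) (mul (kS x) x)
def kA (l x y T : TM) : TM :=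
  sub (add (mul (kN x y) (sub (kS x) (mul x (kS1 x)))) (mul (klsx l x) (sub (kq x y) (mul (kR x y) T))))
    (mul (k 6800000000) (mul (mul l (kS x)) (mul l (kS x))))
def kB (l x y : TM) : TM := mul (mul (mul x x) (kN x y)) (add (k 1000000000) (kcm l x y))
def kC (l x y T : TM) : TM := mul (klsx l x) (add (kR x y) (mul (kq x y) T))
def kp0 (y : TM) : TM := mul (k (-30000000)) (inv y)
def kp1 (x y : TM) : TM := mul (add (k 50000000) (mul (k 360000000) x)) (inv y)

def kFin (H B C p : TM) : Bool :=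
  pos (add H (mul C p)) && pos (sub (add H (mul C p)) (mul B (mul p p)))

/-- the check for one cell; T is a model of s / c -/
def kapB (l x y T : TM) : Bool :=
  (pos y && pos (kl2 l)) &&
  (kFin (sub (kA l x y T) (kB l x y)) (kB l x y) (kC l x y T) (kp0 y) &&
   kFin (sub (kA l x y T) (kB l x y)) (kB l x y) (kC l x y T) (kp1 x y))

/-- model of s / c in the first regime -/
def tT (x y : TM) : Bool × TM :=
  let D := add (k 1000000000) (add (mul x x) (mul y y))
  let u := mul (mul (k 2000000000) x) (inv D)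
  (pos D && le u 865000000, mul u (tau (mul u u)))

/-- model of s / c in the second regime -/
def tC (b x y : TM) : Bool × TM :=
  let D := add (k 1000000000) (add (mul x x) (mul y y))
  let E := sub (mul (add (k 1000000000) (mul b b)) D) (mul (k 4000000000) (mul b x))
  let v := mul (mul (k 2000000000) (sub (mul b D) (mul x (add (k 1000000000) (mul b b))))) (inv E)
  let C := mul v (tau (mul v v))
  ((pos E && pos v) && (le v 865000000 && pos C), inv C)

def kyl (r : TM) : TM := mul r (add (k 804600000) (mul r (add (k 174100000) (mul r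
  (add (k (-263500000)) (mul r (add (k 79000000) (mul r (k (-102800000))))))))))
def kyh (r : TM) : TM := mul r (add (k 816000000) (mul r (add (k 116300000) (mul r
  (add (k (-78300000)) (mul r (k (-142600000))))))))

def kth : TM := kk 500000000 500000000

def kx (r : TM) : TM := sub tb (mul r r)
def ky (r : TM) : TM := add (kyl r) (mul kth (sub (kyh r) (kyl r)))

/-- cell number i: r between 0.24 + 0.02 i and 0.26 + 0.02 i -/
def kr (i : ℕ) : TM := ⟨250000000 + 20000000 * (i : ℤ), 10000000, 0⟩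

def cellKT (r : TM) : Bool := (tT (kx r) (ky r)).1 && kapB tl (kx r) (ky r) (tT (kx r) (ky r)).2
def cellKC (r : TM) : Bool := (tC tb (kx r) (ky r)).1 && kapB tl (kx r) (ky r) (tC tb (kx r) (ky r)).2

theorem M_congr {X : TM} {t v w : ℝ} (h : M X t v) (e : v = w) : M X t w := e ▸ h

section sound

variable {l x y T : ℝ} {L X Y Z : TM} {t : ℝ}

theorem M_kR (ht : |t| ≤ 1) (hx : M X t x) (hy : M Y t y) : M (kR X Y) t (x ^ 2 - y ^ 2 - 1) :=
  M_congr (M_sub (M_sub (M_mul ht hx hx) (M_mul ht hy hy)) (M_k1 t)) (by ring)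

theorem M_kq (ht : |t| ≤ 1) (hx : M X t x) (hy : M Y t y) : M (kq X Y) t (2 * x * y) :=
  M_congr (M_mul ht (M_k2 t) (M_mul ht hx hy)) (by ring)

theorem M_kN (ht : |t| ≤ 1) (hx : M X t x) (hy : M Y t y) : M (kN X Y) t (NN x y) :=
  M_congr (M_add (M_mul ht (M_kR ht hx hy) (M_kR ht hx hy)) (M_mul ht (M_kq ht hx hy) (M_kq ht hx hy)))
    (by unfold NN; ring)

theorem M_kS (ht : |t| ≤ 1) (hx : M X t x) : M (kS X) t (Sf x) :=
  M_congr (M_mul ht (M_sub (M_k 1120000000 t (1.12) (by push_cast; norm_num)) hx)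
    (M_add (M_k 680000000 t (0.68) (by push_cast; norm_num))
      (M_mul ht (M_k 580000000 t (0.58) (by push_cast; norm_num)) hx))) (by unfold Sf; ring)

theorem M_kS1 (ht : |t| ≤ 1) (hx : M X t x) : M (kS1 X) t (Sf1 x) :=
  M_congr (M_sub (M_k (-30400000) t (-0.0304) (by push_cast; norm_num))
    (M_mul ht (M_k 1160000000 t (1.16) (by push_cast; norm_num)) hx)) (by unfold Sf1; ring)

theorem M_kl2 (ht : |t| ≤ 1) (hl : M L t l) : M (kl2 L) t (2 * l) := M_mul ht (M_k2 t) hl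

theorem M_kcm (ht : |t| ≤ 1) (hl : M L t l) (hx : M X t x) (hy : M Y t y)
    (h1 : pos Y = true) (h2 : pos (kl2 L) = true) : M (kcm L X Y) t (cc l x y) := by
  have h := M_mul ht (M_sub (M_sub (M_k1 t) (M_mul ht hx hx)) (M_mul ht hy hy))
    (M_mul ht (M_inv ht hy h1) (M_inv ht (M_kl2 ht hl) h2))
  refine M_congr h ?_
  unfold cc
  rw [div_eq_mul_inv, mul_inv_rev]
  ring

theorem M_klsx (ht : |t| ≤ 1) (hl : M L t l) (hx : M X t x) :
    M (klsx L X) t (2 * l * (Sf x * x)) := M_mul ht (M_kl2 ht hl) (M_mul ht (M_kS ht hx) hx)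

theorem M_kA (ht : |t| ≤ 1) (hl : M L t l) (hx : M X t x) (hy : M Y t y) (hT : M Z t T) :
    M (kA L X Y Z) t (NN x y * (Sf x - x * Sf1 x)
      + 2 * l * (Sf x * x) * (2 * x * y - (x ^ 2 - y ^ 2 - 1) * T) - 6.8 * (l * Sf x) ^ 2) := by
  refine M_congr (M_sub (M_add (M_mul ht (M_kN ht hx hy)
    (M_sub (M_kS ht hx) (M_mul ht hx (M_kS1 ht hx)))) (M_mul ht (M_klsx ht hl hx)
    (M_sub (M_kq ht hx hy) (M_mul ht (M_kR ht hx hy) hT))))
    (M_mul ht (M_k 6800000000 t (6.8) (by push_cast; norm_num))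
      (M_mul ht (M_mul ht hl (M_kS ht hx)) (M_mul ht hl (M_kS ht hx))))) ?_
  ring

theorem M_kB (ht : |t| ≤ 1) (hl : M L t l) (hx : M X t x) (hy : M Y t y)
    (h1 : pos Y = true) (h2 : pos (kl2 L) = true) :
    M (kB L X Y) t (x ^ 2 * NN x y * (1 + cc l x y)) :=
  M_congr (M_mul ht (M_mul ht (M_mul ht hx hx) (M_kN ht hx hy))
    (M_add (M_k1 t) (M_kcm ht hl hx hy h1 h2))) (by ring)

theorem M_kC (ht : |t| ≤ 1) (hl : M L t l) (hx : M X t x) (hy : M Y t y) (hT : M Z t T) :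
    M (kC L X Y Z) t (2 * l * (Sf x * x) * (x ^ 2 - y ^ 2 - 1 + 2 * x * y * T)) :=
  M_mul ht (M_klsx ht hl hx) (M_add (M_kR ht hx hy) (M_mul ht (M_kq ht hx hy) hT))

theorem kFin_sound {H B C P : TM} {h b c p : ℝ} (ht : |t| ≤ 1) (hh : M H t h) (hb : M B t b)
    (hc : M C t c) (hp : M P t p) (hok : kFin H B C P = true) :
    0 < h + c * p ∧ 0 < h + c * p - b * (p * p) := by
  simp only [kFin, Bool.and_eq_true] at hok
  exact ⟨pos_of ht (M_add hh (M_mul ht hc hp)) hok.1,
    pos_of ht (M_sub (M_add hh (M_mul ht hc hp)) (M_mul ht hb (M_mul ht hp hp))) hok.2⟩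

end sound

end TM

open TM

/-- a function bounded below by a linear function and by a quadratic one -/
theorem kap_quad {a B C p p0 p1 : ℝ} (h0 : 0 < a + C * p0) (h0' : 0 < a + C * p0 - B * (p0 * p0))
    (h1 : 0 < a + C * p1) (h1' : 0 < a + C * p1 - B * (p1 * p1)) (hp0 : p0 ≤ p) (hp1 : p ≤ p1) :
    0 < a + C * p - B * (p * p) := by
  rcases eq_or_lt_of_le (hp0.trans hp1) with he | hl
  · have : p = p0 := le_antisymm (by linarith) hp0
    rw [this]; exact h0'
  · obtain ⟨θ, hθ0, hθ1, rfl⟩ : ∃ θ : ℝ, 0 ≤ θ ∧ θ ≤ 1 ∧ p = p0 + θ * (p1 - p0) := by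
      refine ⟨(p - p0) / (p1 - p0), div_nonneg (by linarith) (by linarith), ?_, ?_⟩
      · rw [div_le_one (by linarith)]; linarith
      · have : p1 - p0 ≠ 0 := by linarith
        field_simp; ring
    rcases le_total 0 B with hB | hB
    · have key : a + C * (p0 + θ * (p1 - p0)) - B * ((p0 + θ * (p1 - p0)) * (p0 + θ * (p1 - p0)))
          = (1 - θ) * (a + C * p0 - B * (p0 * p0)) + θ * (a + C * p1 - B * (p1 * p1))
            + B * (θ * (1 - θ)) * (p1 - p0) ^ 2 := by ring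
      rw [key]
      have h2 : 0 ≤ B * (θ * (1 - θ)) * (p1 - p0) ^ 2 :=
        mul_nonneg (mul_nonneg hB (mul_nonneg hθ0 (by linarith))) (sq_nonneg _)
      have h3 : 0 < (1 - θ) * (a + C * p0 - B * (p0 * p0)) + θ * (a + C * p1 - B * (p1 * p1)) := by
        rcases eq_or_lt_of_le hθ0 with h4 | h4
        · rw [← h4]; simpa using h0'
        · have h5 : 0 < θ * (a + C * p1 - B * (p1 * p1)) := mul_pos h4 h1'
          have h6 : 0 ≤ (1 - θ) * (a + C * p0 - B * (p0 * p0)) :=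
            mul_nonneg (by linarith) h0'.le
          linarith
      linarith
    · have h2 : 0 ≤ - B * ((p0 + θ * (p1 - p0)) * (p0 + θ * (p1 - p0))) :=
        mul_nonneg (by linarith) (mul_self_nonneg _)
      have key : a + C * (p0 + θ * (p1 - p0)) = (1 - θ) * (a + C * p0) + θ * (a + C * p1) := by ring
      have h3 : 0 < (1 - θ) * (a + C * p0) + θ * (a + C * p1) := by
        rcases eq_or_lt_of_le hθ0 with h4 | h4
        · rw [← h4]; simpa using h0
        · have h5 : 0 < θ * (a + C * p1) := mul_pos h4 h1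
          have h6 : 0 ≤ (1 - θ) * (a + C * p0) := mul_nonneg (by linarith) h0.le
          linarith
      linarith

theorem kapB_sound {l x y T : ℝ} {L X Y Z : TM} {t c s w : ℝ} (ht : |t| ≤ 1)
    (hl : M L t l) (hx : M X t x) (hy : M Y t y) (hT : M Z t T) (hok : kapB L X Y Z = true)
    (hc : 0 < c) (hs : s = T * c) (hw1 : -0.03 ≤ w) (hw2 : w ≤ 0.05 + 0.36 * x) :
    0 < KapE l x y w c s := by
  simp only [kapB, Bool.and_eq_true] at hok
  obtain ⟨⟨ok1, ok2⟩, ok3, ok4⟩ := hok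
  have hyp := pos_of ht hy ok1
  have hA := M_kA ht hl hx hy hT
  have hB := M_kB ht hl hx hy ok1 ok2
  have hC := M_kC ht hl hx hy hT
  have hp0 : M (kp0 Y) t (-0.03 * y⁻¹) :=
    M_mul ht (M_k (-30000000) t (-0.03) (by push_cast; norm_num)) (M_inv ht hy ok1)
  have hp1 : M (kp1 X Y) t ((0.05 + 0.36 * x) * y⁻¹) :=
    M_mul ht (M_add (M_k 50000000 t (0.05) (by push_cast; norm_num))
      (M_mul ht (M_k 360000000 t (0.36) (by push_cast; norm_num)) hx)) (M_inv ht hy ok1)
  obtain ⟨g0, g0'⟩ := kFin_sound ht (M_sub hA hB) hB hC hp0 ok3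
  obtain ⟨g1, g1'⟩ := kFin_sound ht (M_sub hA hB) hB hC hp1 ok4
  have hpa : (-0.03 : ℝ) * y⁻¹ ≤ w / y := by
    rw [div_eq_mul_inv]; exact mul_le_mul_of_nonneg_right hw1 (inv_nonneg.mpr hyp.le)
  have hpb : w / y ≤ (0.05 + 0.36 * x) * y⁻¹ := by
    rw [div_eq_mul_inv]; exact mul_le_mul_of_nonneg_right hw2 (inv_nonneg.mpr hyp.le)
  have hfin := mul_pos hc (kap_quad g0 g0' g1 g1' hpa hpb)
  refine lt_of_lt_of_eq hfin ?_
  rw [hs]
  unfold KapE
  set p := w / y
  ring

theorem tT_sound {b x y : ℝ} {X Y : TM} {t c s : ℝ} (ht : |t| ≤ 1) (hx : M X t x) (hy : M Y t y)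
    (hx0 : 0 ≤ x) (hT : TanB b x y c s) (hok : (tT X Y).1 = true) :
    ∃ T : ℝ, M (tT X Y).2 t T ∧ s = T * c := by
  simp only [tT, Bool.and_eq_true] at hok
  have hD := M_add (M_k1 t) (M_add (M_mul ht hx hx) (M_mul ht hy hy))
  have hu := M_mul ht (M_mul ht (M_k2 t) hx) (M_inv ht hD hok.1)
  have hule := le_of ht hu hok.2
  have hux : 2 * x * (1 + (x * x + y * y))⁻¹ = uu x y := by
    unfold uu; rw [div_eq_mul_inv]; ring_nf
  rw [hux] at hu hule
  have hule' : uu x y ≤ 0.865 := by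
    push_cast at hule; norm_num at hule ⊢; linarith
  obtain ⟨τ, h1, h2, h3⟩ := T_of_TanB hT hx0 hule'
  exact ⟨uu x y * τ, M_mul ht hu (M_tau ht (M_mul ht hu hu) h1 h2), h3⟩

theorem tC_sound {b x y : ℝ} {B X Y : TM} {t c s : ℝ} (ht : |t| ≤ 1) (hb : M B t b) (hx : M X t x)
    (hy : M Y t y) (hT : TanB b x y c s) (hok : (tC B X Y).1 = true) :
    ∃ T : ℝ, M (tC B X Y).2 t T ∧ s = T * c := by
  simp only [tC, Bool.and_eq_true] at hok
  obtain ⟨⟨ok1, ok2⟩, ok3, ok4⟩ := hok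
  have hD := M_add (M_k1 t) (M_add (M_mul ht hx hx) (M_mul ht hy hy))
  have hE := M_sub (M_mul ht (M_add (M_k1 t) (M_mul ht hb hb)) hD)
    (M_mul ht (M_k4 t) (M_mul ht hb hx))
  have hv := M_mul ht (M_mul ht (M_k2 t) (M_sub (M_mul ht hb hD)
    (M_mul ht hx (M_add (M_k1 t) (M_mul ht hb hb))))) (M_inv ht hE ok1)
  have hvp := pos_of ht hv ok2
  have hvle := le_of ht hv ok3
  have hvx : 2 * (b * (1 + (x * x + y * y)) - x * (1 + b * b)) *
      ((1 + b * b) * (1 + (x * x + y * y)) - 4 * (b * x))⁻¹ = vv b x y := by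
    rw [vv_eq]
    have e6 : (1 + b * b) * (1 + (x * x + y * y)) - 4 * (b * x) =
      (1 + b ^ 2) * (1 + x ^ 2 + y ^ 2) - 4 * b * x := by ring
    rw [e6, div_eq_mul_inv]
    ring
  rw [hvx] at hv hvle hvp
  have hvle' : vv b x y ≤ 0.865 := by
    push_cast at hvle; norm_num at hvle ⊢; linarith
  obtain ⟨hs, τ, h1, h2, h3⟩ := C_of_TanB hT hvp hvle'
  have hC := M_mul ht hv (M_tau ht (M_mul ht hv hv) h1 h2)
  have hCp := pos_of ht hC ok4
  refine ⟨(vv b x y * τ)⁻¹, M_inv ht hC ok4, ?_⟩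
  rw [h3, ← mul_assoc, inv_mul_cancel₀ hCp.ne', one_mul]

theorem M_kyl {R : TM} {t r : ℝ} (ht : |t| ≤ 1) (hr : M R t r) : M (kyl R) t (r * rlo r) := by
  refine M_congr (M_mul ht hr (M_add (M_k 804600000 t (0.8046) (by push_cast; norm_num)) (M_mul ht hr
    (M_add (M_k 174100000 t (0.1741) (by push_cast; norm_num)) (M_mul ht hr
    (M_add (M_k (-263500000) t (-0.2635) (by push_cast; norm_num)) (M_mul ht hr
    (M_add (M_k 79000000 t (0.079) (by push_cast; norm_num)) (M_mul ht hr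
    (M_k (-102800000) t (-0.1028) (by push_cast; norm_num))))))))))) ?_
  unfold rlo; ring

theorem M_kyh {R : TM} {t r : ℝ} (ht : |t| ≤ 1) (hr : M R t r) : M (kyh R) t (r * rhi r) := by
  refine M_congr (M_mul ht hr (M_add (M_k 816000000 t (0.816) (by push_cast; norm_num)) (M_mul ht hr
    (M_add (M_k 116300000 t (0.1163) (by push_cast; norm_num)) (M_mul ht hr
    (M_add (M_k (-78300000) t (-0.0783) (by push_cast; norm_num)) (M_mul ht hr
    (M_k (-142600000) t (-0.1426) (by push_cast; norm_num))))))))) ?_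
  unfold rhi; ring

theorem M_ky {R : TM} {t r y : ℝ} (ht : |t| ≤ 1) (hr : M R t r) (hy1 : r * rlo r ≤ y)
    (hy2 : y ≤ r * rhi r) : M (ky R) t y := by
  obtain ⟨θ, hθ0, hθ1, rfl⟩ : ∃ θ : ℝ, 0 ≤ θ ∧ θ ≤ 1 ∧ y = r * rlo r + θ * (r * rhi r - r * rlo r) := by
    rcases eq_or_lt_of_le (hy1.trans hy2) with he | hl
    · exact ⟨0, le_refl _, zero_le_one, by linarith⟩
    · refine ⟨(y - r * rlo r) / (r * rhi r - r * rlo r), div_nonneg (by linarith) (by linarith), ?_, ?_⟩
      · rw [div_le_one (by linarith)]; linarith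
      · have : r * rhi r - r * rlo r ≠ 0 := by linarith
        rw [div_mul_cancel₀ _ this]; ring
  have hth : M kth t θ := M_kk _ _ _ _ (by push_cast; linarith) (by push_cast; linarith)
  exact M_add (M_kyl ht hr) (M_mul ht hth (M_sub (M_kyh ht hr) (M_kyl ht hr)))

theorem kap_cells : (∀ i, i < 18 → cellKC (kr i) = true) ∧
    (∀ i, i < 25 → cellKT (kr (18 + i)) = true) := by
  decide +kernel

theorem num_kappa (l b r y w c s : ℝ) (h1 : (0.627834 : ℝ) < l) (h2 : l < (0.627835 : ℝ))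
    (hb1 : (1.1784754 : ℝ) < b) (hb2 : b < (1.1784763 : ℝ)) (hr : 0 < r) (hr2 : r ^ 2 ≤ b)
    (hx : b - r ^ 2 ≤ 1.12) (hy1 : r * rlo r ≤ y) (hy2 : y ≤ r * rhi r)
    (hw1 : -0.03 ≤ w) (hw2 : w ≤ 0.05 + 0.36 * (b - r ^ 2))
    (hT : TanB b (b - r ^ 2) y c s) :
    0 < KapE l (b - r ^ 2) y w c s := by
  have hrlo : 0.24 < r := by
    by_contra hcon
    push Not at hcon
    nlinarith
  have hrhi : r < 1.1 := by
    by_contra hcon
    push Not at hcon
    nlinarith
  -- the cell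
  obtain ⟨i, hi, t, ht, hrt⟩ : ∃ i : ℕ, i < 43 ∧ ∃ t : ℝ, |t| ≤ 1 ∧ M (kr i) t r := by
    have h3 : 0 ≤ (r - 0.24) / 0.02 := by
      apply div_nonneg
      · linarith
      · norm_num
    refine ⟨⌊(r - 0.24) / 0.02⌋₊, ?_, (r - (0.25 + 0.02 * (⌊(r - 0.24) / 0.02⌋₊ : ℝ))) / 0.01, ?_, ?_⟩
    · rw [Nat.floor_lt h3]
      rw [div_lt_iff₀ (by norm_num)]
      push_cast
      linarith
    · have h4 := Nat.floor_le h3
      have h5 := Nat.lt_floor_add_one ((r - 0.24) / 0.02)
      rw [le_div_iff₀ (by norm_num)] at h4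
      rw [div_lt_iff₀ (by norm_num)] at h5
      rw [abs_le]
      constructor
      · rw [le_div_iff₀ (by norm_num)]; linarith
      · rw [div_le_iff₀ (by norm_num)]; linarith
    · refine M_var _ _ _ _ ?_
      push_cast
      ring
  have hc : 0 < c := hT.1
  have hX : M (kx (kr i)) t (b - r ^ 2) :=
    M_congr (M_sub (M_tb b t hb1 hb2) (M_mul ht hrt hrt)) (by ring)
  have hY := M_ky ht hrt hy1 hy2
  have hx0 : 0 ≤ b - r ^ 2 := by linarith
  rcases lt_or_ge i 18 with h18 | h18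
  · have hok := kap_cells.1 i h18
    simp only [cellKC, Bool.and_eq_true] at hok
    obtain ⟨T, hTm, hsT⟩ := tC_sound ht (M_tb b t hb1 hb2) hX hY hT hok.1
    exact kapB_sound ht (M_tl l t h1 h2) hX hY hTm hok.2 hc hsT hw1 hw2
  · have hok := kap_cells.2 (i - 18) (by omega)
    rw [show 18 + (i - 18) = i by omega] at hok
    simp only [cellKT, Bool.and_eq_true] at hok
    obtain ⟨T, hTm, hsT⟩ := tT_sound ht hX hY hx0 hT hok.1
    exact kapB_sound ht (M_tl l t h1 h2) hX hY hTm hok.2 hc hsT hw1 hw2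

end Pool.Agent.JohnC
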