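import Pool.Agent.Lib_MP_1fe18a_an.Basics
import Pool.Agent.Lib_MP_1fe18a_an.Fprim
import Pool.Agent.Lib_MP_1fe18a_an.Curve
import Pool.Agent.Lib_MP_1fe18a_an.Fence

/-!
# John constant, piece K2: the path

The pieces `bet_bounds`, `tanB_nu`, `num_simple`, `num_lower`, `num_upper`, `num_tube` enter through
the structure `PathInputs`; `Path.lean` discharges it.
-/

set_option autoImplicit false

open Complex Set Filter Topology MeasureTheory

namespace Pool.Agent.JohnC.PathCore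

/-- the numerical facts which the construction of the path uses -/
structure PathInputs : Prop where
  bet_bounds : ∀ (l : ℝ) (_ : (0.627834 : ℝ) < l) (_ : l < (0.627835 : ℝ)),
    (1.1784754 : ℝ) < bet l ∧ bet l < (1.1784763 : ℝ)
  tanB_nu : ∀ (l x y : ℝ) (_ : (0.627834 : ℝ) < l) (_ : l < (0.627835 : ℝ)) (_ : 0 ≤ x)
    (_ : 0 < y) (_ : 0 < (x - 1 / bet l) * (x - bet l) + y ^ 2),
    TanB (bet l) x y (Real.cos (nu l x y)) (Real.sin (nu l x y))
  num_lower : ∀ (l b r c s : ℝ) (_ : (0.627834 : ℝ) < l) (_ : l < (0.627835 : ℝ))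
    (_ : (1.1784754 : ℝ) < b) (_ : b < (1.1784763 : ℝ)) (_ : 0 < r) (_ : r ^ 2 < b)
    (_ : TanB b (b - r ^ 2) (r * rlo r) c s),
    0 < FExpr l b r (rlo r) (rlo1 r) (rlo2 r) c s
  num_upper : ∀ (l b r c s : ℝ) (_ : (0.627834 : ℝ) < l) (_ : l < (0.627835 : ℝ))
    (_ : (1.1784754 : ℝ) < b) (_ : b < (1.1784763 : ℝ)) (_ : 0 < r) (_ : r ^ 2 < b)
    (_ : TanB b (b - r ^ 2) (r * rhi r) c s),
    FExpr l b r (rhi r) (rhi1 r) (rhi2 r) c s < 0
  num_tube : ∀ (l b r y c s : ℝ) (_ : (0.627834 : ℝ) < l) (_ : l < (0.627835 : ℝ))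
    (_ : (1.1784754 : ℝ) < b) (_ : b < (1.1784763 : ℝ)) (_ : 0 < r) (_ : r ^ 2 ≤ b)
    (_ : b - r ^ 2 ≤ 1.12) (_ : r * rlo r ≤ y) (_ : y ≤ r * rhi r)
    (_ : TanB b (b - r ^ 2) y c s),
    0 < 2 * (b - r ^ 2) * y * s - ((b - r ^ 2) ^ 2 - y ^ 2 - 1) * c ∧
    0 < y * (2 * (b - r ^ 2) * y * c + ((b - r ^ 2) ^ 2 - y ^ 2 - 1) * s)
        + 0.03 * (2 * (b - r ^ 2) * y * s - ((b - r ^ 2) ^ 2 - y ^ 2 - 1) * c) ∧
    (r * rhi r - r * rlo r) * (2 * l) *
      ((0.05 + 0.36 * (b - r ^ 2)) * (2 * (b - r ^ 2) * y * s - ((b - r ^ 2) ^ 2 - y ^ 2 - 1) * c)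
        - y * (2 * (b - r ^ 2) * y * c + ((b - r ^ 2) ^ 2 - y ^ 2 - 1) * s))
      < (0.05 + 0.36 * (b - r ^ 2) - whf r) * NN (b - r ^ 2) y * c
  num_simple : ∀ (l b r y : ℝ) (_ : (0.627834 : ℝ) < l) (_ : l < (0.627835 : ℝ))
    (_ : (1.1784754 : ℝ) < b) (_ : b < (1.1784763 : ℝ)) (_ : 0 < r) (_ : r ^ 2 ≤ b)
    (_ : r * rlo r ≤ y) (_ : y ≤ r * rhi r),
    0.6 < rlo r ∧ rlo r < rhi r ∧ -0.03 ≤ wlf r ∧
    0 < (b - r ^ 2 - 1 / b) * (b - r ^ 2 - b) + y ^ 2 ∧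
    (b - r ^ 2 ≤ 1.12 → -1.3 ≤ cc l (b - r ^ 2) y ∧ cc l (b - r ^ 2) y ≤ 0.6) ∧
    (1.12 ≤ b - r ^ 2 → cc l (b - r ^ 2) y ≤ -1)

theorem rlo_lt_rhi (r : ℝ) : rlo r < rhi r := by
  unfold rlo rhi
  nlinarith [sq_nonneg (r ^ 2 - 277 / 257 * r + 1 / 10), sq_nonneg (r - 0.394)]

theorem whf_lt (r b : ℝ) (hr : 0 < r) (hb1 : (1.1784754 : ℝ) < b) (hb2 : b < (1.1784763 : ℝ))
    (hr2 : r ^ 2 ≤ b) : whf r < 0.05 + 0.36 * (b - r ^ 2) := by
  unfold whf rhi rhi1
  have hr3 : r < 1.0857 := by nlinarith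
  suffices h : 0 < 0.05 + 0.36 * (1.1784754 - r ^ 2) - (0.816 + 0.1163 * r - 0.0783 * r ^ 2 - 0.1426 * r ^ 3) * (0.816 + 0.1163 * r - 0.0783 * r ^ 2 - 0.1426 * r ^ 3 + r * (0.1163 - 0.1566 * r - 0.4278 * r ^ 2)) / 2 by
    linarith
  nlinarith [mul_pos hr hr, mul_pos (mul_pos hr hr) hr, sq_nonneg (r - 0.82), sq_nonneg (r * (r - 0.82)), mul_nonneg hr.le (sq_nonneg (r - 0.82)), mul_nonneg (sub_nonneg.2 hr3.le) (sq_nonneg (r * (r - 0.82))), mul_nonneg (sub_nonneg.2 hr3.le) (sq_nonneg (r - 0.82)), mul_nonneg (sub_nonneg.2 hr3.le) (sq_nonneg (r ^2 * (r - 0.82))), mul_nonneg (mul_nonneg hr.le (sub_nonneg.2 hr3.le)) (sq_nonneg (r * (r - 0.82)))]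

theorem rlo_hasDeriv (r : ℝ) : HasDerivAt rlo (rlo1 r) r := by
  have h := (((((hasDerivAt_id r).const_mul 0.1741).const_add 0.8046).sub
    (((hasDerivAt_id r).pow 2).const_mul 0.2635)).add
    (((hasDerivAt_id r).pow 3).const_mul 0.079)).sub (((hasDerivAt_id r).pow 4).const_mul 0.1028)
  refine (h.congr_deriv ?_).congr_of_eventuallyEq ?_
  · simp only [id, rlo1]; norm_num; ring
  · exact Eventually.of_forall fun x => by simp [rlo]

theorem rlo1_hasDeriv (r : ℝ) : HasDerivAt rlo1 (rlo2 r) r := by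
  have h := ((((hasDerivAt_id r).const_mul (-0.527)).const_add 0.1741).add
    (((hasDerivAt_id r).pow 2).const_mul 0.237)).sub
    (((hasDerivAt_id r).pow 3).const_mul 0.4112)
  refine (h.congr_deriv ?_).congr_of_eventuallyEq ?_
  · simp only [id, rlo2]; norm_num; ring
  · exact Eventually.of_forall fun x => by simp [rlo1]; ring

theorem rhi_hasDeriv (r : ℝ) : HasDerivAt rhi (rhi1 r) r := by
  have h := ((((hasDerivAt_id r).const_mul 0.1163).const_add 0.816).sub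
    (((hasDerivAt_id r).pow 2).const_mul 0.0783)).sub
    (((hasDerivAt_id r).pow 3).const_mul 0.1426)
  refine (h.congr_deriv ?_).congr_of_eventuallyEq ?_
  · simp only [id, rhi1]; norm_num; ring
  · exact Eventually.of_forall fun x => by simp [rhi]

theorem rhi1_hasDeriv (r : ℝ) : HasDerivAt rhi1 (rhi2 r) r := by
  have h := (((hasDerivAt_id r).const_mul (-0.1566)).const_add 0.1163).sub
    (((hasDerivAt_id r).pow 2).const_mul 0.4278)
  refine (h.congr_deriv ?_).congr_of_eventuallyEq ?_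
  · simp only [id, rhi2]; norm_num; ring
  · exact Eventually.of_forall fun x => by simp [rhi1]; ring

/-- facts valid in the closed tube, in the coordinate `r` -/
theorem tube_r (H : PathInputs) (l : ℝ) (h1 : (0.627834 : ℝ) < l) (h2 : l < (0.627835 : ℝ)) (r y : ℝ)
    (hr : 0 < r) (hr2 : r ^ 2 ≤ bet l) (hy1 : r * rlo r ≤ y) (hy2 : y ≤ r * rhi r) :
    0.6 < rlo r ∧ 0 < y ∧ -0.03 ≤ wlf r ∧ 0 < er l (bet l - r ^ 2) y ∧
      TanB (bet l) (bet l - r ^ 2) y (Real.cos (nu l (bet l - r ^ 2) y))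
        (Real.sin (nu l (bet l - r ^ 2) y)) ∧ 0 < Real.cos (nu l (bet l - r ^ 2) y) := by
  have hl : 0 < l := by linarith
  obtain ⟨hb1, hb2⟩ := H.bet_bounds l h1 h2
  obtain ⟨n1, n2, n3, n4, -, -⟩ := H.num_simple l (bet l) r y h1 h2 hb1 hb2 hr hr2 hy1 hy2
  have hy : 0 < y := lt_of_lt_of_le (mul_pos hr (by linarith)) hy1
  have hx : 0 ≤ bet l - r ^ 2 := by linarith
  obtain ⟨m1, m2⟩ := nu_facts l (bet l - r ^ 2) y hl hx hy n4
  have hcos : 0 < Real.cos (nu l (bet l - r ^ 2) y) :=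
    Real.cos_pos_of_mem_Ioo ⟨by linarith [Real.pi_pos], m2⟩
  exact ⟨n1, hy, n3, mul_pos (Real.exp_pos _) hcos,
    H.tanB_nu l (bet l - r ^ 2) y h1 h2 hx hy n4, hcos⟩

theorem fence_lo (H : PathInputs) (l : ℝ) (h1 : (0.627834 : ℝ) < l) (h2 : l < (0.627835 : ℝ)) (r : ℝ)
    (hr : r ∈ Ioc 0 (Real.sqrt (bet l))) :
    Gf l (bet l - r ^ 2) (r * rlo r) < 0 ∧
      0 < Kf l (bet l - r ^ 2) (r * rlo r) - wlf r * er l (bet l - r ^ 2) (r * rlo r) := by
  have hl : 0 < l := by linarith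
  obtain ⟨hb1, hb2⟩ := H.bet_bounds l h1 h2
  have hb0 : 0 ≤ bet l := by linarith
  have key := fence l 1 hl (Or.inl rfl) rlo rlo1 rlo2 rlo_hasDeriv rlo1_hasDeriv ?_ ?_ r hr
  · obtain ⟨k1, k2⟩ := key
    refine ⟨by linarith, ?_⟩
    rw [one_mul] at k2
    exact k2
  · intro s hs
    rcases eq_or_lt_of_le hs.1 with h | h
    · rw [← h]; norm_num [rlo]
    · have hs2 : s ^ 2 ≤ bet l := by
        have := Real.sq_sqrt hb0
        nlinarith [hs.2]
      obtain ⟨n1, -⟩ := tube_r H l h1 h2 s (s * rlo s) h hs2 le_rfl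
        (mul_le_mul_of_nonneg_left (rlo_lt_rhi s).le h.le)
      linarith
  · intro s hs
    have hs2 : s ^ 2 < bet l := by
      have := Real.sq_sqrt hb0
      nlinarith [hs.2, hs.1]
    obtain ⟨-, -, -, -, n5, -⟩ := tube_r H l h1 h2 s (s * rlo s) hs.1 hs2.le le_rfl
        (mul_le_mul_of_nonneg_left (rlo_lt_rhi s).le hs.1.le)
    rw [one_mul]
    exact H.num_lower l (bet l) s _ _ h1 h2 hb1 hb2 hs.1 hs2 n5

theorem fence_hi (H : PathInputs) (l : ℝ) (h1 : (0.627834 : ℝ) < l) (h2 : l < (0.627835 : ℝ)) (r : ℝ)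
    (hr : r ∈ Ioc 0 (Real.sqrt (bet l))) :
    0 < Gf l (bet l - r ^ 2) (r * rhi r) ∧
      Kf l (bet l - r ^ 2) (r * rhi r) - whf r * er l (bet l - r ^ 2) (r * rhi r) < 0 := by
  have hl : 0 < l := by linarith
  obtain ⟨hb1, hb2⟩ := H.bet_bounds l h1 h2
  have hb0 : 0 ≤ bet l := by linarith
  have key := fence l (-1) hl (Or.inr rfl) rhi rhi1 rhi2 rhi_hasDeriv rhi1_hasDeriv ?_ ?_ r hr
  · obtain ⟨k1, k2⟩ := key
    refine ⟨by linarith, ?_⟩
    have : whf r = rhi r * (rhi r + r * rhi1 r) / 2 := rfl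
    rw [this]
    linarith
  · intro s hs
    have := rlo_lt_rhi s
    rcases eq_or_lt_of_le hs.1 with h | h
    · rw [← h]; norm_num [rhi]
    · have hs2 : s ^ 2 ≤ bet l := by
        have := Real.sq_sqrt hb0
        nlinarith [hs.2]
      obtain ⟨n1, -⟩ := tube_r H l h1 h2 s (s * rlo s) h hs2 le_rfl
        (mul_le_mul_of_nonneg_left (rlo_lt_rhi s).le h.le)
      linarith
  · intro s hs
    have hs2 : s ^ 2 < bet l := by
      have := Real.sq_sqrt hb0
      nlinarith [hs.2, hs.1]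
    obtain ⟨-, -, -, -, n5, -⟩ := tube_r H l h1 h2 s (s * rhi s) hs.1 hs2.le
        (mul_le_mul_of_nonneg_left (rlo_lt_rhi s).le hs.1.le) le_rfl
    have := H.num_upper l (bet l) s _ _ h1 h2 hb1 hb2 hs.1 hs2 n5
    linarith

/-- derivative of `Gf` in the vertical direction -/
theorem Gf_vert (l : ℝ) (hl : 0 < l) (x y : ℝ) (hy : 0 < y) :
    HasDerivAt (fun y => Gf l x y) (2 * (y * er l x y)) y := by
  have h := (curve_deriv l hl (fun _ => x) id x y 0 1 y (hasDerivAt_const _ _) (hasDerivAt_id _)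
    rfl rfl hy).2.2.2
  simpa using h

theorem Gf_horiz (l : ℝ) (hl : 0 < l) (x y : ℝ) (hy : 0 < y) :
    HasDerivAt (fun x => Gf l x y) (2 * Kf l x y) x := by
  have h := (curve_deriv l hl id (fun _ => y) x y 1 0 x (hasDerivAt_id _) (hasDerivAt_const _ _)
    rfl rfl hy).2.2.2
  simpa using h

theorem er_vert (l : ℝ) (hl : 0 < l) (x y : ℝ) (hy : 0 < y) :
    HasDerivAt (fun y => er l x y)
      (2 * l / NN x y * mE l x y * (2 * x * y * Real.sin (nu l x y)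
        - (x ^ 2 - y ^ 2 - 1) * Real.cos (nu l x y))) y := by
  have h := (curve_deriv l hl (fun _ => x) id x y 0 1 y (hasDerivAt_const _ _) (hasDerivAt_id _)
    rfl rfl hy).2.1
  refine h.congr_deriv ?_
  simp only [er, ei]
  ring

theorem Kf_vert (l : ℝ) (hl : 0 < l) (x y : ℝ) (hy : 0 < y) :
    HasDerivAt (fun y => Kf l x y)
      (2 * l / NN x y * mE l x y * (y * (2 * x * y * Real.cos (nu l x y)
        + (x ^ 2 - y ^ 2 - 1) * Real.sin (nu l x y)))) y := by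
  have h := (curve_deriv l hl (fun _ => x) id x y 0 1 y (hasDerivAt_const _ _) (hasDerivAt_id _)
    rfl rfl hy).2.2.1
  refine h.congr_deriv ?_
  simp only [er, ei]
  ring


/-- differentiability of `Gf` in both variables -/
theorem Gf_fderiv (l : ℝ) (hl : 0 < l) (x y : ℝ) (hy : 0 < y) :
    HasFDerivAt (fun p : ℝ × ℝ => Gf l p.1 p.2)
      ((2 * Kf l x y) • ContinuousLinearMap.fst ℝ ℝ ℝ
        + (2 * (y * er l x y)) • ContinuousLinearMap.snd ℝ ℝ ℝ) (x, y) := by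
  have hz : (0:ℝ) < (⟨x, y⟩ : ℂ).im := hy
  have hF : DifferentiableAt ℝ (F l) (⟨x, y⟩ : ℂ) :=
    (F_deriv l hl _ (Or.inl hz)).differentiableAt.restrictScalars ℝ
  have hE : DifferentiableAt ℝ (E0 l) (⟨x, y⟩ : ℂ) := by
    have : HasDerivAt (E0 l) _ (⟨x, y⟩ : ℂ) := (g0_deriv l (⟨x, y⟩ : ℂ) (Or.inl hz)).cexp
    exact this.differentiableAt.restrictScalars ℝ
  have hZ : Differentiable ℝ (fun p : ℝ × ℝ => (⟨p.1, p.2⟩ : ℂ)) := by
    have : (fun p : ℝ × ℝ => (⟨p.1, p.2⟩ : ℂ)) = fun p => Complex.equivRealProdCLM.symm p := by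
      funext p
      rfl
    rw [this]
    exact Complex.equivRealProdCLM.symm.differentiable
  have hre : Differentiable ℝ Complex.re := Complex.reCLM.differentiable
  have him : Differentiable ℝ Complex.im := Complex.imCLM.differentiable
  have hFz : DifferentiableAt ℝ (fun p : ℝ × ℝ => F l (⟨p.1, p.2⟩ : ℂ)) (x, y) :=
    DifferentiableAt.comp (x, y) (g := F l) (f := fun p : ℝ × ℝ => (⟨p.1, p.2⟩ : ℂ)) hF (hZ _)
  have hEz : DifferentiableAt ℝ (fun p : ℝ × ℝ => E0 l (⟨p.1, p.2⟩ : ℂ)) (x, y) :=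
    DifferentiableAt.comp (x, y) (g := E0 l) (f := fun p : ℝ × ℝ => (⟨p.1, p.2⟩ : ℂ)) hE (hZ _)
  have hGd : DifferentiableAt ℝ (fun p : ℝ × ℝ => Gf l p.1 p.2) (x, y) := by
    unfold Gf
    have e1 : DifferentiableAt ℝ (fun p : ℝ × ℝ => (1 - (⟨p.1, p.2⟩ : ℂ) ^ 2) *
        E0 l (⟨p.1, p.2⟩ : ℂ)) (x, y) :=
      ((differentiableAt_const _).sub ((hZ _).pow 2)).mul hEz
    have e2 : DifferentiableAt ℝ (fun p : ℝ × ℝ => ((1 - (⟨p.1, p.2⟩ : ℂ) ^ 2) *
        E0 l (⟨p.1, p.2⟩ : ℂ)).re) (x, y) := (hre _).comp (x, y) e1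
    have e3 : DifferentiableAt ℝ (fun p : ℝ × ℝ => (F l (⟨p.1, p.2⟩ : ℂ)).re) (x, y) :=
      (hre _).comp (x, y) hFz
    have e4 : DifferentiableAt ℝ (fun p : ℝ × ℝ => (F l (⟨p.1, p.2⟩ : ℂ)).im) (x, y) :=
      (him _).comp (x, y) hFz
    have e5 : DifferentiableAt ℝ (fun p : ℝ × ℝ => 2 * p.1) (x, y) :=
      (differentiableAt_fst).const_mul 2
    exact (e2.add (e5.mul e3)).sub (e4.const_mul (2 * l))
  have hL := hGd.hasFDerivAt
  set L := fderiv ℝ (fun p : ℝ × ℝ => Gf l p.1 p.2) (x, y) with hLdef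
  have hL1 : L (1, 0) = 2 * Kf l x y := by
    have hc : HasDerivAt (fun t : ℝ => ((t, y) : ℝ × ℝ)) (1, 0) x :=
      (hasDerivAt_id x).prodMk (hasDerivAt_const x y)
    have h := HasFDerivAt.comp_hasDerivAt (x := x) (l := fun p : ℝ × ℝ => Gf l p.1 p.2)
      (f := fun t : ℝ => ((t, y) : ℝ × ℝ)) hL hc
    exact h.unique (Gf_horiz l hl x y hy)
  have hL2 : L (0, 1) = 2 * (y * er l x y) := by
    have hc : HasDerivAt (fun t : ℝ => ((x, t) : ℝ × ℝ)) (0, 1) y :=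
      (hasDerivAt_const y x).prodMk (hasDerivAt_id y)
    have h := HasFDerivAt.comp_hasDerivAt (x := y) (l := fun p : ℝ × ℝ => Gf l p.1 p.2)
      (f := fun t : ℝ => ((x, t) : ℝ × ℝ)) hL hc
    exact h.unique (Gf_vert l hl x y hy)
  convert hL using 1
  ext
  · simp [hL1]
  · simp [hL2]

/-- implicit differentiation -/
theorem implicit_deriv (l : ℝ) (hl : 0 < l) (Y : ℝ → ℝ) (x : ℝ) (hy : 0 < Y x)
    (her : 0 < er l x (Y x)) (hY : ContinuousAt Y x)
    (h0 : ∀ᶠ x' in 𝓝 x, Gf l x' (Y x') = 0) :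
    HasDerivAt Y (-(Kf l x (Y x) / (Y x * er l x (Y x)))) x := by
  set A := 2 * Kf l x (Y x) with hA
  set B := 2 * (Y x * er l x (Y x)) with hB
  have hB0 : B ≠ 0 := by positivity
  have hG := Gf_fderiv l hl x (Y x) hy
  have hf : HasFDerivAt (fun p : ℝ × ℝ => ((p.1, Gf l p.1 p.2) : ℝ × ℝ))
      ((ContinuousLinearMap.fst ℝ ℝ ℝ).prod (A • ContinuousLinearMap.fst ℝ ℝ ℝ
        + B • ContinuousLinearMap.snd ℝ ℝ ℝ)) (x, Y x) :=
    hasFDerivAt_fst.prodMk hG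
  have hh : HasFDerivAt (fun t : ℝ => ((t, 0) : ℝ × ℝ))
      ((ContinuousLinearMap.id ℝ ℝ).prod (0 : ℝ →L[ℝ] ℝ)) x :=
    (hasFDerivAt_id x).prodMk (hasFDerivAt_const 0 x)
  have hgc : ContinuousAt (fun t : ℝ => ((t, Y t) : ℝ × ℝ)) x := continuousAt_id.prodMk hY
  have key := HasFDerivAt.of_comp_of_leftInverse (g := fun t : ℝ => ((t, Y t) : ℝ × ℝ))
    (f := fun p : ℝ × ℝ => ((p.1, Gf l p.1 p.2) : ℝ × ℝ)) (h := fun t : ℝ => ((t, 0) : ℝ × ℝ))
    (f'symm := (ContinuousLinearMap.fst ℝ ℝ ℝ).prod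
      ((-(A / B)) • ContinuousLinearMap.fst ℝ ℝ ℝ + (1 / B) • ContinuousLinearMap.snd ℝ ℝ ℝ))
    hgc hf hh (h0.mono fun t ht => by simp [ht]) (fun p => by
      ext
      · simp
      · simp
        field_simp
        ring)
  have h2 := (hasFDerivAt_snd (𝕜 := ℝ) (E := ℝ) (F := ℝ) (p := (x, Y x))).comp x key
  have h3 := h2.hasDerivAt
  refine (h3.congr_deriv ?_)
  simp [hA, hB]
  field_simp


theorem r_facts (l : ℝ) (x : ℝ) (hxb : x < bet l) :
    0 < Real.sqrt (bet l - x) ∧ bet l - Real.sqrt (bet l - x) ^ 2 = x := by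
  have h : 0 < bet l - x := by linarith
  refine ⟨Real.sqrt_pos.2 h, ?_⟩
  rw [Real.sq_sqrt h.le]
  ring

theorem r_mem (l : ℝ) (x : ℝ) (hx : 0 ≤ x) (hxb : x < bet l) :
    Real.sqrt (bet l - x) ∈ Ioc 0 (Real.sqrt (bet l)) :=
  ⟨(r_facts l x hxb).1, Real.sqrt_le_sqrt (by linarith)⟩

theorem tube_x (H : PathInputs) (l : ℝ) (h1 : (0.627834 : ℝ) < l) (h2 : l < (0.627835 : ℝ)) (x y : ℝ)
    (hx : 0 ≤ x) (hxb : x < bet l) (hy1 : ylo l x ≤ y) (hy2 : y ≤ yhi l x) :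
    0 < y ∧ 0 < er l x y ∧ -0.03 ≤ wlf (Real.sqrt (bet l - x)) ∧
      TanB (bet l) x y (Real.cos (nu l x y)) (Real.sin (nu l x y)) ∧
      0 < Real.cos (nu l x y) := by
  obtain ⟨hr, hrx⟩ := r_facts l x hxb
  obtain ⟨-, n2, n3, n4, n5, n6⟩ := tube_r H l h1 h2 (Real.sqrt (bet l - x)) y hr
    (by rw [Real.sq_sqrt (by linarith)]; linarith) hy1 hy2
  rw [hrx] at n4 n5 n6
  exact ⟨n2, n4, n3, n5, n6⟩

theorem ylo_lt_yhi (l : ℝ) (x : ℝ) (hxb : x < bet l) : ylo l x < yhi l x :=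
  mul_lt_mul_of_pos_left (rlo_lt_rhi _) (r_facts l x hxb).1

theorem Gf_strictMono (H : PathInputs) (l : ℝ) (h1 : (0.627834 : ℝ) < l) (h2 : l < (0.627835 : ℝ)) (x : ℝ)
    (hx : 0 ≤ x) (hxb : x < bet l) :
    StrictMonoOn (fun y => Gf l x y) (Icc (ylo l x) (yhi l x)) := by
  have hl : 0 < l := by linarith
  refine strictMonoOn_of_deriv_pos (convex_Icc _ _) ?_ ?_
  · intro y hy
    have := (tube_x H l h1 h2 x y hx hxb hy.1 hy.2).1
    exact (Gf_vert l hl x y this).continuousAt.continuousWithinAt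
  · intro y hy
    rw [interior_Icc] at hy
    obtain ⟨t1, t2, -⟩ := tube_x H l h1 h2 x y hx hxb hy.1.le hy.2.le
    rw [(Gf_vert l hl x y t1).deriv]
    positivity

theorem exists_zero (H : PathInputs) (l : ℝ) (h1 : (0.627834 : ℝ) < l) (h2 : l < (0.627835 : ℝ)) (x : ℝ)
    (hx : x ∈ Ico 0 (bet l)) : ∃ y ∈ Ioo (ylo l x) (yhi l x), Gf l x y = 0 := by
  have hl : 0 < l := by linarith
  have hlt := ylo_lt_yhi l x hx.2
  have hcont : ContinuousOn (fun y => Gf l x y) (Icc (ylo l x) (yhi l x)) := by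
    intro y hy
    have := (tube_x H l h1 h2 x y hx.1 hx.2 hy.1 hy.2).1
    exact (Gf_vert l hl x y this).continuousAt.continuousWithinAt
  have hlo := (fence_lo H l h1 h2 _ (r_mem l x hx.1 hx.2)).1
  have hhi := (fence_hi H l h1 h2 _ (r_mem l x hx.1 hx.2)).1
  rw [(r_facts l x hx.2).2] at hlo hhi
  obtain ⟨y, hy, hy0⟩ := intermediate_value_Ioo hlt.le hcont ⟨hlo, hhi⟩
  exact ⟨y, hy, hy0⟩

theorem ylo_cont (l : ℝ) : Continuous (ylo l) := by
  unfold ylo rlo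
  fun_prop

theorem yhi_cont (l : ℝ) : Continuous (yhi l) := by
  unfold yhi rhi
  fun_prop

theorem Y_cont (H : PathInputs) (l : ℝ) (h1 : (0.627834 : ℝ) < l) (h2 : l < (0.627835 : ℝ)) (Y : ℝ → ℝ)
    (hY : ∀ x ∈ Ico 0 (bet l), Y x ∈ Ioo (ylo l x) (yhi l x))
    (h0 : ∀ x ∈ Ico 0 (bet l), Gf l x (Y x) = 0) : ContinuousOn Y (Ico 0 (bet l)) := by
  have hl : 0 < l := by linarith
  intro x hx
  have hxY := hY x hx
  have hypos := tube_x H l h1 h2 x (ylo l x) hx.1 hx.2 le_rfl (ylo_lt_yhi l x hx.2).le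
  have key : ∀ a ∈ Icc (ylo l x) (yhi l x), 0 < a ∧ ContinuousAt (fun x => Gf l x a) x := by
    intro a ha
    have := (tube_x H l h1 h2 x a hx.1 hx.2 ha.1 ha.2).1
    exact ⟨this, (Gf_horiz l hl x a this).continuousAt⟩
  have hmono := Gf_strictMono H l h1 h2 x hx.1 hx.2
  refine (tendsto_order.2 ⟨fun a ha => ?_, fun a ha => ?_⟩)
  · -- lower
    obtain ⟨a', ha1, ha2⟩ := exists_between (max_lt ha hxY.1)
    have hlo : ylo l x < a' := lt_of_le_of_lt (le_max_right _ _) ha1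
    have ha' : a < a' := lt_of_le_of_lt (le_max_left _ _) ha1
    have hmem : a' ∈ Icc (ylo l x) (yhi l x) := ⟨hlo.le, (ha2.trans hxY.2).le⟩
    have hneg : Gf l x a' < 0 := by
      have := hmono hmem ⟨hxY.1.le, hxY.2.le⟩ ha2
      simpa [h0 x hx] using this
    have ev1 : ∀ᶠ z in 𝓝[Ico 0 (bet l)] x, Gf l z a' < 0 :=
      ((key a' hmem).2.continuousWithinAt).eventually (Iio_mem_nhds hneg)
    have ev2 : ∀ᶠ z in 𝓝[Ico 0 (bet l)] x, ylo l z < a' :=
      ((ylo_cont l).continuousAt.continuousWithinAt).eventually (Iio_mem_nhds hlo)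
    have ev3 : ∀ᶠ z in 𝓝[Ico 0 (bet l)] x, a' < yhi l z :=
      ((yhi_cont l).continuousAt.continuousWithinAt).eventually (Ioi_mem_nhds (ha2.trans hxY.2))
    filter_upwards [ev1, ev2, ev3, self_mem_nhdsWithin] with z e1 e2 e3 hz
    have hzY := hY z hz
    refine ha'.trans ?_
    have := (Gf_strictMono H l h1 h2 z hz.1 hz.2).lt_iff_lt (a := a') (b := Y z)
      ⟨e2.le, e3.le⟩ ⟨hzY.1.le, hzY.2.le⟩
    refine this.1 ?_
    simpa [h0 z hz] using e1
  · -- upper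
    obtain ⟨a', ha1, ha2⟩ := exists_between (lt_min ha hxY.2)
    have hhi : a' < yhi l x := lt_of_lt_of_le ha2 (min_le_right _ _)
    have ha' : a' < a := lt_of_lt_of_le ha2 (min_le_left _ _)
    have hmem : a' ∈ Icc (ylo l x) (yhi l x) := ⟨(hxY.1.trans ha1).le, hhi.le⟩
    have hpos : 0 < Gf l x a' := by
      have := hmono ⟨hxY.1.le, hxY.2.le⟩ hmem ha1
      simpa [h0 x hx] using this
    have ev1 : ∀ᶠ z in 𝓝[Ico 0 (bet l)] x, 0 < Gf l z a' :=
      ((key a' hmem).2.continuousWithinAt).eventually (Ioi_mem_nhds hpos)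
    have ev2 : ∀ᶠ z in 𝓝[Ico 0 (bet l)] x, ylo l z < a' :=
      ((ylo_cont l).continuousAt.continuousWithinAt).eventually (Iio_mem_nhds (hxY.1.trans ha1))
    have ev3 : ∀ᶠ z in 𝓝[Ico 0 (bet l)] x, a' < yhi l z :=
      ((yhi_cont l).continuousAt.continuousWithinAt).eventually (Ioi_mem_nhds hhi)
    filter_upwards [ev1, ev2, ev3, self_mem_nhdsWithin] with z e1 e2 e3 hz
    have hzY := hY z hz
    refine lt_trans ?_ ha'
    have := (Gf_strictMono H l h1 h2 z hz.1 hz.2).lt_iff_lt (a := Y z) (b := a')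
      ⟨hzY.1.le, hzY.2.le⟩ ⟨e2.le, e3.le⟩
    refine this.1 ?_
    simpa [h0 z hz] using e1

/-- lower bound for `Kf` in the tube -/
theorem w_lower (H : PathInputs) (l : ℝ) (h1 : (0.627834 : ℝ) < l) (h2 : l < (0.627835 : ℝ)) (x y : ℝ)
    (hx : x ∈ Icc (0:ℝ) 1.12) (hy : y ∈ Ioo (ylo l x) (yhi l x)) :
    -0.03 * er l x y ≤ Kf l x y := by
  have hl : 0 < l := by linarith
  obtain ⟨hb1, hb2⟩ := H.bet_bounds l h1 h2
  have hxb : x < bet l := by linarith [hx.2]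
  obtain ⟨hr, hrx⟩ := r_facts l x hxb
  set r := Real.sqrt (bet l - x) with hrdef
  have hr2 : r ^ 2 ≤ bet l := by linarith [hx.1]
  have hderiv : ∀ z ∈ Icc (ylo l x) y, HasDerivAt (fun y => Kf l x y + 0.03 * er l x y)
      (2 * l / NN x z * mE l x z * (z * (2 * x * z * Real.cos (nu l x z)
        + (x ^ 2 - z ^ 2 - 1) * Real.sin (nu l x z)) + 0.03 * (2 * x * z * Real.sin (nu l x z)
        - (x ^ 2 - z ^ 2 - 1) * Real.cos (nu l x z)))) z ∧
      0 < (2 * l / NN x z * mE l x z * (z * (2 * x * z * Real.cos (nu l x z)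
        + (x ^ 2 - z ^ 2 - 1) * Real.sin (nu l x z)) + 0.03 * (2 * x * z * Real.sin (nu l x z)
        - (x ^ 2 - z ^ 2 - 1) * Real.cos (nu l x z)))) := by
    intro z hz
    have hz2 : z ≤ yhi l x := hz.2.trans hy.2.le
    obtain ⟨t1, t2, t3, t4, t5⟩ := tube_x H l h1 h2 x z hx.1 hxb hz.1 hz2
    constructor
    · refine ((Kf_vert l hl x z t1).add ((er_vert l hl x z t1).const_mul 0.03)).congr_deriv ?_
      ring
    · have hn := (H.num_tube l (bet l) r z (Real.cos (nu l x z)) (Real.sin (nu l x z)) h1 h2 hb1 hb2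
        hr hr2 (by rw [hrx]; exact hx.2) hz.1 hz2 (by rw [hrx]; exact t4)).2.1
      rw [hrx] at hn
      have hN : 0 < NN x z := (alp_facts x z t1).2.2.1
      have hm : 0 < mE l x z := Real.exp_pos _
      have := mul_pos (mul_pos (div_pos (mul_pos two_pos hl) hN) hm) hn
      exact this
  have hmono : MonotoneOn (fun y => Kf l x y + 0.03 * er l x y) (Icc (ylo l x) y) := by
    refine monotoneOn_of_deriv_nonneg (convex_Icc _ _) ?_ ?_ ?_
    · intro z hz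
      exact (hderiv z hz).1.continuousAt.continuousWithinAt
    · intro z hz
      exact (hderiv z (interior_subset hz)).1.differentiableAt.differentiableWithinAt
    · intro z hz
      rw [(hderiv z (interior_subset hz)).1.deriv]
      exact (hderiv z (interior_subset hz)).2.le
  have hle := hmono (left_mem_Icc.2 hy.1.le) (right_mem_Icc.2 hy.1.le) hy.1.le
  have hf := (fence_lo H l h1 h2 r (r_mem l x hx.1 hxb)).2
  rw [hrx] at hf
  change 0 < Kf l x (ylo l x) - wlf r * er l x (ylo l x) at hf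
  obtain ⟨t1, t2, t3, t4, t5⟩ := tube_x H l h1 h2 x (ylo l x) hx.1 hxb le_rfl
    (ylo_lt_yhi l x hxb).le
  have h3 : 0 ≤ (wlf r + 0.03) * er l x (ylo l x) := mul_nonneg (by linarith) t2.le
  simp only at hle
  nlinarith

/-- upper bound for `Kf` in the tube -/
theorem w_upper (H : PathInputs) (l : ℝ) (h1 : (0.627834 : ℝ) < l) (h2 : l < (0.627835 : ℝ)) (x y : ℝ)
    (hx : x ∈ Icc (0:ℝ) 1.12) (hy : y ∈ Ioo (ylo l x) (yhi l x)) :
    Kf l x y ≤ (0.05 + 0.36 * x) * er l x y := by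
  have hl : 0 < l := by linarith
  obtain ⟨hb1, hb2⟩ := H.bet_bounds l h1 h2
  have hxb : x < bet l := by linarith [hx.2]
  obtain ⟨hr, hrx⟩ := r_facts l x hxb
  set r := Real.sqrt (bet l - x) with hrdef
  have hr2 : r ^ 2 ≤ bet l := by linarith [hx.1]
  set W := 0.05 + 0.36 * x with hW
  have hWw : whf r < W := by
    have := whf_lt r (bet l) hr hb1 hb2 hr2
    rw [hrx] at this
    exact this
  -- derivatives and bounds in the tube
  have htube : ∀ z ∈ Icc (ylo l x) (yhi l x), 0 < z ∧ 0 < NN x z ∧ 0 < mE l x z ∧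
      0 < er l x z ∧
      0 < 2 * x * z * Real.sin (nu l x z) - (x ^ 2 - z ^ 2 - 1) * Real.cos (nu l x z) ∧
      (yhi l x - ylo l x) * (2 * l) *
      (W * (2 * x * z * Real.sin (nu l x z) - (x ^ 2 - z ^ 2 - 1) * Real.cos (nu l x z))
        - z * (2 * x * z * Real.cos (nu l x z) + (x ^ 2 - z ^ 2 - 1) * Real.sin (nu l x z)))
      < (W - whf r) * NN x z * Real.cos (nu l x z) := by
    intro z hz
    obtain ⟨t1, t2, t3, t4, t5⟩ := tube_x H l h1 h2 x z hx.1 hxb hz.1 hz.2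
    have hn := (H.num_tube l (bet l) r z (Real.cos (nu l x z)) (Real.sin (nu l x z)) h1 h2 hb1 hb2
        hr hr2 (by rw [hrx]; exact hx.2) hz.1 hz.2 (by rw [hrx]; exact t4))
    rw [hrx] at hn
    exact ⟨t1, (alp_facts x z t1).2.2.1, Real.exp_pos _, t2, hn.1, hn.2.2⟩
  -- `er` is increasing
  have herm : MonotoneOn (fun y => er l x y) (Icc (ylo l x) (yhi l x)) := by
    refine monotoneOn_of_deriv_nonneg (convex_Icc _ _) ?_ ?_ ?_
    · intro z hz
      exact (er_vert l hl x z (htube z hz).1).continuousAt.continuousWithinAt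
    · intro z hz
      exact (er_vert l hl x z (htube z (interior_subset hz)).1).differentiableAt.differentiableWithinAt
    · intro z hz
      obtain ⟨q1, q2, q3, q4, q5, q6⟩ := htube z (interior_subset hz)
      rw [(er_vert l hl x z q1).deriv]
      exact (mul_pos (mul_pos (div_pos (mul_pos two_pos hl) q2) q3) q5).le
  -- mean value theorem on `[y, yhi]`
  have hcontK : ContinuousOn (fun y => Kf l x y - W * er l x y) (Icc y (yhi l x)) := by
    intro z hz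
    have hz' : z ∈ Icc (ylo l x) (yhi l x) := ⟨hy.1.le.trans hz.1, hz.2⟩
    exact ((Kf_vert l hl x z (htube z hz').1).sub
      ((er_vert l hl x z (htube z hz').1).const_mul W)).continuousAt.continuousWithinAt
  obtain ⟨z, hz, hzeq⟩ := exists_hasDerivAt_eq_slope (fun y => Kf l x y - W * er l x y)
    (fun z => 2 * l / NN x z * mE l x z * (z * (2 * x * z * Real.cos (nu l x z)
        + (x ^ 2 - z ^ 2 - 1) * Real.sin (nu l x z))) -
        W * (2 * l / NN x z * mE l x z * (2 * x * z * Real.sin (nu l x z)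
        - (x ^ 2 - z ^ 2 - 1) * Real.cos (nu l x z)))) hy.2 hcontK (by
      intro z hz
      have hz' : z ∈ Icc (ylo l x) (yhi l x) := ⟨hy.1.le.trans hz.1.le, hz.2.le⟩
      exact (Kf_vert l hl x z (htube z hz').1).sub
        ((er_vert l hl x z (htube z hz').1).const_mul W))
  have hz' : z ∈ Icc (ylo l x) (yhi l x) := ⟨hy.1.le.trans hz.1.le, hz.2.le⟩
  obtain ⟨q1, q2, q3, q4, q5, q6⟩ := htube z hz'
  set c := Real.cos (nu l x z)
  set s := Real.sin (nu l x z)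
  set Q := W * (2 * x * z * s - (x ^ 2 - z ^ 2 - 1) * c)
        - z * (2 * x * z * c + (x ^ 2 - z ^ 2 - 1) * s) with hQ
  have hd : 0 < yhi l x - y := by linarith [hy.2]
  rw [eq_div_iff hd.ne'] at hzeq
  have hzeq2 : Kf l x y - W * er l x y = Kf l x (yhi l x) - W * er l x (yhi l x)
      + 2 * l / NN x z * mE l x z * Q * (yhi l x - y) := by
    rw [hQ]
    linarith
  have hf := (fence_hi H l h1 h2 r (r_mem l x hx.1 hxb)).2
  rw [hrx] at hf
  change Kf l x (yhi l x) - whf r * er l x (yhi l x) < 0 at hf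
  have hmono := herm hz' (right_mem_Icc.2 (ylo_lt_yhi l x hxb).le) hz'.2
  simp only at hmono
  have hbound : 2 * l / NN x z * mE l x z * Q * (yhi l x - y) ≤
      (W - whf r) * er l x (yhi l x) := by
    have hWe : 0 ≤ (W - whf r) * er l x (yhi l x) :=
      mul_nonneg (by linarith) (q4.le.trans hmono)
    rcases le_or_gt Q 0 with hQ0 | hQ0
    · refine le_trans ?_ hWe
      have : 0 ≤ 2 * l / NN x z * mE l x z := by positivity
      exact mul_nonpos_of_nonpos_of_nonneg (mul_nonpos_of_nonneg_of_nonpos this hQ0) hd.le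
    · have e1 : 2 * l / NN x z * mE l x z * Q * (yhi l x - y) ≤
          2 * l / NN x z * mE l x z * Q * (yhi l x - ylo l x) := by
        refine mul_le_mul_of_nonneg_left (by linarith [hy.1]) ?_
        have : 0 ≤ 2 * l / NN x z * mE l x z := by positivity
        exact mul_nonneg this hQ0.le
      have e2 : 2 * l / NN x z * mE l x z * Q * (yhi l x - ylo l x) =
          ((yhi l x - ylo l x) * (2 * l) * Q) * (mE l x z / NN x z) := by
        field_simp
      have e3 : ((yhi l x - ylo l x) * (2 * l) * Q) * (mE l x z / NN x z) ≤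
          ((W - whf r) * NN x z * c) * (mE l x z / NN x z) :=
        mul_le_mul_of_nonneg_right q6.le (by positivity)
      have e4 : ((W - whf r) * NN x z * c) * (mE l x z / NN x z) = (W - whf r) * er l x z := by
        have : er l x z = mE l x z * c := rfl
        rw [this]
        field_simp
      have e5 : (W - whf r) * er l x z ≤ (W - whf r) * er l x (yhi l x) :=
        mul_le_mul_of_nonneg_left hmono (by linarith)
      linarith
  nlinarith

theorem path_exists (H : PathInputs) (l : ℝ) (h1 : (0.627834 : ℝ) < l) (h2 : l < (0.627835 : ℝ))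
    (_hB : Bnd l = 0) : ∃ Y : ℝ → ℝ, IsPath l Y := by
  classical
  have hl : 0 < l := by linarith
  obtain ⟨hb1, hb2⟩ := H.bet_bounds l h1 h2
  have hex : ∀ x : ℝ, ∃ y, x ∈ Ico 0 (bet l) → y ∈ Ioo (ylo l x) (yhi l x) ∧ Gf l x y = 0 := by
    intro x
    by_cases hx : x ∈ Ico 0 (bet l)
    · obtain ⟨y, hy, hy0⟩ := exists_zero H l h1 h2 x hx
      exact ⟨y, fun _ => ⟨hy, hy0⟩⟩
    · exact ⟨0, fun h => absurd h hx⟩
  choose Y hY using hex
  have hcont := Y_cont H l h1 h2 Y (fun x hx => (hY x hx).1) (fun x hx => (hY x hx).2)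
  have htube : ∀ x ∈ Ico 0 (bet l), 0 < Y x ∧ 0 < er l x (Y x) := by
    intro x hx
    obtain ⟨t1, t2, -⟩ := tube_x H l h1 h2 x (Y x) hx.1 hx.2 (hY x hx).1.1.le (hY x hx).1.2.le
    exact ⟨t1, t2⟩
  refine ⟨Y, ⟨fun x hx => (hY x hx).1.1, fun x hx => (hY x hx).1.2, fun x hx => (hY x hx).2,
    fun x hx => (htube x hx).1, fun x hx => (htube x hx).2, hcont, ?_, ?_, ?_⟩⟩
  · intro x hx
    have hx' : x ∈ Ico 0 (bet l) := ⟨hx.1.le, hx.2⟩
    have hnhds : Ico 0 (bet l) ∈ 𝓝 x := Ico_mem_nhds hx.1 hx.2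
    refine implicit_deriv l hl Y x (htube x hx').1 (htube x hx').2
      (hcont.continuousAt hnhds) ?_
    filter_upwards [hnhds] with z hz
    exact (hY z hz).2
  · intro x hx
    have hx' : x ∈ Ico 0 (bet l) := ⟨hx.1, by linarith [hx.2]⟩
    exact w_lower H l h1 h2 x (Y x) hx (hY x hx').1
  · intro x hx
    have hx' : x ∈ Ico 0 (bet l) := ⟨hx.1, by linarith [hx.2]⟩
    exact w_upper H l h1 h2 x (Y x) hx (hY x hx').1

end Pool.Agent.JohnC.PathCore
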