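import Pool.Agent.Lib_MP_1fe18a_an.SerMono

/-! Piece E1: the root of the series equation. -/

set_option autoImplicit false

open Complex Set Filter Topology MeasureTheory

namespace Pool.Agent.JohnC

theorem exp_le_of_quarter (x u : ℝ) (hu : 0 ≤ u) (hu1 : u ≤ 1) (hx : x ≤ 4 * u) (B : ℝ)
    (hB : (∑ m ∈ Finset.range 14, u ^ m / (m.factorial : ℝ) +
      u ^ 14 * (14 + 1) / ((Nat.factorial 14 : ℕ) * 14)) ^ 4 ≤ B) : Real.exp x ≤ B := by
  have h1 := Real.exp_bound' hu hu1 (n := 14) (by norm_num)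
  have h2 : Real.exp x ≤ Real.exp u ^ 4 := by
    rw [← Real.exp_nat_mul]
    exact Real.exp_le_exp.2 (by push_cast; linarith)
  refine h2.trans (le_trans ?_ hB)
  apply pow_le_pow_left₀ (Real.exp_pos _).le
  push_cast at h1 ⊢
  exact h1

theorem le_exp_of_quarter (x u : ℝ) (hu : 0 ≤ u) (hx : 4 * u ≤ x) (B : ℝ)
    (hB : B ≤ (∑ m ∈ Finset.range 14, u ^ m / (m.factorial : ℝ)) ^ 4) : B ≤ Real.exp x := by
  have h1 := Real.sum_le_exp_of_nonneg hu 14
  have h2 : Real.exp u ^ 4 ≤ Real.exp x := by
    rw [← Real.exp_nat_mul]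
    exact Real.exp_le_exp.2 (by push_cast; linarith)
  refine (hB.trans ?_).trans h2
  apply pow_le_pow_left₀ _ h1
  exact Finset.sum_nonneg fun i _ => by positivity

/-- upper bound for `q` -/
theorem q_lt_of (l B x : ℝ) (hx : x ≤ Real.pi / (2 * l)) (hB : 0 < B) (h : 1 / B < Real.exp x) :
    Real.exp (-(Real.pi / (2 * l))) < B := by
  have h1 : Real.exp x ≤ Real.exp (Real.pi / (2 * l)) := Real.exp_le_exp.2 hx
  rw [Real.exp_neg, inv_lt_comm₀ (Real.exp_pos _) hB, ← one_div]
  linarith

theorem lt_q_of (l B x : ℝ) (hx : Real.pi / (2 * l) ≤ x) (hB : 0 < B) (h : Real.exp x < 1 / B) :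
    B < Real.exp (-(Real.pi / (2 * l))) := by
  have h1 : Real.exp (Real.pi / (2 * l)) ≤ Real.exp x := Real.exp_le_exp.2 hx
  rw [Real.exp_neg, lt_inv_comm₀ hB (Real.exp_pos _), ← one_div]
  linarith

theorem x0_bounds : 2.50192937 ≤ Real.pi / (2 * 0.627834) ∧
    Real.pi / (2 * 0.627834) ≤ 2.50192938 := by
  have h1 := Real.pi_gt_d20
  have h2 := Real.pi_lt_d20
  constructor
  · rw [le_div_iff₀ (by norm_num)]
    refine le_trans ?_ h1.le
    norm_num
  · rw [div_le_iff₀ (by norm_num)]
    refine le_trans h2.le ?_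
    norm_num

theorem x1_bounds : 2.50192538 ≤ Real.pi / (2 * 0.627835) ∧
    Real.pi / (2 * 0.627835) ≤ 2.50192539 := by
  have h1 := Real.pi_gt_d20
  have h2 := Real.pi_lt_d20
  constructor
  · rw [le_div_iff₀ (by norm_num)]
    refine le_trans ?_ h1.le
    norm_num
  · rw [div_le_iff₀ (by norm_num)]
    refine le_trans h2.le ?_
    norm_num

theorem q0_hi : Real.exp (-(Real.pi / (2 * 0.627834))) < 0.0819268 := by
  apply q_lt_of _ _ _ x0_bounds.1 (by norm_num)
  have h := le_exp_of_quarter 2.50192937 0.6254823425 (by norm_num) (by norm_num)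
    (12.2060181) (by norm_num [Finset.sum_range_succ, Nat.factorial])
  refine lt_of_lt_of_le ?_ h
  norm_num

theorem q0_lo : 0.08192677 < Real.exp (-(Real.pi / (2 * 0.627834))) := by
  apply lt_q_of _ _ _ x0_bounds.2 (by norm_num)
  have h := exp_le_of_quarter 2.50192938 0.625482345 (by norm_num) (by norm_num) (by norm_num)
    (12.2060225) (by norm_num [Finset.sum_range_succ, Nat.factorial])
  refine lt_of_le_of_lt h ?_
  norm_num

theorem q1_hi : Real.exp (-(Real.pi / (2 * 0.627835))) < 0.08192711 := by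
  apply q_lt_of _ _ _ x1_bounds.1 (by norm_num)
  have h := le_exp_of_quarter 2.50192538 0.625481345 (by norm_num) (by norm_num)
    (12.205972) (by norm_num [Finset.sum_range_succ, Nat.factorial])
  refine lt_of_lt_of_le ?_ h
  norm_num

theorem q1_lo : 0.0819271 < Real.exp (-(Real.pi / (2 * 0.627835))) := by
  apply lt_q_of _ _ _ x1_bounds.2 (by norm_num)
  have h := exp_le_of_quarter 2.50192539 0.6254813475 (by norm_num) (by norm_num) (by norm_num)
    (12.2059731) (by norm_num [Finset.sum_range_succ, Nat.factorial])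
  refine lt_of_le_of_lt h ?_
  norm_num

/-! ### the values at the end points -/

theorem ser0_lt : SerS 0.627834 < 0.062006 := by
  have hs := serT_summable 0.627834 (by norm_num)
  have hq := q0_hi
  have hq0 := Real.exp_pos (-(Real.pi / (2 * 0.627834)))
  set q : ℝ := Real.exp (-(Real.pi / (2 * 0.627834))) with hqdef
  rw [SerS_eq, ← hs.sum_add_tsum_nat_add 8]
  have hg : Summable (fun k : ℕ => q ^ (k + 8 + 1)) := by
    have := summable_geometric_of_lt_one hq0.le (q_lt_one 0.627834 (by norm_num))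
    have h2 := (summable_nat_add_iff 9).2 this
    refine h2.congr fun k => ?_
    congr 1
  have htail : ∑' k : ℕ, serT 0.627834 (k + 8) ≤ 1 / 10 ^ 9 := by
    have h1 : ∑' k : ℕ, serT 0.627834 (k + 8) ≤ ∑' k : ℕ, q ^ (k + 8 + 1) :=
      ((summable_nat_add_iff 8).2 hs).tsum_le_tsum (fun k => serT_le _ _) hg
    have h2 : ∑' k : ℕ, q ^ (k + 8 + 1) = q ^ 9 * (1 - q)⁻¹ := by
      rw [← tsum_geometric_of_lt_one hq0.le (q_lt_one 0.627834 (by norm_num)), ← tsum_mul_left]
      congr 1
      funext k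
      rw [← pow_add]; congr 1; ring
    rw [h2] at h1
    refine h1.trans ?_
    have h3 : q ^ 9 ≤ (0.0819268 : ℝ) ^ 9 := pow_le_pow_left₀ hq0.le hq.le 9
    have h4 : (1 - q)⁻¹ ≤ 2 := by
      rw [inv_le_comm₀ (by linarith) (by norm_num)]
      linarith
    calc q ^ 9 * (1 - q)⁻¹ ≤ (0.0819268 : ℝ) ^ 9 * 2 := by
          apply mul_le_mul h3 h4 _ (by positivity)
          apply inv_nonneg.2; linarith
      _ ≤ 1 / 10 ^ 9 := by norm_num
  have hmain : ∑ k ∈ Finset.range 8, serT 0.627834 k ≤ 0.06200599 := by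
    have h1 : ∀ k ∈ Finset.range 8, serT 0.627834 k ≤
        ((k : ℝ) + 1) / (((k : ℝ) + 1) ^ 2 + 0.627834 ^ 2) * 0.0819268 ^ (k + 1) := by
      intro k _
      rw [serT_eq]
      apply mul_le_mul_of_nonneg_left _ (by positivity)
      exact pow_le_pow_left₀ hq0.le hq.le _
    refine (Finset.sum_le_sum h1).trans ?_
    norm_num [Finset.sum_range_succ]
  refine lt_of_le_of_lt (add_le_add hmain htail) ?_
  norm_num

theorem ser1_gt : 0.062006 < SerS 0.627835 := by
  have hs := serT_summable 0.627835 (by norm_num)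
  have hq := q1_lo
  set q : ℝ := Real.exp (-(Real.pi / (2 * 0.627835))) with hqdef
  have h1 : ∑ k ∈ Finset.range 8, serT 0.627835 k ≤ SerS 0.627835 :=
    hs.sum_le_tsum _ (fun k _ => serT_nonneg _ k)
  refine lt_of_lt_of_le ?_ h1
  have h2 : ∀ k ∈ Finset.range 8,
      ((k : ℝ) + 1) / (((k : ℝ) + 1) ^ 2 + 0.627835 ^ 2) * 0.0819271 ^ (k + 1) ≤
        serT 0.627835 k := by
    intro k _
    rw [serT_eq]
    apply mul_le_mul_of_nonneg_left _ (by positivity)
    exact pow_le_pow_left₀ (by norm_num) hq.le _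
  refine lt_of_lt_of_le ?_ (Finset.sum_le_sum h2)
  norm_num [Finset.sum_range_succ]

theorem pp0_gt : 0.062006 < Real.pi / (Real.exp (2 * Real.pi * 0.627834) - 1) := by
  have h1 := Real.pi_gt_d20
  have h2 := Real.pi_lt_d20
  have h3 : Real.exp (2 * Real.pi * 0.627834) ≤ 51.6659 := by
    refine exp_le_of_quarter _ 0.9861993411 (by norm_num) (by norm_num) ?_ _
      (by norm_num [Finset.sum_range_succ, Nat.factorial])
    refine le_trans (by nlinarith : 2 * Real.pi * 0.627834 ≤
      2 * 3.14159265358979323847 * 0.627834) ?_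
    norm_num
  have h4 : 1 < Real.exp (2 * Real.pi * 0.627834) := by
    rw [Real.one_lt_exp_iff]; positivity
  rw [lt_div_iff₀ (by linarith)]
  linarith

theorem pp1_lt : Real.pi / (Real.exp (2 * Real.pi * 0.627835) - 1) < 0.062006 := by
  have h1 := Real.pi_gt_d20
  have h2 := Real.pi_lt_d20
  have h3 : 51.666 ≤ Real.exp (2 * Real.pi * 0.627835) := by
    refine le_exp_of_quarter _ 0.98620091 (by norm_num) ?_ _
      (by norm_num [Finset.sum_range_succ, Nat.factorial])
    refine le_trans ?_ (by nlinarith : 2 * 3.14159265358979323846 * 0.627835 ≤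
      2 * Real.pi * 0.627835)
    norm_num
  rw [div_lt_iff₀ (by linarith)]
  linarith

theorem serS_continuousOn : ContinuousOn SerS (Icc (0.627834 : ℝ) 0.627835) := by
  have h0 : ∀ l ∈ Icc (0.627834 : ℝ) 0.627835, 0 < l ∧ l < 1 := by
    intro l hl
    constructor <;> linarith [hl.1, hl.2]
  have hu : Summable (fun k : ℕ => Real.exp (-1) ^ (k + 1)) := by
    have := summable_geometric_of_lt_one (Real.exp_pos (-1)).le
      (by rw [Real.exp_lt_one_iff]; norm_num)
    exact (summable_nat_add_iff 1).2 this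
  have : SerS = fun l => ∑' k : ℕ, serT l k := by
    funext l; rfl
  rw [this]
  refine continuousOn_tsum (fun k => ?_) hu ?_
  · unfold serT
    have hcont : ContinuousOn (fun l : ℝ => -(((k : ℝ) + 1) * Real.pi) / (2 * l))
        (Icc (0.627834 : ℝ) 0.627835) := by
      apply ContinuousOn.div continuousOn_const (by fun_prop)
      intro l hl
      have := (h0 l hl).1
      positivity
    have hcont2 : ContinuousOn (fun l : ℝ => ((k : ℝ) + 1) / (((k : ℝ) + 1) ^ 2 + l ^ 2))
        (Icc (0.627834 : ℝ) 0.627835) := by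
      apply ContinuousOn.div continuousOn_const (by fun_prop)
      intro l _
      positivity
    exact hcont2.mul (Real.continuous_exp.comp_continuousOn hcont)
  · intro k l hl
    have h1 := h0 l hl
    rw [Real.norm_eq_abs, abs_of_nonneg (serT_nonneg l k)]
    refine (serT_le l k).trans ?_
    apply pow_le_pow_left₀ (Real.exp_pos _).le
    apply Real.exp_le_exp.2
    have hpi := Real.pi_gt_three
    have : 1 ≤ Real.pi / (2 * l) := by
      rw [le_div_iff₀ (by linarith [h1.1])]
      linarith [h1.2]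
    linarith

theorem root_exists : ∃ l : ℝ, (0.627834 : ℝ) < l ∧ l < (0.627835 : ℝ) ∧ RootEq l := by
  set f : ℝ → ℝ := fun l => SerS l - Real.pi / (Real.exp (2 * Real.pi * l) - 1) with hf
  have hcont : ContinuousOn f (Icc (0.627834 : ℝ) 0.627835) := by
    refine serS_continuousOn.sub ?_
    apply ContinuousOn.div continuousOn_const (by fun_prop)
    intro l hl
    have h1 : 1 < Real.exp (2 * Real.pi * l) := by
      rw [Real.one_lt_exp_iff]
      have := hl.1
      have hpi := Real.pi_pos
      have hl0 : 0 < l := by linarith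
      positivity
    linarith
  have h0 : f 0.627834 < 0 := by
    have h1 := ser0_lt
    have h2 := pp0_gt
    simp only [hf]
    linarith
  have h1 : 0 < f 0.627835 := by
    have h1 := ser1_gt
    have h2 := pp1_lt
    simp only [hf]
    linarith
  obtain ⟨l, hl, hfl⟩ := intermediate_value_Ioo (by norm_num : (0.627834 : ℝ) ≤ 0.627835) hcont
    ⟨h0, h1⟩
  refine ⟨l, hl.1, hl.2, ?_⟩
  simp only [hf] at hfl
  unfold RootEq
  linarith

end Pool.Agent.JohnC
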