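import Pool.Agent.Lib_MP_1fe18a_an.Defs

/-! Piece E2: monotonicity of the series. -/

set_option autoImplicit false

open Complex Set Filter Topology MeasureTheory

namespace Pool.Agent.JohnC

/-- the terms of the series -/
noncomputable def serT (l : ℝ) (k : ℕ) : ℝ :=
  ((k : ℝ) + 1) / (((k : ℝ) + 1) ^ 2 + l ^ 2) *
          Real.exp (-(((k : ℝ) + 1) * Real.pi) / (2 * l))

theorem SerS_eq (l : ℝ) : SerS l = ∑' k : ℕ, serT l k := rfl

theorem serT_eq (l : ℝ) (k : ℕ) : serT l k =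
    ((k : ℝ) + 1) / (((k : ℝ) + 1) ^ 2 + l ^ 2) * Real.exp (-(Real.pi / (2 * l))) ^ (k + 1) := by
  unfold serT
  rw [← Real.exp_nat_mul]
  congr 2
  push_cast
  ring

theorem serT_nonneg (l : ℝ) (k : ℕ) : 0 ≤ serT l k := by
  unfold serT; positivity

theorem serT_le (l : ℝ) (k : ℕ) : serT l k ≤ Real.exp (-(Real.pi / (2 * l))) ^ (k + 1) := by
  rw [serT_eq]
  have hK : (1 : ℝ) ≤ (k : ℝ) + 1 := by
    have : (0 : ℝ) ≤ k := Nat.cast_nonneg k
    linarith
  have h1 : ((k : ℝ) + 1) / (((k : ℝ) + 1) ^ 2 + l ^ 2) ≤ 1 := by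
    rw [div_le_one (by positivity)]
    nlinarith [sq_nonneg l]
  have h2 : 0 ≤ Real.exp (-(Real.pi / (2 * l))) ^ (k + 1) := by positivity
  calc _ ≤ 1 * Real.exp (-(Real.pi / (2 * l))) ^ (k + 1) := mul_le_mul_of_nonneg_right h1 h2
    _ = _ := one_mul _

theorem q_lt_one (l : ℝ) (hl : 0 < l) : Real.exp (-(Real.pi / (2 * l))) < 1 := by
  rw [Real.exp_lt_one_iff]
  have : 0 < Real.pi / (2 * l) := by positivity
  linarith

theorem serT_summable (l : ℝ) (hl : 0 < l) : Summable (serT l) := by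
  have h1 : Summable (fun k : ℕ => Real.exp (-(Real.pi / (2 * l))) ^ (k + 1)) := by
    have := summable_geometric_of_lt_one (Real.exp_pos _).le (q_lt_one l hl)
    exact (summable_nat_add_iff 1).2 this
  exact Summable.of_nonneg_of_le (serT_nonneg l) (serT_le l) h1

theorem serT_mono (l l' : ℝ) (hl : 0 < l) (hll : l < l') (hl' : l' < 1) (k : ℕ) :
    serT l k ≤ serT l' k := by
  unfold serT
  set K : ℝ := (k : ℝ) + 1 with hK
  have hK1 : 1 ≤ K := by
    have : (0 : ℝ) ≤ k := Nat.cast_nonneg k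
    linarith
  have hl'0 : 0 < l' := hl.trans hll
  have hD : 0 < K ^ 2 + l ^ 2 := by positivity
  have hD' : 0 < K ^ 2 + l' ^ 2 := by positivity
  have hpi := Real.pi_gt_three
  -- the exponent inequality
  have hkey : (l' ^ 2 - l ^ 2) / (K ^ 2 + l ^ 2) ≤ -(K * Real.pi) / (2 * l') - -(K * Real.pi) / (2 * l) := by
    have e : -(K * Real.pi) / (2 * l') - -(K * Real.pi) / (2 * l) =
        K * Real.pi * (l' - l) / (2 * l * l') := by
      field_simp
      ring
    rw [e, div_le_div_iff₀ hD (by positivity)]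
    have h1 : (l' + l) * (2 * l * l') ≤ K * Real.pi * (K ^ 2 + l ^ 2) := by
      have h2 : (l' + l) * (2 * l * l') ≤ (1 + l) * (2 * l) := by
        have : (l' + l) * l' ≤ (1 + l) * 1 := by nlinarith
        nlinarith
      have h3 : 3 * (1 + l ^ 2) ≤ K * Real.pi * (K ^ 2 + l ^ 2) := by
        have h4 : 3 ≤ K * Real.pi := by nlinarith
        have h5 : 1 + l ^ 2 ≤ K ^ 2 + l ^ 2 := by nlinarith
        exact mul_le_mul h4 h5 (by positivity) (by linarith)
      nlinarith [sq_nonneg (l - 1)]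
    have h6 := mul_le_mul_of_nonneg_left h1 (by linarith : 0 ≤ l' - l)
    calc (l' ^ 2 - l ^ 2) * (2 * l * l') = (l' - l) * ((l' + l) * (2 * l * l')) := by ring
      _ ≤ (l' - l) * (K * Real.pi * (K ^ 2 + l ^ 2)) := h6
      _ = K * Real.pi * (l' - l) * (K ^ 2 + l ^ 2) := by ring
  have h1 : (K ^ 2 + l' ^ 2) / (K ^ 2 + l ^ 2) ≤
      Real.exp (-(K * Real.pi) / (2 * l') - -(K * Real.pi) / (2 * l)) := by
    have h2 := Real.add_one_le_exp ((l' ^ 2 - l ^ 2) / (K ^ 2 + l ^ 2))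
    have h3 := Real.exp_le_exp.2 hkey
    have e : (K ^ 2 + l' ^ 2) / (K ^ 2 + l ^ 2) = (l' ^ 2 - l ^ 2) / (K ^ 2 + l ^ 2) + 1 := by
      field_simp
      ring
    rw [e]
    linarith
  rw [Real.exp_sub, div_le_div_iff₀ hD (Real.exp_pos _)] at h1
  rw [div_mul_eq_mul_div, div_mul_eq_mul_div, div_le_div_iff₀ hD hD']
  have hK0 : 0 ≤ K := by linarith
  have := mul_le_mul_of_nonneg_left h1 hK0
  calc K * Real.exp (-(K * Real.pi) / (2 * l)) * (K ^ 2 + l' ^ 2)
      = K * ((K ^ 2 + l' ^ 2) * Real.exp (-(K * Real.pi) / (2 * l))) := by ring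
    _ ≤ K * (Real.exp (-(K * Real.pi) / (2 * l')) * (K ^ 2 + l ^ 2)) := this
    _ = _ := by ring

theorem ser_mono (l l' : ℝ) (hl : 0 < l) (hll : l < l') (hl' : l' < 1) :
    SerS l ≤ SerS l' ∧
      Real.pi / (Real.exp (2 * Real.pi * l') - 1) < Real.pi / (Real.exp (2 * Real.pi * l) - 1) := by
  constructor
  · rw [SerS_eq, SerS_eq]
    exact (serT_summable l hl).tsum_le_tsum (serT_mono l l' hl hll hl')
      (serT_summable l' (hl.trans hll))
  · have hpi := Real.pi_pos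
    have h1 : 1 < Real.exp (2 * Real.pi * l) := by
      rw [Real.one_lt_exp_iff]; positivity
    have h2 : Real.exp (2 * Real.pi * l) < Real.exp (2 * Real.pi * l') := by
      apply Real.exp_lt_exp.2
      exact mul_lt_mul_of_pos_left hll (by positivity)
    apply div_lt_div_of_pos_left hpi (by linarith) (by linarith)

end Pool.Agent.JohnC
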