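import Mathlib

/-! First order Taylor models with one noise symbol, scaled integers (scale 10^9), for kernel evaluation.
`TM.M X t v` says that the real number `v` is described by `X` at the parameter `t` (with |t| ≤ 1). -/

set_option autoImplicit false

namespace Pool.Agent.JohnC

structure TM where
  a : ℤ
  b : ℤ
  e : ℤ

namespace TM

def M (X : TM) (t v : ℝ) : Prop := |v * 1000000000 - (X.a + X.b * t)| ≤ X.e

/-- absolute value, cheap in the kernel -/
def ab (n : ℤ) : ℤ := Int.ofNat n.natAbs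

theorem ab_eq (n : ℤ) : ab n = |n| := (Int.abs_eq_natAbs n).symm

theorem isub (a b : ℤ) : Int.sub a b = a - b := rfl
theorem iadd (a b : ℤ) : Int.add a b = a + b := rfl
theorem ineg (a : ℤ) : Int.neg a = -a := rfl

/-- constant n / 10^9 -/
def k (n : ℤ) : TM := ⟨n, 0, 0⟩

/-- anything between (n-d) / 10^9 and (n+d) / 10^9 -/
def kk (n d : ℤ) : TM := ⟨n, 0, d⟩

def add (X Y : TM) : TM := ⟨Int.add X.a Y.a, Int.add X.b Y.b, Int.add X.e Y.e⟩
def sub (X Y : TM) : TM := ⟨Int.sub X.a Y.a, Int.sub X.b Y.b, Int.add X.e Y.e⟩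
def neg (X : TM) : TM := ⟨Int.neg X.a, Int.neg X.b, X.e⟩

def mul (X Y : TM) : TM :=
  ⟨Int.ediv (Int.add (Int.mul 2 (Int.mul X.a Y.a)) (Int.mul X.b Y.b)) 2000000000,
   Int.ediv (Int.add (Int.mul X.a Y.b) (Int.mul X.b Y.a)) 1000000000,
   Int.add (Int.ediv (Int.add (ab (Int.mul X.b Y.b)) (Int.mul 2
     (Int.add (Int.add (Int.mul Y.e (Int.add (ab X.a) (ab X.b)))
       (Int.mul X.e (Int.add (ab Y.a) (ab Y.b)))) (Int.mul X.e Y.e)))) 2000000000) 3⟩

def inv (X : TM) : TM :=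
  ⟨Int.ediv 1000000000000000000 X.a,
   Int.ediv (Int.neg (Int.mul 1000000000000000000 X.b)) (Int.mul X.a X.a),
   Int.add (Int.ediv (Int.mul 1000000000000000000
      (Int.add (Int.mul X.e X.a) (Int.mul (ab X.b) (Int.add (ab X.b) X.e))))
      (Int.mul (Int.mul X.a X.a) (Int.sub (Int.sub X.a (ab X.b)) X.e))) 3⟩

/-- certainly positive -/
def pos (X : TM) : Bool := decide (0 < Int.sub (Int.sub X.a (ab X.b)) X.e)
/-- certainly negative -/
def ngt (X : TM) : Bool := decide (Int.add (Int.add X.a (ab X.b)) X.e < 0)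
/-- certainly ≤ n / 10^9 -/
def le (X : TM) (n : ℤ) : Bool := decide (Int.add (Int.add X.a (ab X.b)) X.e ≤ n)

theorem M_k (n : ℤ) (t v : ℝ) (h : v * 1000000000 = n) : M (k n) t v := by
  simp [M, k, h]

theorem M_kk (n d : ℤ) (t v : ℝ) (h1 : (n:ℝ) - d ≤ v * 1000000000) (h2 : v * 1000000000 ≤ n + d) :
    M (kk n d) t v := by
  simp only [M, kk, Int.cast_zero, zero_mul, add_zero]
  rw [abs_le]; constructor <;> linarith

theorem M_var (a b : ℤ) (t v : ℝ) (h : v * 1000000000 = a + b * t) : M ⟨a, b, 0⟩ t v := by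
  simp [M, h]

theorem M_add {X Y : TM} {t v w : ℝ} (h1 : M X t v) (h2 : M Y t w) : M (add X Y) t (v + w) := by
  simp only [M, add, abs_le, iadd] at *
  push_cast
  constructor <;> linarith [h1.1, h1.2, h2.1, h2.2]

theorem M_sub {X Y : TM} {t v w : ℝ} (h1 : M X t v) (h2 : M Y t w) : M (sub X Y) t (v - w) := by
  simp only [M, sub, abs_le, iadd, isub] at *
  push_cast
  constructor <;> linarith [h1.1, h1.2, h2.1, h2.2]

theorem M_neg {X : TM} {t v : ℝ} (h1 : M X t v) : M (neg X) t (-v) := by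
  simp only [M, neg, abs_le, ineg] at *
  push_cast
  constructor <;> linarith [h1.1, h1.2]

theorem ediv_bound (n : ℤ) (d : ℤ) (hd : 0 < d) :
    ((n / d : ℤ) : ℝ) ≤ (n : ℝ) / d ∧ (n : ℝ) / d < ((n / d : ℤ) : ℝ) + 1 := by
  have hd' : (0:ℝ) < d := by exact_mod_cast hd
  have h1 : (n / d) * d ≤ n := Int.ediv_mul_le n hd.ne'
  have h2 : n < (n / d + 1) * d := Int.lt_ediv_add_one_mul_self n hd
  constructor
  · rw [le_div_iff₀ hd']; exact_mod_cast h1
  · rw [div_lt_iff₀ hd']; exact_mod_cast h2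

theorem mul_eq (X Y : TM) : mul X Y =
  ⟨(2 * (X.a * Y.a) + X.b * Y.b) / 2000000000,
   (X.a * Y.b + X.b * Y.a) / 1000000000,
   (|X.b * Y.b| + 2 * (Y.e * (|X.a| + |X.b|) + X.e * (|Y.a| + |Y.b|) + X.e * Y.e)) / 2000000000 + 3⟩ := by
  simp only [← ab_eq]; rfl

theorem inv_eq (X : TM) : inv X =
  ⟨1000000000000000000 / X.a,
   (-(1000000000000000000 * X.b)) / (X.a * X.a),
   (1000000000000000000 * (X.e * X.a + |X.b| * (|X.b| + X.e))) / (X.a * X.a * (X.a - |X.b| - X.e)) + 3⟩ := by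
  simp only [← ab_eq]; rfl

theorem e_nonneg {X : TM} {t v : ℝ} (h : M X t v) : (0:ℝ) ≤ X.e := le_trans (abs_nonneg _) h

theorem M_mul {X Y : TM} {t v w : ℝ} (ht : |t| ≤ 1) (h1 : M X t v) (h2 : M Y t w) :
    M (mul X Y) t (v * w) := by
  rw [mul_eq]
  obtain ⟨a, b, e⟩ := X
  obtain ⟨a', b', e'⟩ := Y
  simp only [M] at *
  have A := ediv_bound (2 * (a * a') + b * b') 2000000000 (by norm_num)
  have B := ediv_bound (a * b' + b * a') 1000000000 (by norm_num)
  have E := ediv_bound (|b * b'| + 2 * (e' * (|a| + |b|) + e * (|a'| + |b'|) + e * e')) 2000000000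
    (by norm_num)
  push_cast at A B E ⊢
  set δ := v * 1000000000 - (a + b * t) with hδ
  set δ' := w * 1000000000 - (a' + b' * t) with hδ'
  have hv : v = (a + b * t + δ) / 1000000000 := by rw [hδ]; ring
  have hw : w = (a' + b' * t + δ') / 1000000000 := by rw [hδ']; ring
  set A0 := (((2 * (a * a') + b * b') / 2000000000 : ℤ) : ℝ) with hA0
  set B0 := (((a * b' + b * a') / 1000000000 : ℤ) : ℝ) with hB0
  set E0 := (((|b * b'| + 2 * (e' * (|a| + |b|) + e * (|a'| + |b'|) + e * e')) / 2000000000 : ℤ) : ℝ)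
    with hE0
  have key : v * w * 1000000000 - (A0 + B0 * t) =
      ((b * b') * (t ^ 2 - 1 / 2) + δ * (a' + b' * t) + δ' * (a + b * t) + δ * δ') / 1000000000
      + ((2 * (a * a') + b * b') / 2000000000 - A0) + ((a * b' + b * a') / 1000000000 - B0) * t := by
    rw [hv, hw]; ring
  rw [key]
  have e0 : (0:ℝ) ≤ e := le_trans (abs_nonneg _) h1
  have e0' : (0:ℝ) ≤ e' := le_trans (abs_nonneg _) h2
  have ht2 : |t ^ 2 - 1 / 2| ≤ 1 / 2 := by
    have h3 : t ^ 2 ≤ 1 := by rw [← sq_abs]; nlinarith [abs_nonneg t]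
    rw [abs_le]; constructor <;> nlinarith [sq_nonneg t]
  have k1 : |(b:ℝ) * b' * (t ^ 2 - 1 / 2)| ≤ |(b:ℝ) * b'| * (1 / 2) := by
    rw [abs_mul]; exact mul_le_mul_of_nonneg_left ht2 (abs_nonneg _)
  have lin : ∀ p q : ℝ, |p + q * t| ≤ |p| + |q| := fun p q => by
    calc |p + q * t| ≤ |p| + |q * t| := abs_add_le _ _
      _ = |p| + |q| * |t| := by rw [abs_mul]
      _ ≤ |p| + |q| := by nlinarith [abs_nonneg q]
  have k2 : |δ * (a' + b' * t)| ≤ e * (|(a':ℝ)| + |(b':ℝ)|) := by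
    rw [abs_mul]; exact mul_le_mul h1 (lin _ _) (abs_nonneg _) e0
  have k3 : |δ' * (a + b * t)| ≤ e' * (|(a:ℝ)| + |(b:ℝ)|) := by
    rw [abs_mul]; exact mul_le_mul h2 (lin _ _) (abs_nonneg _) e0'
  have k4 : |δ * δ'| ≤ e * e' := by
    rw [abs_mul]; exact mul_le_mul h1 h2 (abs_nonneg _) e0
  have k5 : |((2 * ((a:ℝ) * a') + b * b') / 2000000000 - A0)| ≤ 1 := by
    rw [abs_le]; constructor <;> linarith [A.1, A.2]
  have k6 : |(((a:ℝ) * b' + b * a') / 1000000000 - B0) * t| ≤ 1 := by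
    rw [abs_mul]
    have : |((a:ℝ) * b' + b * a') / 1000000000 - B0| ≤ 1 := by
      rw [abs_le]; constructor <;> linarith [B.1, B.2]
    nlinarith [abs_nonneg (((a:ℝ) * b' + b * a') / 1000000000 - B0), abs_nonneg t]
  rw [abs_le] at k1 k2 k3 k4 k5 k6 ⊢
  constructor <;>
    linarith [k1.1, k1.2, k2.1, k2.2, k3.1, k3.2, k4.1, k4.2, k5.1, k5.2, k6.1, k6.2, E.1, E.2]

theorem pos_of {X : TM} {t v : ℝ} (ht : |t| ≤ 1) (h : M X t v) (hp : pos X = true) : 0 < v := by
  simp only [pos, decide_eq_true_eq, ab_eq, isub] at hp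
  have hp' : (0:ℝ) < X.a - |(X.b:ℝ)| - X.e := by exact_mod_cast hp
  simp only [M, abs_le] at h
  have hb : |(X.b:ℝ) * t| ≤ |(X.b:ℝ)| := by
    rw [abs_mul]; nlinarith [abs_nonneg (X.b:ℝ)]
  rw [abs_le] at hb
  nlinarith [h.1, h.2, hb.1, hb.2]

theorem neg_of {X : TM} {t v : ℝ} (ht : |t| ≤ 1) (h : M X t v) (hp : ngt X = true) : v < 0 := by
  simp only [ngt, decide_eq_true_eq, ab_eq, iadd] at hp
  have hp' : (X.a:ℝ) + |(X.b:ℝ)| + X.e < 0 := by exact_mod_cast hp
  simp only [M, abs_le] at h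
  have hb : |(X.b:ℝ) * t| ≤ |(X.b:ℝ)| := by
    rw [abs_mul]; nlinarith [abs_nonneg (X.b:ℝ)]
  rw [abs_le] at hb
  nlinarith [h.1, h.2, hb.1, hb.2]

theorem le_of {X : TM} {t v : ℝ} {n : ℤ} (ht : |t| ≤ 1) (h : M X t v) (hp : le X n = true) :
    v ≤ n / 1000000000 := by
  simp only [le, decide_eq_true_eq, ab_eq, iadd] at hp
  have hp' : (X.a:ℝ) + |(X.b:ℝ)| + X.e ≤ n := by exact_mod_cast hp
  simp only [M, abs_le] at h
  have hb : |(X.b:ℝ) * t| ≤ |(X.b:ℝ)| := by
    rw [abs_mul]; nlinarith [abs_nonneg (X.b:ℝ)]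
  rw [abs_le] at hb
  rw [le_div_iff₀ (by norm_num)]
  linarith [h.1, h.2, hb.1, hb.2]

theorem M_inv {X : TM} {t v : ℝ} (ht : |t| ≤ 1) (h : M X t v) (hp : pos X = true) :
    M (inv X) t v⁻¹ := by
  have hv : 0 < v := pos_of ht h hp
  rw [inv_eq]
  obtain ⟨a, b, e⟩ := X
  simp only [pos, decide_eq_true_eq, ab_eq, isub] at hp
  simp only [M] at *
  have e0 : (0:ℝ) ≤ e := le_trans (abs_nonneg _) h
  have e0' : (0:ℤ) ≤ e := by exact_mod_cast e0
  have ha : 0 < a := by have := abs_nonneg b; omega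
  have hm : 0 < a - |b| - e := hp
  have A := ediv_bound 1000000000000000000 a ha
  have B := ediv_bound (-(1000000000000000000 * b)) (a * a) (by positivity)
  have E := ediv_bound (1000000000000000000 * (e * a + |b| * (|b| + e))) (a * a * (a - |b| - e))
    (by positivity)
  push_cast at A B E ⊢
  have ha' : (0:ℝ) < a := by exact_mod_cast ha
  have hm' : (0:ℝ) < a - |(b:ℝ)| - e := by exact_mod_cast hm
  set A0 := ((1000000000000000000 / a : ℤ) : ℝ) with hA0
  set B0 := ((-(1000000000000000000 * b) / (a * a) : ℤ) : ℝ) with hB0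
  set E0 := ((1000000000000000000 * (e * a + |b| * (|b| + e)) / (a * a * (a - |b| - e)) : ℤ) : ℝ)
    with hE0
  set δ := v * 1000000000 - (a + b * t) with hδ
  set X := v * 1000000000 with hX
  have hXe : X = a + b * t + δ := by rw [hδ]; ring
  have hX0 : 0 < X := by positivity
  have hbt : |(b:ℝ) * t| ≤ |(b:ℝ)| := by
    rw [abs_mul]; nlinarith [abs_nonneg (b:ℝ)]
  have hXm : (a:ℝ) - |(b:ℝ)| - e ≤ X := by
    rw [hXe]
    have h1 := (abs_le.1 hbt).1
    have h2 := (abs_le.1 h).1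
    linarith
  have hvi : v⁻¹ * 1000000000 = 1000000000000000000 / X := by
    rw [hX]; field_simp; norm_num
  have key : v⁻¹ * 1000000000 - (A0 + B0 * t) =
      (-(1000000000000000000 * δ) * a + 1000000000000000000 * (b * t) * (b * t + δ)) / (a ^ 2 * X)
      + (1000000000000000000 / a - A0) + (-(1000000000000000000 * b) / (a * a) - B0) * t := by
    rw [hvi]
    have : δ = X - a - b * t := by rw [hXe]; ring
    rw [this]
    field_simp
    ring
  rw [key]
  have k1 : |(-(1000000000000000000 * δ) * a + 1000000000000000000 * (b * t) * (b * t + δ)) / (a ^ 2 * X)|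
      ≤ (1000000000000000000 * (e * a + |(b:ℝ)| * (|(b:ℝ)| + e))) / (a * a * (a - |(b:ℝ)| - e)) := by
    rw [abs_div, abs_of_pos (show (0:ℝ) < a ^ 2 * X by positivity)]
    have n1 : |-(1000000000000000000 * δ) * a + 1000000000000000000 * (b * t) * (b * t + δ)| ≤
        1000000000000000000 * (e * a + |(b:ℝ)| * (|(b:ℝ)| + e)) := by
      have s1 : |-(1000000000000000000 * δ) * a| ≤ 1000000000000000000 * (e * a) := by
        rw [abs_mul, abs_neg, abs_mul, abs_of_pos ha', abs_of_pos (show (0:ℝ) < 1000000000000000000 by norm_num)]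
        nlinarith [h]
      have s2 : |1000000000000000000 * ((b:ℝ) * t) * (b * t + δ)| ≤
          1000000000000000000 * (|(b:ℝ)| * (|(b:ℝ)| + e)) := by
        rw [abs_mul, abs_mul, abs_of_pos (show (0:ℝ) < 1000000000000000000 by norm_num), mul_assoc]
        have s3 : |(b:ℝ) * t + δ| ≤ |(b:ℝ)| + e := le_trans (abs_add_le _ _) (by linarith)
        have := mul_le_mul hbt s3 (abs_nonneg _) (abs_nonneg _)
        linarith
      calc _ ≤ |-(1000000000000000000 * δ) * a| + |1000000000000000000 * ((b:ℝ) * t) * (b * t + δ)| :=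
            abs_add_le _ _
        _ ≤ _ := by linarith
    have d1 : (a:ℝ) * a * (a - |(b:ℝ)| - e) ≤ a ^ 2 * X := by
      rw [pow_two]; exact mul_le_mul_of_nonneg_left hXm (by positivity)
    exact div_le_div₀ (by positivity) n1 (by positivity) d1
  have k5 : |((1000000000000000000:ℝ) / a - A0)| ≤ 1 := by
    rw [abs_le]; constructor <;> linarith [A.1, A.2]
  have k6 : |(-(1000000000000000000 * (b:ℝ)) / (a * a) - B0) * t| ≤ 1 := by
    rw [abs_mul]
    have : |-(1000000000000000000 * (b:ℝ)) / (a * a) - B0| ≤ 1 := by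
      rw [abs_le]; constructor <;> linarith [B.1, B.2]
    nlinarith [abs_nonneg (-(1000000000000000000 * (b:ℝ)) / (a * a) - B0), abs_nonneg t]
  rw [abs_le] at k1 k5 k6 ⊢
  constructor <;> linarith [k1.1, k1.2, k5.1, k5.2, k6.1, k6.2, E.1, E.2]

end TM

end Pool.Agent.JohnC
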