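import Pool.Agent.Lib_MP_1fe18a_an.Defs
import Pool.Agent.Lib_MP_1fe18a_an.TM

/-! Taylor model enclosure of tan nu from `TanB`. -/

set_option autoImplicit false

open Set

namespace Pool.Agent.JohnC

namespace TM

/-- Taylor model of (something between tlo s and thi s) -/
def tau (s : TM) : TM :=
  add (kk 627834500 500) (mul s (add (kk 291770500 500) (mul s (add (kk 221066000 1000)
  (mul s (add (kk 190436500 1500) (mul s (add (kk 173797500 1500) (mul s (add (kk 163786000 2000)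
  (mul s (add (kk 157484500 2500) (mul s (add (kk 153498000 3000) (mul s (add (kk 151070500 3500)
  (mul s (add (kk 149757000 4000) (mul s (add (kk 149276500 4500) (mul s (add (kk 149444000 5000)
  (mul s (add (kk 150131500 5500) (mul s (add (kk 151250000 6000)
  (mul s (kk 450000000 450000000))))))))))))))))))))))))))))

theorem M_tau {X : TM} {t s v : ℝ} (ht : |t| ≤ 1) (h : M X t s) (h1 : tlo s ≤ v) (h2 : v ≤ thi s) :
    M (tau X) t v := by
  -- v = (1-θ) tlo s + θ thi s
  obtain ⟨θ, hθ0, hθ1, hv⟩ : ∃ θ : ℝ, 0 ≤ θ ∧ θ ≤ 1 ∧ v = tlo s + θ * (thi s - tlo s) := by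
    rcases eq_or_lt_of_le (h1.trans h2) with he | hl
    · exact ⟨0, le_refl _, zero_le_one, by linarith⟩
    · refine ⟨(v - tlo s) / (thi s - tlo s), div_nonneg (by linarith) (by linarith), ?_, ?_⟩
      · rw [div_le_one (by linarith)]; linarith
      · have : thi s - tlo s ≠ 0 := by linarith
        field_simp; ring
  have hv' : v = (0.627834 + θ * 0.000001) + s * ((0.291770 + θ * 0.000001) + s * ((0.221065 + θ * 0.000002)
      + s * ((0.190435 + θ * 0.000003) + s * ((0.173796 + θ * 0.000003) + s * ((0.163784 + θ * 0.000004)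
      + s * ((0.157482 + θ * 0.000005) + s * ((0.153495 + θ * 0.000006) + s * ((0.151067 + θ * 0.000007)
      + s * ((0.149753 + θ * 0.000008) + s * ((0.149272 + θ * 0.000009) + s * ((0.149439 + θ * 0.000010)
      + s * ((0.150126 + θ * 0.000011) + s * ((0.151244 + θ * 0.000012) + s * (θ * 0.9)))))))))))))) := by
    rw [hv, tlo, thi]; ring
  rw [hv']
  unfold tau
  have c : ∀ (n d : ℤ) (w : ℝ), (n:ℝ) - d ≤ w * 1000000000 → w * 1000000000 ≤ n + d → M (kk n d) t w :=
    fun n d w a b => M_kk n d t w a b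
  refine M_add (c _ _ _ (by push_cast; linarith) (by push_cast; linarith)) (M_mul ht h ?_)
  refine M_add (c _ _ _ (by push_cast; linarith) (by push_cast; linarith)) (M_mul ht h ?_)
  refine M_add (c _ _ _ (by push_cast; linarith) (by push_cast; linarith)) (M_mul ht h ?_)
  refine M_add (c _ _ _ (by push_cast; linarith) (by push_cast; linarith)) (M_mul ht h ?_)
  refine M_add (c _ _ _ (by push_cast; linarith) (by push_cast; linarith)) (M_mul ht h ?_)
  refine M_add (c _ _ _ (by push_cast; linarith) (by push_cast; linarith)) (M_mul ht h ?_)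
  refine M_add (c _ _ _ (by push_cast; linarith) (by push_cast; linarith)) (M_mul ht h ?_)
  refine M_add (c _ _ _ (by push_cast; linarith) (by push_cast; linarith)) (M_mul ht h ?_)
  refine M_add (c _ _ _ (by push_cast; linarith) (by push_cast; linarith)) (M_mul ht h ?_)
  refine M_add (c _ _ _ (by push_cast; linarith) (by push_cast; linarith)) (M_mul ht h ?_)
  refine M_add (c _ _ _ (by push_cast; linarith) (by push_cast; linarith)) (M_mul ht h ?_)
  refine M_add (c _ _ _ (by push_cast; linarith) (by push_cast; linarith)) (M_mul ht h ?_)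
  refine M_add (c _ _ _ (by push_cast; linarith) (by push_cast; linarith)) (M_mul ht h ?_)
  refine M_add (c _ _ _ (by push_cast; linarith) (by push_cast; linarith)) (M_mul ht h ?_)
  exact c _ _ _ (by push_cast; linarith) (by push_cast; linarith)

/-- l -/
def tl : TM := kk 627834500 500
/-- b -/
def tb : TM := kk 1178475850 450

theorem M_tl (l t : ℝ) (h1 : (0.627834 : ℝ) < l) (h2 : l < (0.627835 : ℝ)) : M tl t l :=
  M_kk _ _ _ _ (by push_cast; linarith) (by push_cast; linarith)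

theorem M_tb (b t : ℝ) (h1 : (1.1784754 : ℝ) < b) (h2 : b < (1.1784763 : ℝ)) : M tb t b :=
  M_kk _ _ _ _ (by push_cast; linarith) (by push_cast; linarith)

end TM

theorem tlo_le_thi (s : ℝ) (hs : 0 ≤ s) : tlo s ≤ thi s := by
  have : thi s = tlo s + (0.000001 + s * (0.000001 + s * (0.000002 + s * (0.000003 + s * (0.000003
    + s * (0.000004 + s * (0.000005 + s * (0.000006 + s * (0.000007 + s * (0.000008 + s * (0.000009
    + s * (0.00001 + s * (0.000011 + s * (0.000012 + s * 0.9)))))))))))))) := by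
    rw [tlo, thi]; ring
  rw [this]
  have : 0 ≤ (0.000001 + s * (0.000001 + s * (0.000002 + s * (0.000003 + s * (0.000003
    + s * (0.000004 + s * (0.000005 + s * (0.000006 + s * (0.000007 + s * (0.000008 + s * (0.000009
    + s * (0.00001 + s * (0.000011 + s * (0.000012 + s * 0.9)))))))))))))) := by positivity
  linarith

/-- T regime -/
theorem T_of_TanB {b x y c s : ℝ} (h : TanB b x y c s) (hx : 0 ≤ x) (hu : uu x y ≤ 0.865) :
    ∃ τ : ℝ, tlo (uu x y * uu x y) ≤ τ ∧ τ ≤ thi (uu x y * uu x y) ∧ s = uu x y * τ * c := by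
  obtain ⟨hc, hs, h1, -⟩ := h
  obtain ⟨h2, h3⟩ := h1 hu
  rw [pow_two] at h2 h3
  have hu0 : 0 ≤ uu x y := by unfold uu; positivity
  rcases eq_or_lt_of_le hu0 with h0 | h0
  · refine ⟨tlo (uu x y * uu x y), le_refl _, tlo_le_thi _ (by positivity), ?_⟩
    rw [← h0] at h2 h3 ⊢
    nlinarith
  · refine ⟨s / (uu x y * c), ?_, ?_, ?_⟩
    · rw [le_div_iff₀ (by positivity)]; nlinarith
    · rw [div_le_iff₀ (by positivity)]; nlinarith
    · field_simp

/-- C regime -/
theorem C_of_TanB {b x y c s : ℝ} (h : TanB b x y c s) (hv0 : 0 < vv b x y) (hv : vv b x y ≤ 0.865) :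
    0 < s ∧ ∃ τ : ℝ, tlo (vv b x y * vv b x y) ≤ τ ∧ τ ≤ thi (vv b x y * vv b x y) ∧
      c = vv b x y * τ * s := by
  obtain ⟨hc, hs, -, h1⟩ := h
  obtain ⟨h2, h3⟩ := h1 hv
  rw [pow_two] at h2 h3
  have hs' : 0 < s := by
    rcases eq_or_lt_of_le hs with h0 | h0
    · rw [← h0] at h3; simp at h3; linarith
    · exact h0
  refine ⟨hs', c / (vv b x y * s), ?_, ?_, ?_⟩
  · rw [le_div_iff₀ (by positivity)]; nlinarith
  · rw [div_le_iff₀ (by positivity)]; nlinarith
  · field_simp

theorem vv_eq (b x y : ℝ) :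
    vv b x y = 2 * (b * (1 + x ^ 2 + y ^ 2) - x * (1 + b ^ 2)) /
      ((1 + b ^ 2) * (1 + x ^ 2 + y ^ 2) - 4 * b * x) := by
  have h1 : 1 + b ^ 2 ≠ 0 := by positivity
  have h2 : 1 + x ^ 2 + y ^ 2 ≠ 0 := by positivity
  have e4 : 1 - 2 * b / (1 + b ^ 2) * uu x y =
      ((1 + b ^ 2) * (1 + x ^ 2 + y ^ 2) - 4 * b * x) / ((1 + b ^ 2) * (1 + x ^ 2 + y ^ 2)) := by
    unfold uu
    rw [eq_div_iff (by positivity)]
    have a1 : 2 * b / (1 + b ^ 2) * (1 + b ^ 2) = 2 * b := div_mul_cancel₀ _ h1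
    have a2 : 2 * x / (1 + x ^ 2 + y ^ 2) * (1 + x ^ 2 + y ^ 2) = 2 * x := div_mul_cancel₀ _ h2
    linear_combination (-(2 * x)) * a1 - 2 * b / (1 + b ^ 2) * (1 + b ^ 2) * a2
  have e5 : 2 * b / (1 + b ^ 2) - uu x y =
      (2 * (b * (1 + x ^ 2 + y ^ 2) - x * (1 + b ^ 2))) / ((1 + b ^ 2) * (1 + x ^ 2 + y ^ 2)) := by
    unfold uu
    rw [eq_div_iff (by positivity)]
    have a1 : 2 * b / (1 + b ^ 2) * (1 + b ^ 2) = 2 * b := div_mul_cancel₀ _ h1
    have a2 : 2 * x / (1 + x ^ 2 + y ^ 2) * (1 + x ^ 2 + y ^ 2) = 2 * x := div_mul_cancel₀ _ h2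
    linear_combination (1 + x ^ 2 + y ^ 2) * a1 - (1 + b ^ 2) * a2
  unfold vv
  rw [e4, e5, div_div_div_cancel_right₀ (by positivity)]

end Pool.Agent.JohnC
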